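import Pool.Agent.T6.H90.SL.Defs

set_option autoImplicit false

/-! # Module A1: a poly-line drawing is a drawing by monotone curves -/

namespace Pool.Agent.T6.H90.SL

open Pool.Agent.T6.H90.Upward

namespace ModA1

lemma seg (a b : ℤ × ℤ) (h : a.2 < b.2) (z : ℝ × ℝ) :
    z ∈ segment ℝ (toPlane a) (toPlane b) ↔ z.2 ∈ Set.Icc (a.2 : ℝ) (b.2 : ℝ) ∧
      z.1 = a.1 + (z.2 - a.2) / (b.2 - a.2) * (b.1 - a.1) := by
  have hab : (a.2 : ℝ) < b.2 := by exact_mod_cast h
  have hd : (0 : ℝ) < b.2 - a.2 := by linarith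
  constructor
  · rintro ⟨s, t, hs, ht, hst, rfl⟩
    have e : s = 1 - t := by linarith
    subst e
    simp only [toPlane, Prod.smul_mk, Prod.mk_add_mk, smul_eq_mul]
    refine ⟨⟨by nlinarith, by nlinarith⟩, ?_⟩
    have e2 : ((1 - t) * (a.2 : ℝ) + t * b.2 - a.2) / (b.2 - a.2) = t := by
      rw [div_eq_iff hd.ne']; ring
    rw [e2]
    ring
  · rintro ⟨⟨h1, h2⟩, h3⟩
    refine ⟨1 - (z.2 - a.2) / (b.2 - a.2), (z.2 - a.2) / (b.2 - a.2), ?_, ?_, by ring, ?_⟩
    · rw [sub_nonneg, div_le_one hd]; linarith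
    · apply div_nonneg <;> linarith
    · simp only [toPlane, Prod.smul_mk, Prod.mk_add_mk, smul_eq_mul]
      apply Prod.ext
      · simp only
        rw [h3]; ring
      · simp only
        field_simp
        ring

lemma graph (l : List (ℤ × ℤ)) : ∀ a : ℤ × ℤ,
    List.IsChain (fun a b : ℤ × ℤ => a.2 < b.2) (a :: l) → ∃ X : ℝ → ℝ, Continuous X ∧
      (a.2 : ℝ) ≤ (l.getLastD a).2 ∧
      ∀ z : ℝ × ℝ, z ∈ chain (a :: l) ↔
        z.2 ∈ Set.Icc (a.2 : ℝ) ((l.getLastD a).2 : ℝ) ∧ z.1 = X z.2 := by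
  induction l with
  | nil =>
    intro a _
    refine ⟨fun _ => a.1, continuous_const, le_rfl, fun z => ?_⟩
    simp only [chain, Set.mem_singleton_iff, toPlane, List.getLastD_nil, Set.Icc_self]
    constructor
    · rintro rfl; simp
    · rintro ⟨h1, h2⟩; exact Prod.ext h2 h1
  | cons b l ih =>
    intro a h
    rw [List.isChain_cons_cons] at h
    obtain ⟨X, hX, hle, hz⟩ := ih b h.2
    have hab : (a.2 : ℝ) < b.2 := by exact_mod_cast h.1
    have hd : (0 : ℝ) < b.2 - a.2 := by linarith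
    have hb : X b.2 = b.1 := by
      have hb' : toPlane b ∈ chain (b :: l) := by
        cases l with
        | nil => simp [chain]
        | cons c l => exact Or.inl (left_mem_segment ℝ _ _)
      have := ((hz _).1 hb').2
      simpa [toPlane] using this.symm
    refine ⟨fun t => if t ≤ b.2 then a.1 + (t - a.2) / (b.2 - a.2) * (b.1 - a.1) else X t,
      ?_, ?_, fun z => ?_⟩
    · apply Continuous.if_le
      · fun_prop
      · exact hX
      · fun_prop
      · fun_prop
      · intro t ht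
        rw [ht, hb, div_self hd.ne']; ring
    · rw [List.getLastD_cons]; linarith
    · rw [chain, Set.mem_union, seg a b h.1, hz, List.getLastD_cons]
      simp only
      constructor
      · rintro (⟨⟨h1, h2⟩, h3⟩ | ⟨⟨h1, h2⟩, h3⟩)
        · exact ⟨⟨h1, by linarith⟩, by rw [if_pos h2]; exact h3⟩
        · refine ⟨⟨by linarith, h2⟩, ?_⟩
          split_ifs with h4
          · have e : z.2 = b.2 := le_antisymm h4 h1
            rw [h3, e, hb, div_self hd.ne']; ring
          · exact h3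
      · rintro ⟨⟨h1, h2⟩, h3⟩
        split_ifs at h3 with h4
        · exact Or.inl ⟨⟨h1, h4⟩, h3⟩
        · exact Or.inr ⟨⟨(not_le.1 h4).le, h2⟩, h3⟩

end ModA1

open ModA1 in
theorem a1 : StmtA1 := by
  intro V E ⟨D⟩
  have key : ∀ u v : V, ∃ X : ℝ → ℝ, E u v → Continuous X ∧
      ((D.pos u).2 : ℝ) ≤ (D.pos v).2 ∧
      ∀ z : ℝ × ℝ, z ∈ curve (D.pos u) (D.pos v) (D.bends u v) ↔
        z.2 ∈ Set.Icc ((D.pos u).2 : ℝ) ((D.pos v).2 : ℝ) ∧ z.1 = X z.2 := by
    intro u v
    by_cases h : E u v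
    · obtain ⟨X, h1, h2, h3⟩ := graph _ _ (D.upward u v h)
      refine ⟨X, fun _ => ?_⟩
      rw [List.getLastD_concat] at h2
      refine ⟨h1, h2, fun z => ?_⟩
      have := h3 z
      rw [List.getLastD_concat] at this
      exact this
    · exact ⟨fun _ => 0, fun h' => absurd h' h⟩
  choose X hX using key
  have hsrc : ∀ u v, E u v → toPlane (D.pos u) ∈ curve (D.pos u) (D.pos v) (D.bends u v) := by
    intro u v _
    unfold curve
    generalize D.bends u v = l
    cases l with
    | nil => exact Or.inl (left_mem_segment ℝ _ _)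
    | cons c l => exact Or.inl (left_mem_segment ℝ _ _)
  have hlast : ∀ (l : List (ℤ × ℤ)) (q : ℤ × ℤ) , ∀ p, toPlane q ∈ chain (p :: (l ++ [q])) := by
    intro l q
    induction l with
    | nil => intro p; exact Or.inl (right_mem_segment ℝ _ _)
    | cons c l ih => intro p; exact Or.inr (ih c)
  have hlt : ∀ (l : List (ℤ × ℤ)) (q : ℤ × ℤ), ∀ p,
      List.IsChain (fun a b : ℤ × ℤ => a.2 < b.2) (p :: (l ++ [q])) → p.2 < q.2 := by
    intro l q
    induction l with
    | nil => intro p h; exact (List.isChain_cons_cons.1 h).1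
    | cons c l ih =>
      intro p h
      have := List.isChain_cons_cons.1 h
      exact this.1.trans (ih c this.2)
  refine ⟨{
    px := fun u => ((D.pos u).1 : ℝ)
    py := fun u => ((D.pos u).2 : ℝ)
    X := X
    inj := ?_
    up := ?_
    cont := ?_
    X_src := ?_
    X_tgt := ?_
    vert := ?_
    cross := ?_ }⟩
  · intro u v h1 h2
    apply D.pos_injective
    exact Prod.ext (by exact_mod_cast h1) (by exact_mod_cast h2)
  · intro u v h
    have := hlt _ _ _ (D.upward u v h)
    exact_mod_cast this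
  · intro u v h
    exact (hX u v h).1.continuousOn
  · intro u v h
    have := ((hX u v h).2.2 _).1 (hsrc u v h)
    exact this.2.symm
  · intro u v h
    have := ((hX u v h).2.2 _).1 (hlast (D.bends u v) (D.pos v) (D.pos u))
    exact this.2.symm
  · intro u v w h h1 h2
    apply D.vertex_not_on_edge u v w h
    rw [(hX u v h).2.2]
    exact ⟨h1, h2.symm⟩
  · intro u v x y t huv hxy hne h1 h2 h3
    obtain ⟨w, hw1, hw2, hw3⟩ := D.planar u v x y huv hxy hne (X u v t, t)
      (((hX u v huv).2.2 _).2 ⟨h1, rfl⟩) (((hX x y hxy).2.2 _).2 ⟨h2, h3⟩)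
    exact ⟨w, hw1, hw2, congrArg Prod.snd hw3⟩

end Pool.Agent.T6.H90.SL
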