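import Pool.Agent.T6.H90.SL.Defs

set_option autoImplicit false

/-! # Module A2: a drawing by monotone curves gives a sweep -/

namespace Pool.Agent.T6.H90.SL

open Pool.Agent.T6.H90.Upward

namespace ModA2

lemma split2 {α : Type} (l : List α) (p : α → Prop) (h : l.Pairwise (fun a b => p b → p a)) :
    ∃ A B, l = A ++ B ∧ (∀ a ∈ A, p a) ∧ ∀ b ∈ B, ¬ p b := by
  induction l with
  | nil => exact ⟨[], [], rfl, by simp, by simp⟩
  | cons a l ih =>
    rw [List.pairwise_cons] at h
    obtain ⟨A, B, hAB, hA, hB⟩ := ih h.2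
    by_cases hp : p a
    · refine ⟨a :: A, B, by rw [hAB]; rfl, ?_, hB⟩
      intro x hx
      rcases List.mem_cons.1 hx with rfl | hx
      · exact hp
      · exact hA x hx
    · refine ⟨[], a :: l, rfl, by simp, ?_⟩
      intro x hx
      rcases List.mem_cons.1 hx with rfl | hx
      · exact hp
      · exact fun hpx => hp (h.1 x hx hpx)

lemma exists_sorted {α : Type} (R : α → α → Prop) (S : Finset α) :
    (∀ a ∈ S, ∀ b ∈ S, a ≠ b → R a b ∨ R b a) →
    (∀ a ∈ S, ∀ b ∈ S, ∀ c ∈ S, R a b → R b c → R a c) →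
    ∃ l : List α, l.Nodup ∧ (∀ x, x ∈ l ↔ x ∈ S) ∧ l.Pairwise R := by
  classical
  induction S using Finset.induction_on with
  | empty => intro _ _; exact ⟨[], List.nodup_nil, by simp, List.Pairwise.nil⟩
  | insert x S hx ih =>
    intro htot htr
    obtain ⟨l, hnd, hmem, hpw⟩ := ih
      (fun a ha b hb => htot a (Finset.mem_insert_of_mem ha) b (Finset.mem_insert_of_mem hb))
      (fun a ha b hb c hc => htr a (Finset.mem_insert_of_mem ha) b (Finset.mem_insert_of_mem hb)
        c (Finset.mem_insert_of_mem hc))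
    obtain ⟨A, B, hAB, hA, hB⟩ := split2 l (fun a => R a x) (by
      apply List.Pairwise.imp_of_mem _ hpw
      intro a b ha hb hab hbx
      exact htr a (Finset.mem_insert_of_mem ((hmem a).1 ha)) b
        (Finset.mem_insert_of_mem ((hmem b).1 hb)) x (Finset.mem_insert_self _ _) hab hbx)
    subst hAB
    have hxl : x ∉ A ++ B := fun h => hx ((hmem x).1 h)
    refine ⟨A ++ x :: B, ?_, ?_, ?_⟩
    · rw [List.nodup_middle, List.nodup_cons]
      exact ⟨hxl, hnd⟩
    · intro y
      have := hmem y
      simp only [List.mem_append, List.mem_cons, Finset.mem_insert] at this ⊢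
      tauto
    · rw [List.pairwise_append] at hpw ⊢
      obtain ⟨h1, h2, h3⟩ := hpw
      refine ⟨h1, ?_, ?_⟩
      · rw [List.pairwise_cons]
        refine ⟨fun b hb => ?_, h2⟩
        have hbS : b ∈ S := (hmem b).1 (List.mem_append_right _ hb)
        have hbx : x ≠ b := fun h => hx (h ▸ hbS)
        exact (htot x (Finset.mem_insert_self _ _) b (Finset.mem_insert_of_mem hbS)
          hbx).resolve_right (hB b hb)
      · intro a ha b hb
        rcases List.mem_cons.1 hb with rfl | hb
        · exact hA a ha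
        · exact h3 a ha b hb

variable {V : Type} {E : V → V → Prop}

/-- left of -/
def L (M : Mono E) (e f : V × V) : Prop :=
  ∃ t, t ∈ Set.Icc (M.py e.1) (M.py e.2) ∧ t ∈ Set.Icc (M.py f.1) (M.py f.2) ∧
    M.X e.1 e.2 t < M.X f.1 f.2 t

lemma meet (hB : IsBipartiteDAG E) (M : Mono E) {e f : V × V} (he : E e.1 e.2)
    (hf : E f.1 f.2) (hne : e ≠ f) {t : ℝ} (h1 : t ∈ Set.Icc (M.py e.1) (M.py e.2))
    (h2 : t ∈ Set.Icc (M.py f.1) (M.py f.2)) (heq : M.X e.1 e.2 t = M.X f.1 f.2 t) :
    (e.1 = f.1 ∧ t = M.py e.1) ∨ (e.2 = f.2 ∧ t = M.py e.2) := by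
  obtain ⟨A, hA⟩ := hB
  obtain ⟨w, hw1, hw2, ht⟩ := M.cross e.1 e.2 f.1 f.2 t he hf hne h1 h2 heq
  have a1 := hA _ _ he
  have a2 := hA _ _ hf
  rcases hw1 with rfl | rfl <;> rcases hw2 with h | h
  · exact Or.inl ⟨h, ht⟩
  · exact absurd a1.1 (h ▸ a2.2)
  · exact absurd a2.1 (h ▸ a1.2)
  · exact Or.inr ⟨h, ht⟩

lemma irr (M : Mono E) {e f : V × V} (h : L M e f) : e ≠ f := by
  rintro rfl
  obtain ⟨t, _, _, h3⟩ := h
  exact lt_irrefl _ h3

lemma le_of_L (hB : IsBipartiteDAG E) (M : Mono E) {e f : V × V} (he : E e.1 e.2)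
    (hf : E f.1 f.2) (h : L M e f) {t' : ℝ} (h1 : t' ∈ Set.Icc (M.py e.1) (M.py e.2))
    (h2 : t' ∈ Set.Icc (M.py f.1) (M.py f.2)) : M.X e.1 e.2 t' ≤ M.X f.1 f.2 t' := by
  by_contra hcon
  push Not at hcon
  have hne := irr M h
  obtain ⟨t, g1, g2, g3⟩ := h
  have se : Set.uIcc t t' ⊆ Set.Icc (M.py e.1) (M.py e.2) := Set.uIcc_subset_Icc g1 h1
  have sf : Set.uIcc t t' ⊆ Set.Icc (M.py f.1) (M.py f.2) := Set.uIcc_subset_Icc g2 h2
  have hc : ContinuousOn (fun s => M.X e.1 e.2 s - M.X f.1 f.2 s) (Set.uIcc t t') :=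
    ((M.cont _ _ he).mono se).sub ((M.cont _ _ hf).mono sf)
  have h0 : (0 : ℝ) ∈ Set.uIcc (M.X e.1 e.2 t - M.X f.1 f.2 t)
      (M.X e.1 e.2 t' - M.X f.1 f.2 t') :=
    Set.mem_uIcc.2 (Or.inl ⟨by linarith, by linarith⟩)
  obtain ⟨s, hs, hs0⟩ := intermediate_value_uIcc hc h0
  simp only at hs0
  have hst : s ≠ t := by rintro rfl; linarith
  have hst' : s ≠ t' := by rintro rfl; linarith
  have hmin : min t t' < s := by
    rcases le_total t t' with h | h
    · rw [min_eq_left h]
      rw [Set.uIcc_of_le h] at hs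
      exact lt_of_le_of_ne hs.1 hst.symm
    · rw [min_eq_right h]
      rw [Set.uIcc_of_ge h] at hs
      exact lt_of_le_of_ne hs.1 hst'.symm
  have hmax : s < max t t' := by
    rcases le_total t t' with h | h
    · rw [max_eq_right h]
      rw [Set.uIcc_of_le h] at hs
      exact lt_of_le_of_ne hs.2 hst'
    · rw [max_eq_left h]
      rw [Set.uIcc_of_ge h] at hs
      exact lt_of_le_of_ne hs.2 hst
  have k1 : M.py e.1 ≤ min t t' := le_min g1.1 h1.1
  have k2 : max t t' ≤ M.py e.2 := max_le g1.2 h1.2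
  rcases meet hB M he hf hne (se hs) (sf hs) (by linarith) with ⟨_, h⟩ | ⟨_, h⟩
  · linarith
  · linarith

lemma total (hB : IsBipartiteDAG E) (M : Mono E) {e f : V × V} (he : E e.1 e.2)
    (hf : E f.1 f.2) (hne : e ≠ f) {t : ℝ} (h1 : t ∈ Set.Icc (M.py e.1) (M.py e.2))
    (h2 : t ∈ Set.Icc (M.py f.1) (M.py f.2)) : L M e f ∨ L M f e := by
  have ue := M.up _ _ he
  have uf := M.up _ _ hf
  rcases lt_trichotomy (M.X e.1 e.2 t) (M.X f.1 f.2 t) with h | h | h
  · exact Or.inl ⟨t, h1, h2, h⟩
  · have hex : ∃ t1, t1 ∈ Set.Icc (M.py e.1) (M.py e.2) ∧ t1 ∈ Set.Icc (M.py f.1) (M.py f.2) ∧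
        M.X e.1 e.2 t1 ≠ M.X f.1 f.2 t1 := by
      rcases meet hB M he hf hne h1 h2 h with ⟨h3, h4⟩ | ⟨h3, h4⟩
      · have hf1 : M.py f.1 = M.py e.1 := by rw [h3]
        refine ⟨min (M.py e.2) (M.py f.2), ⟨le_min ue.le (by linarith), min_le_left _ _⟩,
          ⟨le_min (by linarith) uf.le, min_le_right _ _⟩, ?_⟩
        intro h5
        rcases meet hB M he hf hne (t := min (M.py e.2) (M.py f.2))
          ⟨le_min ue.le (by linarith), min_le_left _ _⟩
          ⟨le_min (by linarith) uf.le, min_le_right _ _⟩ h5 with ⟨_, h7⟩ | ⟨h6, _⟩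
        · have : M.py e.1 < min (M.py e.2) (M.py f.2) := lt_min ue (by linarith)
          linarith
        · exact hne (Prod.ext h3 h6)
      · have hf1 : M.py f.2 = M.py e.2 := by rw [h3]
        refine ⟨max (M.py e.1) (M.py f.1), ⟨le_max_left _ _, max_le ue.le (by linarith)⟩,
          ⟨le_max_right _ _, max_le (by linarith) uf.le⟩, ?_⟩
        intro h5
        rcases meet hB M he hf hne (t := max (M.py e.1) (M.py f.1))
          ⟨le_max_left _ _, max_le ue.le (by linarith)⟩
          ⟨le_max_right _ _, max_le (by linarith) uf.le⟩ h5 with ⟨h6, _⟩ | ⟨_, h7⟩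
        · exact hne (Prod.ext h6 h3)
        · have : max (M.py e.1) (M.py f.1) < M.py e.2 := max_lt ue (by linarith)
          linarith
    obtain ⟨t1, k1, k2, k3⟩ := hex
    rcases lt_or_gt_of_ne k3 with h | h
    · exact Or.inl ⟨t1, k1, k2, h⟩
    · exact Or.inr ⟨t1, k2, k1, h⟩
  · exact Or.inr ⟨t, h2, h1, h⟩

lemma trans' (hB : IsBipartiteDAG E) (M : Mono E) {e f g : V × V} (he : E e.1 e.2)
    (hf : E f.1 f.2) (hg : E g.1 g.2) {t : ℝ} (h1 : t ∈ Set.Icc (M.py e.1) (M.py e.2))
    (h2 : t ∈ Set.Icc (M.py f.1) (M.py f.2)) (h3 : t ∈ Set.Icc (M.py g.1) (M.py g.2))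
    (hef : L M e f) (hfg : L M f g) : L M e g := by
  have ue := M.up _ _ he
  have uf := M.up _ _ hf
  have ug := M.up _ _ hg
  have nef := irr M hef
  have nfg := irr M hfg
  by_contra hn
  have neg : e ≠ g := by
    rintro rfl
    obtain ⟨t', a1, a2, a3⟩ := hfg
    have := le_of_L hB M he hf hef a2 a1
    linarith
  have hge : L M g e := (total hB M he hg neg h1 h3).resolve_left hn
  have heq : ∀ s, s ∈ Set.Icc (M.py e.1) (M.py e.2) → s ∈ Set.Icc (M.py f.1) (M.py f.2) →
      s ∈ Set.Icc (M.py g.1) (M.py g.2) → M.X e.1 e.2 s = M.X f.1 f.2 s ∧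
      M.X f.1 f.2 s = M.X g.1 g.2 s := by
    intro s a1 a2 a3
    have b1 := le_of_L hB M he hf hef a1 a2
    have b2 := le_of_L hB M hf hg hfg a2 a3
    have b3 := le_of_L hB M hg he hge a3 a1
    exact ⟨by linarith, by linarith⟩
  obtain ⟨q1, q2⟩ := heq t h1 h2 h3
  rcases meet hB M he hf nef h1 h2 q1 with ⟨m1, m2⟩ | ⟨m1, m2⟩ <;>
    rcases meet hB M hf hg nfg h2 h3 q2 with ⟨m3, m4⟩ | ⟨m3, m4⟩
  · have e1 : M.py f.1 = M.py e.1 := by rw [m1]
    have e2 : M.py g.1 = M.py e.1 := by rw [← m3, m1]
    set s := min (M.py e.2) (min (M.py f.2) (M.py g.2)) with hs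
    have s1 : s ≤ M.py e.2 := min_le_left _ _
    have s2 : s ≤ M.py f.2 := (min_le_right _ _).trans (min_le_left _ _)
    have s3 : s ≤ M.py g.2 := (min_le_right _ _).trans (min_le_right _ _)
    have s0 : M.py e.1 < s := lt_min ue (lt_min (by linarith) (by linarith))
    have a1 : s ∈ Set.Icc (M.py e.1) (M.py e.2) := ⟨s0.le, s1⟩
    have a2 : s ∈ Set.Icc (M.py f.1) (M.py f.2) := ⟨by linarith, s2⟩
    have a3 : s ∈ Set.Icc (M.py g.1) (M.py g.2) := ⟨by linarith, s3⟩
    rcases meet hB M he hf nef a1 a2 (heq s a1 a2 a3).1 with ⟨_, h⟩ | ⟨h, _⟩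
    · linarith
    · exact nef (Prod.ext m1 h)
  · have e1 : M.py f.1 = M.py e.1 := by rw [m1]
    linarith
  · have e1 : M.py f.2 = M.py e.2 := by rw [m1]
    linarith
  · have e1 : M.py f.2 = M.py e.2 := by rw [m1]
    have e2 : M.py g.2 = M.py e.2 := by rw [← m3, m1]
    set s := max (M.py e.1) (max (M.py f.1) (M.py g.1)) with hs
    have s1 : M.py e.1 ≤ s := le_max_left _ _
    have s2 : M.py f.1 ≤ s := (le_max_left _ _).trans (le_max_right _ _)
    have s3 : M.py g.1 ≤ s := (le_max_right _ _).trans (le_max_right _ _)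
    have s0 : s < M.py e.2 := max_lt ue (max_lt (by linarith) (by linarith))
    have a1 : s ∈ Set.Icc (M.py e.1) (M.py e.2) := ⟨s1, s0.le⟩
    have a2 : s ∈ Set.Icc (M.py f.1) (M.py f.2) := ⟨s2, by linarith⟩
    have a3 : s ∈ Set.Icc (M.py g.1) (M.py g.2) := ⟨s3, by linarith⟩
    rcases meet hB M he hf nef a1 a2 (heq s a1 a2 a3).1 with ⟨h, _⟩ | ⟨_, h⟩
    · exact nef (Prod.ext h m1)
    · linarith

/-- the invariant of the sweep -/
structure Good (M : Mono E) (vs : List V) (act : List (V × V)) : Prop where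
  nodup : vs.Nodup
  low : ∀ u ∈ vs, ∀ v, v ∉ vs → M.py u ≤ M.py v
  sweep : Sweep E vs act
  mem : ∀ e, e ∈ act ↔ E e.1 e.2 ∧ e.1 ∈ vs ∧ e.2 ∉ vs
  pw : act.Pairwise (L M)

lemma step [Fintype V] (hB : IsBipartiteDAG E) (M : Mono E) (vs : List V) (act : List (V × V))
    (h : Good M vs act) (v : V) (hv : v ∉ vs) (hmin : ∀ w, w ∉ vs → M.py v ≤ M.py w) :
    ∃ act', Good M (v :: vs) act' := by
  classical
  have hlow : ∀ u ∈ v :: vs, ∀ w, w ∉ v :: vs → M.py u ≤ M.py w := by
    intro u hu w hw
    have hw' : w ∉ vs := fun h => hw (List.mem_cons_of_mem _ h)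
    rcases List.mem_cons.1 hu with rfl | hu
    · exact hmin w hw'
    · exact h.low u hu w hw'
  have hnd : (v :: vs).Nodup := List.nodup_cons.2 ⟨hv, h.nodup⟩
  have hact : ∀ e ∈ act, M.py v ∈ Set.Icc (M.py e.1) (M.py e.2) := by
    intro e he
    obtain ⟨_, e2, e3⟩ := (h.mem e).1 he
    exact ⟨h.low e.1 e2 v hv, hmin e.2 e3⟩
  have hvert : ∀ e ∈ act, M.X e.1 e.2 (M.py v) = M.px v → v = e.2 := by
    intro e he hx
    obtain ⟨e1, e2, e3⟩ := (h.mem e).1 he
    rcases M.vert e.1 e.2 v e1 (hact e he) hx with rfl | h'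
    · exact absurd e2 hv
    · exact h'
  have hLle : ∀ e ∈ act, ∀ f ∈ act, L M e f →
      M.X e.1 e.2 (M.py v) ≤ M.X f.1 f.2 (M.py v) := by
    intro e he f hf hL
    exact le_of_L hB M ((h.mem e).1 he).1 ((h.mem f).1 hf).1 hL (hact e he) (hact f hf)
  by_cases hin : ∃ u, E u v
  · -- a sink
    have hout : ∀ w, ¬ E v w := by
      obtain ⟨u, hu⟩ := hin
      obtain ⟨A, hA⟩ := hB
      intro w hw
      exact (hA _ _ hu).2 (hA _ _ hw).1
    obtain ⟨A, C, hAC, hA, hC⟩ := split2 act (fun e => M.X e.1 e.2 (M.py v) < M.px v) (by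
      apply List.Pairwise.imp_of_mem _ h.pw
      intro a b ha hb hab hbx
      exact (hLle a ha b hb hab).trans_lt hbx)
    have hpwC : C.Pairwise (L M) := by
      have := h.pw
      rw [hAC, List.pairwise_append] at this
      exact this.2.1
    have hCact : ∀ e ∈ C, e ∈ act := fun e he => by rw [hAC]; exact List.mem_append_right _ he
    have hAact : ∀ e ∈ A, e ∈ act := fun e he => by rw [hAC]; exact List.mem_append_left _ he
    obtain ⟨blk, B, hbB, hblk, hBB⟩ := split2 C (fun e => M.X e.1 e.2 (M.py v) ≤ M.px v) (by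
      apply List.Pairwise.imp_of_mem _ hpwC
      intro a b ha hb hab hbx
      exact (hLle a (hCact a ha) b (hCact b hb) hab).trans hbx)
    have hsplit : act = A ++ blk ++ B := by rw [hAC, hbB, List.append_assoc]
    have hblkact : ∀ e ∈ blk, e ∈ act := fun e he => by
      rw [hsplit]; exact List.mem_append_left _ (List.mem_append_right _ he)
    have hBact : ∀ e ∈ B, e ∈ act := fun e he => by
      rw [hsplit]; exact List.mem_append_right _ he
    have hinact : ∀ e : V × V, e.2 = v → E e.1 e.2 → e ∈ act := by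
      intro e h2 h1
      rw [h.mem]
      refine ⟨h1, ?_, by rw [h2]; exact hv⟩
      by_contra h3
      have h4 := hmin _ h3
      have h5 := M.up _ _ h1
      rw [h2] at h5
      linarith
    have hxv : ∀ e : V × V, e.2 = v → E e.1 e.2 → M.X e.1 e.2 (M.py v) = M.px v := by
      intro e h2 h1
      have := M.X_tgt _ _ h1
      rw [h2] at this ⊢
      exact this
    have hblkmem : ∀ e, e ∈ blk ↔ e.2 = v ∧ E e.1 e.2 := by
      intro e
      constructor
      · intro he
        have h1 := hblk e he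
        have h2 := hC e (by rw [hbB]; exact List.mem_append_left _ he)
        simp only [not_lt] at h2
        exact ⟨(hvert e (hblkact e he) (le_antisymm h1 h2)).symm,
          ((h.mem e).1 (hblkact e he)).1⟩
      · rintro ⟨h2, h1⟩
        have h3 := hinact e h2 h1
        have h4 := hxv e h2 h1
        rw [hsplit, List.mem_append, List.mem_append] at h3
        rcases h3 with (h3 | h3) | h3
        · exact absurd (hA e h3) (by rw [h4]; exact lt_irrefl _)
        · exact h3
        · exact absurd h4.le (hBB e h3)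
    have hpw3 := h.pw
    rw [hsplit] at hpw3
    have hsub : (A ++ B).Sublist (A ++ blk ++ B) := by
      rw [List.append_assoc]
      exact List.Sublist.append_left (List.sublist_append_right _ _) _
    refine ⟨A ++ B, hnd, hlow, ?_, ?_, List.Pairwise.sublist hsub hpw3⟩
    · apply Sweep.snk v vs A B blk
      · rw [← hsplit]; exact h.sweep
      · exact hv
      · have hs : blk.Sublist (A ++ blk ++ B) := by
          rw [List.append_assoc]
          exact (List.sublist_append_left _ _).trans (List.sublist_append_right _ _)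
        have h1 : blk.Pairwise (L M) := List.Pairwise.sublist hs hpw3
        exact h1.imp (fun hab => irr M hab)
      · obtain ⟨u, hu⟩ := hin
        exact List.ne_nil_of_mem ((hblkmem (u, v)).2 ⟨rfl, hu⟩)
      · exact hblkmem
      · exact hout
    · intro e
      constructor
      · intro he
        have he' : e ∈ act := by
          rcases List.mem_append.1 he with h1 | h1
          · exact hAact e h1
          · exact hBact e h1
        obtain ⟨e1, e2, e3⟩ := (h.mem e).1 he'
        refine ⟨e1, List.mem_cons_of_mem _ e2, ?_⟩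
        intro h4
        rcases List.mem_cons.1 h4 with h5 | h5
        · have h6 := hxv e h5 e1
          rcases List.mem_append.1 he with h1 | h1
          · exact absurd (hA e h1) (by rw [h6]; exact lt_irrefl _)
          · exact absurd h6.le (hBB e h1)
        · exact e3 h5
      · rintro ⟨e1, e2, e3⟩
        have e4 : e.1 ∈ vs := by
          rcases List.mem_cons.1 e2 with h5 | h5
          · exact absurd (h5 ▸ e1) (hout _)
          · exact h5
        have e5 : e ∈ act := (h.mem e).2 ⟨e1, e4, fun h5 => e3 (List.mem_cons_of_mem _ h5)⟩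
        rw [hsplit, List.mem_append, List.mem_append] at e5
        rw [List.mem_append]
        rcases e5 with (h3 | h3) | h3
        · exact Or.inl h3
        · exact absurd (by rw [((hblkmem e).1 h3).1]; exact List.mem_cons_self) e3
        · exact Or.inr h3
  · -- a source
    push Not at hin
    obtain ⟨A, B, hAB, hA, hBB⟩ := split2 act (fun e => M.X e.1 e.2 (M.py v) < M.px v) (by
      apply List.Pairwise.imp_of_mem _ h.pw
      intro a b ha hb hab hbx
      exact (hLle a ha b hb hab).trans_lt hbx)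
    have hAact : ∀ e ∈ A, e ∈ act := fun e he => by rw [hAB]; exact List.mem_append_left _ he
    have hBact : ∀ e ∈ B, e ∈ act := fun e he => by rw [hAB]; exact List.mem_append_right _ he
    have hI : ∀ e : V × V, e.1 = v → E e.1 e.2 →
        M.py v ∈ Set.Icc (M.py e.1) (M.py e.2) ∧ M.X e.1 e.2 (M.py v) = M.px v := by
      intro e h1 h2
      have h3 := M.up _ _ h2
      have h4 := M.X_src _ _ h2
      rw [h1] at h3 h4 ⊢
      exact ⟨⟨le_rfl, h3.le⟩, h4⟩
    obtain ⟨new, hnnd, hnmem, hnpw⟩ := exists_sorted (L M)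
      (Finset.univ.filter (fun e : V × V => e.1 = v ∧ E e.1 e.2))
      (by
        intro a ha b hb hab
        simp only [Finset.mem_filter, Finset.mem_univ, true_and] at ha hb
        exact total hB M ha.2 hb.2 hab (hI a ha.1 ha.2).1 (hI b hb.1 hb.2).1)
      (by
        intro a ha b hb c hc hab hbc
        simp only [Finset.mem_filter, Finset.mem_univ, true_and] at ha hb hc
        exact trans' hB M ha.2 hb.2 hc.2 (hI a ha.1 ha.2).1 (hI b hb.1 hb.2).1
          (hI c hc.1 hc.2).1 hab hbc)
    have hnmem' : ∀ e, e ∈ new ↔ e.1 = v ∧ E e.1 e.2 := by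
      intro e
      rw [hnmem]
      simp
    have hpw3 := h.pw
    rw [hAB, List.pairwise_append] at hpw3
    refine ⟨A ++ new ++ B, hnd, hlow, ?_, ?_, ?_⟩
    · apply Sweep.src v vs A B new
      · rw [← hAB]; exact h.sweep
      · exact hv
      · exact hnnd
      · exact hnmem'
      · exact hin
    · intro e
      rw [List.mem_append, List.mem_append]
      constructor
      · intro he
        have hcase : e ∈ act ∨ e ∈ new := by
          rcases he with (h1 | h1) | h1
          · exact Or.inl (hAact e h1)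
          · exact Or.inr h1
          · exact Or.inl (hBact e h1)
        rcases hcase with h1 | h1
        · obtain ⟨e1, e2, e3⟩ := (h.mem e).1 h1
          refine ⟨e1, List.mem_cons_of_mem _ e2, ?_⟩
          intro h4
          rcases List.mem_cons.1 h4 with h5 | h5
          · exact hin _ (h5 ▸ e1)
          · exact e3 h5
        · obtain ⟨e1, e2⟩ := (hnmem' e).1 h1
          have hup := M.up _ _ e2
          refine ⟨e2, by rw [e1]; exact List.mem_cons_self, ?_⟩
          intro h4
          rcases List.mem_cons.1 h4 with h5 | h5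
          · rw [h5, e1] at hup
            exact lt_irrefl _ hup
          · have := h.low _ h5 v hv
            rw [e1] at hup
            linarith
      · rintro ⟨e1, e2, e3⟩
        rcases List.mem_cons.1 e2 with h5 | h5
        · exact Or.inl (Or.inr ((hnmem' e).2 ⟨h5, e1⟩))
        · have e5 : e ∈ act := (h.mem e).2 ⟨e1, h5, fun h5 => e3 (List.mem_cons_of_mem _ h5)⟩
          rw [hAB, List.mem_append] at e5
          tauto
    · rw [List.pairwise_append, List.pairwise_append]
      refine ⟨⟨hpw3.1, hnpw, ?_⟩, hpw3.2.1, ?_⟩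
      · intro a ha e he
        obtain ⟨e1, e2⟩ := (hnmem' e).1 he
        obtain ⟨i1, i2⟩ := hI e e1 e2
        refine ⟨M.py v, hact a (hAact a ha), i1, ?_⟩
        rw [i2]
        exact hA a ha
      · intro a ha b hb
        rcases List.mem_append.1 ha with ha | ha
        · exact hpw3.2.2 a ha b hb
        · obtain ⟨e1, e2⟩ := (hnmem' a).1 ha
          obtain ⟨i1, i2⟩ := hI a e1 e2
          refine ⟨M.py v, i1, hact b (hBact b hb), ?_⟩
          rw [i2]
          have h1 := hBB b hb
          simp only [not_lt] at h1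
          apply lt_of_le_of_ne h1
          intro h6
          have h7 := hvert b (hBact b hb) h6.symm
          exact hin _ (h7 ▸ ((h.mem b).1 (hBact b hb)).1)

end ModA2

open ModA2 in
theorem a2 : StmtA2 := by
  classical
  intro V _ E hB ⟨M⟩
  have key : ∀ n : ℕ, n ≤ Fintype.card V → ∃ vs act, vs.length = n ∧ Good M vs act := by
    intro n
    induction n with
    | zero =>
      intro _
      exact ⟨[], [], rfl, List.nodup_nil, by simp, Sweep.nil, by simp, List.Pairwise.nil⟩
    | succ n ih =>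
      intro hn
      obtain ⟨vs, act, hlen, hgood⟩ := ih (by omega)
      have hne : (Finset.univ.filter (fun v => v ∉ vs)).Nonempty := by
        by_contra hemp
        rw [Finset.not_nonempty_iff_eq_empty, Finset.filter_eq_empty_iff] at hemp
        have h1 : Fintype.card V ≤ vs.toFinset.card := by
          rw [← Finset.card_univ]
          apply Finset.card_le_card
          intro x _
          have := hemp (Finset.mem_univ x)
          push Not at this
          exact List.mem_toFinset.2 this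
        have h2 := List.toFinset_card_le vs
        omega
      obtain ⟨v, hv, hmin⟩ := Finset.exists_min_image _ M.py hne
      simp only [Finset.mem_filter, Finset.mem_univ, true_and] at hv hmin
      obtain ⟨act', h'⟩ := step hB M vs act hgood v hv hmin
      exact ⟨v :: vs, act', by simp [hlen], h'⟩
  obtain ⟨vs, act, hlen, hgood⟩ := key _ le_rfl
  have hall : ∀ v, v ∈ vs := by
    intro v
    have h1 : vs.toFinset = Finset.univ := by
      apply Finset.eq_univ_of_card
      rw [List.toFinset_card_of_nodup hgood.nodup, hlen]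
    rw [← List.mem_toFinset, h1]
    exact Finset.mem_univ v
  have hact : act = [] := by
    rw [List.eq_nil_iff_forall_not_mem]
    intro e he
    exact ((hgood.mem e).1 he).2.2 (hall _)
  refine ⟨vs, hgood.nodup, hall, ?_⟩
  rw [← hact]
  exact hgood.sweep

end Pool.Agent.T6.H90.SL
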