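import Pool.Agent.T6.H90.SL.BC

/-!
# Growing an edge with a new white end (module B1)
-/

set_option autoImplicit false

namespace Pool.Agent.T6.H90.SL

open ModBC

theorem b1 : StmtB1 := by
  intro B W F D _ _ _ _ H O₀ O₁ e hO
  classical
  have hφ : ∀ z, (oc H.ω * ins H.β e) z = ins (H.ω * H.β) e z := by
    rintro (_ | d)
    · rw [Equiv.Perm.mul_apply, ins_none, ins_none, oc_s]; rfl
    · by_cases hd : d = e
      · subst hd
        rw [Equiv.Perm.mul_apply, ins_self, ins_self, oc_n]
      · rw [Equiv.Perm.mul_apply, ins_ne _ _ hd, ins_ne _ _ hd, oc_s]; rfl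
  have hφ' : oc H.ω * ins H.β e = ins (H.ω * H.β) e := Equiv.ext hφ
  refine ⟨{ β := ins H.β e, ω := oc H.ω, b := fun z => H.b (rho e z), w := Option.map H.w,
            f := fun z => H.f (rho e z), b_surj := ?_, w_surj := ?_, f_surj := ?_, b_iff := ?_,
            w_iff := ?_, f_iff := ?_, conn := ?_, euler := ?_, simple := ?_ },
    fun _ => rfl, fun _ => rfl, rfl, rfl, rfl, ?_, ?_⟩
  · intro x
    obtain ⟨d, rfl⟩ := H.b_surj x
    exact ⟨some d, rfl⟩
  · rintro (_ | x)
    · exact ⟨none, rfl⟩
    · obtain ⟨d, rfl⟩ := H.w_surj x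
      exact ⟨some d, rfl⟩
  · intro x
    obtain ⟨d, rfl⟩ := H.f_surj x
    exact ⟨some d, rfl⟩
  · intro d d'
    rw [ins_same]
    exact H.b_iff _ _
  · intro d d'
    exact oc_iff H.ω H.w H.w_iff d d'
  · intro d d'
    rw [hφ', ins_same]
    exact H.f_iff _ _
  · intro P hP1 hP2
    have hn : P none → P (some e) := by
      intro h
      refine closed_of_same (ins H.β e) P hP1 ?_ h
      refine Equiv.Perm.SameCycle.symm ?_
      have := same_step (ins H.β e) (some e)
      rwa [ins_self] at this
    have hs : P (some e) → P none := by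
      intro h
      have := hP1 _ h
      rwa [ins_self] at this
    have h1 : ∀ d, P (some d) → P (some (H.β d)) := by
      intro d hd
      by_cases h : d = e
      · subst h
        have := hP1 _ (hs hd)
        rwa [ins_none] at this
      · have := hP1 _ hd
        rwa [ins_ne _ _ h] at this
    have h2 : ∀ d, P (some d) → P (some (H.ω d)) := fun d hd => hP2 _ hd
    have h3 := H.conn (fun d => P (some d)) h1 h2
    rintro (_ | d) (_ | d')
    · exact fun h => h
    · exact fun h => h3 e d' (hn h)
    · exact fun h => hs (h3 d e h)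
    · exact h3 d d'
  · have := H.euler
    rw [Fintype.card_option, Fintype.card_option]
    omega
  · rintro (_ | d) (_ | d') hb hw
    · rfl
    · simp at hw
    · simp at hw
    · exact congrArg some (H.simple d d' hb (by simpa using hw))
  · intro d hd
    change oc H.ω (some d) = some d
    rw [oc_s, hd]
  · rw [cyc_iff] at hO ⊢
    have e1 : O₀ ++ e :: O₁ = (O₀ ++ [e]) ++ O₁ := by simp
    rw [e1] at hO
    have h1 := hO.rot
    rw [← List.append_assoc] at h1
    have h2 := ins_cy (H.ω * H.β) _ e h1
    have e2 : (O₁ ++ O₀).map some ++ [some e, none] =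
        O₁.map some ++ (O₀.map some ++ [some e, none]) := by simp
    rw [e2] at h2
    have h3 := h2.rot
    have e3 : O₀.map some ++ [some e, none] ++ O₁.map some =
        O₀.map some ++ some e :: none :: O₁.map some := by simp
    rw [e3, ← hφ'] at h3
    exact h3

end Pool.Agent.T6.H90.SL
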