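import Pool.Agent.T6.H90.SL.BC

/-!
# Sprouting an edge with a new black end (module B2)
-/

set_option autoImplicit false

namespace Pool.Agent.T6.H90.SL

open ModBC

theorem b2 : StmtB2 := by
  intro B W F D _ _ _ _ H O₀ O₁ c hc hO
  classical
  obtain ⟨p, hp⟩ : ∃ p, p = H.β⁻¹ c := ⟨_, rfl⟩
  have hpc : H.β p = c := by rw [hp]; simp
  have hbp : ∀ d, H.β d = c → d = p := by
    intro d hd
    rw [← hpc] at hd
    exact H.β.injective hd
  have hφ : ∀ z, (ins H.ω c * oc H.β) z = ins (H.ω * H.β) p z := by
    rintro (_ | d)
    · rw [Equiv.Perm.mul_apply, oc_n, ins_none, ins_none, Equiv.Perm.mul_apply, hpc]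
    · by_cases hd : d = p
      · subst hd
        rw [Equiv.Perm.mul_apply, oc_s, hpc, ins_self, ins_self]
      · rw [Equiv.Perm.mul_apply, oc_s, ins_ne _ _ (fun h => hd (hbp d h)), ins_ne _ _ hd]; rfl
  have hφ' : ins H.ω c * oc H.β = ins (H.ω * H.β) p := Equiv.ext hφ
  refine ⟨{ β := oc H.β, ω := ins H.ω c, b := Option.map H.b, w := fun z => H.w (rho c z),
            f := fun z => H.f (rho p z), b_surj := ?_, w_surj := ?_, f_surj := ?_, b_iff := ?_,
            w_iff := ?_, f_iff := ?_, conn := ?_, euler := ?_, simple := ?_ },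
    fun _ => rfl, fun _ => rfl, rfl, rfl, ?_, ?_⟩
  · rintro (_ | x)
    · exact ⟨none, rfl⟩
    · obtain ⟨d, rfl⟩ := H.b_surj x
      exact ⟨some d, rfl⟩
  · intro x
    obtain ⟨d, rfl⟩ := H.w_surj x
    exact ⟨some d, rfl⟩
  · intro x
    obtain ⟨d, rfl⟩ := H.f_surj x
    exact ⟨some d, rfl⟩
  · intro d d'
    exact oc_iff H.β H.b H.b_iff d d'
  · intro d d'
    rw [ins_same]
    exact H.w_iff _ _
  · intro d d'
    rw [hφ', ins_same]
    exact H.f_iff _ _
  · intro P hP1 hP2
    have hn : P none → P (some c) := by
      intro h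
      have := hP2 _ h
      rwa [ins_none, hc] at this
    have hs : P (some c) → P none := by
      intro h
      have := hP2 _ h
      rwa [ins_self] at this
    have h1 : ∀ d, P (some d) → P (some (H.β d)) := fun d hd => hP1 _ hd
    have h2 : ∀ d, P (some d) → P (some (H.ω d)) := by
      intro d hd
      by_cases h : d = c
      · subst h
        rw [hc]
        exact hd
      · have := hP2 _ hd
        rwa [ins_ne _ _ h] at this
    have h3 := H.conn (fun d => P (some d)) h1 h2
    rintro (_ | d) (_ | d')
    · exact fun h => h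
    · exact fun h => h3 c d' (hn h)
    · exact fun h => hs (h3 d c h)
    · exact h3 d d'
  · have := H.euler
    rw [Fintype.card_option, Fintype.card_option]
    omega
  · rintro (_ | d) (_ | d') hb hw
    · rfl
    · simp at hb
    · simp at hb
    · exact congrArg some (H.simple d d' (by simpa using hb) hw)
  · intro d hd hd'
    change ins H.ω c (some d) = some d
    rw [ins_ne _ _ hd, hd']
  · rw [cyc_iff] at hO ⊢
    have h1 := hO.rot
    obtain ⟨l, q, hlq⟩ : ∃ l q, (c :: O₁) ++ O₀ = l ++ [q] := by
      rcases List.eq_nil_or_concat ((c :: O₁) ++ O₀) with h | ⟨l, q, h⟩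
      · simp at h
      · exact ⟨l, q, by simpa using h⟩
    have hq : q = p := by
      apply hbp
      have h2 := h1.2 c (by simp)
      rw [hlq, List.append_assoc] at h2
      have h3 : (l ++ q :: [c]).IsChain (fun a b => H.ω (H.β a) = b) := h2
      rw [List.isChain_split] at h3
      have h4 : H.ω (H.β q) = c := by simpa using h3.2
      exact H.ω.injective (h4.trans hc.symm)
    subst hq
    rw [hlq] at h1
    have h2 := ins_cy (H.ω * H.β) _ q h1
    have e2 : l.map some ++ [some q, none] =
        (some c :: O₁.map some) ++ (O₀.map some ++ [none]) := by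
      have := congrArg (fun l => l.map some ++ [none]) hlq
      simp only [List.map_append, List.map_cons, List.map_nil] at this
      simpa using this.symm
    rw [e2] at h2
    have h3 := h2.rot
    have e3 : O₀.map some ++ [none] ++ (some c :: O₁.map some) =
        O₀.map some ++ none :: some c :: O₁.map some := by simp
    rw [e3, ← hφ'] at h3
    exact h3

end Pool.Agent.T6.H90.SL
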