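import Pool.Agent.T6.H90.SL.BC

/-!
# Merging two white ends across a face (module B3)
-/

set_option autoImplicit false

namespace Pool.Agent.T6.H90.SL

open ModBC

theorem b3 : StmtB3 := by
  intro B W F D _ _ _ _ H O₀ A₁ A₂ a c r hO₀ hra hc hbc hO
  classical
  rw [cyc_iff] at hO
  -- distinctness
  have hnd := hO.1
  have hca : c ≠ a := by
    rintro rfl
    rw [List.nodup_append] at hnd
    have := hnd.2.1
    rw [List.nodup_cons] at this
    exact this.1 (by simp)
  have hrc : r ≠ c := by
    rintro rfl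
    exact hca (hc.symm.trans hra)
  -- the permutations
  obtain ⟨ω', hω'⟩ : ∃ ω' : Equiv.Perm D, ω' = H.ω * Equiv.swap r c := ⟨_, rfl⟩
  have w1 : ω' r = c := by rw [hω', Equiv.Perm.mul_apply, Equiv.swap_apply_left, hc]
  have w2 : ω' c = a := by rw [hω', Equiv.Perm.mul_apply, Equiv.swap_apply_right, hra]
  have w3 : ∀ d, d ≠ c → d ≠ r → ω' d = H.ω d := by
    intro d h1 h2
    rw [hω', Equiv.Perm.mul_apply, Equiv.swap_apply_of_ne_of_ne h2 h1]
  -- the lists
  obtain ⟨O₀', p, hp⟩ : ∃ l q, O₀ = l ++ [q] := by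
    rcases List.eq_nil_or_concat O₀ with h | ⟨l, q, h⟩
    · exact absurd h hO₀
    · exact ⟨l, q, by simpa using h⟩
  obtain ⟨A', q, hq⟩ : ∃ l q, a :: A₁ = l ++ [q] := by
    rcases List.eq_nil_or_concat (a :: A₁) with h | ⟨l, q, h⟩
    · simp at h
    · exact ⟨l, q, by simpa using h⟩
  obtain ⟨h0, hh0⟩ : ∃ h0, O₀.head? = some h0 := by
    rcases O₀ with _ | ⟨x, O₀⟩
    · exact absurd rfl hO₀
    · exact ⟨x, rfl⟩
  have hch := hO.2 h0 (by rw [List.head?_append, hh0]; rfl)
  have e1 : O₀ ++ a :: (A₁ ++ c :: A₂) ++ [h0] = O₀ ++ a :: (A₁ ++ c :: (A₂ ++ [h0])) := by simp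
  rw [e1, List.isChain_split] at hch
  obtain ⟨ch1, hch⟩ := hch
  have e2 : a :: (A₁ ++ c :: (A₂ ++ [h0])) = (a :: A₁) ++ c :: (A₂ ++ [h0]) := by simp
  rw [e2, List.isChain_split] at hch
  obtain ⟨ch2, ch3⟩ := hch
  rw [hp, List.append_assoc] at ch1
  have ch1' : (O₀' ++ p :: [a]).IsChain (fun a b => H.ω (H.β a) = b) := ch1
  rw [List.isChain_split] at ch1'
  obtain ⟨ch1a, ch1b⟩ := ch1'
  have hpa : H.ω (H.β p) = a := by simpa using ch1b
  rw [hq, List.append_assoc] at ch2
  have ch2' : (A' ++ q :: [c]).IsChain (fun a b => H.ω (H.β a) = b) := ch2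
  rw [List.isChain_split] at ch2'
  obtain ⟨ch2a, ch2b⟩ := ch2'
  have hqc : H.ω (H.β q) = c := by simpa using ch2b
  have hbp : H.β p = r := H.ω.injective (hpa.trans hra.symm)
  have hbq : H.β q = c := H.ω.injective (hqc.trans hc.symm)
  have hpq : p ≠ q := by
    rintro rfl
    exact hrc (hbp.symm.trans hbq)
  have g1 : ω' (H.β p) = c := by rw [hbp, w1]
  have g2 : ω' (H.β q) = a := by rw [hbq, w2]
  have g3 : ∀ d, d ≠ p → d ≠ q → ω' (H.β d) = H.ω (H.β d) := by
    intro d h1 h2
    apply w3
    · intro h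
      exact h2 (H.β.injective (h.trans hbq.symm))
    · intro h
      exact h1 (H.β.injective (h.trans hbp.symm))
  -- disjointness
  have hnd2 := List.nodup_append.1 hnd
  have hnd3 : ((a :: A₁) ++ c :: A₂).Nodup := by
    have := hnd2.2.1
    simpa using this
  have hnd4 := List.nodup_append.1 hnd3
  have d1 : ∀ x ∈ O₀, ∀ y ∈ a :: A₁, x ≠ y := fun x hx y hy =>
    hnd2.2.2 x hx y (by
      rw [List.mem_cons, List.mem_append]
      rcases List.mem_cons.1 hy with h | h
      · exact Or.inl h
      · exact Or.inr (Or.inl h))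
  have d2 : ∀ x ∈ O₀, ∀ y ∈ c :: A₂, x ≠ y := fun x hx y hy =>
    hnd2.2.2 x hx y (by
      rw [List.mem_cons, List.mem_append]
      exact Or.inr (Or.inr hy))
  have d3 : ∀ x ∈ a :: A₁, ∀ y ∈ c :: A₂, x ≠ y := hnd4.2.2
  have hpO : p ∈ O₀ := by rw [hp]; simp
  have hqA : q ∈ a :: A₁ := by rw [hq]; simp
  -- the two new cycles
  have cyA : Cy (fun d => ω' (H.β d)) (a :: A₁) := by
    refine ⟨hnd4.1, ?_⟩
    intro x hx
    have hxa : x = a := by simpa using hx.symm
    subst hxa
    rw [hq, List.append_assoc]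
    change (A' ++ q :: [x]).IsChain _
    rw [List.isChain_split]
    refine ⟨?_, by simpa using g2⟩
    have := chain_lift (φ := fun d => H.ω (H.β d)) (fun d => ω' (H.β d)) id A' q ?_ ch2a
    · simpa using this
    · intro y hy
      have hyA : y ∈ x :: A₁ := by rw [hq]; simp [hy]
      have hyq : y ≠ q := by
        rintro rfl
        have := hnd4.1
        rw [hq, List.nodup_append] at this
        exact this.2.2 y hy y (by simp) rfl
      exact g3 y (fun h => d1 p hpO y hyA h.symm) hyq
  have cyO : Cy (fun d => ω' (H.β d)) (O₀ ++ c :: A₂) := by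
    refine ⟨?_, ?_⟩
    · rw [List.nodup_append]
      exact ⟨hnd2.1, hnd4.2.1, d2⟩
    · intro x hx
      have hxh : x = h0 := by
        rw [List.head?_append, hh0] at hx
        simpa using hx.symm
      subst hxh
      have e3 : O₀ ++ c :: A₂ ++ [x] = O₀ ++ c :: (A₂ ++ [x]) := by simp
      rw [e3, List.isChain_split]
      constructor
      · rw [hp, List.append_assoc]
        change (O₀' ++ p :: [c]).IsChain _
        rw [List.isChain_split]
        refine ⟨?_, by simpa using g1⟩
        have := chain_lift (φ := fun d => H.ω (H.β d)) (fun d => ω' (H.β d)) id O₀' p ?_ ch1a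
        · simpa using this
        · intro y hy
          have hyO : y ∈ O₀ := by rw [hp]; simp [hy]
          have hyp : y ≠ p := by
            rintro rfl
            have := hnd2.1
            rw [hp, List.nodup_append] at this
            exact this.2.2 y hy y (by simp) rfl
          exact g3 y hyp (d1 y hyO q hqA)
      · have := chain_lift (φ := fun d => H.ω (H.β d)) (fun d => ω' (H.β d)) id (c :: A₂) x ?_
          (by simpa using ch3)
        · simpa using this
        · intro y hy
          exact g3 y (fun h => d2 p hpO y hy h.symm) (fun h => d3 q hqA y hy h.symm)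
  -- cycles of `ω'`
  obtain ⟨ρ, hρ⟩ : ∃ ρ : D → D, ρ = fun d => if d = c then a else d := ⟨_, rfl⟩
  have ρc : ρ c = a := by rw [hρ]; simp
  have ρn : ∀ d, d ≠ c → ρ d = d := by
    intro d hd
    rw [hρ]
    simp [hd]
  have ρne : ∀ d, ρ d ≠ c := by
    intro d
    by_cases hd : d = c
    · rw [hd, ρc]; exact hca.symm
    · rw [ρn d hd]; exact hd
  have sw1 : ∀ z, ω'.SameCycle z (H.ω z) := by
    intro z
    by_cases hz : z = r
    · rw [hz, hra]
      have h1 := same_step ω' r
      have h2 := same_step ω' c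
      rw [w1] at h1
      rw [w2] at h2
      exact h1.trans h2
    · by_cases hz' : z = c
      · rw [hz', hc]
      · have := same_step ω' z
        rwa [w3 z hz' hz] at this
  have sw2 : ∀ z, ω'.SameCycle z (ρ z) := by
    intro z
    by_cases hz : z = c
    · rw [hz, ρc]
      have h2 := same_step ω' c
      rwa [w2] at h2
    · rw [ρn z hz]
  have swi : ∀ x y, ω'.SameCycle x y ↔ H.ω.SameCycle (ρ x) (ρ y) := by
    intro x y
    constructor
    · intro h
      refine lift_same ω' H.ω ρ ?_ h
      intro z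
      by_cases hz : z = r
      · rw [hz, w1, ρc, ρn r hrc]
        have := same_step H.ω r
        rwa [hra] at this
      · by_cases hz' : z = c
        · rw [hz', w2, ρc, ρn a hca.symm]
        · rw [w3 z hz' hz, ρn z hz', ρn (H.ω z) (fun h => hz' (H.ω.injective (h.trans hc.symm)))]
          exact same_step H.ω z
    · intro h
      exact (sw2 x).trans ((lift_same H.ω ω' id sw1 h).trans (sw2 y).symm)
  have hwne : ∀ d, H.w (ρ d) ≠ H.w c := by
    intro d h
    have h1 := (H.w_iff _ _).1 h
    exact ρne d (h1.eq_of_right hc)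
  -- cycles of `φ'`
  have hA_in : ∀ z, H.ω (H.β z) ∈ a :: A₁ → z = p ∨ z ∈ a :: A₁ := by
    intro z hz
    by_contra hcon
    push Not at hcon
    -- `z` is not `p`, not in `A`, so its image is not in `A`
    have hzq : z ≠ q := fun h => hcon.2 (h ▸ hqA)
    rw [← g3 z hcon.1 hzq] at hz
    -- the cycle `A` is closed under the inverse
    have h1 : (ω' * H.β).SameCycle (ω' (H.β z)) z := (same_step (ω' * H.β) z).symm
    exact hcon.2 (closed_of_same (ω' * H.β) (fun x => x ∈ a :: A₁)
      (fun d hd => cyA.closed hd) h1 hz)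
  obtain ⟨κ, hκ⟩ : ∃ κ : D → D, κ = fun d => if d ∈ a :: A₁ then c else d := ⟨_, rfl⟩
  have κA : ∀ d, d ∈ a :: A₁ → κ d = c := by
    intro d hd
    rw [hκ]
    exact if_pos hd
  have κn : ∀ d, d ∉ a :: A₁ → κ d = d := by
    intro d hd
    rw [hκ]
    exact if_neg hd
  have haA : a ∈ a :: A₁ := by simp
  have hcA : c ∉ a :: A₁ := fun h => d3 c h c (by simp) rfl
  have hpA : p ∉ a :: A₁ := fun h => d1 p hpO p h rfl
  have sφ1 : ∀ x y, x ∉ a :: A₁ → y ∉ a :: A₁ → (H.ω * H.β).SameCycle x y →
      (ω' * H.β).SameCycle x y := by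
    intro x y hx hy h
    have h1 : (ω' * H.β).SameCycle (κ x) (κ y) := by
      refine lift_same (H.ω * H.β) (ω' * H.β) κ ?_ h
      intro z
      rw [Equiv.Perm.mul_apply]
      by_cases hzp : z = p
      · rw [hzp, hpa, κA a haA, κn p hpA]
        have := same_step (ω' * H.β) p
        rwa [Equiv.Perm.mul_apply, g1] at this
      · by_cases hzA : z ∈ a :: A₁
        · by_cases hzq : z = q
          · rw [hzq, hqc, κA q hqA, κn c hcA]
          · rw [← g3 z hzp hzq, κA z hzA, κA _ (cyA.closed hzA)]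
        · have hzq : z ≠ q := fun h => hzA (h ▸ hqA)
          have hnA : H.ω (H.β z) ∉ a :: A₁ := by
            intro h
            rcases hA_in z h with h | h
            · exact hzp h
            · exact hzA h
          rw [κn z hzA, κn _ hnA, ← g3 z hzp hzq]
          exact same_step (ω' * H.β) z
    rwa [κn x hx, κn y hy] at h1
  have hOc : c ∈ O₀ ++ a :: (A₁ ++ c :: A₂) := by simp
  have hOp : p ∈ O₀ ++ a :: (A₁ ++ c :: A₂) := by simp [hpO]
  have hOa : a ∈ O₀ ++ a :: (A₁ ++ c :: A₂) := by simp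
  have hOA : ∀ x ∈ a :: A₁, x ∈ O₀ ++ a :: (A₁ ++ c :: A₂) := by
    intro x hx
    rcases List.mem_cons.1 hx with h | h <;> simp [h]
  have sφ2 : ∀ x y, (ω' * H.β).SameCycle x y → (H.ω * H.β).SameCycle x y := by
    intro x y h
    refine lift_same (ω' * H.β) (H.ω * H.β) id ?_ h
    intro z
    change (H.ω * H.β).SameCycle z (ω' (H.β z))
    by_cases hzp : z = p
    · rw [hzp, g1]
      exact Cy.same (H.ω * H.β) hO hOp hOc
    · by_cases hzq : z = q
      · rw [hzq, g2]
        exact Cy.same (H.ω * H.β) hO (hOA q hqA) hOa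
      · rw [g3 z hzp hzq]
        exact same_step (H.ω * H.β) z
  obtain ⟨f', hf'⟩ : ∃ f' : D → Option F, f' = fun d => if d ∈ a :: A₁ then none else some (H.f d) :=
    ⟨_, rfl⟩
  have fA : ∀ d, d ∈ a :: A₁ → f' d = none := by
    intro d hd
    rw [hf']
    exact if_pos hd
  have fn : ∀ d, d ∉ a :: A₁ → f' d = some (H.f d) := by
    intro d hd
    rw [hf']
    exact if_neg hd
  have clA : ∀ x y, (ω' * H.β).SameCycle x y → x ∈ a :: A₁ → y ∈ a :: A₁ := by
    intro x y h hx
    exact closed_of_same (ω' * H.β) (fun x => x ∈ a :: A₁) (fun d hd => cyA.closed hd) h hx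
  refine ⟨{x : W // x ≠ H.w c}, inferInstance, Subtype.val,
    { β := H.β, ω := ω', b := H.b, w := fun d => ⟨H.w (ρ d), hwne d⟩, f := f', b_surj := H.b_surj,
      w_surj := ?_, f_surj := ?_, b_iff := H.b_iff, w_iff := ?_, f_iff := ?_, conn := ?_,
      euler := ?_, simple := ?_ }, Subtype.val_injective, fun _ => rfl, ?_, ?_, w1, w2, w3, ?_⟩
  · rintro ⟨x, hx⟩
    obtain ⟨d, rfl⟩ := H.w_surj x
    refine ⟨d, Subtype.ext ?_⟩
    change H.w (ρ d) = H.w d
    rw [ρn d]
    rintro rfl
    exact hx rfl
  · rintro (_ | y)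
    · exact ⟨a, fA a haA⟩
    · obtain ⟨d, rfl⟩ := H.f_surj y
      by_cases hd : d ∈ a :: A₁
      · refine ⟨p, ?_⟩
        rw [fn p hpA]
        congr 1
        rw [H.f_iff]
        exact Cy.same (H.ω * H.β) hO hOp (hOA d hd)
      · exact ⟨d, fn d hd⟩
  · intro d e
    rw [swi, ← H.w_iff, Subtype.mk.injEq]
  · intro d e
    by_cases hd : d ∈ a :: A₁
    · by_cases he : e ∈ a :: A₁
      · rw [fA d hd, fA e he]
        exact iff_of_true rfl (Cy.same (ω' * H.β) cyA hd he)
      · rw [fA d hd, fn e he]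
        constructor
        · intro h; simp at h
        · intro h; exact absurd (clA d e h hd) he
    · by_cases he : e ∈ a :: A₁
      · rw [fn d hd, fA e he]
        constructor
        · intro h; simp at h
        · intro h; exact absurd (clA e d h.symm he) hd
      · rw [fn d hd, fn e he]
        constructor
        · intro h
          exact sφ1 d e hd he ((H.f_iff _ _).1 (by simpa using h))
        · intro h
          rw [(H.f_iff _ _).2 (sφ2 d e h)]
  · intro P hP1 hP2
    refine H.conn P hP1 fun d hd => ?_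
    exact closed_of_same ω' P hP2 (sw1 d) hd
  · have h1 := H.euler
    have h2 : Fintype.card W = Fintype.card {x : W // x ≠ H.w c} + 1 := by
      rw [← Fintype.card_option]
      exact (Fintype.card_congr (Equiv.optionSubtypeNe (H.w c))).symm
    have h3 : Fintype.card (Option F) = Fintype.card F + 1 := Fintype.card_option
    omega
  · intro d e hb hw
    have hw' : H.w (ρ d) = H.w (ρ e) := congrArg Subtype.val hw
    by_cases hd : d = c
    · by_cases he : e = c
      · rw [hd, he]
      · exfalso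
        rw [hd, ρc, ρn e he] at hw'
        rw [hd] at hb
        exact hbc e hw'.symm hb.symm
    · by_cases he : e = c
      · exfalso
        rw [he, ρc, ρn d hd] at hw'
        rw [he] at hb
        exact hbc d hw' hb
      · rw [ρn d hd, ρn e he] at hw'
        exact H.simple d e hb hw'
  · intro d hd
    change H.w (ρ d) = H.w d
    rw [ρn d hd]
  · change H.w (ρ c) = H.w a
    rw [ρc]
  · rw [cyc_iff]
    exact cyO

end Pool.Agent.T6.H90.SL
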