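import Pool.Agent.T6.H90.SL.BC

/-!
# A sweep gives a plane hypermap (module B4)
-/

set_option autoImplicit false

namespace Pool.Agent.T6.H90.SL

namespace ModB4

open ModBC

/-- `v` has no in-edges -/
def Src {V : Type} (E : V → V → Prop) (v : V) : Prop := ∀ u, ¬ E u v

/-- the invariants; `γ v` is a dart at the vertex `v` -/
structure Cf {V : Type} (E : V → V → Prop) (vs : List V) {B W F D : Type} [Fintype B] [Fintype W]
    [Fintype F] [Fintype D] (H : PH B W F D) (γ : V → D) (X : List ((V × V) × D)) : Prop where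
  i1 : ∀ v ∈ vs, ∀ v' ∈ vs, Src E v → Src E v' → H.b (γ v) = H.b (γ v') → v = v'
  i2 : ∀ v ∈ vs, ∀ v' ∈ vs, ¬ Src E v → ¬ Src E v' → H.w (γ v) = H.w (γ v') → v = v'
  i4 : ∀ v ∈ vs, ¬ Src E v → ∀ p ∈ X, H.w (γ v) ≠ H.w p.2
  i5 : ∀ u v, E u v → v ∈ vs → u ∈ vs ∧ Src E u ∧ ∃ d, H.b d = H.b (γ u) ∧ H.w d = H.w (γ v)
  i6 : ∀ p ∈ X, H.b p.2 = H.b (γ p.1.1) ∧ H.ω p.2 = p.2 ∧ p.1.1 ∈ vs ∧ Src E p.1.1

section

variable {V : Type} {E : V → V → Prop} {vs : List V} {B W F D : Type} [Fintype B] [Fintype W]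
  [Fintype F] [Fintype D] {H : PH B W F D} {γ : V → D} {X : List ((V × V) × D)}

/-- the map on pairs -/
def mp {V D D' : Type} (j : D → D') (p : (V × V) × D) : (V × V) × D' := (p.1, j p.2)

omit [Fintype D] in
theorem mp_snd {D' : Type} (j : D → D') (X : List ((V × V) × D)) :
    (X.map (mp j)).map Prod.snd = (X.map Prod.snd).map j := by
  rw [List.map_map, List.map_map]
  rfl

omit [Fintype D] in
theorem mp_fst {D' : Type} (j : D → D') (X : List ((V × V) × D)) :
    (X.map (mp j)).map Prod.fst = X.map Prod.fst := by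
  rw [List.map_map]
  rfl

theorem Cf.mono (h : Cf E vs H γ X) {X' : List ((V × V) × D)} (hX : ∀ p ∈ X', p ∈ X) :
    Cf E vs H γ X' :=
  ⟨h.i1, h.i2, fun v hv hs p hp => h.i4 v hv hs p (hX p hp), h.i5, fun p hp => h.i6 p (hX p hp)⟩

theorem Cf.map (h : Cf E vs H γ X) {B' W' F' D' : Type} [Fintype B'] [Fintype W'] [Fintype F']
    [Fintype D'] {H' : PH B' W' F' D'} (j : D → D')
    (hb : ∀ d e, H'.b (j d) = H'.b (j e) ↔ H.b d = H.b e)
    (hw : ∀ d e, H'.w (j d) = H'.w (j e) ↔ H.w d = H.w e)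
    (hω : ∀ p ∈ X, H.ω p.2 = p.2 → H'.ω (j p.2) = j p.2) :
    Cf E vs H' (fun v => j (γ v)) (X.map (mp j)) := by
  refine ⟨?_, ?_, ?_, ?_, ?_⟩
  · intro v hv v' hv' hs hs' he
    exact h.i1 v hv v' hv' hs hs' ((hb _ _).1 he)
  · intro v hv v' hv' hs hs' he
    exact h.i2 v hv v' hv' hs hs' ((hw _ _).1 he)
  · intro v hv hs p hp
    obtain ⟨q, hq, rfl⟩ := List.mem_map.1 hp
    exact fun he => h.i4 v hv hs q hq ((hw _ _).1 he)
  · intro u v huv hv
    obtain ⟨h1, h2, d, h3, h4⟩ := h.i5 u v huv hv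
    exact ⟨h1, h2, j d, (hb _ _).2 h3, (hw _ _).2 h4⟩
  · intro p hp
    obtain ⟨q, hq, rfl⟩ := List.mem_map.1 hp
    obtain ⟨h1, h2, h3, h4⟩ := h.i6 q hq
    exact ⟨(hb _ _).2 h1, hω q hq h2, h3, h4⟩

theorem Cf.addsrc [DecidableEq V] (h : Cf E vs H γ X) {v : V} (hv : v ∉ vs) (hs : Src E v) (y : D)
    (hy : ∀ u ∈ vs, H.b (γ u) ≠ H.b y) : Cf E (v :: vs) H (Function.update γ v y) X := by
  have hu : ∀ u ∈ vs, Function.update γ v y u = γ u := by
    intro u hu
    apply Function.update_of_ne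
    rintro rfl
    exact hv hu
  have hvv : Function.update γ v y v = y := Function.update_self _ _ _
  refine ⟨?_, ?_, ?_, ?_, ?_⟩
  · intro u hu1 u' hu2 hs1 hs2 he
    rcases List.mem_cons.1 hu1 with h1 | h1 <;> rcases List.mem_cons.1 hu2 with h2 | h2
    · rw [h1, h2]
    · subst h1
      rw [hvv, hu u' h2] at he
      exact absurd he.symm (hy u' h2)
    · subst h2
      rw [hvv, hu u h1] at he
      exact absurd he (hy u h1)
    · rw [hu u h1, hu u' h2] at he
      exact h.i1 u h1 u' h2 hs1 hs2 he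
  · intro u hu1 u' hu2 hs1 hs2 he
    rcases List.mem_cons.1 hu1 with h1 | h1
    · subst h1
      exact absurd hs hs1
    · rcases List.mem_cons.1 hu2 with h2 | h2
      · subst h2
        exact absurd hs hs2
      · rw [hu u h1, hu u' h2] at he
        exact h.i2 u h1 u' h2 hs1 hs2 he
  · intro u hu1 hs1 p hp
    rcases List.mem_cons.1 hu1 with h1 | h1
    · subst h1
      exact absurd hs hs1
    · rw [hu u h1]
      exact h.i4 u h1 hs1 p hp
  · intro u u' huu hu1
    rcases List.mem_cons.1 hu1 with h1 | h1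
    · subst h1
      exact absurd huu (hs u)
    · obtain ⟨h2, h3, d, h4, h5⟩ := h.i5 u u' huu h1
      refine ⟨List.mem_cons_of_mem _ h2, h3, d, ?_, ?_⟩
      · rw [hu u h2]; exact h4
      · rw [hu u' h1]; exact h5
  · intro p hp
    obtain ⟨h1, h2, h3, h4⟩ := h.i6 p hp
    refine ⟨?_, h2, List.mem_cons_of_mem _ h3, h4⟩
    rw [hu _ h3]
    exact h1

end

/-- the general state -/
def S1 {V : Type} (E : V → V → Prop) (vs : List V) (N : ℕ) (act : List (V × V)) : Prop :=
  ∃ (B W F D : Type) (_ : Fintype B) (_ : Fintype W) (_ : Fintype F) (_ : Fintype D)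
    (H : PH B W F D) (γ : V → D) (al : List ((V × V) × D)) (e0 : D) (O : List D),
    Cf E vs H γ al ∧ Cyc H (e0 :: O) ∧ (al.map Prod.snd).Sublist O ∧ al.map Prod.fst = act ∧
    Fintype.card B + Fintype.card W ≤ N ∧ (vs ≠ [] → 2 ≤ Fintype.card D)

/-- the state while the edges of the source `v` are drawn -/
def S3 {V : Type} (E : V → V → Prop) (vs : List V) (v : V) (N : ℕ) (XA XB : List (V × V)) : Prop :=
  ∃ (B W F D : Type) (_ : Fintype B) (_ : Fintype W) (_ : Fintype F) (_ : Fintype D)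
    (H : PH B W F D) (γ : V → D) (alA alB : List ((V × V) × D)) (e0 e : D) (P R : List D),
    Cf E vs H γ (alA ++ alB) ∧ Cyc H (e0 :: (P ++ e :: R)) ∧
    (alA.map Prod.snd).Sublist (P ++ [e]) ∧ (alB.map Prod.snd).Sublist R ∧
    alA.map Prod.fst = XA ∧ alB.map Prod.fst = XB ∧ H.b e = H.b (γ v) ∧
    Fintype.card B + Fintype.card W ≤ N ∧ 2 ≤ Fintype.card D

theorem S3.toS1 {V : Type} {E : V → V → Prop} {vs : List V} {v : V} {N : ℕ}
    {XA XB : List (V × V)} (h : S3 E vs v N XA XB) : S1 E vs N (XA ++ XB) := by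
  obtain ⟨B, W, F, D, _, _, _, _, H, γ, alA, alB, e0, e, P, R, h1, h2, h3, h4, h5, h6, h7, h8,
    h9⟩ := h
  refine ⟨B, W, F, D, inferInstance, inferInstance, inferInstance, inferInstance, H, γ,
    alA ++ alB, e0, P ++ e :: R, h1, h2, ?_, ?_, h8, fun _ => h9⟩
  · have : P ++ e :: R = (P ++ [e]) ++ R := by simp
    rw [List.map_append, this]
    exact h3.append h4
  · rw [List.map_append, h5, h6]

theorem S1.start {V : Type} {E : V → V → Prop} {vs : List V} {v : V} {N : ℕ}
    {XA XB : List (V × V)} (hB1 : StmtB1) (hB2 : StmtB2) (h : S1 E vs N (XA ++ XB)) (hv : v ∉ vs)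
    (hs : Src E v) : S3 E (v :: vs) v (N + 2) XA XB := by
  classical
  obtain ⟨B, W, F, D, _, _, _, _, H, γ, al, e0, O, h1, h2, h3, h4, h5, -⟩ := h
  obtain ⟨alA, alB, rfl, hA, hB⟩ := List.map_eq_append_iff.1 h4
  rw [List.map_append, List.append_sublist_iff] at h3
  obtain ⟨OA, OB, rfl, hOA, hOB⟩ := h3
  obtain ⟨P, e, hPe⟩ : ∃ P e, e0 :: OA = P ++ [e] := by
    rcases List.eq_nil_or_concat (e0 :: OA) with h | ⟨l, q, h⟩
    · simp at h
    · exact ⟨l, q, by simpa using h⟩
  have e1 : e0 :: (OA ++ OB) = P ++ e :: OB := by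
    rw [← List.cons_append, hPe]; simp
  rw [e1] at h2
  obtain ⟨H1, b1, w1, b1n, w1n, o1n, o1, c1⟩ := hB1 B W F D H P OB e h2
  have e2 : P.map some ++ some e :: none :: OB.map some =
      (P ++ [e]).map some ++ none :: OB.map some := by simp
  rw [e2] at c1
  obtain ⟨H2, b2, w2, b2n, w2n, o2, c2⟩ := hB2 B (Option W) F (Option D) H1 _ _ none o1n c1
  have k1 : Cf E vs H1 (fun u => some (γ u)) ((alA ++ alB).map (mp some)) := by
    refine h1.map some ?_ ?_ ?_
    · intro d d'
      rw [b1, b1]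
    · intro d d'
      rw [w1, w1]
      exact Option.some_inj
    · intro p hp hp'
      exact o1 _ hp'
  have k2 : Cf E vs H2 (fun u => some (some (γ u))) (((alA ++ alB).map (mp some)).map (mp some)) := by
    refine k1.map some ?_ ?_ ?_
    · intro d d'
      rw [b2, b2]
      exact Option.some_inj
    · intro d d'
      rw [w2, w2]
    · intro p hp hp'
      refine o2 _ ?_ hp'
      obtain ⟨q, hq, rfl⟩ := List.mem_map.1 hp
      exact Option.some_ne_none _
  have k3 := k2.addsrc hv hs none (by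
    intro u hu
    rw [b2, b2n]
    exact Option.some_ne_none _)
  refine ⟨Option B, Option W, F, Option (Option D), inferInstance, inferInstance, inferInstance,
    inferInstance, H2, Function.update (fun u => some (some (γ u))) v none,
    (alA.map (mp some)).map (mp some), (alB.map (mp some)).map (mp some),
    some (some e0), none, (OA.map some).map some, some none :: (OB.map some).map some, ?_, ?_, ?_,
    ?_, ?_, ?_, ?_, ?_, ?_⟩
  · have : (alA.map (mp some)).map (mp some) ++ (alB.map (mp some)).map (mp some) =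
        ((alA ++ alB).map (mp (some : D → Option D))).map (mp some) := by simp
    rw [this]
    exact k3
  · rw [← hPe] at c2
    have e3 : ((e0 :: OA).map some).map some ++ none :: some none :: (OB.map some).map some =
        some (some e0) :: ((OA.map some).map some ++ none :: some none :: (OB.map some).map some) := by
      simp
    rw [e3] at c2
    exact c2
  · rw [mp_snd, mp_snd]
    refine ((hOA.map some).map some).trans ?_
    exact List.sublist_append_left _ _
  · rw [mp_snd, mp_snd]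
    refine ((hOB.map some).map some).trans ?_
    exact List.sublist_cons_self _ _
  · rw [mp_fst, mp_fst, hA]
  · rw [mp_fst, mp_fst, hB]
  · rw [Function.update_self]
  · rw [Fintype.card_option, Fintype.card_option]
    omega
  · rw [Fintype.card_option, Fintype.card_option]
    omega

theorem S3.grow {V : Type} {E : V → V → Prop} {vs : List V} {v : V} {N : ℕ}
    {XA XB : List (V × V)} (hB1 : StmtB1) (h : S3 E vs v N XA XB) (hv : v ∈ vs)
    (hs : Src E v) (t : V) : S3 E vs v (N + 1) (XA ++ [(v, t)]) XB := by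
  obtain ⟨B, W, F, D, _, _, _, _, H, γ, alA, alB, e0, e, P, R, h1, h2, h3, h4, h5, h6, h7, h8,
    h9⟩ := h
  have e1 : e0 :: (P ++ e :: R) = (e0 :: P) ++ e :: R := by simp
  rw [e1] at h2
  obtain ⟨H1, b1, w1, b1n, w1n, o1n, o1, c1⟩ := hB1 B W F D H (e0 :: P) R e h2
  have k1 : Cf E vs H1 (fun u => some (γ u)) ((alA ++ alB).map (mp some)) := by
    refine h1.map some ?_ ?_ ?_
    · intro d d'
      rw [b1, b1]
    · intro d d'
      rw [w1, w1]
      exact Option.some_inj
    · intro p hp hp'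
      exact o1 _ hp'
  have k2 : Cf E vs H1 (fun u => some (γ u)) (((v, t), none) :: (alA ++ alB).map (mp some)) := by
    refine ⟨k1.i1, k1.i2, ?_, k1.i5, ?_⟩
    · intro u hu hus p hp
      rcases List.mem_cons.1 hp with rfl | hp
      · rw [w1, w1n]
        exact Option.some_ne_none _
      · exact k1.i4 u hu hus p hp
    · intro p hp
      rcases List.mem_cons.1 hp with rfl | hp
      · refine ⟨?_, o1n, hv, hs⟩
        change H1.b none = H1.b (some (γ v))
        rw [b1n, b1, h7]
      · exact k1.i6 p hp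
  refine ⟨B, Option W, F, Option D, inferInstance, inferInstance, inferInstance, inferInstance, H1,
    fun u => some (γ u), alA.map (mp some) ++ [((v, t), none)], alB.map (mp some), some e0, none,
    P.map some ++ [some e], R.map some, ?_, ?_, ?_, ?_, ?_, ?_, ?_, ?_, ?_⟩
  · refine k2.mono ?_
    intro p hp
    simp only [List.mem_append, List.mem_cons, List.map_append, List.not_mem_nil, or_false] at hp ⊢
    tauto
  · have e3 : some e0 :: (P.map some ++ [some e] ++ none :: R.map some) =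
        (e0 :: P).map some ++ some e :: none :: R.map some := by simp
    rw [e3]
    exact c1
  · rw [List.map_append, mp_snd]
    refine List.Sublist.append ?_ (List.Sublist.refl _)
    have := h3.map (some : D → Option D)
    simpa using this
  · rw [mp_snd]
    exact h4.map some
  · rw [List.map_append, mp_fst, h5]
    rfl
  · rw [mp_fst, h6]
  · rw [b1n, b1, h7]
  · rw [Fintype.card_option]
    omega
  · rw [Fintype.card_option]
    omega

theorem S3.grows {V : Type} {E : V → V → Prop} {vs : List V} {v : V} (hB1 : StmtB1)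
    (hv : v ∈ vs) (hs : Src E v) (new : List (V × V)) (hnew : ∀ e ∈ new, e.1 = v) :
    ∀ {N : ℕ} {XA XB : List (V × V)}, S3 E vs v N XA XB →
      S3 E vs v (N + new.length) (XA ++ new) XB := by
  induction new with
  | nil =>
    intro N XA XB h
    simpa using h
  | cons p new ih =>
    intro N XA XB h
    obtain ⟨u, t⟩ := p
    have hu : u = v := hnew (u, t) (by simp)
    subst hu
    have h1 := ih (fun e he => hnew e (by simp [he])) (h.grow hB1 hv hs t)
    have e1 : XA ++ [(u, t)] ++ new = XA ++ (u, t) :: new := by simp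
    have e2 : N + 1 + new.length = N + ((u, t) :: new).length := by
      simp only [List.length_cons]
      omega
    rwa [e1, e2] at h1

/-- the state while the edges into the sink `v` are merged -/
def S4 {V : Type} (E : V → V → Prop) (vs : List V) (N : ℕ) (XA bd XR XB : List (V × V)) : Prop :=
  ∃ (B W F D : Type) (_ : Fintype B) (_ : Fintype W) (_ : Fintype F) (_ : Fintype D)
    (H : PH B W F D) (γ : V → D) (alA alR alB : List ((V × V) × D)) (e0 a r : D) (P R : List D),
    Cf E vs H γ (alA ++ (alR ++ alB)) ∧ Cyc H (e0 :: (P ++ a :: R)) ∧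
    (alA.map Prod.snd).Sublist P ∧ ((alR ++ alB).map Prod.snd).Sublist R ∧
    alA.map Prod.fst = XA ∧ alR.map Prod.fst = XR ∧ alB.map Prod.fst = XB ∧ H.ω r = a ∧
    (∀ d, H.w d = H.w a → ∃ ε ∈ bd, H.b d = H.b (γ ε.1)) ∧
    (∀ ε ∈ bd, ε.1 ∈ vs ∧ Src E ε.1 ∧ ∃ d, H.b d = H.b (γ ε.1) ∧ H.w d = H.w a) ∧
    (∀ u ∈ vs, ¬ Src E u → H.w (γ u) ≠ H.w a) ∧
    Fintype.card B + Fintype.card W + bd.length ≤ N + 1 ∧ 2 ≤ Fintype.card D

theorem sub_cons {D : Type} {c : D} {l R : List D} (h : (c :: l).Sublist R) :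
    ∃ R1 R2, R = R1 ++ c :: R2 ∧ l.Sublist R2 := by
  rw [List.cons_sublist_iff] at h
  obtain ⟨r1, r2, rfl, h1, h2⟩ := h
  obtain ⟨s, t, rfl⟩ := List.append_of_mem h1
  exact ⟨s, t ++ r2, by simp, h2.trans (List.sublist_append_right _ _)⟩

theorem alone {B W F D : Type} [Fintype B] [Fintype W] [Fintype F] [Fintype D] (H : PH B W F D)
    {c d : D} (hc : H.ω c = c) (h : H.w d = H.w c) : d = c :=
  ((H.w_iff _ _).1 h).eq_of_right hc

theorem S1.toS4 {V : Type} {E : V → V → Prop} {vs : List V} {N : ℕ}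
    {XA XR XB : List (V × V)} {ε : V × V} (h : S1 E vs N (XA ++ (ε :: XR ++ XB))) :
    S4 E vs N XA [ε] XR XB := by
  obtain ⟨B, W, F, D, _, _, _, _, H, γ, al, e0, O, h1, h2, h3, h4, h5, h6⟩ := h
  obtain ⟨alA, al2, rfl, hA, h7⟩ := List.map_eq_append_iff.1 h4
  rw [List.cons_append] at h7
  obtain ⟨p, al3, rfl, hp, h8⟩ := List.map_eq_cons_iff.1 h7
  obtain ⟨alR, alB, rfl, hR, hB⟩ := List.map_eq_append_iff.1 h8
  rw [List.map_append, List.append_sublist_iff] at h3
  obtain ⟨OA, OB, rfl, hOA, hOB⟩ := h3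
  rw [List.map_cons] at hOB
  obtain ⟨R1, R2, rfl, hR2⟩ := sub_cons hOB
  have hpm : p ∈ alA ++ p :: (alR ++ alB) := by simp
  obtain ⟨j1, j2, j3, j4⟩ := h1.i6 p hpm
  rw [hp] at j1 j3 j4
  refine ⟨B, W, F, D, inferInstance, inferInstance, inferInstance, inferInstance, H, γ,
    alA, alR, alB, e0, p.2, p.2, OA ++ R1, R2, ?_, ?_, ?_, hR2, hA, hR, hB, j2, ?_, ?_, ?_, ?_, ?_⟩
  · refine h1.mono ?_
    intro q hq
    simp only [List.mem_append, List.mem_cons] at hq ⊢
    tauto
  · have : e0 :: (OA ++ R1 ++ p.2 :: R2) = e0 :: (OA ++ (R1 ++ p.2 :: R2)) := by simp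
    rw [this]
    exact h2
  · exact hOA.trans (List.sublist_append_left _ _)
  · intro d hd
    have := alone H j2 hd
    exact ⟨ε, by simp, by rw [this, j1]⟩
  · intro ε' hε'
    have : ε' = ε := by simpa using hε'
    subst this
    exact ⟨j3, j4, p.2, j1, rfl⟩
  · intro u hu hus
    exact h1.i4 u hu hus p hpm
  · simp only [List.length_singleton]
    omega
  · apply h6
    rintro rfl
    simp at j3

theorem S4.step {V : Type} {E : V → V → Prop} {vs : List V} {N : ℕ} {v : V}
    {XA bd XR XB : List (V × V)} {ε : V × V} (hB3 : StmtB3) (h : S4 E vs N XA bd (ε :: XR) XB)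
    (hnd : (bd ++ [ε]).Nodup) (hv : ∀ e ∈ bd ++ [ε], e.2 = v) :
    S4 E vs N XA (bd ++ [ε]) XR XB := by
  obtain ⟨B, W, F, D, _, _, _, _, H, γ, alA, al2, alB, e0, a, r, P, R, h1, h2, h3, h4, h5, h6, h7,
    h8, m1, m2, m3, h9, h10⟩ := h
  obtain ⟨p, alR, rfl, hp, hR⟩ := List.map_eq_cons_iff.1 h6
  rw [List.cons_append, List.map_cons] at h4
  obtain ⟨R1, R2, rfl, hR2⟩ := sub_cons h4
  have hpm : p ∈ alA ++ (p :: alR ++ alB) := by simp
  obtain ⟨j1, j2, j3, j4⟩ := h1.i6 p hpm
  rw [hp] at j1 j3 j4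
  obtain ⟨c, hcp⟩ : ∃ c, c = p.2 := ⟨_, rfl⟩
  rw [← hcp] at j1 j2 h2
  have hbc : ∀ d, H.w d = H.w a → H.b d ≠ H.b c := by
    intro d hd hbd
    obtain ⟨ε', hε', he⟩ := m1 d hd
    obtain ⟨k1, k2, -⟩ := m2 ε' hε'
    have h11 : ε'.1 = ε.1 := h1.i1 _ k1 _ j3 k2 j4 (by rw [← he, ← j1, hbd])
    have h12 : ε'.2 = ε.2 := by
      rw [hv ε' (by simp [hε']), hv ε (by simp)]
    have h13 : ε' = ε := Prod.ext h11 h12
    rw [List.nodup_append] at hnd
    exact hnd.2.2 ε' hε' ε (by simp) h13
  have e1 : e0 :: (P ++ a :: (R1 ++ c :: R2)) = (e0 :: P) ++ a :: (R1 ++ c :: R2) := by simp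
  rw [e1] at h2
  have hnd2 := h2.1
  obtain ⟨W', _, k, H', hk, hb', hw', hwc, o1, o2, o3, c'⟩ :=
    hB3 B W F D H (e0 :: P) R1 R2 a c r (by simp) h8 j2 hbc h2
  -- the remaining active darts are different from `c` and `r`
  have hne : ∀ q ∈ alA ++ (alR ++ alB), q.2 ≠ c ∧ q.2 ≠ r := by
    intro q hq
    have hq' : q ∈ alA ++ (p :: alR ++ alB) := by
      simp only [List.mem_append, List.mem_cons] at hq ⊢
      tauto
    obtain ⟨-, l2, -, -⟩ := h1.i6 q hq'
    have hin : q.2 ∈ P ∨ q.2 ∈ R2 := by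
      rcases List.mem_append.1 hq with h | h
      · exact Or.inl (h3.subset (List.mem_map_of_mem h))
      · exact Or.inr (hR2.subset (List.mem_map_of_mem h))
    have hqa : q.2 ≠ a := by
      rintro hqa
      rw [List.nodup_append] at hnd2
      rcases hin with h | h
      · exact hnd2.2.2 q.2 (by simp [h]) a (by simp) hqa
      · have := hnd2.2.1
        rw [List.nodup_cons] at this
        exact this.1 (by rw [← hqa]; simp [h])
    refine ⟨?_, ?_⟩
    · intro hqc
      have hnd3 := hnd2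
      rw [List.nodup_append] at hnd3
      rcases hin with h | h
      · exact hnd3.2.2 q.2 (by simp [h]) c (by simp) hqc
      · have h11 := hnd3.2.1
        rw [List.nodup_cons, List.nodup_append] at h11
        have h12 := h11.2.2.1
        rw [List.nodup_cons] at h12
        exact h12.1 (by rw [← hqc]; exact h)
    · intro hqr
      apply hqa
      rw [← h8, ← hqr, l2]
  have hγc : ∀ u ∈ vs, ¬ Src E u → γ u ≠ c := by
    intro u hu hus h
    exact h1.i4 u hu hus p hpm (by rw [h, hcp])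
  have hw2 : ∀ d e, d ≠ c → e ≠ c → (H'.w d = H'.w e ↔ H.w d = H.w e) := by
    intro d e hd he
    rw [← hw' d hd, ← hw' e he]
    exact hk.eq_iff.symm
  have hw3 : ∀ d, d ≠ c → (H'.w d = H'.w c ↔ H.w d = H.w a) := by
    intro d hd
    rw [← hw' d hd, ← hwc]
    exact hk.eq_iff.symm
  refine ⟨B, W', Option F, D, inferInstance, inferInstance, inferInstance, inferInstance, H', γ,
    alA, alR, alB, e0, c, r, P, R2, ?_, ?_, h3, hR2, h5, hR, h7, o1, ?_, ?_, ?_, ?_, h10⟩
  · refine ⟨?_, ?_, ?_, ?_, ?_⟩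
    · intro u hu u' hu' hs hs' he
      rw [hb', hb'] at he
      exact h1.i1 u hu u' hu' hs hs' he
    · intro u hu u' hu' hs hs' he
      exact h1.i2 u hu u' hu' hs hs' ((hw2 _ _ (hγc u hu hs) (hγc u' hu' hs')).1 he)
    · intro u hu hus q hq
      rw [Ne, hw2 _ _ (hγc u hu hus) (hne q hq).1]
      apply h1.i4 u hu hus q
      simp only [List.mem_append, List.mem_cons] at hq ⊢
      tauto
    · intro u u' huu hu'
      obtain ⟨l1, l2, d, l3, l4⟩ := h1.i5 u u' huu hu'
      have hus : ¬ Src E u' := fun h => h u huu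
      have hdc : d ≠ c := by
        rintro rfl
        exact h1.i4 u' hu' hus p hpm (by rw [← hcp, l4])
      refine ⟨l1, l2, d, ?_, (hw2 _ _ hdc (hγc u' hu' hus)).2 l4⟩
      rw [hb', hb', l3]
    · intro q hq
      have hq' : q ∈ alA ++ (p :: alR ++ alB) := by
        simp only [List.mem_append, List.mem_cons] at hq ⊢
        tauto
      obtain ⟨l1, l2, l3, l4⟩ := h1.i6 q hq'
      refine ⟨?_, ?_, l3, l4⟩
      · rw [hb', hb', l1]
      · rw [o3 _ (hne q hq).1 (hne q hq).2, l2]
  · have e2 : e0 :: (P ++ c :: R2) = (e0 :: P) ++ c :: R2 := by simp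
    rw [e2]
    exact c'
  · intro d hd
    by_cases hdc : d = c
    · refine ⟨ε, by simp, ?_⟩
      rw [hb', hb', hdc, j1]
    · obtain ⟨ε', hε', he⟩ := m1 d ((hw3 d hdc).1 hd)
      refine ⟨ε', by simp [hε'], ?_⟩
      rw [hb', hb', he]
  · intro ε' hε'
    rcases List.mem_append.1 hε' with h | h
    · obtain ⟨l1, l2, d, l3, l4⟩ := m2 ε' h
      have hdc : d ≠ c := by
        rintro rfl
        exact hbc _ l4 rfl
      refine ⟨l1, l2, d, ?_, (hw3 d hdc).2 l4⟩
      rw [hb', hb', l3]
    · have : ε' = ε := by simpa using h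
      subst this
      refine ⟨j3, j4, c, ?_, rfl⟩
      rw [hb', hb', j1]
  · intro u hu hus
    rw [Ne, hw3 _ (hγc u hu hus)]
    exact m3 u hu hus
  · have t1 := H.euler
    have t2 := H'.euler
    rw [Fintype.card_option] at t2
    simp only [List.length_append, List.length_singleton]
    omega

theorem S4.steps {V : Type} {E : V → V → Prop} {vs : List V} {N : ℕ} {v : V}
    {XA XB : List (V × V)} (hB3 : StmtB3) (XR : List (V × V)) : ∀ {bd : List (V × V)},
    S4 E vs N XA bd XR XB → (bd ++ XR).Nodup → (∀ e ∈ bd ++ XR, e.2 = v) →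
    S4 E vs N XA (bd ++ XR) [] XB := by
  induction XR with
  | nil =>
    intro bd h _ _
    simpa using h
  | cons ε XR ih =>
    intro bd h hnd hv
    have e1 : bd ++ ε :: XR = (bd ++ [ε]) ++ XR := by simp
    rw [e1] at hnd hv ⊢
    refine ih (h.step (v := v) hB3 ?_ ?_) hnd hv
    · exact (List.nodup_append.1 hnd).1
    · intro e he
      exact hv e (List.mem_append_left _ he)

theorem S4.finish {V : Type} {E : V → V → Prop} {vs : List V} {N : ℕ} {v : V}
    {XA blk XB : List (V × V)} (h : S4 E vs N XA blk [] XB) (hv : v ∉ vs) (hblk : blk ≠ [])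
    (hb : ∀ e, e ∈ blk ↔ e.2 = v ∧ E e.1 e.2) (hout : ∀ u, ¬ E v u) {N' : ℕ}
    (hN : N + 1 ≤ N' + blk.length) : S1 E (v :: vs) N' (XA ++ XB) := by
  classical
  obtain ⟨B, W, F, D, _, _, _, _, H, γ, alA, alR, alB, e0, a, r, P, R, h1, h2, h3, h4, h5, h6, h7,
    h8, m1, m2, m3, h9, h10⟩ := h
  have hR : alR = [] := List.map_eq_nil_iff.1 h6
  subst hR
  rw [List.nil_append] at h1 h4
  have hsv : ¬ Src E v := by
    intro h
    obtain ⟨e, he⟩ := List.exists_mem_of_ne_nil _ hblk
    obtain ⟨q1, q2⟩ := (hb e).1 he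
    rw [q1] at q2
    exact h _ q2
  have hu : ∀ u ∈ vs, Function.update γ v a u = γ u := by
    intro u hu
    apply Function.update_of_ne
    rintro rfl
    exact hv hu
  have hvv : Function.update γ v a v = a := Function.update_self _ _ _
  have hXa : ∀ q ∈ alA ++ alB, q.2 ≠ a := by
    intro q hq hqa
    have hnd := h2.1
    have e1 : e0 :: (P ++ a :: R) = (e0 :: P) ++ a :: R := by simp
    rw [e1, List.nodup_append] at hnd
    rcases List.mem_append.1 hq with h | h
    · exact hnd.2.2 q.2 (List.mem_cons_of_mem _ (h3.subset (List.mem_map_of_mem h))) a (by simp) hqa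
    · have := hnd.2.1
      rw [List.nodup_cons] at this
      exact this.1 (hqa ▸ h4.subset (List.mem_map_of_mem h))
  refine ⟨B, W, F, D, inferInstance, inferInstance, inferInstance, inferInstance, H,
    Function.update γ v a, alA ++ alB, e0, P ++ a :: R, ⟨?_, ?_, ?_, ?_, ?_⟩, h2, ?_, ?_, ?_,
    fun _ => h10⟩
  · intro u hu1 u' hu2 hs1 hs2 he
    rcases List.mem_cons.1 hu1 with g1 | g1
    · subst g1
      exact absurd hs1 hsv
    · rcases List.mem_cons.1 hu2 with g2 | g2
      · subst g2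
        exact absurd hs2 hsv
      · rw [hu u g1, hu u' g2] at he
        exact h1.i1 u g1 u' g2 hs1 hs2 he
  · intro u hu1 u' hu2 hs1 hs2 he
    rcases List.mem_cons.1 hu1 with g1 | g1 <;> rcases List.mem_cons.1 hu2 with g2 | g2
    · rw [g1, g2]
    · subst g1
      rw [hvv, hu u' g2] at he
      exact absurd he.symm (m3 u' g2 hs2)
    · subst g2
      rw [hvv, hu u g1] at he
      exact absurd he (m3 u g1 hs1)
    · rw [hu u g1, hu u' g2] at he
      exact h1.i2 u g1 u' g2 hs1 hs2 he
  · intro u hu1 hs1 q hq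
    rcases List.mem_cons.1 hu1 with g1 | g1
    · subst g1
      rw [hvv]
      intro he
      exact hXa q hq (alone H (h1.i6 q hq).2.1 he).symm
    · rw [hu u g1]
      exact h1.i4 u g1 hs1 q hq
  · intro u u' huu hu1
    rcases List.mem_cons.1 hu1 with g1 | g1
    · subst g1
      obtain ⟨l1, l2, d, l3, l4⟩ := m2 (u, u') ((hb (u, u')).2 ⟨rfl, huu⟩)
      refine ⟨List.mem_cons_of_mem _ l1, l2, d, ?_, ?_⟩
      · rw [hu u l1]; exact l3
      · rw [hvv]; exact l4
    · obtain ⟨l1, l2, d, l3, l4⟩ := h1.i5 u u' huu g1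
      refine ⟨List.mem_cons_of_mem _ l1, l2, d, ?_, ?_⟩
      · rw [hu u l1]; exact l3
      · rw [hu u' g1]; exact l4
  · intro q hq
    obtain ⟨l1, l2, l3, l4⟩ := h1.i6 q hq
    refine ⟨?_, l2, List.mem_cons_of_mem _ l3, l4⟩
    rw [hu _ l3]
    exact l1
  · rw [List.map_append]
    exact h3.append (h4.trans (List.sublist_cons_self _ _))
  · rw [List.map_append, h5, h7]
  · omega

theorem sweep_S1 {V : Type} {E : V → V → Prop} (hB1 : StmtB1) (hB2 : StmtB2) (hB3 : StmtB3)
    {vs : List V} {act : List (V × V)} (h : Sweep E vs act) :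
    S1 E vs (2 * vs.length + 2 + act.length) act := by
  induction h with
  | nil =>
    refine ⟨Unit, Unit, Unit, Unit, inferInstance, inferInstance, inferInstance, inferInstance,
      { β := 1, ω := 1, b := id, w := id, f := id, b_surj := Function.surjective_id,
        w_surj := Function.surjective_id, f_surj := Function.surjective_id,
        b_iff := fun d e => iff_of_true rfl (Equiv.Perm.SameCycle.refl _ _),
        w_iff := fun d e => iff_of_true rfl (Equiv.Perm.SameCycle.refl _ _),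
        f_iff := fun d e => iff_of_true rfl (Equiv.Perm.SameCycle.refl _ _),
        conn := fun P _ _ d e h => h, euler := rfl, simple := fun d e _ _ => rfl },
      fun _ => (), [], (), [], ⟨?_, ?_, ?_, ?_, ?_⟩, ⟨?_, ?_, ?_⟩, ?_, rfl, ?_, ?_⟩
    · intro v hv; simp at hv
    · intro v hv; simp at hv
    · intro v hv; simp at hv
    · intro u v _ hv; simp at hv
    · intro p hp; simp at hp
    · simp
    · intro O₀ a c O₁ _; rfl
    · intro a c _ _; rfl
    · simp
    · simp
    · intro h; exact absurd rfl h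
  | src v vs A B new hsw hv hnd hnew hs ih =>
    have h1 := (ih.start hB1 hB2 hv hs).grows hB1 (by simp) hs new
      (fun e he => ((hnew e).1 he).1)
    have h2 := h1.toS1
    have e1 : 2 * vs.length + 2 + (A ++ B).length + 2 + new.length =
        2 * (v :: vs).length + 2 + (A ++ new ++ B).length := by
      simp only [List.length_append, List.length_cons]
      omega
    rwa [e1] at h2
  | snk v vs A B blk hsw hv hnd hblk hb hout ih =>
    obtain ⟨ε, XR, hblk'⟩ := List.exists_cons_of_ne_nil hblk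
    have e1 : A ++ blk ++ B = A ++ (ε :: XR ++ B) := by rw [hblk']; simp
    rw [e1] at ih
    have h1 := ih.toS4
    have e2 : [ε] ++ XR = blk := by rw [hblk']; simp
    have h2 := S4.steps (v := v) hB3 XR h1 (by rw [e2]; exact hnd) (by
      rw [e2]
      exact fun e he => ((hb e).1 he).1)
    rw [e2] at h2
    refine h2.finish hv hblk hb hout ?_
    have e3 : (ε :: XR).length = blk.length := by rw [hblk']
    simp only [List.length_append, List.length_cons] at e3 ⊢
    omega

end ModB4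

open ModB4 in
theorem b4 (h1 : StmtB1) (h2 : StmtB2) (h3 : StmtB3) : StmtB := by
  intro V _ _ E vs hnd hall hsw
  classical
  obtain ⟨B, W, F, D, _, _, _, _, H, γ, al, e0, O, k1, -, -, -, k5, k6⟩ := sweep_S1 h1 h2 h3 hsw
  have hlen : vs.length = Fintype.card V := by
    rw [← List.toFinset_card_of_nodup hnd]
    have : vs.toFinset = Finset.univ := by
      ext v
      simp [hall v]
    rw [this, Finset.card_univ]
  refine ⟨B, W, F, D, inferInstance, inferInstance, inferInstance, inferInstance, H,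
    fun v => if Src E v then Sum.inl (H.b (γ v)) else Sum.inr (H.w (γ v)), ?_, ?_, ?_, ?_⟩
  · intro u v huv
    simp only at huv
    by_cases hu : Src E u <;> by_cases hv : Src E v
    · rw [if_pos hu, if_pos hv] at huv
      exact k1.i1 u (hall u) v (hall v) hu hv (Sum.inl.inj huv)
    · rw [if_pos hu, if_neg hv] at huv
      simp at huv
    · rw [if_neg hu, if_pos hv] at huv
      simp at huv
    · rw [if_neg hu, if_neg hv] at huv
      exact k1.i2 u (hall u) v (hall v) hu hv (Sum.inr.inj huv)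
  · intro u v huv
    obtain ⟨l1, l2, d, l3, l4⟩ := k1.i5 u v huv (hall v)
    refine ⟨d, ?_, ?_⟩
    · simp only
      rw [if_pos l2, l3]
    · simp only
      rw [if_neg (fun h => h u huv), l4]
  · apply k6
    rintro rfl
    obtain ⟨v⟩ := (inferInstance : Nonempty V)
    simpa using hall v
  · rw [← hlen]
    simpa using k5

end Pool.Agent.T6.H90.SL
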