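import Pool.Agent.T6.H90.SL.Defs

set_option autoImplicit false

/-!
# Module C: augmentation
-/

namespace Pool.Agent.T6.H90.SL

namespace ModC

/-- The darts of the augmented map. -/
inductive DD (D : Type) : Type
  | d0 (d : D) : DD D
  | d1 (d : D) : DD D
  | d2 (d : D) : DD D
  | d3 (d : D) : DD D
  | d4 (d : D) : DD D

open DD

variable {B W F D : Type}

/-- The darts of the augmented map are five copies of the darts. -/
def ddEquiv (D : Type) : DD D ≃ D × Fin 5 where
  toFun x := match x with
    | d0 d => (d, 0)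
    | d1 d => (d, 1)
    | d2 d => (d, 2)
    | d3 d => (d, 3)
    | d4 d => (d, 4)
  invFun p := match p with
    | (d, 0) => d0 d
    | (d, 1) => d1 d
    | (d, 2) => d2 d
    | (d, 3) => d3 d
    | (d, 4) => d4 d
  left_inv x := by cases x <;> rfl
  right_inv p := by
    obtain ⟨d, i⟩ := p
    fin_cases i <;> rfl

instance [Fintype D] : Fintype (DD D) := Fintype.ofEquiv _ (ddEquiv D).symm

lemma card_DD [Fintype D] : Fintype.card (DD D) = 5 * Fintype.card D := by
  rw [Fintype.card_congr (ddEquiv D), Fintype.card_prod, Fintype.card_fin]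
  ring

/-- The black rotation. -/
def be (β ω : Equiv.Perm D) : Equiv.Perm (DD D) where
  toFun x := match x with
    | d0 d => d1 d
    | d1 d => d0 (β d)
    | d2 d => d3 (β⁻¹ d)
    | d3 d => d4 (ω (β d))
    | d4 d => d2 (ω⁻¹ d)
  invFun x := match x with
    | d0 d => d1 (β⁻¹ d)
    | d1 d => d0 d
    | d2 d => d4 (ω d)
    | d3 d => d2 (β d)
    | d4 d => d3 (β⁻¹ (ω⁻¹ d))
  left_inv x := by cases x <;> simp
  right_inv x := by cases x <;> simp

/-- The white rotation. -/
def om (ω : Equiv.Perm D) : Equiv.Perm (DD D) where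
  toFun x := match x with
    | d0 d => d2 d
    | d1 d => d4 d
    | d2 d => d0 (ω d)
    | d3 d => d1 d
    | d4 d => d3 d
  invFun x := match x with
    | d0 d => d2 (ω⁻¹ d)
    | d1 d => d3 d
    | d2 d => d0 d
    | d3 d => d4 d
    | d4 d => d1 d
  left_inv x := by cases x <;> simp
  right_inv x := by cases x <;> simp

lemma same_of_step {S T : Type} {τ : Equiv.Perm S} {τ' : Equiv.Perm T} (i : S → T)
    (h : ∀ x, τ'.SameCycle (i x) (i (τ x))) {x y : S} (hxy : τ.SameCycle x y) :
    τ'.SameCycle (i x) (i y) := by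
  obtain ⟨n, rfl⟩ := hxy
  induction n using Int.induction_on with
  | zero => simpa using Equiv.Perm.SameCycle.refl τ' (i x)
  | succ k ih =>
    have := h ((τ ^ (k : ℤ)) x)
    rw [add_comm, zpow_add, Equiv.Perm.mul_apply, zpow_one]
    exact ih.trans this
  | pred k ih =>
    have := h ((τ ^ (-(k : ℤ) - 1)) x)
    rw [← Equiv.Perm.mul_apply, ← zpow_one_add, show (1 : ℤ) + (-(k : ℤ) - 1) = -(k : ℤ) by ring]
      at this
    exact ih.trans this.symm

lemma label_of_same {S T : Type} {τ : Equiv.Perm S} (l : S → T) (h : ∀ x, l (τ x) = l x)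
    {x y : S} (hxy : τ.SameCycle x y) : l x = l y := by
  obtain ⟨n, rfl⟩ := hxy
  induction n using Int.induction_on with
  | zero => simp
  | succ k ih =>
    rw [add_comm, zpow_add, Equiv.Perm.mul_apply, zpow_one, h]
    exact ih
  | pred k ih =>
    have := h ((τ ^ (-(k : ℤ) - 1)) x)
    rw [← Equiv.Perm.mul_apply, ← zpow_one_add, show (1 : ℤ) + (-(k : ℤ) - 1) = -(k : ℤ) by ring]
      at this
    rw [ih, this]

lemma same_step {S : Type} (τ : Equiv.Perm S) (x : S) : τ.SameCycle x (τ x) :=
  Equiv.Perm.SameCycle.rfl.apply_right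

section

variable [Fintype B] [Fintype W] [Fintype F] [Fintype D]

lemma b_be (H : PH B W F D) (d : D) : H.b (H.β d) = H.b d :=
  ((H.b_iff _ _).2 (same_step _ _)).symm

lemma w_om (H : PH B W F D) (d : D) : H.w (H.ω d) = H.w d :=
  ((H.w_iff _ _).2 (same_step _ _)).symm

lemma f_ph (H : PH B W F D) (d : D) : H.f (H.ω (H.β d)) = H.f d :=
  ((H.f_iff _ _).2 (same_step _ _)).symm

lemma b_be' (H : PH B W F D) (d : D) : H.b (H.β⁻¹ d) = H.b d := by
  have := b_be H (H.β⁻¹ d)
  simpa using this.symm

lemma w_om' (H : PH B W F D) (d : D) : H.w (H.ω⁻¹ d) = H.w d := by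
  have := w_om H (H.ω⁻¹ d)
  simpa using this.symm

lemma ph_ne (H : PH B W F D) (hD : 2 ≤ Fintype.card D) (d : D) : H.ω (H.β d) ≠ d := by
  intro h
  have h1 : H.β d = d := by
    apply H.simple
    · exact b_be H d
    · rw [← w_om H (H.β d), h]
  have h2 : H.ω d = d := by rw [h1] at h; exact h
  have h3 : ∀ e, e = d := fun e => H.conn (fun x => x = d) (fun x hx => by rw [hx]; exact h1)
    (fun x hx => by rw [hx]; exact h2) d e rfl
  have h4 : Fintype.card D ≤ 1 := Fintype.card_le_one_iff.2 fun x y => by rw [h3 x, h3 y]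
  omega

lemma two_face (H : PH B W F D) (hD : 2 ≤ Fintype.card D) :
    2 * Fintype.card F ≤ Fintype.card D := by
  classical
  obtain ⟨s, hs⟩ := H.f_surj.hasRightInverse
  have hinj : Function.Injective
      (fun p : F ⊕ F => Sum.elim (fun y => s y) (fun y => H.ω (H.β (s y))) p) := by
    rintro (x | x) (y | y) h
    · simp only [Sum.elim_inl] at h
      have := congrArg H.f h
      rw [hs, hs] at this
      rw [this]
    · exfalso
      simp only [Sum.elim_inl, Sum.elim_inr] at h
      have := congrArg H.f h
      rw [f_ph, hs, hs] at this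
      rw [this] at h
      exact ph_ne H hD _ h.symm
    · exfalso
      simp only [Sum.elim_inl, Sum.elim_inr] at h
      have := congrArg H.f h
      rw [f_ph, hs, hs] at this
      rw [this] at h
      exact ph_ne H hD _ h
    · simp only [Sum.elim_inr] at h
      have := congrArg H.f h
      rw [f_ph, f_ph, hs, hs] at this
      rw [this]
  have := Fintype.card_le_of_injective _ hinj
  rw [Fintype.card_sum] at this
  omega

/-- The black label. -/
def lb' (H : PH B W F D) : DD D → B ⊕ D
  | d0 d => Sum.inl (H.b d)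
  | d1 d => Sum.inl (H.b d)
  | d2 d => Sum.inr d
  | d3 d => Sum.inr (H.β d)
  | d4 d => Sum.inr (H.ω⁻¹ d)

/-- The white label. -/
def lw' (H : PH B W F D) : DD D → W ⊕ D
  | d0 d => Sum.inl (H.w d)
  | d1 d => Sum.inr d
  | d2 d => Sum.inl (H.w d)
  | d3 d => Sum.inr d
  | d4 d => Sum.inr d

/-- The face label. -/
def lf' (H : PH B W F D) : DD D → (D ⊕ D) ⊕ F
  | d0 d => Sum.inl (Sum.inl d)
  | d1 d => Sum.inl (Sum.inr d)
  | d2 d => Sum.inl (Sum.inr (H.β⁻¹ d))
  | d3 d => Sum.inr (H.f d)
  | d4 d => Sum.inl (Sum.inl d)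

lemma b_iff' (H : PH B W F D) (x y : DD D) :
    lb' H x = lb' H y ↔ (be H.β H.ω).SameCycle x y := by
  constructor
  · have hr : ∀ d e, H.b d = H.b e → (be H.β H.ω).SameCycle (d0 d) (d0 e) := by
      intro d e h
      refine same_of_step (τ := H.β) (τ' := be H.β H.ω) d0 (fun z => ?_) ((H.b_iff d e).1 h)
      exact (same_step (be H.β H.ω) (d0 z)).trans (same_step (be H.β H.ω) (d1 z))
    have h1 : ∀ d, (be H.β H.ω).SameCycle (d0 d) (d1 d) := fun d => same_step _ (d0 d)
    have h3 : ∀ d, (be H.β H.ω).SameCycle (d2 (H.β d)) (d3 d) := fun d => by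
      have := same_step (be H.β H.ω) (d2 (H.β d))
      simpa [be] using this
    have h4 : ∀ d, (be H.β H.ω).SameCycle (d4 d) (d2 (H.ω⁻¹ d)) := fun d =>
      same_step (be H.β H.ω) (d4 d)
    intro h
    cases x with
    | d0 d =>
      cases y with
      | d0 e => exact hr d e (Sum.inl.inj h)
      | d1 e => exact (hr d e (Sum.inl.inj h)).trans (h1 e)
      | d2 e => exact absurd h (by simp [lb'])
      | d3 e => exact absurd h (by simp [lb'])
      | d4 e => exact absurd h (by simp [lb'])
    | d1 d =>
      cases y with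
      | d0 e => exact (h1 d).symm.trans (hr d e (Sum.inl.inj h))
      | d1 e => exact (h1 d).symm.trans ((hr d e (Sum.inl.inj h)).trans (h1 e))
      | d2 e => exact absurd h (by simp [lb'])
      | d3 e => exact absurd h (by simp [lb'])
      | d4 e => exact absurd h (by simp [lb'])
    | d2 d =>
      cases y with
      | d0 e => exact absurd h (by simp [lb'])
      | d1 e => exact absurd h (by simp [lb'])
      | d2 e =>
        have : d = e := Sum.inr.inj h
        rw [this]
      | d3 e =>
        have : d = H.β e := Sum.inr.inj h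
        rw [this]
        exact h3 e
      | d4 e =>
        have : d = H.ω⁻¹ e := Sum.inr.inj h
        rw [this]
        exact (h4 e).symm
    | d3 d =>
      cases y with
      | d0 e => exact absurd h (by simp [lb'])
      | d1 e => exact absurd h (by simp [lb'])
      | d2 e =>
        have : H.β d = e := Sum.inr.inj h
        rw [← this]
        exact (h3 d).symm
      | d3 e =>
        have : H.β d = H.β e := Sum.inr.inj h
        rw [H.β.injective this]
      | d4 e =>
        have : H.β d = H.ω⁻¹ e := Sum.inr.inj h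
        refine (h3 d).symm.trans ?_
        rw [this]
        exact (h4 e).symm
    | d4 d =>
      cases y with
      | d0 e => exact absurd h (by simp [lb'])
      | d1 e => exact absurd h (by simp [lb'])
      | d2 e =>
        have : H.ω⁻¹ d = e := Sum.inr.inj h
        rw [← this]
        exact h4 d
      | d3 e =>
        have : H.ω⁻¹ d = H.β e := Sum.inr.inj h
        refine (h4 d).trans ?_
        rw [this]
        exact h3 e
      | d4 e =>
        have : H.ω⁻¹ d = H.ω⁻¹ e := Sum.inr.inj h
        rw [H.ω⁻¹.injective this]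
  · intro h
    refine label_of_same (τ := be H.β H.ω) (lb' H) (fun z => ?_) h
    cases z with
    | d0 d => rfl
    | d1 d => exact congrArg Sum.inl (b_be H d)
    | d2 d =>
      change Sum.inr (H.β (H.β⁻¹ d)) = Sum.inr d
      simp
    | d3 d =>
      change Sum.inr (H.ω⁻¹ (H.ω (H.β d))) = Sum.inr (H.β d)
      simp
    | d4 d => rfl

lemma w_iff' (H : PH B W F D) (x y : DD D) :
    lw' H x = lw' H y ↔ (om H.ω).SameCycle x y := by
  constructor
  · have hr : ∀ d e, H.w d = H.w e → (om H.ω).SameCycle (d0 d) (d0 e) := by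
      intro d e h
      refine same_of_step (τ := H.ω) (τ' := om H.ω) d0 (fun z => ?_) ((H.w_iff d e).1 h)
      exact (same_step (om H.ω) (d0 z)).trans (same_step (om H.ω) (d2 z))
    have h2 : ∀ d, (om H.ω).SameCycle (d0 d) (d2 d) := fun d => same_step _ (d0 d)
    have h14 : ∀ d, (om H.ω).SameCycle (d1 d) (d4 d) := fun d => same_step _ (d1 d)
    have h43 : ∀ d, (om H.ω).SameCycle (d4 d) (d3 d) := fun d => same_step _ (d4 d)
    have h31 : ∀ d, (om H.ω).SameCycle (d3 d) (d1 d) := fun d => same_step _ (d3 d)
    intro h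
    cases x with
    | d0 d =>
      cases y with
      | d0 e => exact hr d e (Sum.inl.inj h)
      | d1 e => exact absurd h (by simp [lw'])
      | d2 e => exact (hr d e (Sum.inl.inj h)).trans (h2 e)
      | d3 e => exact absurd h (by simp [lw'])
      | d4 e => exact absurd h (by simp [lw'])
    | d1 d =>
      cases y with
      | d0 e => exact absurd h (by simp [lw'])
      | d1 e =>
        have : d = e := Sum.inr.inj h
        rw [this]
      | d2 e => exact absurd h (by simp [lw'])
      | d3 e =>
        have : d = e := Sum.inr.inj h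
        rw [this]
        exact (h31 e).symm
      | d4 e =>
        have : d = e := Sum.inr.inj h
        rw [this]
        exact h14 e
    | d2 d =>
      cases y with
      | d0 e => exact (h2 d).symm.trans (hr d e (Sum.inl.inj h))
      | d1 e => exact absurd h (by simp [lw'])
      | d2 e => exact (h2 d).symm.trans ((hr d e (Sum.inl.inj h)).trans (h2 e))
      | d3 e => exact absurd h (by simp [lw'])
      | d4 e => exact absurd h (by simp [lw'])
    | d3 d =>
      cases y with
      | d0 e => exact absurd h (by simp [lw'])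
      | d1 e =>
        have : d = e := Sum.inr.inj h
        rw [this]
        exact h31 e
      | d2 e => exact absurd h (by simp [lw'])
      | d3 e =>
        have : d = e := Sum.inr.inj h
        rw [this]
      | d4 e =>
        have : d = e := Sum.inr.inj h
        rw [this]
        exact (h43 e).symm
    | d4 d =>
      cases y with
      | d0 e => exact absurd h (by simp [lw'])
      | d1 e =>
        have : d = e := Sum.inr.inj h
        rw [this]
        exact (h14 e).symm
      | d2 e => exact absurd h (by simp [lw'])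
      | d3 e =>
        have : d = e := Sum.inr.inj h
        rw [this]
        exact h43 e
      | d4 e =>
        have : d = e := Sum.inr.inj h
        rw [this]
  · intro h
    refine label_of_same (τ := om H.ω) (lw' H) (fun z => ?_) h
    cases z with
    | d0 d => rfl
    | d1 d => rfl
    | d2 d => exact congrArg Sum.inl (w_om H d)
    | d3 d => rfl
    | d4 d => rfl

lemma phi0 (H : PH B W F D) (d : D) : (om H.ω * be H.β H.ω) (d0 d) = d4 d := rfl

lemma phi1 (H : PH B W F D) (d : D) : (om H.ω * be H.β H.ω) (d1 d) = d2 (H.β d) := rfl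

lemma phi2 (H : PH B W F D) (d : D) : (om H.ω * be H.β H.ω) (d2 d) = d1 (H.β⁻¹ d) := rfl

lemma phi3 (H : PH B W F D) (d : D) :
    (om H.ω * be H.β H.ω) (d3 d) = d3 (H.ω (H.β d)) := rfl

lemma phi4 (H : PH B W F D) (d : D) : (om H.ω * be H.β H.ω) (d4 d) = d0 d := by
  change d0 (H.ω (H.ω⁻¹ d)) = d0 d
  simp

lemma f_iff' (H : PH B W F D) (x y : DD D) :
    lf' H x = lf' H y ↔ (om H.ω * be H.β H.ω).SameCycle x y := by
  constructor
  · have h3 : ∀ d e, H.f d = H.f e → (om H.ω * be H.β H.ω).SameCycle (d3 d) (d3 e) := by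
      intro d e h
      refine same_of_step (τ := H.ω * H.β) (τ' := om H.ω * be H.β H.ω) d3 (fun z => ?_)
        ((H.f_iff d e).1 h)
      exact same_step (om H.ω * be H.β H.ω) (d3 z)
    have h04 : ∀ d, (om H.ω * be H.β H.ω).SameCycle (d0 d) (d4 d) := fun d =>
      same_step (om H.ω * be H.β H.ω) (d0 d)
    have h21 : ∀ d, (om H.ω * be H.β H.ω).SameCycle (d2 d) (d1 (H.β⁻¹ d)) := fun d =>
      same_step (om H.ω * be H.β H.ω) (d2 d)
    intro h
    cases x with
    | d0 d =>
      cases y with
      | d0 e =>
        have : d = e := Sum.inl.inj (Sum.inl.inj h)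
        rw [this]
      | d1 e => exact absurd h (by simp [lf'])
      | d2 e => exact absurd h (by simp [lf'])
      | d3 e => exact absurd h (by simp [lf'])
      | d4 e =>
        have : d = e := Sum.inl.inj (Sum.inl.inj h)
        rw [this]
        exact h04 e
    | d1 d =>
      cases y with
      | d0 e => exact absurd h (by simp [lf'])
      | d1 e =>
        have : d = e := Sum.inr.inj (Sum.inl.inj h)
        rw [this]
      | d2 e =>
        have : d = H.β⁻¹ e := Sum.inr.inj (Sum.inl.inj h)
        rw [this]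
        exact (h21 e).symm
      | d3 e => exact absurd h (by simp [lf'])
      | d4 e => exact absurd h (by simp [lf'])
    | d2 d =>
      cases y with
      | d0 e => exact absurd h (by simp [lf'])
      | d1 e =>
        have : H.β⁻¹ d = e := Sum.inr.inj (Sum.inl.inj h)
        rw [← this]
        exact h21 d
      | d2 e =>
        have : H.β⁻¹ d = H.β⁻¹ e := Sum.inr.inj (Sum.inl.inj h)
        rw [H.β⁻¹.injective this]
      | d3 e => exact absurd h (by simp [lf'])
      | d4 e => exact absurd h (by simp [lf'])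
    | d3 d =>
      cases y with
      | d0 e => exact absurd h (by simp [lf'])
      | d1 e => exact absurd h (by simp [lf'])
      | d2 e => exact absurd h (by simp [lf'])
      | d3 e => exact h3 d e (Sum.inr.inj h)
      | d4 e => exact absurd h (by simp [lf'])
    | d4 d =>
      cases y with
      | d0 e =>
        have : d = e := Sum.inl.inj (Sum.inl.inj h)
        rw [this]
        exact (h04 e).symm
      | d1 e => exact absurd h (by simp [lf'])
      | d2 e => exact absurd h (by simp [lf'])
      | d3 e => exact absurd h (by simp [lf'])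
      | d4 e =>
        have : d = e := Sum.inl.inj (Sum.inl.inj h)
        rw [this]
  · intro h
    refine label_of_same (τ := om H.ω * be H.β H.ω) (lf' H) (fun z => ?_) h
    cases z with
    | d0 d => rfl
    | d1 d =>
      change Sum.inl (Sum.inr (H.β⁻¹ (H.β d))) = Sum.inl (Sum.inr d)
      simp
    | d2 d => rfl
    | d3 d => exact congrArg Sum.inr (f_ph H d)
    | d4 d => rw [phi4]; rfl

/-- The augmented map. -/
def aug (H : PH B W F D) (hD : 2 ≤ Fintype.card D) : PH (B ⊕ D) (W ⊕ D) ((D ⊕ D) ⊕ F) (DD D) where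
  β := be H.β H.ω
  ω := om H.ω
  b := lb' H
  w := lw' H
  f := lf' H
  b_surj := by
    rintro (x | d)
    · obtain ⟨d, rfl⟩ := H.b_surj x
      exact ⟨d0 d, rfl⟩
    · exact ⟨d2 d, rfl⟩
  w_surj := by
    rintro (x | d)
    · obtain ⟨d, rfl⟩ := H.w_surj x
      exact ⟨d0 d, rfl⟩
    · exact ⟨d1 d, rfl⟩
  f_surj := by
    rintro ((d | d) | x)
    · exact ⟨d0 d, rfl⟩
    · exact ⟨d1 d, rfl⟩
    · obtain ⟨d, rfl⟩ := H.f_surj x
      exact ⟨d3 d, rfl⟩
  b_iff := b_iff' H
  w_iff := w_iff' H
  f_iff := f_iff' H
  conn := by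
    intro P hb hw x y hx
    have q1 : ∀ d, P (d0 d) → P (d1 d) := fun d h => hb _ h
    have q2 : ∀ d, P (d0 d) → P (d2 d) := fun d h => hw _ h
    have q4 : ∀ d, P (d1 d) → P (d4 d) := fun d h => hw _ h
    have q3 : ∀ d, P (d4 d) → P (d3 d) := fun d h => hw _ h
    have q31 : ∀ d, P (d3 d) → P (d1 d) := fun d h => hw _ h
    have q10 : ∀ d, P (d1 d) → P (d0 (H.β d)) := fun d h => hb _ h
    have q20 : ∀ d, P (d2 d) → P (d0 (H.ω d)) := fun d h => hw _ h
    have hx0 : ∃ d, P (d0 d) := by
      cases x with
      | d0 d => exact ⟨_, hx⟩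
      | d1 d => exact ⟨_, q10 _ hx⟩
      | d2 d => exact ⟨_, q20 _ hx⟩
      | d3 d => exact ⟨_, q10 _ (q31 _ hx)⟩
      | d4 d => exact ⟨_, q10 _ (q31 _ (q3 _ hx))⟩
    obtain ⟨d, hd⟩ := hx0
    have hall : ∀ e, P (d0 e) := fun e => H.conn (fun z => P (d0 z))
      (fun z hz => q10 _ (q1 _ hz)) (fun z hz => q20 _ (q2 _ hz)) d e hd
    cases y with
    | d0 e => exact hall e
    | d1 e => exact q1 _ (hall e)
    | d2 e => exact q2 _ (hall e)
    | d3 e => exact q3 _ (q4 _ (q1 _ (hall e)))
    | d4 e => exact q4 _ (q1 _ (hall e))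
  euler := by
    have := H.euler
    rw [card_DD, Fintype.card_sum, Fintype.card_sum, Fintype.card_sum, Fintype.card_sum]
    omega
  simple := by
    have hne : ∀ d, H.β d ≠ H.ω⁻¹ d := by
      intro d h
      apply ph_ne H hD d
      rw [h]
      simp
    intro x y hb hw
    cases x with
    | d0 d =>
      cases y with
      | d0 e => rw [H.simple d e (Sum.inl.inj hb) (Sum.inl.inj hw)]
      | d1 e => exact absurd hw (by simp [lw'])
      | d2 e => exact absurd hb (by simp [lb'])
      | d3 e => exact absurd hw (by simp [lw'])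
      | d4 e => exact absurd hw (by simp [lw'])
    | d1 d =>
      cases y with
      | d0 e => exact absurd hw (by simp [lw'])
      | d1 e =>
        have : d = e := Sum.inr.inj hw
        rw [this]
      | d2 e => exact absurd hw (by simp [lw'])
      | d3 e => exact absurd hb (by simp [lb'])
      | d4 e => exact absurd hb (by simp [lb'])
    | d2 d =>
      cases y with
      | d0 e => exact absurd hb (by simp [lb'])
      | d1 e => exact absurd hw (by simp [lw'])
      | d2 e =>
        have : d = e := Sum.inr.inj hb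
        rw [this]
      | d3 e => exact absurd hw (by simp [lw'])
      | d4 e => exact absurd hw (by simp [lw'])
    | d3 d =>
      cases y with
      | d0 e => exact absurd hw (by simp [lw'])
      | d1 e => exact absurd hb (by simp [lb'])
      | d2 e => exact absurd hw (by simp [lw'])
      | d3 e =>
        have : d = e := Sum.inr.inj hw
        rw [this]
      | d4 e =>
        have h1 : d = e := Sum.inr.inj hw
        have h2 : H.β d = H.ω⁻¹ e := Sum.inr.inj hb
        rw [h1] at h2
        exact absurd h2 (hne e)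
    | d4 d =>
      cases y with
      | d0 e => exact absurd hw (by simp [lw'])
      | d1 e => exact absurd hb (by simp [lb'])
      | d2 e => exact absurd hw (by simp [lw'])
      | d3 e =>
        have h1 : d = e := Sum.inr.inj hw
        have h2 : H.ω⁻¹ d = H.β e := Sum.inr.inj hb
        rw [h1] at h2
        exact absurd h2.symm (hne e)
      | d4 e =>
        have : d = e := Sum.inr.inj hw
        rw [this]

lemma star_aug (H : PH B W F D) (hD : 2 ≤ Fintype.card D) : Star (aug H hD) := by
  have e0 : ∀ d, (aug H hD).f ((aug H hD).β⁻¹ (d0 d)) = Sum.inl (Sum.inr (H.β⁻¹ d)) :=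
    fun d => rfl
  have e1 : ∀ d, (aug H hD).f ((aug H hD).β⁻¹ (d1 d)) = Sum.inl (Sum.inl d) := fun d => rfl
  have e2 : ∀ d, (aug H hD).f ((aug H hD).β⁻¹ (d2 d)) = Sum.inl (Sum.inl (H.ω d)) := fun d => rfl
  have e3 : ∀ d, (aug H hD).f ((aug H hD).β⁻¹ (d3 d)) = Sum.inl (Sum.inr d) := fun d => by
    change Sum.inl (Sum.inr (H.β⁻¹ (H.β d))) = Sum.inl (Sum.inr d)
    simp
  have e4 : ∀ d, (aug H hD).f ((aug H hD).β⁻¹ (d4 d)) = Sum.inr (H.f (H.β⁻¹ (H.ω⁻¹ d))) :=
    fun d => rfl
  intro x y hw hf
  change lw' H x = lw' H y at hw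
  cases x with
  | d0 d =>
    cases y with
    | d0 e =>
      rw [e0, e0] at hf
      rw [H.β⁻¹.injective (Sum.inr.inj (Sum.inl.inj hf))]
    | d1 e => exact absurd hw (by simp [lw'])
    | d2 e =>
      rw [e0, e2] at hf
      exact absurd hf (by simp)
    | d3 e => exact absurd hw (by simp [lw'])
    | d4 e => exact absurd hw (by simp [lw'])
  | d1 d =>
    cases y with
    | d0 e => exact absurd hw (by simp [lw'])
    | d1 e =>
      have : d = e := Sum.inr.inj hw
      rw [this]
    | d2 e => exact absurd hw (by simp [lw'])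
    | d3 e =>
      rw [e1, e3] at hf
      exact absurd hf (by simp)
    | d4 e =>
      rw [e1, e4] at hf
      exact absurd hf (by simp)
  | d2 d =>
    cases y with
    | d0 e =>
      rw [e2, e0] at hf
      exact absurd hf (by simp)
    | d1 e => exact absurd hw (by simp [lw'])
    | d2 e =>
      rw [e2, e2] at hf
      rw [H.ω.injective (Sum.inl.inj (Sum.inl.inj hf))]
    | d3 e => exact absurd hw (by simp [lw'])
    | d4 e => exact absurd hw (by simp [lw'])
  | d3 d =>
    cases y with
    | d0 e => exact absurd hw (by simp [lw'])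
    | d1 e =>
      rw [e3, e1] at hf
      exact absurd hf (by simp)
    | d2 e => exact absurd hw (by simp [lw'])
    | d3 e =>
      have : d = e := Sum.inr.inj hw
      rw [this]
    | d4 e =>
      rw [e3, e4] at hf
      exact absurd hf (by simp)
  | d4 d =>
    cases y with
    | d0 e => exact absurd hw (by simp [lw'])
    | d1 e =>
      rw [e4, e1] at hf
      exact absurd hf (by simp)
    | d2 e => exact absurd hw (by simp [lw'])
    | d3 e =>
      rw [e4, e3] at hf
      exact absurd hf (by simp)
    | d4 e =>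
      have : d = e := Sum.inr.inj hw
      rw [this]

end

end ModC

open ModC in
theorem c : StmtC := by
  intro B W F D _ _ _ _ H hD
  refine ⟨B ⊕ D, W ⊕ D, (D ⊕ D) ⊕ F, DD D, inferInstance, inferInstance, inferInstance,
    inferInstance, aug H hD, Sum.inl, Sum.inl, Sum.inl_injective, Sum.inl_injective, ?_,
    star_aug H hD, ?_⟩
  · intro d
    exact ⟨DD.d0 d, rfl, rfl⟩
  · have h1 := two_face H hD
    have h2 := H.euler
    simp only [Fintype.card_sum]
    omega

end Pool.Agent.T6.H90.SL
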