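import Pool.Agent.T6.H90.SL.Defs

set_option autoImplicit false

/-!
# Module D: the graph on `B ⊕ F` is 2-connected
-/

namespace Pool.Agent.T6.H90.SL

namespace ModD

lemma const_of_step {S : Type} (τ : Equiv.Perm S) (Q : S → Prop) (s₀ : S)
    (h : ∀ s, τ.SameCycle s₀ s → s ≠ s₀ → (Q s ↔ Q (τ s))) :
    ∀ (k : ℕ) (s : S), τ.SameCycle s₀ s → (τ ^ k) s = s₀ → (Q s ↔ Q s₀) := by
  intro k
  induction k with
  | zero =>
    intro s _ hs
    simp only [pow_zero, Equiv.Perm.coe_one, id_eq] at hs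
    rw [hs]
  | succ k ih =>
    intro s hc hs
    by_cases hne : s = s₀
    · rw [hne]
    · rw [h s hc hne]
      refine ih (τ s) hc.apply_right ?_
      rw [← hs, pow_succ, Equiv.Perm.mul_apply]

lemma const_of_bad {S : Type} [Finite S] (τ : Equiv.Perm S) (Q bad : S → Prop)
    (h : ∀ s, ¬ bad s → (Q s ↔ Q (τ s)))
    (hu : ∀ s s', bad s → bad s' → τ.SameCycle s s' → s = s') :
    ∀ s s', τ.SameCycle s s' → (Q s ↔ Q s') := by
  intro s s' hs
  have key : ∀ s₀, τ.SameCycle s₀ s → (∀ s, τ.SameCycle s₀ s → s ≠ s₀ → (Q s ↔ Q (τ s))) →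
      (Q s ↔ Q s') := by
    intro s₀ h0 hk
    obtain ⟨k, hk1⟩ := h0.symm.exists_nat_pow_eq
    obtain ⟨l, hl1⟩ := (h0.trans hs).symm.exists_nat_pow_eq
    rw [const_of_step τ Q s₀ hk k s h0 hk1, const_of_step τ Q s₀ hk l s' (h0.trans hs) hl1]
  by_cases hb : ∃ s₀, bad s₀ ∧ τ.SameCycle s₀ s
  · obtain ⟨s₀, hb0, hc0⟩ := hb
    refine key s₀ hc0 fun t ht hne => h t fun hbt => hne ?_
    exact (hu s₀ t hb0 hbt ht).symm
  · refine key s (Equiv.Perm.SameCycle.refl _ _) fun t ht _ => h t fun hbt => hb ⟨t, hbt, ht.symm⟩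

end ModD

open ModD in
theorem d : StmtD := by
  intro B W F D _ _ _ _ H hStar u P hP
  have hb : ∀ d, H.b (H.β d) = H.b d := fun d =>
    ((H.b_iff _ _).2 Equiv.Perm.SameCycle.rfl.apply_right).symm
  have hb' : ∀ d, H.b (H.β⁻¹ d) = H.b d := fun d => by
    have := hb (H.β⁻¹ d)
    simpa using this.symm
  have hf : ∀ d, H.f (H.ω (H.β d)) = H.f d := fun d =>
    ((H.f_iff _ _).2 (Equiv.Perm.SameCycle.rfl.apply_right (f := H.ω * H.β))).symm
  have hf' : ∀ d, H.f (H.β⁻¹ d) = H.f (H.ω d) := fun d => by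
    have := hf (H.β⁻¹ d)
    simpa using this.symm
  have hf2 : ∀ d, H.f (H.β⁻¹ (H.ω⁻¹ d)) = H.f d := fun d => by
    have := hf' (H.ω⁻¹ d)
    simpa using this
  have hw : ∀ d e, H.ω.SameCycle d e → H.w d = H.w e := fun d e h => (H.w_iff d e).2 h
  cases u with
  | inl x =>
    have hQ : ∀ s s', H.ω.SameCycle s s' →
        (P (Sum.inr (H.f (H.β⁻¹ s))) ↔ P (Sum.inr (H.f (H.β⁻¹ s')))) := by
      refine const_of_bad H.ω (fun s => P (Sum.inr (H.f (H.β⁻¹ s))))
        (fun s => H.b (H.ω s) = x) ?_ ?_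
      · intro s hs
        have h1 := hP (H.ω s) (by simpa using hs) (by simp)
        have h2 := hP (H.β⁻¹ (H.ω s)) (by rw [hb']; simpa using hs) (by simp)
        rw [hb'] at h2
        change P (Sum.inr (H.f (H.β⁻¹ s))) ↔ P (Sum.inr (H.f (H.β⁻¹ (H.ω s))))
        rw [hf' s, ← h1, h2]
      · intro s s' h1 h2 h3
        have h4 : H.ω s = H.ω s' := by
          refine H.simple _ _ (h1.trans h2.symm) (hw _ _ ?_)
          exact (h3.apply_left).apply_right
        exact H.ω.injective h4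
    have hT : ∀ d e, (P (Sum.inr (H.f (H.β⁻¹ d))) ↔ P (Sum.inr (H.f (H.β⁻¹ e)))) := by
      intro d e
      refine (H.conn (fun z => (P (Sum.inr (H.f (H.β⁻¹ d))) ↔ P (Sum.inr (H.f (H.β⁻¹ z)))))
        ?_ ?_ d e Iff.rfl)
      · intro z hz
        rw [hz]
        have h1 := hQ (H.ω⁻¹ z) z (by
          have := (Equiv.Perm.SameCycle.rfl (f := H.ω) (x := H.ω⁻¹ z)).apply_right
          simpa using this)
        rw [hf2] at h1
        change _ ↔ P (Sum.inr (H.f (H.β⁻¹ (H.β z))))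
        rw [← h1]
        simp
      · intro z hz
        rw [hz]
        exact hQ z (H.ω z) Equiv.Perm.SameCycle.rfl.apply_right
    have hall : ∀ z, z ≠ Sum.inl x → ∃ d, (P z ↔ P (Sum.inr (H.f (H.β⁻¹ d)))) := by
      intro z hz
      cases z with
      | inl a =>
        obtain ⟨d, rfl⟩ := H.b_surj a
        refine ⟨H.β d, ?_⟩
        rw [hP d hz (by simp)]
        simp
      | inr y =>
        obtain ⟨d, rfl⟩ := H.f_surj y
        exact ⟨H.β d, by simp⟩
    intro z z' hz hz'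
    obtain ⟨d, hd⟩ := hall z hz
    obtain ⟨d', hd'⟩ := hall z' hz'
    rw [hd, hd']
    exact hT d d'
  | inr y =>
    have hQ : ∀ s s', H.ω.SameCycle s s' →
        (P (Sum.inl (H.b s)) ↔ P (Sum.inl (H.b s'))) := by
      refine const_of_bad H.ω (fun s => P (Sum.inl (H.b s)))
        (fun s => H.f (H.β⁻¹ s) = y) ?_ ?_
      · intro s hs
        have h1 := hP (H.β⁻¹ s) (by simp) (by simpa using hs)
        have h2 := hP (H.ω s) (by simp) (by rw [← hf']; simpa using hs)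
        rw [hb'] at h1
        change P (Sum.inl (H.b s)) ↔ P (Sum.inl (H.b (H.ω s)))
        rw [h1, h2, hf']
      · intro s s' h1 h2 h3
        exact hStar s s' (hw _ _ h3) (h1.trans h2.symm)
    have hT : ∀ d e, (P (Sum.inl (H.b d)) ↔ P (Sum.inl (H.b e))) := by
      intro d e
      refine (H.conn (fun z => (P (Sum.inl (H.b d)) ↔ P (Sum.inl (H.b z)))) ?_ ?_ d e Iff.rfl)
      · intro z hz
        rw [hz]
        rw [hb]
      · intro z hz
        rw [hz]
        exact hQ z (H.ω z) Equiv.Perm.SameCycle.rfl.apply_right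
    have hall : ∀ z, z ≠ Sum.inr y → ∃ d, (P z ↔ P (Sum.inl (H.b d))) := by
      intro z hz
      cases z with
      | inl a =>
        obtain ⟨d, rfl⟩ := H.b_surj a
        exact ⟨d, Iff.rfl⟩
      | inr y' =>
        obtain ⟨d, rfl⟩ := H.f_surj y'
        exact ⟨d, (hP d (by simp) hz).symm⟩
    intro z z' hz hz'
    obtain ⟨d, hd⟩ := hall z hz
    obtain ⟨d', hd'⟩ := hall z' hz'
    rw [hd, hd']
    exact hT d d'

end Pool.Agent.T6.H90.SL
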