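import Pool.Agent.T6.H90.SL.Defs

set_option autoImplicit false

/-!
# Module E: `st`-numberings of 2-connected graphs

A partial numbering of a vertex set that contains `s` and `t`, in which every other vertex has a
smaller and a larger neighbour, is extended by an ear.
-/

namespace Pool.Agent.T6.H90.SL

namespace ModE

structure Good {V : Type} (G : SimpleGraph V) (s t : V) (S : Finset V) (h : V → ℚ) : Prop where
  hs : s ∈ S
  ht : t ∈ S
  inj : ∀ x ∈ S, ∀ y ∈ S, h x = h y → x = y
  lo : ∀ v ∈ S, v ≠ s → h s < h v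
  hi : ∀ v ∈ S, v ≠ t → h v < h t
  nb : ∀ v ∈ S, v ≠ s → v ≠ t →
    (∃ x ∈ S, G.Adj v x ∧ h x < h v) ∧ ∃ x ∈ S, G.Adj v x ∧ h v < h x

theorem extend {V : Type} [DecidableEq V] {G : SimpleGraph V} {s t : V} {S : Finset V} {h : V → ℚ}
    (hG : Good G s t S h) (u v : V) (hu : u ∈ S) (hv : v ∈ S) (huv : h u < h v) (l : List V)
    (hne : l ≠ []) (hnd : l.Nodup) (hS : ∀ x ∈ l, x ∉ S) (hch : l.IsChain G.Adj)
    (hf : ∀ a, l.head? = some a → G.Adj u a) (hl : ∀ a, l.getLast? = some a → G.Adj a v) :
    ∃ h' : V → ℚ, Good G s t (S ∪ l.toFinset) h' := by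
  obtain ⟨c, hc1, hc2, hc3⟩ : ∃ c : ℚ, h u < c ∧ c ≤ h v ∧ ∀ w ∈ S, h u < h w → c ≤ h w := by
    obtain ⟨w, hw, hmin⟩ := Finset.exists_min_image (S.filter fun w => h u < h w) h
      ⟨v, by simp [hv, huv]⟩
    exact ⟨h w, (Finset.mem_filter.mp hw).2, hmin v (by simp [hv, huv]),
      fun w' hw' h' => hmin w' (by simp [hw', h'])⟩
  have hnpos : 0 < l.length := List.length_pos_iff.mpr hne
  have hcu : 0 < c - h u := by linarith
  have hn1 : (0 : ℚ) < (l.length : ℚ) + 1 := by positivity
  obtain ⟨g, hg⟩ : ∃ g : ℕ → ℚ, g = fun i : ℕ => h u + (c - h u) * (((i : ℚ) + 1) / ((l.length : ℚ) + 1)) :=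
    ⟨_, rfl⟩
  have gmono : ∀ i j, i < j → g i < g j := by
    intro i j hij
    have hij' : (i : ℚ) < j := by exact_mod_cast hij
    have h1 : ((i : ℚ) + 1) / ((l.length : ℚ) + 1) < ((j : ℚ) + 1) / ((l.length : ℚ) + 1) :=
      div_lt_div_of_pos_right (by linarith) hn1
    rw [hg]
    simp only
    nlinarith [mul_lt_mul_of_pos_left h1 hcu]
  have glo : ∀ i, h u < g i := by
    intro i
    have h1 : 0 < ((i : ℚ) + 1) / ((l.length : ℚ) + 1) := by positivity
    rw [hg]
    simp only
    nlinarith [mul_pos hcu h1]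
  have ghi : ∀ i, i < l.length → g i < c := by
    intro i hi
    have hi' : (i : ℚ) < l.length := by exact_mod_cast hi
    have h1 : ((i : ℚ) + 1) / ((l.length : ℚ) + 1) < 1 := by
      rw [div_lt_one hn1]
      linarith
    rw [hg]
    simp only
    nlinarith [mul_lt_mul_of_pos_left h1 hcu]
  obtain ⟨k, hk⟩ : ∃ k : V → ℚ, k = fun x => if x ∈ l then g (l.idxOf x) else h x := ⟨_, rfl⟩
  have kS : ∀ x ∈ S, k x = h x := by
    intro x hx
    have : x ∉ l := fun hx' => hS x hx' hx
    rw [hk]
    simp [this]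
  have kl : ∀ i (hi : i < l.length), k l[i] = g i := by
    intro i hi
    rw [hk]
    simp only [List.getElem_mem, if_true]
    rw [List.Nodup.idxOf_getElem hnd]
  have hmem : ∀ x, x ∈ S ∪ l.toFinset → x ∈ S ∨ ∃ i, ∃ hi : i < l.length, x = l[i] := by
    intro x hx
    rcases Finset.mem_union.mp hx with hx | hx
    · exact Or.inl hx
    · obtain ⟨i, hi, he⟩ := List.mem_iff_getElem.mp (List.mem_toFinset.mp hx)
      exact Or.inr ⟨i, hi, he.symm⟩
  have hmemS : ∀ x ∈ S, x ∈ S ∪ l.toFinset := fun x hx => Finset.mem_union_left _ hx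
  have hmeml : ∀ i (hi : i < l.length), l[i] ∈ S ∪ l.toFinset := fun i hi =>
    Finset.mem_union_right _ (List.mem_toFinset.mpr (List.getElem_mem hi))
  have hdich : ∀ x ∈ S, h x ≤ h u ∨ c ≤ h x := by
    intro x hx
    rcases le_or_gt (h x) (h u) with h1 | h1
    · exact Or.inl h1
    · exact Or.inr (hc3 x hx h1)
  have hsu : h s ≤ h u := by
    by_cases he : u = s
    · rw [he]
    · exact (hG.lo u hu he).le
  have hvt : h v ≤ h t := by
    by_cases he : v = t
    · rw [he]
    · exact (hG.hi v hv he).le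
  refine ⟨k, ⟨hmemS s hG.hs, hmemS t hG.ht, ?_, ?_, ?_, ?_⟩⟩
  · intro x hx y hy hxy
    rcases hmem x hx with hx | ⟨i, hi, rfl⟩
    · rcases hmem y hy with hy | ⟨j, hj, rfl⟩
      · rw [kS x hx, kS y hy] at hxy
        exact hG.inj x hx y hy hxy
      · rw [kS x hx, kl j hj] at hxy
        rcases hdich x hx with h1 | h1
        · linarith [glo j]
        · linarith [ghi j hj]
    · rcases hmem y hy with hy | ⟨j, hj, rfl⟩
      · rw [kS y hy, kl i hi] at hxy
        rcases hdich y hy with h1 | h1
        · linarith [glo i]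
        · linarith [ghi i hi]
      · rw [kl i hi, kl j hj] at hxy
        have : i = j := by
          rcases lt_trichotomy i j with h1 | h1 | h1
          · linarith [gmono i j h1]
          · exact h1
          · linarith [gmono j i h1]
        subst this
        rfl
  · intro x hx hxs
    rw [kS s hG.hs]
    rcases hmem x hx with hx | ⟨i, hi, rfl⟩
    · rw [kS x hx]
      exact hG.lo x hx hxs
    · rw [kl i hi]
      linarith [glo i]
  · intro x hx hxt
    rw [kS t hG.ht]
    rcases hmem x hx with hx | ⟨i, hi, rfl⟩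
    · rw [kS x hx]
      exact hG.hi x hx hxt
    · rw [kl i hi]
      linarith [ghi i hi]
  · intro x hx hxs hxt
    rcases hmem x hx with hx | ⟨i, hi, rfl⟩
    · obtain ⟨⟨a, ha, hxa, hax⟩, b, hb, hxb, hbx⟩ := hG.nb x hx hxs hxt
      refine ⟨⟨a, hmemS a ha, hxa, ?_⟩, b, hmemS b hb, hxb, ?_⟩
      · rw [kS a ha, kS x hx]
        exact hax
      · rw [kS b hb, kS x hx]
        exact hbx
    · rw [kl i hi]
      constructor
      · by_cases h0 : i = 0
        · subst h0
          refine ⟨u, hmemS u hu, ?_, ?_⟩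
          · exact (hf _ (by rw [List.head?_eq_getElem?, List.getElem?_eq_getElem hi])).symm
          · rw [kS u hu]
            exact glo 0
        · obtain ⟨j, rfl⟩ : ∃ j, i = j + 1 := ⟨i - 1, by omega⟩
          refine ⟨l[j]'(by omega), hmeml j (by omega), ?_, ?_⟩
          · exact (List.isChain_iff_getElem.mp hch j hi).symm
          · rw [kl j (by omega)]
            exact gmono j (j + 1) (by omega)
      · by_cases h0 : i + 1 = l.length
        · refine ⟨v, hmemS v hv, ?_, ?_⟩
          · apply hl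
            rw [List.getLast?_eq_getElem?, List.getElem?_eq_some_iff]
            refine ⟨by omega, ?_⟩
            congr 1
            omega
          · rw [kS v hv]
            linarith [ghi i hi]
        · refine ⟨l[i + 1]'(by omega), hmeml (i + 1) (by omega), ?_, ?_⟩
          · exact List.isChain_iff_getElem.mp hch i (by omega)
          · rw [kl (i + 1) (by omega)]
            exact gmono i (i + 1) (by omega)

theorem ear {V : Type} {G : SimpleGraph V} {s t : V} (hst : s ≠ t)
    (hc : ∀ (u : V) (P : V → Prop), (∀ x y, G.Adj x y → x ≠ u → y ≠ u → (P x ↔ P y)) →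
      ∀ x y, x ≠ u → y ≠ u → (P x ↔ P y))
    (S : Finset V) (hs : s ∈ S) (ht : t ∈ S) (x0 : V) (hx0 : x0 ∉ S) :
    ∃ u ∈ S, ∃ v ∈ S, u ≠ v ∧ ∃ a b : {x // x ∉ S}, (G.induce {x | x ∉ S}).Reachable a b ∧
      G.Adj u a ∧ G.Adj b v := by
  classical
  by_contra hcon
  push Not at hcon
  let K : V → Prop := fun x => ∃ hx : x ∉ S, (G.induce {x | x ∉ S}).Reachable ⟨x0, hx0⟩ ⟨x, hx⟩
  have hKS : ∀ x, K x → x ∉ S := fun x hx => hx.1
  have hK0 : K x0 := ⟨hx0, SimpleGraph.Reachable.refl _⟩
  have hstep : ∀ x y, K x → G.Adj x y → y ∉ S → K y := by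
    rintro x y ⟨hx, hr⟩ hxy hy
    refine ⟨hy, hr.trans (SimpleGraph.Adj.reachable ?_)⟩
    exact hxy
  have huniq : ∀ u v a b, u ∈ S → v ∈ S → K a → K b → G.Adj u a → G.Adj v b → u = v := by
    intro u v a b hu hv ha hb hua hvb
    by_contra hne
    exact hcon u hu v hv hne ⟨a, ha.1⟩ ⟨b, hb.1⟩ (ha.2.symm.trans hb.2) hua hvb.symm
  obtain ⟨u, huS, hu⟩ : ∃ u ∈ S, ∀ v a, v ∈ S → K a → G.Adj v a → v = u := by
    by_cases h : ∃ u ∈ S, ∃ a, K a ∧ G.Adj u a
    · obtain ⟨u, hu, a, ha, hua⟩ := h
      exact ⟨u, hu, fun v b hv hb hvb => huniq v u b a hv hu hb ha hvb hua⟩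
    · push Not at h
      exact ⟨s, hs, fun v a hv ha hva => absurd hva (h v hv a ha)⟩
  have key : ∀ x y, G.Adj x y → x ≠ u → y ≠ u → K x → K y := by
    intro x y hxy _ hyu hx
    by_contra hy
    by_cases hyS : y ∈ S
    · exact hyu (hu y x hyS hx hxy.symm)
    · exact hy (hstep x y hx hxy hyS)
  have hP := hc u K (fun x y hxy hxu hyu => ⟨key x y hxy hxu hyu, key y x hxy.symm hyu hxu⟩)
  have hx0u : x0 ≠ u := by
    rintro rfl
    exact hx0 huS
  by_cases hus : s = u
  · have := (hP x0 t hx0u (fun h => hst (hus.trans h.symm))).mp hK0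
    exact hKS t this ht
  · have := (hP x0 s hx0u hus).mp hK0
    exact hKS s this hs

theorem step {V : Type} [DecidableEq V] {G : SimpleGraph V} {s t : V} (hst : s ≠ t)
    (hc : ∀ (u : V) (P : V → Prop), (∀ x y, G.Adj x y → x ≠ u → y ≠ u → (P x ↔ P y)) →
      ∀ x y, x ≠ u → y ≠ u → (P x ↔ P y))
    (S : Finset V) (h : V → ℚ) (hG : Good G s t S h) (x0 : V) (hx0 : x0 ∉ S) :
    ∃ (S' : Finset V) (h' : V → ℚ), S.card < S'.card ∧ Good G s t S' h' := by
  obtain ⟨u, hu, v, hv, huv, a, b, hab, hua, hbv⟩ := ear hst hc S hG.hs hG.ht x0 hx0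
  wlog hlt : h u < h v generalizing u v a b
  · have hlt' : h v < h u := lt_of_le_of_ne (not_lt.mp hlt) (fun he => huv (hG.inj v hv u hu he).symm)
    exact this v hv u hu huv.symm b a hab.symm hbv.symm hua.symm hlt'
  obtain ⟨p, hp⟩ := hab.exists_isPath
  have hne : p.support.map Subtype.val ≠ [] := by
    rw [Ne, List.map_eq_nil_iff]
    exact p.support_ne_nil
  obtain ⟨h', hG'⟩ := extend hG u v hu hv hlt (p.support.map Subtype.val) hne
    (hp.support_nodup.map Subtype.val_injective)
    (by
      intro x hx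
      obtain ⟨y, _, rfl⟩ := List.mem_map.mp hx
      exact y.2)
    (by
      rw [List.isChain_map]
      exact p.isChain_adj_support)
    (by
      intro y hy
      rw [List.head?_map, List.head?_eq_some_head p.support_ne_nil, p.head_support] at hy
      simp only [Option.map_some, Option.some.injEq] at hy
      rw [← hy]
      exact hua)
    (by
      intro y hy
      rw [List.getLast?_map, List.getLast?_eq_some_getLast p.support_ne_nil, p.getLast_support] at hy
      simp only [Option.map_some, Option.some.injEq] at hy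
      rw [← hy]
      exact hbv)
  refine ⟨_, h', ?_, hG'⟩
  apply Finset.card_lt_card
  refine ⟨Finset.subset_union_left, ?_⟩
  intro hsub
  have ha : (a : V) ∈ S := hsub (Finset.mem_union_right _ (List.mem_toFinset.mpr
    (List.mem_map.mpr ⟨a, p.start_mem_support, rfl⟩)))
  exact a.2 ha

theorem full {V : Type} [Fintype V] [DecidableEq V] {G : SimpleGraph V} {s t : V} (hst : s ≠ t)
    (hc : ∀ (u : V) (P : V → Prop), (∀ x y, G.Adj x y → x ≠ u → y ≠ u → (P x ↔ P y)) →
      ∀ x y, x ≠ u → y ≠ u → (P x ↔ P y)) :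
    ∃ h : V → ℚ, Good G s t Finset.univ h := by
  have key : ∀ n : ℕ, ∀ (S : Finset V) (h : V → ℚ), Good G s t S h → Fintype.card V - S.card ≤ n →
      ∃ h : V → ℚ, Good G s t Finset.univ h := by
    intro n
    induction n with
    | zero =>
      intro S h hG hn
      have : S = Finset.univ := by
        apply Finset.eq_univ_of_card
        have := Finset.card_le_univ S
        omega
      subst this
      exact ⟨h, hG⟩
    | succ n ih =>
      intro S h hG hn
      by_cases hS : S = Finset.univ
      · subst hS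
        exact ⟨h, hG⟩
      · obtain ⟨x0, hx0⟩ : ∃ x0, x0 ∉ S := by
          by_contra hcon
          push Not at hcon
          exact hS (Finset.eq_univ_iff_forall.mpr hcon)
        obtain ⟨S', h', hlt, hG'⟩ := step hst hc S h hG x0 hx0
        exact ih S' h' hG' (by omega)
  refine key (Fintype.card V) {s, t} (fun x => if x = t then 1 else 0) ?_ (by omega)
  refine ⟨by simp, by simp, ?_, ?_, ?_, ?_⟩
  · intro x hx y hy hxy
    have hxy' : (if x = t then (1 : ℚ) else 0) = if y = t then 1 else 0 := hxy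
    simp only [Finset.mem_insert, Finset.mem_singleton] at hx hy
    rcases hx with rfl | rfl
    · rcases hy with rfl | rfl
      · rfl
      · rw [if_neg hst, if_pos rfl] at hxy'
        exact absurd hxy' (by norm_num)
    · rcases hy with rfl | rfl
      · rw [if_neg hst, if_pos rfl] at hxy'
        exact absurd hxy' (by norm_num)
      · rfl
  · intro v hv hvs
    simp only [Finset.mem_insert, Finset.mem_singleton] at hv
    rcases hv with rfl | rfl
    · exact absurd rfl hvs
    · show (if s = v then (1 : ℚ) else 0) < if v = v then 1 else 0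
      rw [if_neg hst, if_pos rfl]
      norm_num
  · intro v hv hvt
    simp only [Finset.mem_insert, Finset.mem_singleton] at hv
    rcases hv with rfl | rfl
    · show (if v = t then (1 : ℚ) else 0) < if t = t then 1 else 0
      rw [if_neg hst, if_pos rfl]
      norm_num
    · exact absurd rfl hvt
  · intro v hv hvs hvt
    simp only [Finset.mem_insert, Finset.mem_singleton] at hv
    rcases hv with rfl | rfl
    · exact absurd rfl hvs
    · exact absurd rfl hvt

end ModE

theorem e : StmtE := by
  intro V _ G s t hst hc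
  classical
  obtain ⟨h, hG⟩ := ModE.full hst.ne hc
  have hlt : ∀ x y, h x < h y → (Finset.univ.filter fun w => h w < h x).card <
      (Finset.univ.filter fun w => h w < h y).card := by
    intro x y hxy
    apply Finset.card_lt_card
    refine ⟨?_, ?_⟩
    · intro w hw
      simp only [Finset.mem_filter, Finset.mem_univ, true_and] at hw ⊢
      exact hw.trans hxy
    · intro hsub
      have : x ∈ Finset.univ.filter fun w => h w < h x := hsub (by simp [hxy])
      simp at this
  refine ⟨fun v => (Finset.univ.filter fun w => h w < h v).card, ?_, ?_, ?_, ?_⟩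
  · intro x y hxy
    apply hG.inj x (Finset.mem_univ _) y (Finset.mem_univ _)
    rcases lt_trichotomy (h x) (h y) with h1 | h1 | h1
    · have := hlt x y h1
      simp only at hxy
      omega
    · exact h1
    · have := hlt y x h1
      simp only at hxy
      omega
  · intro v hv
    exact hlt _ _ (hG.lo v (Finset.mem_univ _) hv)
  · intro v hv
    exact hlt _ _ (hG.hi v (Finset.mem_univ _) hv)
  · intro v hvs hvt
    obtain ⟨⟨a, _, hva, hav⟩, b, _, hvb, hbv⟩ := hG.nb v (Finset.mem_univ _) hvs hvt
    exact ⟨⟨a, hva, hlt _ _ hav⟩, b, hvb, hlt _ _ hbv⟩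

end Pool.Agent.T6.H90.SL
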