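import Pool.Agent.T6.H90.SL.Defs

set_option autoImplicit false

/-!
# Module F: an `st`-numbering of a plane map gives a bipolar orientation
-/

namespace Pool.Agent.T6.H90.SL

namespace ModF

/-- A change along a cycle. -/
lemma change_ex {S : Type} [Finite S] (τ : Equiv.Perm S) (p : S → Prop) {d e : S}
    (h : τ.SameCycle d e) (hd : ¬ p d) (he : p e) :
    ∃ z, τ.SameCycle d z ∧ ¬ p (τ⁻¹ z) ∧ p z := by
  obtain ⟨n, hn⟩ := h.exists_nat_pow_eq
  by_contra hcon
  push Not at hcon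
  have key : ∀ k : ℕ, ¬ p ((τ ^ k) d) := by
    intro k
    induction k with
    | zero => simpa using hd
    | succ k ih =>
      refine hcon ((τ ^ (k + 1)) d) ?_ ?_
      · exact ⟨(k + 1 : ℕ), by rw [zpow_natCast]⟩
      · rw [pow_succ', Equiv.Perm.mul_apply]
        simpa using ih
  exact key n (hn ▸ he)

lemma two_le_card {S : Type} [Finite S] {q : S → Prop} {x y : S} (hx : q x) (hy : q y)
    (hne : x ≠ y) : 2 ≤ Nat.card {d // q d} := by
  have : Nontrivial {d // q d} := ⟨⟨⟨x, hx⟩, ⟨y, hy⟩, fun h => hne (Subtype.ext_iff.1 h)⟩⟩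
  have := Finite.one_lt_card (α := {d // q d})
  omega

lemma one_le_card {S : Type} [Finite S] {q : S → Prop} {x : S} (hx : q x) :
    1 ≤ Nat.card {d // q d} := by
  have : Nonempty {d // q d} := ⟨⟨x, hx⟩⟩
  exact Finite.card_pos

/-- Summation over the fibres. -/
lemma sum_fib {S T : Type} [Fintype S] [Fintype T] (l : S → T) (q : S → Prop) :
    ∑ x : T, Nat.card {d // l d = x ∧ q d} = Nat.card {d // q d} := by
  classical
  have h1 : ∀ x, Nat.card {d // l d = x ∧ q d} = ((Finset.univ.filter q).filter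
      (fun d => l d = x)).card := by
    intro x
    rw [Nat.card_eq_fintype_card, Fintype.card_subtype, Finset.filter_filter]
    congr 1
    ext d
    simp [and_comm]
  have h2 : Nat.card {d // q d} = (Finset.univ.filter q).card := by
    rw [Nat.card_eq_fintype_card, Fintype.card_subtype]
  rw [h2, Finset.card_eq_sum_card_fiberwise (f := l) (t := Finset.univ) (by simp)]
  exact Finset.sum_congr rfl fun x _ => h1 x

lemma card_split {S : Type} [Fintype S] (q : S → Prop) :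
    Nat.card {d // ¬ q d} + Nat.card {d // q d} = Fintype.card S := by
  classical
  rw [Nat.card_eq_fintype_card, Nat.card_eq_fintype_card, Fintype.card_subtype,
    Fintype.card_subtype, add_comm]
  exact Finset.card_filter_add_card_filter_not (s := Finset.univ) q

lemma sum_g {T : Type} [Fintype T] [DecidableEq T] (x₀ : T) :
    ∑ x : T, (if x = x₀ then 0 else 2) + 2 = 2 * Fintype.card T := by
  have h : ∀ x : T, (if x = x₀ then 0 else 2) + (if x = x₀ then 2 else 0) = 2 := by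
    intro x
    split_ifs <;> rfl
  have h2 := Finset.sum_congr (rfl : (Finset.univ : Finset T) = Finset.univ) fun x _ => h x
  rw [Finset.sum_add_distrib, Finset.sum_ite_eq' Finset.univ x₀] at h2
  simp only [Finset.mem_univ, if_true, Finset.sum_const, Finset.card_univ, smul_eq_mul] at h2
  omega

section

variable {B W F D : Type} [Fintype B] [Fintype W] [Fintype F] [Fintype D]

lemma b_be (H : PH B W F D) (d : D) : H.b (H.β d) = H.b d :=
  ((H.b_iff _ _).2 Equiv.Perm.SameCycle.rfl.apply_right).symm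

lemma b_be' (H : PH B W F D) (d : D) : H.b (H.β⁻¹ d) = H.b d := by
  have := b_be H (H.β⁻¹ d)
  simpa using this.symm

lemma w_om (H : PH B W F D) (d : D) : H.w (H.ω d) = H.w d :=
  ((H.w_iff _ _).2 Equiv.Perm.SameCycle.rfl.apply_right).symm

lemma w_om' (H : PH B W F D) (d : D) : H.w (H.ω⁻¹ d) = H.w d := by
  have := w_om H (H.ω⁻¹ d)
  simpa using this.symm

lemma f_ph (H : PH B W F D) (d : D) : H.f (H.ω (H.β d)) = H.f d :=
  ((H.f_iff _ _).2 (Equiv.Perm.SameCycle.rfl.apply_right (f := H.ω * H.β))).symm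

lemma f_be' (H : PH B W F D) (d : D) : H.f (H.β⁻¹ d) = H.f (H.ω d) := by
  have := f_ph H (H.β⁻¹ d)
  simpa using this.symm

lemma tb (H : PH B W F D) (h : B ⊕ F → ℕ) (d0 : D) (hs : STN H h d0) (x : B)
    (hx : x ≠ H.b d0) :
    2 ≤ Nat.card {d // H.b d = x ∧ ¬ (sg H h (H.β⁻¹ d) ↔ sg H h d)} := by
  obtain ⟨⟨d, hd, hd1⟩, e, he, he1⟩ := hs.hb x hx
  have hsd : ¬ sg H h d := by
    unfold sg
    rw [hd]
    omega
  have hse : sg H h e := by
    unfold sg
    rw [he]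
    exact he1
  have hc : H.β.SameCycle d e := (H.b_iff d e).1 (hd.trans he.symm)
  obtain ⟨z, hz, hz1, hz2⟩ := change_ex H.β (sg H h) hc hsd hse
  obtain ⟨y, hy, hy1, hy2⟩ := change_ex H.β (fun t => ¬ sg H h t) hc.symm (not_not.2 hse) hsd
  refine two_le_card (x := z) (y := y) ⟨?_, ?_⟩ ⟨?_, ?_⟩ ?_
  · rw [← hd]
    exact ((H.b_iff _ _).2 hz).symm
  · tauto
  · rw [← he]
    exact ((H.b_iff _ _).2 hy).symm
  · tauto
  · rintro rfl
    exact hy2 hz2

lemma tf (H : PH B W F D) (h : B ⊕ F → ℕ) (d0 : D) (hs : STN H h d0) (x : F)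
    (hx : x ≠ H.f d0) :
    2 ≤ Nat.card {d // H.f d = x ∧ ¬ (sg H h ((H.ω * H.β)⁻¹ d) ↔ sg H h d)} := by
  obtain ⟨⟨e, he, he1⟩, d, hd, hd1⟩ := hs.hf x hx
  have hsd : ¬ sg H h d := by
    unfold sg
    rw [hd]
    omega
  have hse : sg H h e := by
    unfold sg
    rw [he]
    exact he1
  have hc : (H.ω * H.β).SameCycle d e := (H.f_iff d e).1 (hd.trans he.symm)
  obtain ⟨z, hz, hz1, hz2⟩ := change_ex (H.ω * H.β) (sg H h) hc hsd hse
  obtain ⟨y, hy, hy1, hy2⟩ := change_ex (H.ω * H.β) (fun t => ¬ sg H h t) hc.symm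
    (not_not.2 hse) hsd
  refine two_le_card (x := z) (y := y) ⟨?_, ?_⟩ ⟨?_, ?_⟩ ?_
  · rw [← hd]
    exact ((H.f_iff _ _).2 hz).symm
  · tauto
  · rw [← he]
    exact ((H.f_iff _ _).2 hy).symm
  · tauto
  · rintro rfl
    exact hy2 hz2

lemma cz (H : PH B W F D) (h : B ⊕ F → ℕ) (hinj : Function.Injective h) (z : W) :
    2 ≤ Nat.card {d // H.w d = z ∧ (sg H h (H.β⁻¹ d) ↔ sg H h d)} +
      Nat.card {d // H.w d = z ∧ (sg H h (H.β⁻¹ d) ↔ sg H h (H.ω d))} := by
  classical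
  obtain ⟨e0, he0⟩ := H.w_surj z
  have hne : ∀ (x : B) (y : F), h (Sum.inl x) ≠ h (Sum.inr y) := by
    intro x y hxy
    exact absurd (hinj hxy) (by simp)
  have hsb : ∀ d, sg H h (H.β⁻¹ d) ↔ h (Sum.inl (H.b d)) < h (Sum.inr (H.f (H.ω d))) := by
    intro d
    unfold sg
    rw [b_be', f_be']
  have hmax : (∃ d, H.w d = z ∧ ¬ sg H h (H.β⁻¹ d) ∧ ¬ sg H h d) ∨
      (∃ d, H.w d = z ∧ sg H h (H.β⁻¹ d) ∧ sg H h (H.ω d)) := by
    obtain ⟨d, hd, hdm⟩ := Finset.exists_max_image (Finset.univ.filter fun d => H.w d = z)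
      (fun d => max (h (Sum.inl (H.b d))) (h (Sum.inr (H.f (H.ω d))))) ⟨e0, by simp [he0]⟩
    simp only [Finset.mem_filter, Finset.mem_univ, true_and] at hd hdm
    by_cases hc : h (Sum.inl (H.b d)) < h (Sum.inr (H.f (H.ω d)))
    · right
      refine ⟨d, hd, (hsb d).2 hc, ?_⟩
      have h1 := hdm (H.ω d) (by rw [w_om, hd])
      have h2 := hne (H.b (H.ω d)) (H.f (H.ω d))
      unfold sg
      rw [max_eq_right hc.le] at h1
      have h3 := le_trans (le_max_left _ _) h1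
      omega
    · left
      refine ⟨d, hd, fun hh => hc ((hsb d).1 hh), ?_⟩
      have h1 := hdm (H.ω⁻¹ d) (by rw [w_om', hd])
      rw [max_eq_left (not_lt.1 hc)] at h1
      have h3 := le_trans (le_max_right _ _) h1
      rw [show H.ω (H.ω⁻¹ d) = d by simp] at h3
      unfold sg
      omega
  have hmin : (∃ d, H.w d = z ∧ sg H h (H.β⁻¹ d) ∧ sg H h d) ∨
      (∃ d, H.w d = z ∧ ¬ sg H h (H.β⁻¹ d) ∧ ¬ sg H h (H.ω d)) := by
    obtain ⟨d, hd, hdm⟩ := Finset.exists_min_image (Finset.univ.filter fun d => H.w d = z)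
      (fun d => min (h (Sum.inl (H.b d))) (h (Sum.inr (H.f (H.ω d))))) ⟨e0, by simp [he0]⟩
    simp only [Finset.mem_filter, Finset.mem_univ, true_and] at hd hdm
    by_cases hc : h (Sum.inl (H.b d)) < h (Sum.inr (H.f (H.ω d)))
    · left
      refine ⟨d, hd, (hsb d).2 hc, ?_⟩
      have h1 := hdm (H.ω⁻¹ d) (by rw [w_om', hd])
      have h2 := hne (H.b d) (H.f d)
      rw [min_eq_left hc.le] at h1
      have h3 := le_trans h1 (min_le_right _ _)
      rw [show H.ω (H.ω⁻¹ d) = d by simp] at h3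
      unfold sg
      omega
    · right
      refine ⟨d, hd, fun hh => hc ((hsb d).1 hh), ?_⟩
      have h1 := hdm (H.ω d) (by rw [w_om, hd])
      rw [min_eq_right (not_lt.1 hc)] at h1
      have h3 := le_trans h1 (min_le_left _ _)
      unfold sg
      omega
  rcases hmax with ⟨d, hd, hd1, hd2⟩ | ⟨d, hd, hd1, hd2⟩
  · rcases hmin with ⟨e, he, he1, he2⟩ | ⟨e, he, he1, he2⟩
    · have := two_le_card (q := fun d => H.w d = z ∧ (sg H h (H.β⁻¹ d) ↔ sg H h d))
        (x := d) (y := e) ⟨hd, by tauto⟩ ⟨he, by tauto⟩ (by rintro rfl; exact hd2 he2)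
      exact le_trans this (Nat.le_add_right _ _)
    · have h1 := one_le_card (q := fun d => H.w d = z ∧ (sg H h (H.β⁻¹ d) ↔ sg H h d))
        (x := d) ⟨hd, by tauto⟩
      have h2 := one_le_card (q := fun d => H.w d = z ∧ (sg H h (H.β⁻¹ d) ↔ sg H h (H.ω d)))
        (x := e) ⟨he, by tauto⟩
      exact add_le_add h1 h2
  · rcases hmin with ⟨e, he, he1, he2⟩ | ⟨e, he, he1, he2⟩
    · have h1 := one_le_card (q := fun d => H.w d = z ∧ (sg H h (H.β⁻¹ d) ↔ sg H h d))
        (x := e) ⟨he, by tauto⟩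
      have h2 := one_le_card (q := fun d => H.w d = z ∧ (sg H h (H.β⁻¹ d) ↔ sg H h (H.ω d)))
        (x := d) ⟨hd, by tauto⟩
      exact add_le_add h1 h2
    · have := two_le_card (q := fun d => H.w d = z ∧ (sg H h (H.β⁻¹ d) ↔ sg H h (H.ω d)))
        (x := d) (y := e) ⟨hd, by tauto⟩ ⟨he, by tauto⟩ (by rintro rfl; exact he2 hd2)
      exact le_trans this (Nat.le_add_left _ _)

lemma nf_eq (H : PH B W F D) (h : B ⊕ F → ℕ) :
    Nat.card {d // ¬ (sg H h ((H.ω * H.β)⁻¹ d) ↔ sg H h d)} =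
      Nat.card {d // ¬ (sg H h (H.β⁻¹ d) ↔ sg H h (H.ω d))} := by
  symm
  refine Nat.card_congr (Equiv.subtypeEquiv H.ω fun d => ?_)
  simp

end

end ModF

open ModF in
theorem f : StmtF := by
  classical
  intro B W F D _ _ _ _ H h d0 hs
  have e1 := sum_fib H.b (fun d => ¬ (sg H h (H.β⁻¹ d) ↔ sg H h d))
  have e2 := sum_fib H.f (fun d => ¬ (sg H h ((H.ω * H.β)⁻¹ d) ↔ sg H h d))
  have e3 := sum_fib H.w (fun d => (sg H h (H.β⁻¹ d) ↔ sg H h d))
  have e4 := sum_fib H.w (fun d => (sg H h (H.β⁻¹ d) ↔ sg H h (H.ω d)))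
  have c1 := card_split (fun d => (sg H h (H.β⁻¹ d) ↔ sg H h d))
  have c2 := card_split (fun d => (sg H h (H.β⁻¹ d) ↔ sg H h (H.ω d)))
  have c3 := nf_eq H h
  have g1 := sum_g (H.b d0)
  have g2 := sum_g (H.f d0)
  have l1 : ∀ x ∈ (Finset.univ : Finset B), (if x = H.b d0 then 0 else 2) ≤
      Nat.card {d // H.b d = x ∧ ¬ (sg H h (H.β⁻¹ d) ↔ sg H h d)} := by
    intro x _
    split_ifs with hx
    · exact Nat.zero_le _
    · exact tb H h d0 hs x hx
  have l2 : ∀ x ∈ (Finset.univ : Finset F), (if x = H.f d0 then 0 else 2) ≤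
      Nat.card {d // H.f d = x ∧ ¬ (sg H h ((H.ω * H.β)⁻¹ d) ↔ sg H h d)} := by
    intro x _
    split_ifs with hx
    · exact Nat.zero_le _
    · exact tf H h d0 hs x hx
  have l3 : ∀ z ∈ (Finset.univ : Finset W), 2 ≤
      Nat.card {d // H.w d = z ∧ (sg H h (H.β⁻¹ d) ↔ sg H h d)} +
      Nat.card {d // H.w d = z ∧ (sg H h (H.β⁻¹ d) ↔ sg H h (H.ω d))} := fun z _ =>
    cz H h hs.inj z
  have s1 := Finset.sum_le_sum l1
  have s2 := Finset.sum_le_sum l2
  have s3 := Finset.sum_le_sum l3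
  have s4 : ∑ _z : W, 2 = 2 * Fintype.card W := by simp [mul_comm]
  have eu := H.euler
  have s3' : ∑ z : W, (Nat.card {d // H.w d = z ∧ (sg H h (H.β⁻¹ d) ↔ sg H h d)} +
      Nat.card {d // H.w d = z ∧ (sg H h (H.β⁻¹ d) ↔ sg H h (H.ω d))}) =
      Nat.card {d // (sg H h (H.β⁻¹ d) ↔ sg H h d)} +
      Nat.card {d // (sg H h (H.β⁻¹ d) ↔ sg H h (H.ω d))} := by
    rw [Finset.sum_add_distrib, e3, e4]
  have t1 : ∑ x : B, (if x = H.b d0 then 0 else 2) =
      ∑ x : B, Nat.card {d // H.b d = x ∧ ¬ (sg H h (H.β⁻¹ d) ↔ sg H h d)} := by omega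
  have t2 : ∑ x : F, (if x = H.f d0 then 0 else 2) =
      ∑ x : F, Nat.card {d // H.f d = x ∧ ¬ (sg H h ((H.ω * H.β)⁻¹ d) ↔ sg H h d)} := by
    omega
  have t3 : ∑ _z : W, 2 = ∑ z : W, (Nat.card {d // H.w d = z ∧
      (sg H h (H.β⁻¹ d) ↔ sg H h d)} +
      Nat.card {d // H.w d = z ∧ (sg H h (H.β⁻¹ d) ↔ sg H h (H.ω d))}) := by omega
  rw [Finset.sum_eq_sum_iff_of_le l1] at t1
  rw [Finset.sum_eq_sum_iff_of_le l2] at t2
  rw [Finset.sum_eq_sum_iff_of_le l3] at t3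
  refine ⟨fun x hx => ?_, fun y hy => ?_, fun z => ?_⟩
  · have := t1 x (Finset.mem_univ _)
    rw [if_neg hx] at this
    exact this.symm
  · have := t2 y (Finset.mem_univ _)
    rw [if_neg hy] at this
    exact this.symm
  · exact (t3 z (Finset.mem_univ _)).symm

end Pool.Agent.T6.H90.SL
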