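import Pool.Agent.T6.H90.SL.G1

/-!
# A plane hypermap with an `st`-numbering is a bipolar plane map (module G)
-/

set_option autoImplicit false

namespace Pool.Agent.T6.H90.SL

namespace ModG

section

variable {B W F D : Type} [Fintype B] [Fintype W] [Fintype F] [Fintype D] (H : PH B W F D)
  (s : D → Prop)

/-- the permutation of the sides of the arcs -/
def tau : Equiv.Perm (D × Bool) where
  toFun x := if x.2 = true then (x.1, false) else (H.ω x.1, true)
  invFun x := if x.2 = true then (H.ω⁻¹ x.1, false) else (x.1, true)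
  left_inv := by rintro ⟨d, _ | _⟩ <;> simp
  right_inv := by rintro ⟨d, _ | _⟩ <;> simp

theorem tau_true (d : D) : tau H (d, true) = (d, false) := rfl

theorem tau_false (d : D) : tau H (d, false) = (H.ω d, true) := rfl

/-- the arc of a side -/
def arc (x : D × Bool) : D := if x.2 = true then x.1 else H.β⁻¹ x.1

theorem arc_true (d : D) : arc H (d, true) = d := rfl

theorem arc_false (d : D) : arc H (d, false) = H.β⁻¹ d := rfl

/-- the direction of a side -/
def dir (x : D × Bool) : Prop := if x.2 = true then ¬ s x.1 else s (H.β⁻¹ x.1)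

theorem dir_true (d : D) : dir H s (d, true) ↔ ¬ s d := Iff.rfl

theorem dir_false (d : D) : dir H s (d, false) ↔ s (H.β⁻¹ d) := Iff.rfl

/-- the start of a side -/
def st (x : D × Bool) : B ⊕ F := if x.2 = true then Sum.inr (H.f x.1) else Sum.inl (H.b x.1)

theorem st_true (d : D) : st H (d, true) = Sum.inr (H.f d) := rfl

theorem st_false (d : D) : st H (d, false) = Sum.inl (H.b d) := rfl

theorem w_om (d : D) : H.w (H.ω d) = H.w d :=
  (H.w_iff _ _).2 (Equiv.Perm.SameCycle.symm ⟨1, by simp⟩)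

theorem b_be (d : D) : H.b (H.β⁻¹ d) = H.b d :=
  (H.b_iff _ _).2 ⟨1, by simp⟩

theorem f_om (d : D) : H.f (H.β⁻¹ d) = H.f (H.ω d) :=
  (H.f_iff _ _).2 ⟨1, by simp⟩

/-- the end of a side -/
theorem st_tau_true (d : D) : st H (tau H (d, true)) = Sum.inl (H.b d) := rfl

theorem st_tau_false (d : D) : st H (tau H (d, false)) = Sum.inr (H.f (H.ω d)) := rfl

open Classical in
/-- the source of an arc -/
noncomputable def src (a : D) : B ⊕ F := if s a then Sum.inl (H.b a) else Sum.inr (H.f a)

open Classical in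
/-- the target of an arc -/
noncomputable def tgt (a : D) : B ⊕ F := if s a then Sum.inr (H.f a) else Sum.inl (H.b a)

theorem src_pos {a : D} (h : s a) : src H s a = Sum.inl (H.b a) := if_pos h

theorem src_neg {a : D} (h : ¬ s a) : src H s a = Sum.inr (H.f a) := if_neg h

theorem tgt_pos {a : D} (h : s a) : tgt H s a = Sum.inr (H.f a) := if_pos h

theorem tgt_neg {a : D} (h : ¬ s a) : tgt H s a = Sum.inl (H.b a) := if_neg h

theorem src_dir {x : D × Bool} (h : dir H s x) : src H s (arc H x) = st H x := by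
  rcases x with ⟨d, _ | _⟩
  · rw [arc_false, src_pos H s ((dir_false H s d).1 h), b_be]
    rfl
  · rw [arc_true, src_neg H s ((dir_true H s d).1 h)]
    rfl

theorem tgt_dir {x : D × Bool} (h : dir H s x) : tgt H s (arc H x) = st H (tau H x) := by
  rcases x with ⟨d, _ | _⟩
  · rw [arc_false, tgt_pos H s ((dir_false H s d).1 h), f_om]
    rfl
  · rw [arc_true, tgt_neg H s ((dir_true H s d).1 h)]
    rfl

theorem src_ndir {x : D × Bool} (h : ¬ dir H s x) : src H s (arc H x) = st H (tau H x) := by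
  rcases x with ⟨d, _ | _⟩
  · rw [dir_false] at h
    rw [arc_false, src_neg H s h, f_om]
    rfl
  · rw [dir_true, not_not] at h
    rw [arc_true, src_pos H s h]
    rfl

theorem tgt_ndir {x : D × Bool} (h : ¬ dir H s x) : tgt H s (arc H x) = st H x := by
  rcases x with ⟨d, _ | _⟩
  · rw [dir_false] at h
    rw [arc_false, tgt_neg H s h, b_be]
    rfl
  · rw [dir_true, not_not] at h
    rw [arc_true, tgt_pos H s h]
    rfl

/-- a side is determined by its arc and its direction -/
theorem side_inj {x y : D × Bool} (h : arc H x = arc H y) (hd : dir H s x ↔ dir H s y) :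
    x = y := by
  rcases x with ⟨d, _ | _⟩ <;> rcases y with ⟨e, _ | _⟩
  · rw [arc_false, arc_false] at h
    rw [H.β⁻¹.injective h]
  · rw [arc_false, arc_true] at h
    rw [dir_false, dir_true, h] at hd
    exact absurd hd (by tauto)
  · rw [arc_false, arc_true] at h
    rw [dir_false, dir_true, h] at hd
    exact absurd hd (by tauto)
  · rw [arc_true, arc_true] at h
    rw [h]

/-- the side of an arc with the given direction -/
theorem side_ex (a : D) (b : Prop) : ∃ x : D × Bool, arc H x = a ∧ (dir H s x ↔ b) := by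
  by_cases h : s a ↔ b
  · refine ⟨(H.β a, false), ?_, ?_⟩
    · rw [arc_false]; simp
    · rw [dir_false]; simpa using h
  · refine ⟨(a, true), rfl, ?_⟩
    rw [dir_true]
    tauto

theorem same_w {x y : D × Bool} (h : (tau H).SameCycle x y) : H.w x.1 = H.w y.1 := by
  obtain ⟨n, hn⟩ := h.exists_nat_pow_eq
  have h1 : ∀ n : ℕ, H.w (((tau H) ^ n) x).1 = H.w x.1 := by
    intro n
    induction n with
    | zero => rfl
    | succ n ih =>
      rw [pow_succ', Equiv.Perm.mul_apply]
      rw [← ih]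
      generalize ((tau H) ^ n) x = z
      rcases z with ⟨d, _ | _⟩
      · rw [tau_false]
        exact w_om H d
      · rfl
  rw [← hn, h1]

theorem same_of_w {d e : D} (h : H.w d = H.w e) : (tau H).SameCycle (d, true) (e, true) := by
  obtain ⟨n, hn⟩ := ((H.w_iff _ _).1 h).exists_nat_pow_eq
  have h1 : ∀ n : ℕ, (tau H).SameCycle (d, true) ((H.ω ^ n) d, true) := by
    intro n
    induction n with
    | zero => exact ⟨0, rfl⟩
    | succ n ih =>
      refine ih.trans ⟨2, ?_⟩
      rw [pow_succ', Equiv.Perm.mul_apply]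
      rw [zpow_ofNat, pow_two, Equiv.Perm.mul_apply, tau_true, tau_false]
  rw [← hn]
  exact h1 n

theorem same_iff (d : D) (x : D × Bool) :
    (tau H).SameCycle (d, true) x ↔ H.w x.1 = H.w d := by
  refine ⟨fun h => (same_w H h).symm, fun h => ?_⟩
  rcases x with ⟨e, _ | _⟩
  · exact (same_of_w H h.symm).trans ⟨1, by rw [zpow_one, tau_true]⟩
  · exact same_of_w H h.symm

theorem ch_true (d : D) : ¬ (dir H s (d, true) ↔ dir H s (tau H (d, true))) ↔
    (s (H.β⁻¹ d) ↔ s d) := by
  rw [tau_true, dir_true, dir_false]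
  tauto

theorem ch_false (d : D) : ¬ (dir H s (d, false) ↔ dir H s (tau H (d, false))) ↔
    (s (H.β⁻¹ d) ↔ s (H.ω d)) := by
  rw [tau_false, dir_true, dir_false]
  tauto

/-- the changes of the direction along a cycle -/
theorem card_ch (d : D)
    (h : Nat.card {e // H.w e = H.w d ∧ (s (H.β⁻¹ e) ↔ s e)} +
      Nat.card {e // H.w e = H.w d ∧ (s (H.β⁻¹ e) ↔ s (H.ω e))} = 2) :
    Nat.card {y // (tau H).SameCycle (d, true) y ∧
      ¬ (dir H s y ↔ dir H s (tau H y))} = 2 := by
  rw [← Nat.card_sum] at h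
  rw [← h]
  refine (Nat.card_congr ?_).symm
  refine Equiv.ofBijective (fun y => match y with
    | Sum.inl e => ⟨(e.1, true), (same_iff H d _).2 e.2.1, (ch_true H s e.1).2 e.2.2⟩
    | Sum.inr e => ⟨(e.1, false), (same_iff H d _).2 e.2.1, (ch_false H s e.1).2 e.2.2⟩) ⟨?_, ?_⟩
  · rintro (⟨e, he⟩ | ⟨e, he⟩) (⟨e', he'⟩ | ⟨e', he'⟩) hee
    · have : (e, true) = (e', true) := congrArg Subtype.val hee
      have h2 : e = e' := congrArg Prod.fst this
      subst h2
      rfl
    · have : (e, true) = (e', false) := congrArg Subtype.val hee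
      exact absurd (congrArg Prod.snd this) (by simp)
    · have : (e, false) = (e', true) := congrArg Subtype.val hee
      exact absurd (congrArg Prod.snd this) (by simp)
    · have : (e, false) = (e', false) := congrArg Subtype.val hee
      have h2 : e = e' := congrArg Prod.fst this
      subst h2
      rfl
  · rintro ⟨⟨e, _ | _⟩, he1, he2⟩
    · exact ⟨Sum.inr ⟨e, (same_iff H d _).1 he1, (ch_false H s e).1 he2⟩, rfl⟩
    · exact ⟨Sum.inl ⟨e, (same_iff H d _).1 he1, (ch_true H s e).1 he2⟩, rfl⟩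

end

theorem inv_self {S : Type} (σ : Equiv.Perm S) (z : S) : σ⁻¹ (σ z) = z := by simp

theorem self_inv {S : Type} (σ : Equiv.Perm S) (z : S) : σ (σ⁻¹ z) = z := by simp

/-- at most one change of each kind, formulated with the inverse -/
theorem inv_uniq {S : Type} [Finite S] (σ : Equiv.Perm S) (q : S → Prop) (K : S → Prop)
    (hK : ∀ d e, K d → (K e ↔ σ.SameCycle d e))
    (hc : Nat.card {d // K d ∧ ¬ (q (σ⁻¹ d) ↔ q d)} = 2) {d e : S} (hd : K d) (he : K e)
    (hq : (q (σ⁻¹ d) ∧ ¬ q d ∧ q (σ⁻¹ e) ∧ ¬ q e) ∨ (¬ q (σ⁻¹ d) ∧ q d ∧ ¬ q (σ⁻¹ e) ∧ q e)) :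
    d = e := by
  have hc' : Nat.card {y // σ.SameCycle d y ∧ ¬ (q y ↔ q (σ y))} = 2 := by
    rw [← hc]
    refine Nat.card_congr (Equiv.ofBijective (fun y => ⟨σ y.1, ?_, ?_⟩) ⟨?_, ?_⟩)
    · refine (hK d _ hd).2 (y.2.1.trans ⟨1, by simp⟩)
    · have := y.2.2
      rwa [inv_self]
    · intro y z hyz
      have : σ y.1 = σ z.1 := congrArg Subtype.val hyz
      exact Subtype.ext (σ.injective this)
    · rintro ⟨z, hz1, hz2⟩
      refine ⟨⟨σ⁻¹ z, ?_, ?_⟩, ?_⟩
      · exact ((hK d _ hd).1 hz1).trans (Equiv.Perm.SameCycle.symm ⟨1, by simp⟩)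
      · rwa [self_inv]
      · exact Subtype.ext (self_inv σ z)
  have hi : ∀ y, K y → σ.SameCycle d (σ⁻¹ y) := fun y hy =>
    ((hK d _ hd).1 hy).trans (Equiv.Perm.SameCycle.symm ⟨1, by simp⟩)
  apply σ⁻¹.injective
  rcases hq with ⟨h1, h2, h3, h4⟩ | ⟨h1, h2, h3, h4⟩
  · refine ModG1.uniq_down σ q d hc' (hi d hd) h1 ?_ (hi e he) h3 ?_
    · rwa [self_inv]
    · rwa [self_inv]
  · refine ModG1.uniq_up σ q d hc' (hi d hd) h1 ?_ (hi e he) h3 ?_
    · rwa [self_inv]
    · rwa [self_inv]

end ModG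

open ModG in
theorem g (hF : StmtF) (hG1 : StmtG1) : StmtG := by
  intro B W F D _ _ _ _ H h d0 hst
  obtain ⟨s, hs⟩ : ∃ s : D → Prop, s = sg H h := ⟨_, rfl⟩
  obtain ⟨F1, F2, F3⟩ := hF B W F D H h d0 hst
  rw [← hs] at F1 F2 F3
  have hss : ∀ d, s d ↔ h (Sum.inl (H.b d)) < h (Sum.inr (H.f d)) := by
    intro d
    rw [hs]
    exact Iff.rfl
  have hlt : ∀ a, h (src H s a) < h (tgt H s a) := by
    intro a
    by_cases ha : s a
    · rw [src_pos H s ha, tgt_pos H s ha]
      exact (hss a).1 ha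
    · rw [src_neg H s ha, tgt_neg H s ha]
      have h1 := (not_congr (hss a)).1 ha
      have h2 : h (Sum.inl (H.b a)) ≠ h (Sum.inr (H.f a)) := by
        intro h3
        exact absurd (hst.inj h3) (by simp)
      omega
  have hs0 : s d0 := (hss d0).2 (hst.hs _ (by simp))
  have hsrc0 : src H s d0 = Sum.inl (H.b d0) := src_pos H s hs0
  have htgt0 : tgt H s d0 = Sum.inr (H.f d0) := tgt_pos H s hs0
  have hno_in : ∀ a, tgt H s a ≠ src H s d0 := by
    intro a ha
    rw [hsrc0] at ha
    have h1 := hlt a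
    rw [ha] at h1
    have h2 := hst.hs (src H s a) (by
      intro h3
      rw [h3] at h1
      exact lt_irrefl _ h1)
    omega
  have hno_out : ∀ a, src H s a ≠ tgt H s d0 := by
    intro a ha
    rw [htgt0] at ha
    have h1 := hlt a
    rw [ha] at h1
    have h2 := hst.ht (tgt H s a) (by
      intro h3
      rw [h3] at h1
      exact lt_irrefl _ h1)
    omega
  -- the two paths around a face
  have hLU : ∀ z : W, ∃ L U : List (D × Bool), L ≠ [] ∧ U ≠ [] ∧
      (∀ y, y ∈ L ++ U ↔ H.w y.1 = z) ∧ (L ++ U).IsChain (fun a c => tau H a = c) ∧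
      (∀ a c, U.getLast? = some a → L.head? = some c → tau H a = c) ∧
      (∀ y ∈ L, dir H s y) ∧ ∀ y ∈ U, ¬ dir H s y := by
    intro z
    obtain ⟨d, rfl⟩ := H.w_surj z
    obtain ⟨L, U, h1, h2, -, h4, h5, h6, h7, h8⟩ := hG1 (D × Bool) (tau H) (dir H s) (d, true)
      (card_ch H s d (F3 (H.w d)))
    refine ⟨L, U, h1, h2, fun y => ?_, h5, h6, h7, h8⟩
    rw [h4, same_iff]
  choose L U hL hU hmem hch hlast hLd hUd using hLU
  have memL : ∀ y, dir H s y → y ∈ L (H.w y.1) := by
    intro y hy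
    rcases List.mem_append.1 ((hmem (H.w y.1) y).2 rfl) with h1 | h1
    · exact h1
    · exact absurd hy (hUd _ y h1)
  have memU : ∀ y, ¬ dir H s y → y ∈ U (H.w y.1) := by
    intro y hy
    rcases List.mem_append.1 ((hmem (H.w y.1) y).2 rfl) with h1 | h1
    · exact absurd (hLd _ y h1) hy
    · exact h1
  have wL : ∀ z y, y ∈ L z → H.w y.1 = z := fun z y hy =>
    (hmem z y).1 (List.mem_append_left _ hy)
  have wU : ∀ z y, y ∈ U z → H.w y.1 = z := fun z y hy =>
    (hmem z y).1 (List.mem_append_right _ hy)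
  -- consecutive sides
  have consL : ∀ z (P Q : List D) (a a' : D), (L z).map (arc H) = P ++ a :: a' :: Q →
      ∃ x, x ∈ L z ∧ tau H x ∈ L z ∧ arc H x = a ∧ arc H (tau H x) = a' := by
    intro z P Q a a' he
    obtain ⟨l1, l2, e1, e2, e3⟩ := List.map_eq_append_iff.1 he
    obtain ⟨x, l3, e4, e5, e6⟩ := List.map_eq_cons_iff.1 e3
    obtain ⟨x', l4, e7, e8, e9⟩ := List.map_eq_cons_iff.1 e6
    have hc := (List.isChain_append.1 (hch z)).1
    rw [e1, e4, e7, List.isChain_append_cons_cons] at hc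
    refine ⟨x, ?_, ?_, e5, ?_⟩
    · rw [e1, e4]; simp
    · rw [hc.2.1, e1, e4, e7]; simp
    · rw [hc.2.1]; exact e8
  have consU : ∀ z (P Q : List D) (a a' : D), (U z).map (arc H) = P ++ a :: a' :: Q →
      ∃ x, x ∈ U z ∧ tau H x ∈ U z ∧ arc H x = a ∧ arc H (tau H x) = a' := by
    intro z P Q a a' he
    obtain ⟨l1, l2, e1, e2, e3⟩ := List.map_eq_append_iff.1 he
    obtain ⟨x, l3, e4, e5, e6⟩ := List.map_eq_cons_iff.1 e3
    obtain ⟨x', l4, e7, e8, e9⟩ := List.map_eq_cons_iff.1 e6
    have hc := (List.isChain_append.1 (hch z)).2.1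
    rw [e1, e4, e7, List.isChain_append_cons_cons] at hc
    refine ⟨x, ?_, ?_, e5, ?_⟩
    · rw [e1, e4]; simp
    · rw [hc.2.1, e1, e4, e7]; simp
    · rw [hc.2.1]; exact e8
  -- uniqueness at the vertices
  have hKb : ∀ x (d e : D), H.b d = x → (H.b e = x ↔ H.β.SameCycle d e) := by
    intro x d e hd
    rw [← hd, ← H.b_iff]
    exact eq_comm
  have hKf : ∀ y (d e : D), H.f d = y → (H.f e = y ↔ (H.ω * H.β).SameCycle d e) := by
    intro y d e hd
    rw [← hd, ← H.f_iff]
    exact eq_comm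
  have inv_om : ∀ d, (H.ω * H.β)⁻¹ (H.ω d) = H.β⁻¹ d := by
    intro d
    rw [mul_inv_rev, Equiv.Perm.mul_apply]
    simp
  have hbot : ∀ d, H.b d = H.b d0 → s d := by
    intro d hd
    rw [hss, hd]
    exact hst.hs _ (by simp)
  have htop : ∀ d, H.f d = H.f d0 → s d := by
    intro d hd
    rw [hss, hd]
    exact hst.ht _ (by simp)
  have key : ∀ x y : D × Bool, st H (tau H x) = st H (tau H y) →
      (dir H s x ∧ dir H s (tau H x) ∧ dir H s y ∧ dir H s (tau H y)) ∨
      (¬ dir H s x ∧ ¬ dir H s (tau H x) ∧ ¬ dir H s y ∧ ¬ dir H s (tau H y)) → x = y := by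
    rintro ⟨d, _ | _⟩ ⟨e, _ | _⟩ hxy hd
    · rw [st_tau_false, st_tau_false] at hxy
      have hf := Sum.inr.inj hxy
      simp only [tau_false, dir_false, dir_true, not_not] at hd
      have hne : H.f (H.ω d) ≠ H.f d0 ∨ H.f (H.ω d) = H.f d0 := ne_or_eq _ _
      rcases hne with hne | hne
      · have := inv_uniq (H.ω * H.β) s (fun y => H.f y = H.f (H.ω d))
          (fun d' e' hd' => hKf _ d' e' hd') (F2 _ hne) (d := H.ω d) (e := H.ω e) rfl hf.symm
          (by rw [inv_om, inv_om]; tauto)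
        rw [H.ω.injective this]
      · -- all darts at the top are directed towards it
        have h1 := htop _ hne
        have h2 : H.f (H.β⁻¹ d) = H.f d0 := by rw [f_om]; exact hne
        have h3 := htop _ h2
        exfalso
        rcases hd with hd | hd
        · exact hd.2.1 h1
        · exact hd.1 h3
    · rw [st_tau_false, st_tau_true] at hxy
      exact absurd hxy (by simp)
    · rw [st_tau_false, st_tau_true] at hxy
      exact absurd hxy (by simp)
    · rw [st_tau_true, st_tau_true] at hxy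
      have hb := Sum.inl.inj hxy
      simp only [tau_true, dir_false, dir_true, not_not] at hd
      rcases ne_or_eq (H.b d) (H.b d0) with hne | hne
      · have := inv_uniq H.β s (fun y => H.b y = H.b d)
          (fun d' e' hd' => hKb _ d' e' hd') (F1 _ hne) (d := d) (e := e) rfl hb.symm
          (by tauto)
        rw [this]
      · have h1 := hbot _ hne
        have h2 : H.b (H.β⁻¹ d) = H.b d0 := by rw [b_be]; exact hne
        have h3 := hbot _ h2
        exfalso
        rcases hd with hd | hd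
        · exact hd.1 h1
        · exact hd.2.1 h3
  have tgt_chain : ∀ z, ((L z).map (arc H)).IsChain (fun a a' => tgt H s a = src H s a') := by
    intro z
    rw [List.isChain_map]
    have hc := (List.isChain_append.1 (hch z)).1
    have hmemc : (L z).IsChain (fun a c => (a ∈ L z ∧ c ∈ L z) ∧ tau H a = c) :=
      (List.isChain_iff_getElem.2 fun i hi => ⟨⟨List.getElem_mem _, List.getElem_mem _⟩,
        List.isChain_iff_getElem.1 hc i hi⟩)
    refine hmemc.imp ?_
    rintro a c ⟨⟨h1, h2⟩, h3⟩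
    rw [tgt_dir H s (hLd z a h1), src_dir H s (hLd z c h2), h3]
  have up_chain : ∀ z, ((U z).map (arc H)).reverse.IsChain
      (fun a a' => tgt H s a = src H s a') := by
    intro z
    rw [List.isChain_reverse, List.isChain_map]
    have hc := (List.isChain_append.1 (hch z)).2.1
    have hmemc : (U z).IsChain (fun a c => (a ∈ U z ∧ c ∈ U z) ∧ tau H a = c) :=
      (List.isChain_iff_getElem.2 fun i hi => ⟨⟨List.getElem_mem _, List.getElem_mem _⟩,
        List.isChain_iff_getElem.1 hc i hi⟩)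
    refine hmemc.imp ?_
    rintro a c ⟨⟨h1, h2⟩, h3⟩
    rw [src_ndir H s (hUd z a h1), tgt_ndir H s (hUd z c h2), h3]
  have consR : ∀ z (P Q : List D) (a a' : D), ((U z).map (arc H)).reverse = P ++ a :: a' :: Q →
      ∃ x, x ∈ U z ∧ tau H x ∈ U z ∧ arc H x = a' ∧ arc H (tau H x) = a := by
    intro z P Q a a' he
    apply consU z Q.reverse P.reverse a' a
    have h1 := congrArg List.reverse he
    rw [List.reverse_reverse] at h1
    rw [h1]
    simp
  have memLow : ∀ a z, a ∈ (L z).map (arc H) ↔ ∃ x, arc H x = a ∧ dir H s x ∧ H.w x.1 = z := by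
    intro a z
    rw [List.mem_map]
    constructor
    · rintro ⟨x, hx, hxa⟩
      exact ⟨x, hxa, hLd z x hx, wL z x hx⟩
    · rintro ⟨x, hxa, hx, rfl⟩
      exact ⟨x, memL x hx, hxa⟩
  have memUp : ∀ a z, a ∈ ((U z).map (arc H)).reverse ↔
      ∃ x, arc H x = a ∧ ¬ dir H s x ∧ H.w x.1 = z := by
    intro a z
    rw [List.mem_reverse, List.mem_map]
    constructor
    · rintro ⟨x, hx, hxa⟩
      exact ⟨x, hxa, hUd z x hx, wU z x hx⟩
    · rintro ⟨x, hxa, hx, rfl⟩
      exact ⟨x, memU x hx, hxa⟩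
  have hup0 : ((U (H.w d0)).map (arc H)).reverse = [d0] := by
    have hm : d0 ∈ ((U (H.w d0)).map (arc H)).reverse :=
      (memUp d0 (H.w d0)).2 ⟨(d0, true), rfl, fun h1 => (dir_true H s d0).1 h1 hs0, rfl⟩
    obtain ⟨l1, l2, he⟩ := List.append_of_mem hm
    have hc := up_chain (H.w d0)
    have e2 : l2 = [] := by
      rcases l2 with _ | ⟨c, l2⟩
      · rfl
      · exfalso
        rw [he, List.isChain_append_cons_cons] at hc
        exact hno_out c hc.2.1.symm
    have e1 : l1 = [] := by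
      rcases List.eq_nil_or_concat l1 with h1 | ⟨l, c, h1⟩
      · exact h1
      · exfalso
        rw [he, h1, List.concat_eq_append, List.append_assoc, List.singleton_append,
          List.isChain_append_cons_cons] at hc
        exact hno_in c hc.2.1
    rw [he, e1, e2]
    rfl
  have hfirst : ∀ z a a', ((L z).map (arc H)).head? = some a →
      ((U z).map (arc H)).reverse.head? = some a' → src H s a = src H s a' := by
    intro z a a' ha ha'
    rw [List.head?_map, Option.map_eq_some_iff] at ha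
    obtain ⟨x, hx, rfl⟩ := ha
    rw [List.head?_reverse, List.getLast?_map, Option.map_eq_some_iff] at ha'
    obtain ⟨y, hy, rfl⟩ := ha'
    have h1 := hlast z y x hy hx
    rw [src_dir H s (hLd z x (List.mem_of_head? hx)),
      src_ndir H s (hUd z y (List.mem_of_getLast? hy)), h1]
  have hlastt : ∀ z a a', ((L z).map (arc H)).getLast? = some a →
      ((U z).map (arc H)).reverse.getLast? = some a' → tgt H s a = tgt H s a' := by
    intro z a a' ha ha'
    rw [List.getLast?_map, Option.map_eq_some_iff] at ha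
    obtain ⟨x, hx, rfl⟩ := ha
    rw [List.getLast?_reverse, List.head?_map, Option.map_eq_some_iff] at ha'
    obtain ⟨y, hy, rfl⟩ := ha'
    have h1 := (List.isChain_append.1 (hch z)).2.2 x hx y hy
    rw [tgt_dir H s (hLd z x (List.mem_of_getLast? hx)),
      tgt_ndir H s (hUd z y (List.mem_of_head? hy)), h1]
  refine ⟨{ src := src H s, tgt := tgt H s, low := fun z => (L z).map (arc H),
            up := fun z => ((U z).map (arc H)).reverse, h := h, h_lt := hlt,
            low_ne := fun z => by simpa using hL z, up_ne := fun z => by simpa using hU z,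
            low_chain := tgt_chain, up_chain := up_chain, first := hfirst, last := hlastt,
            low_cov := ?_, low_uniq := ?_, up_cov := ?_, up_uniq := ?_, low_turn := ?_,
            up_turn := ?_, e0 := d0, ft := H.w d0, up_ft := hup0, no_in := hno_in,
            no_out := hno_out, conn := ?_, cover := ?_ }, ?_⟩
  · intro a
    obtain ⟨x, hx, hd⟩ := side_ex H s a True
    exact ⟨H.w x.1, (memLow a _).2 ⟨x, hx, hd.2 trivial, rfl⟩⟩
  · intro a x y hx hy
    obtain ⟨u, hu1, hu2, hu3⟩ := (memLow a x).1 hx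
    obtain ⟨v, hv1, hv2, hv3⟩ := (memLow a y).1 hy
    have := side_inj H s (hu1.trans hv1.symm) ⟨fun _ => hv2, fun _ => hu2⟩
    rw [← hu3, ← hv3, this]
  · intro a
    obtain ⟨x, hx, hd⟩ := side_ex H s a False
    exact ⟨H.w x.1, (memUp a _).2 ⟨x, hx, fun h1 => hd.1 h1, rfl⟩⟩
  · intro a x y hx hy
    obtain ⟨u, hu1, hu2, hu3⟩ := (memUp a x).1 hx
    obtain ⟨v, hv1, hv2, hv3⟩ := (memUp a y).1 hy
    have := side_inj H s (hu1.trans hv1.symm) ⟨fun h1 => absurd h1 hu2, fun h1 => absurd h1 hv2⟩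
    rw [← hu3, ← hv3, this]
  · intro x y P P' Q Q' a a' c c' hx hy ht
    obtain ⟨u, hu1, hu2, rfl, -⟩ := consL x P P' a a' hx
    obtain ⟨v, hv1, hv2, rfl, -⟩ := consL y Q Q' c c' hy
    rw [tgt_dir H s (hLd x u hu1), tgt_dir H s (hLd y v hv1)] at ht
    rw [key u v ht (Or.inl ⟨hLd x u hu1, hLd x _ hu2, hLd y v hv1, hLd y _ hv2⟩)]
  · intro x y P P' Q Q' a a' c c' hx hy ht
    obtain ⟨u, hu1, hu2, -, rfl⟩ := consR x P P' a a' hx
    obtain ⟨v, hv1, hv2, -, rfl⟩ := consR y Q Q' c c' hy
    rw [tgt_ndir H s (hUd x _ hu2), tgt_ndir H s (hUd y _ hv2)] at ht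
    rw [key u v ht (Or.inr ⟨hUd x u hu1, hUd x _ hu2, hUd y v hv1, hUd y _ hv2⟩)]
  · intro P hP x y hx
    have hbe : ∀ a, P (H.w a) ↔ P (H.w (H.β a)) := by
      intro a
      by_cases ha : s a
      · refine (hP a (H.w (H.β a)) (H.w a) ((memLow a _).2 ⟨(H.β a, false), ?_, ?_, rfl⟩)
          ((memUp a _).2 ⟨(a, true), rfl, ?_, rfl⟩)).symm
        · rw [arc_false, inv_self]
        · rw [dir_false, inv_self]
          exact ha
        · rw [dir_true, not_not]
          exact ha
      · refine hP a (H.w a) (H.w (H.β a)) ((memLow a _).2 ⟨(a, true), rfl, ?_, rfl⟩)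
          ((memUp a _).2 ⟨(H.β a, false), ?_, ?_, rfl⟩)
        · rw [dir_true]
          exact ha
        · rw [arc_false, inv_self]
        · rw [dir_false, inv_self]
          exact ha
    obtain ⟨d, rfl⟩ := H.w_surj x
    obtain ⟨e, rfl⟩ := H.w_surj y
    exact H.conn (fun d => P (H.w d)) (fun d hd => (hbe d).1 hd)
      (fun d hd => by rw [w_om]; exact hd) d e hx
  · rintro (x | y)
    · obtain ⟨d, rfl⟩ := H.b_surj x
      refine ⟨d, ?_⟩
      by_cases hd : s d
      · exact Or.inl (src_pos H s hd)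
      · exact Or.inr (tgt_neg H s hd)
    · obtain ⟨d, rfl⟩ := H.f_surj y
      refine ⟨d, ?_⟩
      by_cases hd : s d
      · exact Or.inr (tgt_pos H s hd)
      · exact Or.inl (src_neg H s hd)
  · intro d
    refine ⟨d, ?_, ?_⟩
    · by_cases hd : s d
      · exact Or.inr ((memUp d _).2 ⟨(d, true), rfl, by rw [dir_true, not_not]; exact hd, rfl⟩)
      · exact Or.inl ((memLow d _).2 ⟨(d, true), rfl, hd, rfl⟩)
    · by_cases hd : s d
      · exact Or.inl (src_pos H s hd)
      · exact Or.inr (tgt_neg H s hd)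

end Pool.Agent.T6.H90.SL
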