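import Pool.Agent.T6.H90.SL.Defs

set_option autoImplicit false

/-!
# A bipolar plane map gives a contour sequence
-/

namespace Pool.Agent.T6.H90.SL

namespace ModH

section

variable {V F A : Type} (M : BM V F A)

/-- `p` is a walk from `u` to `v` -/
def Wk : V → List A → V → Prop
  | u, [], v => u = v
  | u, a :: p, v => M.src a = u ∧ Wk (M.tgt a) p v

variable {M}

lemma wk_append {u v : V} {p q : List A} : Wk M u (p ++ q) v ↔ ∃ w, Wk M u p w ∧ Wk M w q v := by
  induction p generalizing u with
  | nil =>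
    simp only [List.nil_append, Wk]
    constructor
    · intro h; exact ⟨u, rfl, h⟩
    · rintro ⟨w, rfl, h⟩; exact h
  | cons a p ih =>
    simp only [List.cons_append, Wk, ih]
    constructor
    · rintro ⟨h, w, h1, h2⟩; exact ⟨w, ⟨h, h1⟩, h2⟩
    · rintro ⟨w, ⟨h, h1⟩, h2⟩; exact ⟨h, w, h1, h2⟩

lemma wk_of_chain {p : List A} (hp : p ≠ []) (hc : p.IsChain (fun a a' => M.tgt a = M.src a'))
    {u v : V} (hu : ∀ a, p.head? = some a → M.src a = u)
    (hv : ∀ a, p.getLast? = some a → M.tgt a = v) : Wk M u p v := by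
  induction p generalizing u with
  | nil => exact absurd rfl hp
  | cons a p ih =>
    refine ⟨hu a rfl, ?_⟩
    cases p with
    | nil => exact hv a rfl
    | cons b p =>
      rw [List.isChain_cons_cons] at hc
      refine ih (by simp) hc.2 ?_ ?_
      · intro c hc'
        simp only [List.head?_cons, Option.some.injEq] at hc'
        rw [← hc', hc.1]
      · intro c hc'
        apply hv
        rw [← hc', List.getLast?_cons_cons]

lemma chain_of_wk {p : List A} {u v : V} (h : Wk M u p v) :
    p.IsChain (fun a a' => M.tgt a = M.src a') ∧ (∀ a, p.head? = some a → M.src a = u) ∧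
    (∀ a, p.getLast? = some a → M.tgt a = v) := by
  induction p generalizing u with
  | nil => simp
  | cons a p ih =>
    obtain ⟨h1, h2⟩ := h
    obtain ⟨k1, k2, k3⟩ := ih h2
    refine ⟨?_, ?_, ?_⟩
    · cases p with
      | nil => simp
      | cons b p =>
        rw [List.isChain_cons_cons]
        exact ⟨(k2 b rfl).symm, k1⟩
    · intro c hc
      simp only [List.head?_cons, Option.some.injEq] at hc
      rw [← hc, h1]
    · intro c hc
      cases p with
      | nil =>
        simp only [List.getLast?_singleton, Option.some.injEq] at hc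
        rw [← hc]
        exact h2
      | cons b p =>
        rw [List.getLast?_cons_cons] at hc
        exact k3 c hc

lemma wk_end {p : List A} {u v : V} (h : Wk M u p v) : v = ((p.map M.tgt).getLast?).getD u := by
  induction p generalizing u with
  | nil => exact h.symm
  | cons a p ih =>
    have := ih h.2
    cases p with
    | nil => simpa using this
    | cons b p =>
      rw [List.map_cons, List.map_cons, List.getLast?_cons_cons, ← List.map_cons]
      rw [this]
      cases hh : (List.map M.tgt (b :: p)).getLast? with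
      | none => simp at hh
      | some c => rfl

lemma wk_src {p : List A} {u v : V} (h : Wk M u p v) :
    ∀ a ∈ p, M.src a = u ∨ M.src a ∈ p.map M.tgt := by
  induction p generalizing u with
  | nil => simp
  | cons a p ih =>
    intro c hc
    rcases List.mem_cons.1 hc with hc | hc
    · left; rw [hc]; exact h.1
    · right
      rcases ih h.2 c hc with h' | h'
      · rw [h', List.map_cons]; exact List.mem_cons_self
      · rw [List.map_cons]; exact List.mem_cons_of_mem _ h'

lemma wk_lt {p : List A} {u v : V} (h : Wk M u p v) : ∀ a ∈ p, M.h u < M.h (M.tgt a) := by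
  induction p generalizing u with
  | nil => simp
  | cons a p ih =>
    have h1 : M.h u < M.h (M.tgt a) := by
      have := M.h_lt a
      rwa [h.1] at this
    intro c hc
    rcases List.mem_cons.1 hc with hc | hc
    · rw [hc]; exact h1
    · exact h1.trans (ih h.2 c hc)

lemma wk_nodup {p : List A} {u v : V} (h : Wk M u p v) : (p.map M.tgt).Nodup := by
  induction p generalizing u with
  | nil => simp
  | cons a p ih =>
    rw [List.map_cons, List.nodup_cons]
    refine ⟨?_, ih h.2⟩
    intro hm
    obtain ⟨c, hc, hca⟩ := List.mem_map.1 hm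
    have := wk_lt h.2 c hc
    rw [hca] at this
    exact lt_irrefl _ this

lemma wk_start {p : List A} {u v u' v' : V} (hp : p ≠ []) (h : Wk M u p v) (h' : Wk M u' p v') :
    u = u' ∧ v = v' := by
  cases p with
  | nil => exact absurd rfl hp
  | cons a p =>
    refine ⟨h.1.symm.trans h'.1, ?_⟩
    have := wk_end h.2
    rw [this]
    exact (wk_end h'.2).symm

lemma face (x : F) : ∃ u v, Wk M u (M.low x) v ∧ Wk M u (M.up x) v := by
  obtain ⟨a, l, hl⟩ := List.exists_cons_of_ne_nil (M.low_ne x)
  refine ⟨M.src a, M.tgt ((M.low x).getLast (M.low_ne x)), ?_, ?_⟩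
  · refine wk_of_chain (M.low_ne x) (M.low_chain x) ?_ ?_
    · intro c hc
      rw [hl] at hc
      simp only [List.head?_cons, Option.some.injEq] at hc
      rw [hc]
    · intro c hc
      rw [List.getLast?_eq_getLast_of_ne_nil (M.low_ne x)] at hc
      rw [Option.some.inj hc]
  · refine wk_of_chain (M.up_ne x) (M.up_chain x) ?_ ?_
    · intro c hc
      exact (M.first x a c (by rw [hl]; rfl) hc).symm
    · intro c hc
      exact (M.last x _ c (List.getLast?_eq_getLast_of_ne_nil (M.low_ne x)) hc).symm

lemma inc {x : F} {u v w : V} (h1 : Wk M u (M.low x) v) (h2 : Wk M u (M.up x) v)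
    (h : M.Inc w x) : w = u ∨ w ∈ (M.low x).map M.tgt ∨ w ∈ (M.up x).map M.tgt := by
  obtain ⟨a, ha, hw⟩ := h
  rcases ha with ha | ha <;> rcases hw with hw | hw
  · rcases wk_src h1 a ha with h | h
    · left; rw [← hw, h]
    · right; left; rw [← hw]; exact h
  · right; left; rw [← hw]; exact List.mem_map_of_mem ha
  · rcases wk_src h2 a ha with h | h
    · left; rw [← hw, h]
    · right; right; rw [← hw]; exact h
  · right; right; rw [← hw]; exact List.mem_map_of_mem ha

end

section

variable {V F : Type} [DecidableEq V] [DecidableEq F]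

theorem ee_pl {s : V} {L : List ((F ⊕ Option V) × V)} {PB : Finset V}
    {PW : Finset (F ⊕ Option V)} {Q OB : Finset (V × (F ⊕ Option V))}
    {OW : Finset ((F ⊕ Option V) × V)} (h : EE s L PB PW Q OB OW) :
    s ∈ PB ∧ (∀ b ∈ L.map Prod.snd, b ∈ PB) ∧ ∀ v w, (v, w) ∈ Q → v ∈ PB := by
  induction h with
  | start w t hst =>
    refine ⟨by simp, by simp, ?_⟩
    intro v w' h
    simp only [Finset.mem_insert, Finset.mem_singleton, Prod.mk.injEq] at h
    rcases h with h | h <;> simp [h.1]
  | ins A C w b' l o PB PW Q OB OW _ hl ho ih =>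
    obtain ⟨h1, h2, h3⟩ := ih
    have hlast : lastB s A ∈ PB := by
      unfold lastB
      cases hA : A.getLast? with
      | none => exact h1
      | some p =>
        have : p ∈ A := List.mem_of_getLast? hA
        apply h2
        simp only [List.map_append, List.mem_append, List.mem_map]
        exact Or.inl ⟨p, this, rfl⟩
    refine ⟨Finset.mem_insert_of_mem h1, ?_, ?_⟩
    · intro b hb
      simp only [List.map_append, List.map_cons, List.mem_append, List.mem_cons] at hb
      rcases hb with hb | hb | hb | hb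
      · exact Finset.mem_insert_of_mem (h2 b (by simp only [List.map_append, List.mem_append]; exact Or.inl hb))
      · rw [hb]; exact Finset.mem_insert_self _ _
      · exact Finset.mem_insert_of_mem (h2 b (by simp [hb]))
      · exact Finset.mem_insert_of_mem (h2 b (by
          simp only [List.map_append, List.mem_append, List.map_cons, List.mem_cons]
          exact Or.inr (Or.inr hb)))
    · intro v w' h
      simp only [Finset.mem_insert, Prod.mk.injEq] at h
      rcases h with h | h | h | h
      · rw [h.1]; exact Finset.mem_insert_of_mem hlast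
      · rw [h.1]; exact Finset.mem_insert_self _ _
      · rw [h.1]; exact Finset.mem_insert_self _ _
      · exact Finset.mem_insert_of_mem (h3 v w' h)
  | cov A M C w₁ b₁ w PB PW Q OB OW _ hw ih =>
    obtain ⟨h1, h2, h3⟩ := ih
    have hlast : lastB s A ∈ PB := by
      unfold lastB
      cases hA : A.getLast? with
      | none => exact h1
      | some p =>
        have : p ∈ A := List.mem_of_getLast? hA
        apply h2
        simp only [List.map_append, List.mem_append, List.mem_map]
        exact Or.inl (Or.inl ⟨p, this, rfl⟩)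
    refine ⟨h1, ?_, ?_⟩
    · intro b hb
      apply h2
      simp only [List.map_append, List.map_cons, List.mem_append, List.mem_cons] at hb ⊢
      tauto
    · intro v w' h
      rw [Finset.mem_union] at h
      rcases h with h | h
      · exact h3 v w' h
      · simp only [Finset.mem_image, List.mem_toFinset, Prod.mk.injEq] at h
        obtain ⟨x, hx, hxv, -⟩ := h
        rw [← hxv]
        rcases List.mem_cons.1 hx with hx | hx
        · rw [hx]; exact hlast
        · apply h2
          simp only [List.map_append, List.map_cons, List.mem_append, List.mem_cons,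
            List.map_nil, List.not_mem_nil, or_false] at hx ⊢
          tauto

theorem ins_list {s : V} {LA LC : List ((F ⊕ Option V) × V)} {w : F ⊕ Option V} {b : V}
    {PB : Finset V} {PW : Finset (F ⊕ Option V)} {Q OB : Finset (V × (F ⊕ Option V))}
    {OW : Finset ((F ⊕ Option V) × V)} (ls : List V) (hls : ls.Nodup)
    (hPB : ∀ l ∈ ls, l ∉ PB) (hPW : ∀ l ∈ ls, Sum.inr (some l) ∉ PW)
    (h : EE s (LA ++ (w, b) :: LC) PB PW Q OB OW) :
    ∃ (PB' : Finset V) (PW' : Finset (F ⊕ Option V)) (Q' OB' : Finset (V × (F ⊕ Option V)))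
      (OW' : Finset ((F ⊕ Option V) × V)),
      EE s (LA ++ ls.map (fun l => (Sum.inr (some l), l)) ++ (w, b) :: LC) PB' PW' Q' OB' OW' ∧
      (∀ v, v ∈ PB' ↔ v ∈ PB ∨ v ∈ ls) ∧
      (∀ z, z ∈ PW' ↔ z ∈ PW ∨ ∃ l ∈ ls, z = Sum.inr (some l)) ∧ Q ⊆ Q' ∧
      ∀ l ∈ ls, (l, w) ∈ Q' := by
  induction ls generalizing LA PB PW Q OB OW with
  | nil =>
    refine ⟨PB, PW, Q, OB, OW, by simpa using h, by simp, by simp, subset_rfl, by simp⟩
  | cons l ls ih =>
    have h1 := EE.ins LA LC w b l (Sum.inr (some l)) PB PW Q OB OW h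
      (hPB l List.mem_cons_self) (hPW l List.mem_cons_self)
    rw [show LA ++ (Sum.inr (some l), l) :: (w, b) :: LC =
      (LA ++ [(Sum.inr (some l), l)]) ++ (w, b) :: LC by simp] at h1
    rw [List.nodup_cons] at hls
    obtain ⟨PB', PW', Q', OB', OW', k1, k2, k3, k4, k5⟩ := ih hls.2 (by
      intro l' hl' hm
      rcases Finset.mem_insert.1 hm with hm | hm
      · exact hls.1 (hm ▸ hl')
      · exact hPB l' (List.mem_cons_of_mem _ hl') hm) (by
      intro l' hl' hm
      rcases Finset.mem_insert.1 hm with hm | hm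
      · simp only [Sum.inr.injEq, Option.some.injEq] at hm
        exact hls.1 (hm ▸ hl')
      · exact hPW l' (List.mem_cons_of_mem _ hl') hm) h1
    refine ⟨PB', PW', Q', OB', OW', ?_, ?_, ?_, ?_, ?_⟩
    · simpa using k1
    · intro v
      rw [k2, Finset.mem_insert, List.mem_cons]
      tauto
    · intro z
      rw [k3, Finset.mem_insert]
      constructor
      · rintro ((h | h) | ⟨l', h1, h2⟩)
        · exact Or.inr ⟨l, List.mem_cons_self, h⟩
        · exact Or.inl h
        · exact Or.inr ⟨l', List.mem_cons_of_mem _ h1, h2⟩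
      · rintro (h | ⟨l', h1, h2⟩)
        · exact Or.inl (Or.inr h)
        · rcases List.mem_cons.1 h1 with h1 | h1
          · exact Or.inl (Or.inl (by rw [h2, h1]))
          · exact Or.inr ⟨l', h1, h2⟩
    · intro q hq
      exact k4 (by simp [hq])
    · intro l' hl'
      rcases List.mem_cons.1 hl' with h | h
      · exact k4 (by simp [h])
      · exact k5 l' h

end

section

variable {V F A : Type} [DecidableEq V] [DecidableEq F] (M : BM V F A)

/-- the state of the sweep over the faces -/
structure St (S : Finset F) (p : List A) : Prop where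
  ne : p ≠ []
  wk : Wk M (M.src M.e0) p (M.tgt M.e0)
  ft : M.ft ∉ S
  I1 : ∀ a, a ∈ p ↔ ((∃ y ∈ S, a ∈ M.up y) ∨ a = M.e0) ∧ ¬ ∃ y ∈ S, a ∈ M.low y
  I2 : ∀ y ∈ S, ∀ a ∈ M.low y, (∃ y' ∈ S, a ∈ M.up y') ∨ a = M.e0
  I3 : ∃ (L : List ((F ⊕ Option V) × V)) (PB : Finset V) (PW : Finset (F ⊕ Option V))
    (Q OB : Finset (V × (F ⊕ Option V))) (OW : Finset ((F ⊕ Option V) × V)),
    EE (M.src M.e0) L PB PW Q OB OW ∧ L.map Prod.snd = p.map M.tgt ∧
    (∀ v, v ∈ PB → v = M.src M.e0 ∨ v = M.tgt M.e0 ∨
      ∃ y ∈ S, ∃ l a a' l', M.up y = l ++ a :: a' :: l' ∧ M.tgt a = v) ∧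
    (∀ y, Sum.inl y ∈ PW → y ∈ S) ∧ (∀ v, Sum.inr (some v) ∈ PW → v ∈ PB) ∧
    ∀ y ∈ S, ∀ v, M.Inc v y → (v, Sum.inl y) ∈ Q

variable {M}

lemma start : St M ∅ [M.e0] := by
  have hne : M.src M.e0 ≠ M.tgt M.e0 := fun h => M.no_in M.e0 h.symm
  refine ⟨by simp, ⟨rfl, rfl⟩, by simp, by simp, by simp, [(Sum.inr none, M.tgt M.e0)], _, _, _, _,
    _, EE.start _ _ hne, by simp, ?_, ?_, ?_, by simp⟩
  · intro v hv
    simp only [Finset.mem_insert, Finset.mem_singleton] at hv
    tauto
  · intro y hy
    simp at hy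
  · intro y hy
    simp at hy

lemma stop {S : Finset F} {p : List A} (h : St M S p) {P₁ P₂ : List A}
    (hp : p = P₁ ++ M.low M.ft ++ P₂) : ∃ (L : List ((F ⊕ Option V) × V)) (PB : Finset V)
    (PW : Finset (F ⊕ Option V))
    (Q OB : Finset (V × (F ⊕ Option V))) (OW : Finset ((F ⊕ Option V) × V)),
    EE (M.src M.e0) L PB PW Q OB OW ∧ (∀ v, v ∈ PB) ∧
    (∀ x, x ≠ M.ft → ∀ v, M.Inc v x → (v, Sum.inl x) ∈ Q) ∧
    ∀ v, M.Inc v M.ft → v = M.src M.e0 ∨ v ∈ L.map Prod.snd := by
  obtain ⟨u', v', k1, k2⟩ := face (M := M) M.ft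
  rw [M.up_ft] at k2
  obtain ⟨e1, e2⟩ := k2
  have e2' : v' = M.tgt M.e0 := e2.symm
  subst e1 e2'
  have hwk := h.wk
  rw [hp, wk_append] at hwk
  obtain ⟨v, hv1, hv2⟩ := hwk
  rw [wk_append] at hv1
  obtain ⟨u, hu1, hu2⟩ := hv1
  obtain ⟨f1, f2⟩ := wk_start (M.low_ne _) hu2 k1
  subst f1 f2
  have hP1 : P₁ = [] := by
    rcases List.eq_nil_or_concat P₁ with h | ⟨Q, a, h⟩
    · exact h
    · exfalso
      rw [List.concat_eq_append] at h
      rw [h, wk_append] at hu1
      obtain ⟨w, -, -, hw⟩ := hu1
      exact M.no_in a hw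
  have hP2 : P₂ = [] := by
    cases P₂ with
    | nil => rfl
    | cons a P₂ => exact absurd hv2.1 (M.no_out a)
  have hp' : p = M.low M.ft := by rw [hp, hP1, hP2]; simp
  have hcl : ∀ a y z, a ∈ M.low y → a ∈ M.up z → ((y ∈ S ∨ y = M.ft) ↔ (z ∈ S ∨ z = M.ft)) := by
    intro a y z hy hz
    have he0 : a = M.e0 → z = M.ft := by
      intro ha
      apply M.up_uniq a z M.ft hz
      rw [M.up_ft, ha]
      simp
    constructor
    · rintro (h1 | h1)
      · rcases h.I2 y h1 a hy with ⟨y', h2, h3⟩ | h2
        · left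
          rw [M.up_uniq a z y' hz h3]
          exact h2
        · right; exact he0 h2
      · rw [h1, ← hp', h.I1] at hy
        rcases hy.1 with ⟨y', h2, h3⟩ | h2
        · left
          rw [M.up_uniq a z y' hz h3]
          exact h2
        · right; exact he0 h2
    · intro h1
      have h2 : (∃ y ∈ S, a ∈ M.up y) ∨ a = M.e0 := by
        rcases h1 with h1 | h1
        · exact Or.inl ⟨z, h1, hz⟩
        · rw [h1, M.up_ft, List.mem_singleton] at hz
          exact Or.inr hz
      by_cases h3 : ∃ y ∈ S, a ∈ M.low y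
      · obtain ⟨y', h3, h4⟩ := h3
        left
        rw [M.low_uniq a y y' hy h4]
        exact h3
      · have : a ∈ p := (h.I1 a).2 ⟨h2, h3⟩
        rw [hp'] at this
        right
        exact M.low_uniq a y _ hy this
  have hall : ∀ y, y ∈ S ∨ y = M.ft := fun y => M.conn _ hcl M.ft y (Or.inr rfl)
  obtain ⟨L, PB, PW, Q, OB, OW, hEE, hL, -, -, -, hQ⟩ := h.I3
  obtain ⟨q1, q2, q3⟩ := ee_pl hEE
  rw [hL, hp'] at q2
  have hft : ∀ w, M.Inc w M.ft → w = M.src M.e0 ∨ w ∈ (M.low M.ft).map M.tgt := by
    intro w hw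
    rcases inc k1 (by rw [M.up_ft]; exact ⟨rfl, rfl⟩) hw with h | h | h
    · exact Or.inl h
    · exact Or.inr h
    · right
      rw [M.up_ft] at h
      simp only [List.map_cons, List.map_nil, List.mem_singleton] at h
      rw [h]
      have := wk_end k1
      rw [List.getLast?_eq_getLast_of_ne_nil (by simpa using M.low_ne M.ft)] at this
      rw [this]
      exact List.getLast_mem _
  refine ⟨L, PB, PW, Q, OB, OW, hEE, ?_, ?_, ?_⟩
  · intro w
    obtain ⟨a, ha⟩ := M.cover w
    obtain ⟨y, hy⟩ := M.low_cov a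
    rcases hall y with h1 | h1
    · exact q3 w _ (hQ y h1 w ⟨a, Or.inl hy, ha⟩)
    · rcases hft w ⟨a, Or.inl (h1 ▸ hy), ha⟩ with h2 | h2
      · rw [h2]; exact q1
      · exact q2 w h2
  · intro x hx w hw
    rcases hall x with h1 | h1
    · exact hQ x h1 w hw
    · exact absurd h1 hx
  · intro w hw
    rw [hL, hp']
    exact hft w hw

lemma step {S : Finset F} {p : List A} (h : St M S p) {x : F} {P₁ P₂ : List A}
    (hp : p = P₁ ++ M.low x ++ P₂) (hx : x ≠ M.ft) : x ∉ S ∧ St M (insert x S) (P₁ ++ M.up x ++ P₂) := by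
  obtain ⟨u', v', k1, k2⟩ := face (M := M) x
  have hwk := h.wk
  rw [hp, wk_append] at hwk
  obtain ⟨v, hv1, hv2⟩ := hwk
  rw [wk_append] at hv1
  obtain ⟨u, hu1, hu2⟩ := hv1
  obtain ⟨f1, f2⟩ := wk_start (M.low_ne _) hu2 k1
  subst f1 f2
  have hlowp : ∀ a ∈ M.low x, a ∈ p := by
    intro a ha
    rw [hp]
    simp [ha]
  have hxS : x ∉ S := by
    intro hxS
    obtain ⟨a, l, hl⟩ := List.exists_cons_of_ne_nil (M.low_ne x)
    have ha : a ∈ M.low x := by rw [hl]; simp
    exact ((h.I1 a).1 (hlowp a ha)).2 ⟨x, hxS, ha⟩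
  refine ⟨hxS, ?_⟩
  have hupx : ∀ a, a ∈ M.up x → ¬ ((∃ y ∈ S, a ∈ M.up y) ∨ a = M.e0) := by
    rintro a ha (⟨y, hy, hay⟩ | h1)
    · rw [M.up_uniq a x y ha hay] at hxS
      exact hxS hy
    · apply hx
      apply M.up_uniq a x M.ft ha
      rw [M.up_ft, h1]
      simp
  have hndp : (p.map M.tgt).Nodup := wk_nodup h.wk
  have hnd : p.Nodup := List.Nodup.of_map _ hndp
  have hnotlow : ∀ a, a ∈ P₁ ∨ a ∈ P₂ → a ∉ M.low x := by
    intro a ha hax
    rw [hp] at hnd
    rw [List.nodup_append, List.nodup_append] at hnd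
    rcases ha with ha | ha
    · exact hnd.1.2.2 a ha a hax rfl
    · exact hnd.2.2 a (List.mem_append_right _ hax) a ha rfl
  refine ⟨by simp [M.up_ne x], ?_, ?_, ?_, ?_, ?_⟩
  · rw [wk_append]
    refine ⟨v, ?_, hv2⟩
    rw [wk_append]
    exact ⟨u, hu1, k2⟩
  · rw [Finset.mem_insert]
    rintro (h1 | h1)
    · exact hx h1.symm
    · exact h.ft h1
  · intro a
    constructor
    · intro ha
      rw [List.append_assoc, List.mem_append, List.mem_append] at ha
      rcases ha with ha | ha | ha
      · have hap : a ∈ p := by rw [hp]; simp [ha]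
        obtain ⟨h1, h2⟩ := (h.I1 a).1 hap
        refine ⟨?_, ?_⟩
        · rcases h1 with ⟨y, hy, hay⟩ | h1
          · exact Or.inl ⟨y, Finset.mem_insert_of_mem hy, hay⟩
          · exact Or.inr h1
        · rintro ⟨y, hy, hay⟩
          rcases Finset.mem_insert.1 hy with hy | hy
          · exact hnotlow a (Or.inl ha) (hy ▸ hay)
          · exact h2 ⟨y, hy, hay⟩
      · refine ⟨Or.inl ⟨x, Finset.mem_insert_self _ _, ha⟩, ?_⟩
        rintro ⟨y, hy, hay⟩
        rcases Finset.mem_insert.1 hy with hy | hy
        · rw [hy] at hay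
          exact hupx a ha ((h.I1 a).1 (hlowp a hay)).1
        · exact hupx a ha (h.I2 y hy a hay)
      · have hap : a ∈ p := by rw [hp]; simp [ha]
        obtain ⟨h1, h2⟩ := (h.I1 a).1 hap
        refine ⟨?_, ?_⟩
        · rcases h1 with ⟨y, hy, hay⟩ | h1
          · exact Or.inl ⟨y, Finset.mem_insert_of_mem hy, hay⟩
          · exact Or.inr h1
        · rintro ⟨y, hy, hay⟩
          rcases Finset.mem_insert.1 hy with hy | hy
          · exact hnotlow a (Or.inr ha) (hy ▸ hay)
          · exact h2 ⟨y, hy, hay⟩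
    · rintro ⟨h1, h2⟩
      rw [List.append_assoc, List.mem_append, List.mem_append]
      by_cases h3 : a ∈ M.up x
      · exact Or.inr (Or.inl h3)
      have hap : a ∈ p := by
        rw [h.I1]
        refine ⟨?_, fun ⟨y, hy, hay⟩ => h2 ⟨y, Finset.mem_insert_of_mem hy, hay⟩⟩
        rcases h1 with ⟨y, hy, hay⟩ | h1
        · rcases Finset.mem_insert.1 hy with hy | hy
          · exact absurd (hy ▸ hay) h3
          · exact Or.inl ⟨y, hy, hay⟩
        · exact Or.inr h1
      have h4 : a ∉ M.low x := fun h4 => h2 ⟨x, Finset.mem_insert_self _ _, h4⟩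
      rw [hp, List.append_assoc, List.mem_append, List.mem_append] at hap
      tauto
  · intro y hy a ha
    rcases Finset.mem_insert.1 hy with hy | hy
    · rw [hy] at ha
      rcases ((h.I1 a).1 (hlowp a ha)).1 with ⟨y', h1, h2⟩ | h1
      · exact Or.inl ⟨y', Finset.mem_insert_of_mem h1, h2⟩
      · exact Or.inr h1
    · rcases h.I2 y hy a ha with ⟨y', h1, h2⟩ | h1
      · exact Or.inl ⟨y', Finset.mem_insert_of_mem h1, h2⟩
      · exact Or.inr h1
  · obtain ⟨L, PB, PW, Q, OB, OW, hEE, hL, hPB, hPW1, hPW2, hQ⟩ := h.I3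
    -- split the contour
    rw [hp, List.map_append, List.map_append] at hL
    obtain ⟨L12, LC, rfl, hL12, hLC⟩ := List.map_eq_append_iff.1 hL
    obtain ⟨LA, LM, rfl, hLA, hLM⟩ := List.map_eq_append_iff.1 hL12
    have hLMne : LM ≠ [] := by
      intro h0
      rw [h0] at hLM
      simp only [List.map_nil] at hLM
      exact M.low_ne x (List.map_eq_nil_iff.1 hLM.symm)
    obtain ⟨LM', ⟨w₁, b₁⟩, rfl⟩ : ∃ LM' p, LM = LM' ++ [p] :=
      ⟨LM.dropLast, LM.getLast hLMne, (List.dropLast_append_getLast hLMne).symm⟩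
    have hb1 : b₁ = v := by
      have := wk_end hu2
      rw [← hLM] at this
      rw [this]
      simp
    have hlast : lastB (M.src M.e0) LA = u := by
      have := wk_end hu1
      rw [this, ← hLA, lastB, List.getLast?_map]
    have hcov := EE.cov LA LM' LC w₁ b₁ (Sum.inl x) PB PW Q OB OW (by
      rw [show LA ++ LM' ++ (w₁, b₁) :: LC = LA ++ (LM' ++ [(w₁, b₁)]) ++ LC by simp]
      exact hEE) (fun hm => hxS (hPW1 x hm))
    -- the new vertices
    obtain ⟨U, c, hU⟩ : ∃ U c, M.up x = U ++ [c] :=
      ⟨(M.up x).dropLast, (M.up x).getLast (M.up_ne x),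
        (List.dropLast_append_getLast (M.up_ne x)).symm⟩
    have hc : M.tgt c = v := by
      have := wk_end k2
      rw [hU] at this
      rw [this]
      simp
    have hUdec : ∀ l ∈ U.map M.tgt, ∃ l₁ a a' l₂, M.up x = l₁ ++ a :: a' :: l₂ ∧ M.tgt a = l := by
      intro l hl
      obtain ⟨a, ha, hal⟩ := List.mem_map.1 hl
      obtain ⟨l₁, l₂, hl₁⟩ := List.append_of_mem ha
      rw [hU, hl₁]
      cases l₂ with
      | nil => exact ⟨l₁, a, c, [], by simp, hal⟩
      | cons a' l₂ => exact ⟨l₁, a, a', l₂ ++ [c], by simp, hal⟩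
    have hfresh : ∀ l ∈ U.map M.tgt, l ∉ PB := by
      intro l hl hlPB
      obtain ⟨l₁, a, a', l₂, hup, hal⟩ := hUdec l hl
      have hchain : M.tgt a = M.src a' := by
        have := M.up_chain x
        rw [hup, List.isChain_append] at this
        have := this.2.1
        rw [List.isChain_cons_cons] at this
        exact this.1
      rcases hPB l hlPB with h1 | h1 | ⟨y, hy, m, d, d', m', hd, hdl⟩
      · exact M.no_in a (hal.trans h1)
      · exact M.no_out a' (by rw [← hchain, hal, h1])
      · have h2 : a = d := M.up_turn x y l₁ l₂ m m' a a' d d' hup hd (by rw [hal, hdl])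
        have h3 : x = y := M.up_uniq a x y (by rw [hup]; simp) (by rw [h2, hd]; simp)
        exact hxS (h3 ▸ hy)
    have hnodup : (U.map M.tgt).Nodup := by
      have := wk_nodup k2
      rw [hU, List.map_append] at this
      exact (List.nodup_append.1 this).1
    obtain ⟨PB', PW', Q', OB', OW', g1, g2, g3, g4, g5⟩ := ins_list (U.map M.tgt) hnodup hfresh (by
      intro l hl hm
      rcases Finset.mem_insert.1 hm with hm | hm
      · simp at hm
      · exact hfresh l hl (hPW2 l hm)) hcov
    refine ⟨_, PB', PW', Q', OB', OW', g1, ?_, ?_, ?_, ?_, ?_⟩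
    · rw [List.map_append, List.map_append, List.map_cons, hLA, hLC, List.map_append,
        List.map_append, hU, List.map_append, List.map_map]
      simp only [Function.comp_def, List.map_id', List.append_assoc, List.map_cons, List.map_nil,
        hc, hb1]
      simp
    · intro w hw
      rw [g2] at hw
      rcases hw with hw | hw
      · rcases hPB w hw with h1 | h1 | ⟨y, hy, hd⟩
        · exact Or.inl h1
        · exact Or.inr (Or.inl h1)
        · exact Or.inr (Or.inr ⟨y, Finset.mem_insert_of_mem hy, hd⟩)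
      · exact Or.inr (Or.inr ⟨x, Finset.mem_insert_self _ _, hUdec w hw⟩)
    · intro y hy
      rw [g3] at hy
      rcases hy with hy | ⟨l, -, hl⟩
      · rcases Finset.mem_insert.1 hy with hy | hy
        · rw [Sum.inl.inj hy]; exact Finset.mem_insert_self _ _
        · exact Finset.mem_insert_of_mem (hPW1 y hy)
      · simp at hl
    · intro w hw
      rw [g3] at hw
      rw [g2]
      rcases hw with hw | ⟨l, hl, hwl⟩
      · rcases Finset.mem_insert.1 hw with hw | hw
        · simp at hw
        · exact Or.inl (hPW2 w hw)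
      · right
        simp only [Sum.inr.injEq, Option.some.injEq] at hwl
        rw [hwl]; exact hl
    · intro y hy w hw
      rcases Finset.mem_insert.1 hy with hy | hy
      · subst hy
        have hQx : ∀ w, w = u ∨ w ∈ (M.low y).map M.tgt → (w, Sum.inl y) ∈ Q' := by
          intro w hw
          apply g4
          rw [Finset.mem_union]
          right
          rw [Finset.mem_image]
          refine ⟨w, ?_, rfl⟩
          rw [List.mem_toFinset, List.mem_cons, hlast, hLM]
          exact hw
        rcases inc k1 k2 hw with h1 | h1 | h1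
        · exact hQx w (Or.inl h1)
        · exact hQx w (Or.inr h1)
        · rw [hU, List.map_append, List.mem_append] at h1
          rcases h1 with h1 | h1
          · exact g5 w h1
          · simp only [List.map_cons, List.map_nil, List.mem_singleton, hc] at h1
            apply hQx
            right
            rw [← hLM, h1, ← hb1]
            simp
      · apply g4
        rw [Finset.mem_union]
        exact Or.inl (hQ y hy w hw)

end

end ModH

open ModH in
theorem h (h1 : StmtH1) : StmtH := by
  intro V F A _ _ _ _ M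
  suffices H : ∀ (n : ℕ) (S : Finset F) (p : List A), Fintype.card F - S.card = n → St M S p →
      ∃ (L : List ((F ⊕ Option V) × V)) (PB : Finset V) (PW : Finset (F ⊕ Option V))
      (Q OB : Finset (V × (F ⊕ Option V))) (OW : Finset ((F ⊕ Option V) × V)),
      EE (M.src M.e0) L PB PW Q OB OW ∧ (∀ v, v ∈ PB) ∧
      (∀ x, x ≠ M.ft → ∀ v, M.Inc v x → (v, Sum.inl x) ∈ Q) ∧
      ∀ v, M.Inc v M.ft → v = M.src M.e0 ∨ v ∈ L.map Prod.snd from H _ ∅ [M.e0] rfl start
  intro n
  induction n using Nat.strong_induction_on with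
  | _ n ih =>
    intro S p hn hS
    obtain ⟨k1, k2, k3⟩ := chain_of_wk hS.wk
    obtain ⟨x, P₁, P₂, hp⟩ := h1 V F A M p hS.ne k1 k2 k3
    by_cases hx : x = M.ft
    · subst hx
      exact stop hS hp
    · obtain ⟨h2, h3⟩ := step hS hp hx
      refine ih (Fintype.card F - (insert x S).card) ?_ _ _ rfl h3
      have h4 : (insert x S).card = S.card + 1 := Finset.card_insert_of_notMem h2
      have h5 : (insert x S).card ≤ Fintype.card F := Finset.card_le_univ _
      omega

end Pool.Agent.T6.H90.SL
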