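import Pool.Agent.T6.H90.SL.Defs

set_option autoImplicit false

/-!
# Module H1: every directed path from the source to the sink contains a whole lower path
-/

namespace Pool.Agent.T6.H90.SL

namespace ModH1

variable {V F A : Type}

/-- Comparison of two lists. -/
theorem compare (l : List A) : ∀ r : List A, (∃ s, r = l ++ s) ∨
    (∃ a' l', l = r ++ a' :: l') ∨
    ∃ c a' l' a'' r', l = c ++ a' :: l' ∧ r = c ++ a'' :: r' ∧ a' ≠ a'' := by
  induction l with
  | nil => intro r; exact Or.inl ⟨r, rfl⟩
  | cons a l ih =>
    intro r
    cases r with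
    | nil => exact Or.inr (Or.inl ⟨a, l, rfl⟩)
    | cons b r =>
      by_cases hab : a = b
      · subst hab
        rcases ih r with ⟨s, hs⟩ | ⟨a', l', h⟩ | ⟨c, a', l', a'', r', h1, h2, h3⟩
        · exact Or.inl ⟨s, by rw [hs]; rfl⟩
        · exact Or.inr (Or.inl ⟨a', l', by rw [h]; rfl⟩)
        · exact Or.inr (Or.inr ⟨a :: c, a', l', a'', r', by rw [h1]; rfl, by rw [h2]; rfl, h3⟩)
      · exact Or.inr (Or.inr ⟨[], a, l, b, r, rfl, rfl, hab⟩)

theorem low_nodup (M : BM V F A) (x : F) : (M.low x).Nodup := by
  have h1 : (M.low x).IsChain (fun a a' => M.h (M.src a) < M.h (M.src a')) := by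
    refine (M.low_chain x).imp ?_
    intro a a' haa
    rw [← haa]
    exact M.h_lt a
  have h2 : (M.low x).Pairwise (fun a a' => M.h (M.src a) < M.h (M.src a')) := by
    have : IsTrans A (fun a a' => M.h (M.src a) < M.h (M.src a')) :=
      ⟨fun a b c hab hbc => lt_trans hab hbc⟩
    exact List.isChain_iff_pairwise.mp h1
  refine h2.imp ?_
  intro a b hab heq
  subst heq
  exact lt_irrefl _ hab

theorem succ_unique (M : BM V F A) (x : F) (L L' N N' : List A) (a a' a'' : A)
    (h1 : M.low x = L ++ a :: a' :: L') (h2 : M.low x = N ++ a :: a'' :: N') : a' = a'' := by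
  classical
  have hn := low_nodup M x
  have key : ∀ (L N : List A), (L ++ a :: a' :: L').Nodup →
      L ++ a :: a' :: L' = N ++ a :: a'' :: N' → a' = a'' := by
    intro L
    induction L with
    | nil =>
      intro N hnd he
      cases N with
      | nil =>
        simp only [List.nil_append, List.cons.injEq, true_and] at he
        exact he.1
      | cons b N =>
        simp only [List.nil_append, List.cons_append, List.cons.injEq] at he
        obtain ⟨hb, he⟩ := he
        rw [List.nil_append, List.nodup_cons] at hnd
        exfalso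
        apply hnd.1
        rw [he]
        simp
    | cons b L ih =>
      intro N hnd he
      cases N with
      | nil =>
        simp only [List.nil_append, List.cons_append, List.cons.injEq] at he
        obtain ⟨hb, he⟩ := he
        rw [List.cons_append, List.nodup_cons] at hnd
        exfalso
        apply hnd.1
        rw [hb]
        simp
      | cons b' N =>
        simp only [List.cons_append, List.cons.injEq] at he
        rw [List.cons_append, List.nodup_cons] at hnd
        exact ih N hnd.2 he.2
  exact key L N (h1 ▸ hn) (h1 ▸ h2)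

theorem main (M : BM V F A) : ∀ (n : ℕ) (R : List A), R.length ≤ n → ∀ (a : A) (r : List A),
    R = a :: r → R.IsChain (fun a a' => M.tgt a = M.src a') →
    (∀ a, R.getLast? = some a → M.tgt a = M.tgt M.e0) →
    ∀ (x : F) (l : List A), M.low x = a :: l →
    ∃ x P₁ P₂, R = P₁ ++ M.low x ++ P₂ := by
  intro n
  induction n with
  | zero =>
    intro R hR a r hr
    subst hr
    simp at hR
  | succ n ih =>
    intro R hR a r hr hch hlast x l hl
    rcases compare l r with ⟨s, hs⟩ | ⟨a', l', h⟩ | ⟨c, a', l', a'', r', h1, h2, h3⟩
    · exact ⟨x, [], s, by rw [hr, hs, hl]; rfl⟩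
    · -- the path is exhausted
      exfalso
      have hx : M.low x = R ++ a' :: l' := by rw [hl, h, hr]; rfl
      have hne : R ≠ [] := by rw [hr]; simp
      obtain ⟨c0, ak, hc⟩ : ∃ c0 ak, R = c0 ++ [ak] :=
        ⟨R.dropLast, R.getLast hne, (List.dropLast_append_getLast hne).symm⟩
      have hx' : M.low x = c0 ++ ak :: a' :: l' := by rw [hx, hc]; simp
      have hcx := M.low_chain x
      rw [hx'] at hcx
      have h4 : M.tgt ak = M.src a' := by
        have := (List.isChain_append.mp hcx).2.1
        exact (List.isChain_cons_cons.mp this).1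
      have h5 : M.tgt ak = M.tgt M.e0 := hlast ak (by rw [hc]; simp)
      exact M.no_out a' (by rw [← h4, h5])
    · have hx : M.low x = (a :: c) ++ a' :: l' := by rw [hl, h1]; rfl
      have hRc : R = (a :: c) ++ a'' :: r' := by rw [hr, h2]; rfl
      have hne : (a :: c) ≠ [] := by simp
      obtain ⟨c0, ak, hc⟩ : ∃ c0 ak, a :: c = c0 ++ [ak] :=
        ⟨(a :: c).dropLast, (a :: c).getLast hne, (List.dropLast_append_getLast hne).symm⟩
      have hx' : M.low x = c0 ++ ak :: a' :: l' := by rw [hx, hc]; simp
      have hR' : R = c0 ++ ak :: a'' :: r' := by rw [hRc, hc]; simp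
      have h5 : M.tgt ak = M.src a'' := by
        rw [hR'] at hch
        have := (List.isChain_append.mp hch).2.1
        exact (List.isChain_cons_cons.mp this).1
      obtain ⟨y, hy⟩ := M.low_cov a''
      obtain ⟨l1, l2, hyl⟩ := List.append_of_mem hy
      by_cases hl1 : l1 = []
      · subst hl1
        have hlen : (a'' :: r').length ≤ n := by
          have := hR
          rw [hRc] at this
          simp only [List.length_append, List.length_cons] at this ⊢
          omega
        have hch' : (a'' :: r').IsChain (fun a a' => M.tgt a = M.src a') := by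
          rw [hRc] at hch
          exact (List.isChain_append.mp hch).2.1
        have hlast' : ∀ b, (a'' :: r').getLast? = some b → M.tgt b = M.tgt M.e0 := by
          intro b hb
          apply hlast b
          rw [hRc, List.getLast?_append, hb]
          rfl
        obtain ⟨x', P1, P2, hP⟩ := ih (a'' :: r') hlen a'' r' rfl hch' hlast' y l2 (by rw [hyl]; rfl)
        exact ⟨x', (a :: c) ++ P1, P2, by rw [hRc, hP]; simp⟩
      · exfalso
        obtain ⟨l0, cc, hl0⟩ : ∃ l0 cc, l1 = l0 ++ [cc] :=
          ⟨l1.dropLast, l1.getLast hl1, (List.dropLast_append_getLast hl1).symm⟩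
        have hyl' : M.low y = l0 ++ cc :: a'' :: l2 := by rw [hyl, hl0]; simp
        have h6 : M.tgt cc = M.src a'' := by
          have hcy := M.low_chain y
          rw [hyl'] at hcy
          have := (List.isChain_append.mp hcy).2.1
          exact (List.isChain_cons_cons.mp this).1
        have h7 : ak = cc := M.low_turn x y c0 l' l0 l2 ak a' cc a'' hx' hyl' (by rw [h5, h6])
        subst h7
        have h8 : x = y := M.low_uniq ak x y (by rw [hx']; simp) (by rw [hyl']; simp)
        subst h8
        exact h3 (succ_unique M x c0 l' l0 l2 ak a' a'' hx' hyl')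

end ModH1

open ModH1 in
theorem h1 : StmtH1 := by
  intro V F A M p hp hch hfst hlast
  obtain ⟨a, r, hr⟩ := List.exists_cons_of_ne_nil hp
  have hsrc : M.src a = M.src M.e0 := hfst a (by rw [hr]; rfl)
  obtain ⟨x, hx⟩ := M.low_cov a
  obtain ⟨l1, l2, hxl⟩ := List.append_of_mem hx
  have hl1 : l1 = [] := by
    by_contra hl1
    obtain ⟨l0, cc, hl0⟩ : ∃ l0 cc, l1 = l0 ++ [cc] :=
      ⟨l1.dropLast, l1.getLast hl1, (List.dropLast_append_getLast hl1).symm⟩
    have hxl' : M.low x = l0 ++ cc :: a :: l2 := by rw [hxl, hl0]; simp
    have hcx := M.low_chain x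
    rw [hxl'] at hcx
    have h4 : M.tgt cc = M.src a := by
      have := (List.isChain_append.mp hcx).2.1
      exact (List.isChain_cons_cons.mp this).1
    exact M.no_in cc (by rw [h4, hsrc])
  subst hl1
  exact main M p.length p le_rfl a r hr hch hlast x l2 (by rw [hxl]; rfl)

end Pool.Agent.T6.H90.SL
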