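import Pool.Agent.T6.H90.SL.Defs

set_option autoImplicit false

/-!
# An insertion preserves the invariants of the coordinates
-/

namespace Pool.Agent.T6.H90.SL

namespace ModI1

section lists

variable {B W : Type}

theorem con_app (s : B) (A C : List (W × B)) (w : W) (b' : B) :
    con s (A ++ (w, b') :: C) = con s A ++ Sum.inr w :: con b' C := by
  simp [con, List.flatMap_append]

theorem con_cons (s : B) (C : List (W × B)) (w : W) (b' : B) :
    con s ((w, b') :: C) = Sum.inl s :: Sum.inr w :: con b' C := by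
  simp [con]

theorem lastB_nil (s : B) : lastB (W := W) s [] = s := rfl

theorem lastB_app (s : B) (A C : List (W × B)) (w : W) (b' : B) :
    lastB s (A ++ (w, b') :: C) = lastB b' C := by
  unfold lastB
  rw [List.getLast?_append_cons, List.getLast?_cons]
  cases h : C.getLast? <;> simp

theorem con_last (s : B) (A : List (W × B)) :
    ∃ P, con s A = P ++ [Sum.inl (lastB s A)] := by
  rcases List.eq_nil_or_concat A with rfl | ⟨A', e, rfl⟩
  · exact ⟨[], by simp [con, lastB]⟩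
  · refine ⟨con s A' ++ [Sum.inr e.1], ?_⟩
    rw [List.concat_eq_append]
    obtain ⟨w, b⟩ := e
    rw [con_app, lastB_app]
    simp [con, lastB]

theorem mem_lastB (s : B) (A : List (W × B)) : (Sum.inl (lastB s A) : B ⊕ W) ∈ con s A := by
  obtain ⟨P, hP⟩ := con_last s A
  rw [hP]; simp

theorem mem_con_fst (s : B) (A : List (W × B)) (w : W) (b : B) (h : (w, b) ∈ A) :
    (Sum.inr w : B ⊕ W) ∈ con s A := by
  simp only [con, List.mem_cons, List.mem_flatMap]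
  exact Or.inr ⟨(w, b), h, by simp⟩

theorem mem_con_snd (s : B) (A : List (W × B)) (w : W) (b : B) (h : (w, b) ∈ A) :
    (Sum.inl b : B ⊕ W) ∈ con s A := by
  simp only [con, List.mem_cons, List.mem_flatMap]
  exact Or.inr ⟨(w, b), h, by simp⟩

theorem mem_con_head (s : B) (A : List (W × B)) : (Sum.inl s : B ⊕ W) ∈ con s A := by
  simp [con]

theorem inr_mem_con (s : B) (A : List (W × B)) (w : W) :
    (Sum.inr w : B ⊕ W) ∈ con s A ↔ w ∈ A.map Prod.fst := by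
  simp [con]

end lists

/-- The data before the insertion. -/
structure Dt (B W : Type) [DecidableEq B] [DecidableEq W] where
  s : B
  lb : B → ℤ
  lw : W → ℤ
  hlb : ∀ x, 1 ≤ lb x
  A : List (W × B)
  C : List (W × B)
  w : W
  b' : B
  l : B
  o : W
  PB : Finset B
  PW : Finset W
  Q : Finset (B × W)
  OB : Finset (B × W)
  OW : Finset (W × B)
  hl : l ∉ PB
  ho : o ∉ PW
  x₁ : B ⊕ W → ℤ
  x₂ : B ⊕ W → ℤ
  x₃ : B ⊕ W → ℤ
  pos : B ⊕ W → ℚ
  N : ℤ
  I : Inv s lb lw (A ++ (w, b') :: C) PB PW Q OB OW x₁ x₂ x₃ pos N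

variable {B W : Type} [DecidableEq B] [DecidableEq W] (k : Dt B W)

/-- the black element before `w` -/
def Dt.b : B := lastB k.s k.A

/-- the placed vertices -/
abbrev Dt.P (u : B ⊕ W) : Prop := Pl k.PB k.PW u

/-- the old contour -/
abbrev Dt.K : List (B ⊕ W) := con k.s (k.A ++ (k.w, k.b') :: k.C)

/-- the new contour -/
abbrev Dt.K' : List (B ⊕ W) := con k.s (k.A ++ (k.o, k.l) :: (k.w, k.b') :: k.C)

/-- the new first coordinate -/
def Dt.y₁ (z : B ⊕ W) : ℤ :=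
  if z = Sum.inl k.l ∨ z = Sum.inr k.o then k.x₁ (Sum.inr k.w)
  else if k.pos z ≤ k.pos (Sum.inl k.b) then k.x₁ z + k.lb k.l + 1 else k.x₁ z

/-- the new second coordinate -/
def Dt.y₂ (z : B ⊕ W) : ℤ :=
  if z = Sum.inl k.l then k.x₂ (Sum.inl k.b) + k.lb k.l
  else if z = Sum.inr k.o then k.x₂ (Sum.inl k.b)
  else if k.pos z ≤ k.pos (Sum.inl k.b) then k.x₂ z else k.x₂ z + k.lb k.l + 1

/-- the new third coordinate -/
def Dt.y₃ (z : B ⊕ W) : ℤ :=
  if z = Sum.inl k.l then k.x₃ (Sum.inr k.w) + cw k.OB k.w + 1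
  else if z = Sum.inr k.o then k.x₃ (Sum.inr k.w) + cw k.OB k.w + 1 + k.lb k.l
  else k.x₃ z

/-- the new positions -/
def Dt.q (z : B ⊕ W) : ℚ :=
  if z = Sum.inl k.l then k.pos (Sum.inl k.b) +
    2 * (k.pos (Sum.inr k.w) - k.pos (Sum.inl k.b)) / 3
  else if z = Sum.inr k.o then k.pos (Sum.inl k.b) +
    (k.pos (Sum.inr k.w) - k.pos (Sum.inl k.b)) / 3
  else k.pos z

theorem Dt.mem_K (z : B ⊕ W) :
    z ∈ k.K ↔ z ∈ con k.s k.A ∨ z = Sum.inr k.w ∨ z ∈ con k.b' k.C := by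
  rw [Dt.K, con_app]; simp

theorem Dt.mem_K' (z : B ⊕ W) :
    z ∈ k.K' ↔ z = Sum.inl k.l ∨ z = Sum.inr k.o ∨ z ∈ k.K := by
  rw [Dt.mem_K, Dt.K', con_app, con_cons]; simp; tauto

theorem Dt.b_mem : (Sum.inl k.b : B ⊕ W) ∈ k.K := by
  rw [Dt.mem_K]; exact Or.inl (mem_lastB _ _)

theorem Dt.w_mem : (Sum.inr k.w : B ⊕ W) ∈ k.K := by
  rw [Dt.mem_K]; exact Or.inr (Or.inl rfl)

theorem Dt.b_P : k.P (Sum.inl k.b) := k.I.con_pl _ k.b_mem

theorem Dt.w_P : k.P (Sum.inr k.w) := k.I.con_pl _ k.w_mem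

theorem Dt.P_ne (u : B ⊕ W) (h : k.P u) : u ≠ Sum.inl k.l ∧ u ≠ Sum.inr k.o := by
  constructor
  · rintro rfl; exact k.hl h
  · rintro rfl; exact k.ho h

theorem Dt.P'_iff (u : B ⊕ W) : Pl (insert k.l k.PB) (insert k.o k.PW) u ↔
    (u = Sum.inl k.l ∨ u = Sum.inr k.o ∨ k.P u) := by
  cases u <;> simp [Dt.P, Pl]

theorem Dt.srt : (con k.s k.A).Pairwise (fun z z' => k.pos z < k.pos z') ∧
    (∀ z ∈ con k.s k.A, k.pos z < k.pos (Sum.inr k.w)) ∧
    (con k.b' k.C).Pairwise (fun z z' => k.pos z < k.pos z') ∧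
    (∀ z ∈ con k.b' k.C, k.pos (Sum.inr k.w) < k.pos z) := by
  have h := k.I.sorted
  rw [con_app, List.pairwise_append, List.pairwise_cons] at h
  obtain ⟨h1, ⟨h2, h3⟩, h4⟩ := h
  exact ⟨h1, fun z hz => h4 z hz _ (by simp), h3, fun z hz => h2 z hz⟩

theorem Dt.lt_bw : k.pos (Sum.inl k.b) < k.pos (Sum.inr k.w) :=
  k.srt.2.1 _ (mem_lastB _ _)

theorem Dt.left_le (z : B ⊕ W) (h : z ∈ con k.s k.A) : z = Sum.inl k.b ∨
    k.pos z < k.pos (Sum.inl k.b) := by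
  obtain ⟨P, hP⟩ := con_last k.s k.A
  have h1 := k.srt.1
  rw [hP, List.pairwise_append] at h1
  rw [hP] at h
  simp only [List.mem_append, List.mem_singleton] at h
  rcases h with h | h
  · exact Or.inr (h1.2.2 z h _ (by simp [Dt.b]))
  · exact Or.inl h

/-- A contour element lies to the left of or is `b`, or lies to the right of or is `w`. -/
theorem Dt.cont (z : B ⊕ W) (h : z ∈ k.K) : z = Sum.inl k.b ∨ k.pos z < k.pos (Sum.inl k.b) ∨
    z = Sum.inr k.w ∨ k.pos (Sum.inr k.w) < k.pos z := by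
  rw [Dt.mem_K] at h
  rcases h with h | h | h
  · rcases k.left_le z h with h | h <;> tauto
  · tauto
  · have := k.srt.2.2.2 z h
    tauto

theorem Dt.sides (u : B ⊕ W) (h : k.P u) : k.pos u ≤ k.pos (Sum.inl k.b) ∨
    k.pos (Sum.inr k.w) ≤ k.pos u := by
  obtain ⟨z, hz, hzu, -⟩ := k.I.exit u h
  rcases k.cont z hz with h | h | h | h
  · left; rw [← hzu, h]
  · left; rw [← hzu]; exact h.le
  · right; rw [← hzu, h]
  · right; rw [← hzu]; exact h.le

theorem Dt.q_old (u : B ⊕ W) (h : k.P u) : k.q u = k.pos u := by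
  unfold Dt.q
  rw [if_neg (k.P_ne u h).1, if_neg (k.P_ne u h).2]

theorem Dt.y₃_old (u : B ⊕ W) (h : k.P u) : k.y₃ u = k.x₃ u := by
  unfold Dt.y₃
  rw [if_neg (k.P_ne u h).1, if_neg (k.P_ne u h).2]

theorem Dt.old_left (u : B ⊕ W) (h : k.P u) (hp : k.pos u ≤ k.pos (Sum.inl k.b)) :
    k.y₁ u = k.x₁ u + k.lb k.l + 1 ∧ k.y₂ u = k.x₂ u ∧ k.y₃ u = k.x₃ u ∧ k.q u = k.pos u := by
  refine ⟨?_, ?_, k.y₃_old u h, k.q_old u h⟩
  · unfold Dt.y₁
    rw [if_neg (by have := k.P_ne u h; tauto), if_pos hp]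
  · unfold Dt.y₂
    rw [if_neg (k.P_ne u h).1, if_neg (k.P_ne u h).2, if_pos hp]

theorem Dt.old_right (u : B ⊕ W) (h : k.P u) (hp : k.pos (Sum.inr k.w) ≤ k.pos u) :
    k.y₁ u = k.x₁ u ∧ k.y₂ u = k.x₂ u + k.lb k.l + 1 ∧ k.y₃ u = k.x₃ u ∧
      k.q u = k.pos u := by
  have hn : ¬ k.pos u ≤ k.pos (Sum.inl k.b) := by
    have := k.lt_bw
    intro h'; linarith
  refine ⟨?_, ?_, k.y₃_old u h, k.q_old u h⟩
  · unfold Dt.y₁
    rw [if_neg (by have := k.P_ne u h; tauto), if_neg hn]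
  · unfold Dt.y₂
    rw [if_neg (k.P_ne u h).1, if_neg (k.P_ne u h).2, if_neg hn]

theorem Dt.old (u : B ⊕ W) (h : k.P u) :
    (k.pos u ≤ k.pos (Sum.inl k.b) ∧
      k.y₁ u = k.x₁ u + k.lb k.l + 1 ∧ k.y₂ u = k.x₂ u ∧ k.y₃ u = k.x₃ u ∧ k.q u = k.pos u) ∨
    (k.pos (Sum.inr k.w) ≤ k.pos u ∧
      k.y₁ u = k.x₁ u ∧ k.y₂ u = k.x₂ u + k.lb k.l + 1 ∧ k.y₃ u = k.x₃ u ∧
      k.q u = k.pos u) := by
  rcases k.sides u h with hs | hs
  · exact Or.inl ⟨hs, k.old_left u h hs⟩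
  · exact Or.inr ⟨hs, k.old_right u h hs⟩

theorem Dt.new_l : k.y₁ (Sum.inl k.l) = k.x₁ (Sum.inr k.w) ∧
    k.y₂ (Sum.inl k.l) = k.x₂ (Sum.inl k.b) + k.lb k.l ∧
    k.y₃ (Sum.inl k.l) = k.x₃ (Sum.inr k.w) + cw k.OB k.w + 1 := by
  simp [Dt.y₁, Dt.y₂, Dt.y₃]

theorem Dt.new_o : k.y₁ (Sum.inr k.o) = k.x₁ (Sum.inr k.w) ∧
    k.y₂ (Sum.inr k.o) = k.x₂ (Sum.inl k.b) ∧
    k.y₃ (Sum.inr k.o) = k.x₃ (Sum.inr k.w) + cw k.OB k.w + 1 + k.lb k.l := by
  simp [Dt.y₁, Dt.y₂, Dt.y₃]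

theorem Dt.new_q : k.pos (Sum.inl k.b) < k.q (Sum.inr k.o) ∧
    k.q (Sum.inr k.o) < k.q (Sum.inl k.l) ∧ k.q (Sum.inl k.l) < k.pos (Sum.inr k.w) := by
  have h := k.lt_bw
  simp only [Dt.q, reduceCtorEq, if_false, if_true]
  refine ⟨?_, ?_, ?_⟩ <;> linarith

theorem cw_nonneg (S : Finset (B × W)) (y : W) : 0 ≤ cw S y := by
  unfold cw; positivity

theorem Dt.facts : k.x₂ (Sum.inr k.w) = k.x₂ (Sum.inl k.b) + cw k.OB k.w ∧
    k.x₁ (Sum.inr k.w) ≤ k.x₁ (Sum.inl k.b) ∧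
    k.x₁ (Sum.inl k.b) + k.x₂ (Sum.inl k.b) + k.x₃ (Sum.inl k.b) = k.N ∧
    k.x₁ (Sum.inr k.w) + k.x₂ (Sum.inr k.w) + k.x₃ (Sum.inr k.w) = k.N ∧
    0 ≤ cw k.OB k.w ∧ 1 ≤ k.lb k.l :=
  ⟨k.I.left k.A k.w k.b' k.C rfl, k.I.cmp₁ _ k.b_P _ k.w_mem k.lt_bw, k.I.sum _ k.b_P,
    k.I.sum _ k.w_P, cw_nonneg _ _, k.hlb _⟩

theorem Dt.cw_new (y : W) : cw (insert (k.l, k.w) k.OB) y =
    cw k.OB y + if y = k.w then 1 else 0 := by
  have hn : (k.l, k.w) ∉ k.OB := fun h => k.hl (k.I.Q_pl _ _ (k.I.OB_Q _ _ h)).1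
  unfold cw
  rw [Finset.filter_insert]
  split_ifs with h1 h2 h2
  · rw [Finset.card_insert_of_notMem]
    · push_cast; ring
    · intro h
      exact hn (Finset.mem_filter.1 h).1
  · exact absurd h1.symm h2
  · exact absurd h2.symm h1
  · simp

theorem Dt.cw_o : cw (insert (k.l, k.w) k.OB) k.o = 0 := by
  rw [k.cw_new]
  have h1 : k.o ≠ k.w := fun h => k.ho (h ▸ k.w_P)
  rw [if_neg h1, add_zero]
  unfold cw
  have : (k.OB.filter fun p => p.2 = k.o) = ∅ := by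
    rw [Finset.filter_eq_empty_iff]
    rintro ⟨x, y⟩ hp rfl
    exact k.ho (k.I.Q_pl _ _ (k.I.OB_Q _ _ hp)).2
  rw [this]; simp

theorem Dt.cb_new (x : B) (hx : x ≠ k.l) : cb (insert (k.o, k.l) k.OW) x = cb k.OW x := by
  unfold cb
  rw [Finset.filter_insert, if_neg (by simpa using hx.symm)]

theorem Dt.cb_l : cb (insert (k.o, k.l) k.OW) k.l = 1 := by
  unfold cb
  have : ((insert (k.o, k.l) k.OW).filter fun p => p.2 = k.l) = {(k.o, k.l)} := by
    ext ⟨y, x⟩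
    simp only [Finset.mem_filter, Finset.mem_insert, Prod.mk.injEq, Finset.mem_singleton]
    constructor
    · rintro ⟨h | h, rfl⟩
      · exact h
      · exact absurd (k.I.Q_pl _ _ (k.I.OW_Q _ _ h)).1 k.hl
    · rintro ⟨rfl, rfl⟩
      exact ⟨Or.inl ⟨rfl, rfl⟩, rfl⟩
  rw [this]; simp

theorem Dt.Q_new (x : B) (y : W) (h : (x, y) ∈ insert (k.b, k.o) (insert (k.l, k.o)
    (insert (k.l, k.w) k.Q))) : (x = k.b ∧ y = k.o) ∨ (x = k.l ∧ y = k.o) ∨
    (x = k.l ∧ y = k.w) ∨ ((x, y) ∈ k.Q ∧ k.P (Sum.inl x) ∧ k.P (Sum.inr y)) := by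
  simp only [Finset.mem_insert, Prod.mk.injEq] at h
  rcases h with h | h | h | h
  · tauto
  · tauto
  · tauto
  · exact Or.inr (Or.inr (Or.inr ⟨h, (k.I.Q_pl _ _ h).1, (k.I.Q_pl _ _ h).2⟩))

/-! ## The fields -/

theorem Dt.f_con_pl : ∀ z ∈ k.K', Pl (insert k.l k.PB) (insert k.o k.PW) z := by
  intro z hz
  rw [k.P'_iff]
  rcases (k.mem_K' z).1 hz with h | h | h
  · exact Or.inl h
  · exact Or.inr (Or.inl h)
  · exact Or.inr (Or.inr (k.I.con_pl z h))

theorem Dt.f_sorted : k.K'.Pairwise (fun z z' => k.q z < k.q z') := by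
  obtain ⟨h1, h2, h3, h4⟩ := k.srt
  have hP : ∀ z ∈ con k.s k.A, k.P z := fun z hz =>
    k.I.con_pl z ((k.mem_K z).2 (Or.inl hz))
  have hP' : ∀ z ∈ con k.b' k.C, k.P z := fun z hz =>
    k.I.con_pl z ((k.mem_K z).2 (Or.inr (Or.inr hz)))
  have hb : ∀ z ∈ con k.s k.A, k.q z ≤ k.pos (Sum.inl k.b) := by
    intro z hz
    rw [k.q_old z (hP z hz)]
    rcases k.left_le z hz with h | h
    · rw [h]
    · exact h.le
  have hb' : ∀ z ∈ con k.b' k.C, k.pos (Sum.inr k.w) < k.q z := by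
    intro z hz
    rw [k.q_old z (hP' z hz)]
    exact h4 z hz
  obtain ⟨q1, q2, q3⟩ := k.new_q
  have hqw := k.q_old _ k.w_P
  rw [Dt.K', con_app, con_cons, List.pairwise_append]
  refine ⟨?_, ?_, ?_⟩
  · exact h1.imp_of_mem (fun {a c} ha hc h => by
      rw [k.q_old _ (hP _ ha), k.q_old _ (hP _ hc)]; exact h)
  · rw [List.pairwise_cons, List.pairwise_cons, List.pairwise_cons]
    refine ⟨?_, ?_, ?_, ?_⟩
    · intro z hz
      simp only [List.mem_cons] at hz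
      rcases hz with rfl | rfl | hz
      · exact q2
      · rw [hqw]; linarith
      · have := hb' z hz; linarith
    · intro z hz
      simp only [List.mem_cons] at hz
      rcases hz with rfl | hz
      · rw [hqw]; linarith
      · have := hb' z hz; linarith
    · intro z hz
      rw [hqw]; exact hb' z hz
    · exact h3.imp_of_mem (fun {a c} ha hc h => by
        rw [k.q_old _ (hP' _ ha), k.q_old _ (hP' _ hc)]; exact h)
  · intro z hz z' hz'
    have hz1 := hb z hz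
    simp only [List.mem_cons] at hz'
    rcases hz' with rfl | rfl | rfl | hz'
    · linarith
    · linarith
    · rw [hqw]; linarith
    · have := hb' z' hz'; linarith

theorem Dt.f_Q_pl : ∀ x y, (x, y) ∈ insert (k.b, k.o) (insert (k.l, k.o)
    (insert (k.l, k.w) k.Q)) → x ∈ insert k.l k.PB ∧ y ∈ insert k.o k.PW := by
  intro x y h
  have hb : k.b ∈ k.PB := k.b_P
  have hw : k.w ∈ k.PW := k.w_P
  rcases k.Q_new x y h with ⟨h1, h2⟩ | ⟨h1, h2⟩ | ⟨h1, h2⟩ | ⟨-, h1, h2⟩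
  · subst h1 h2; simp [hb]
  · subst h1 h2; simp
  · subst h1 h2; simp [hw]
  · exact ⟨Finset.mem_insert_of_mem h1, Finset.mem_insert_of_mem h2⟩

theorem Dt.f_OB_Q : ∀ x y, (x, y) ∈ insert (k.l, k.w) k.OB →
    (x, y) ∈ insert (k.b, k.o) (insert (k.l, k.o) (insert (k.l, k.w) k.Q)) := by
  intro x y h
  rw [Finset.mem_insert] at h
  rcases h with h | h
  · simp [h]
  · have := k.I.OB_Q _ _ h
    simp [this]

theorem Dt.f_OW_Q : ∀ x y, (y, x) ∈ insert (k.o, k.l) k.OW →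
    (x, y) ∈ insert (k.b, k.o) (insert (k.l, k.o) (insert (k.l, k.w) k.Q)) := by
  intro x y h
  rw [Finset.mem_insert] at h
  rcases h with h | h
  · simp only [Prod.mk.injEq] at h
    simp [h.1, h.2]
  · have := k.I.OW_Q _ _ h
    simp [this]

theorem Dt.f_deg : ∀ z, Pl (insert k.l k.PB) (insert k.o k.PW) z →
    ∃ p ∈ insert (k.b, k.o) (insert (k.l, k.o) (insert (k.l, k.w) k.Q)),
      z = Sum.inl p.1 ∨ z = Sum.inr p.2 := by
  intro z hz
  rcases (k.P'_iff z).1 hz with h | h | h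
  · exact ⟨(k.l, k.o), by simp, Or.inl h⟩
  · exact ⟨(k.l, k.o), by simp, Or.inr h⟩
  · obtain ⟨p, hp, hz⟩ := k.I.deg z h
    exact ⟨p, by simp [hp], hz⟩

theorem Dt.f_sum : ∀ z, Pl (insert k.l k.PB) (insert k.o k.PW) z →
    k.y₁ z + k.y₂ z + k.y₃ z = k.N + k.lb k.l + 1 := by
  intro z hz
  have hf := k.facts
  rcases (k.P'_iff z).1 hz with rfl | rfl | h
  · have := k.new_l
    omega
  · have := k.new_o
    omega
  · have h1 := k.I.sum z h
    have h2 := k.old z h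
    omega

theorem Dt.f_nonneg : ∀ z, Pl (insert k.l k.PB) (insert k.o k.PW) z →
    0 ≤ k.y₁ z ∧ 0 ≤ k.y₂ z ∧ 0 ≤ k.y₃ z := by
  intro z hz
  have hf := k.facts
  have hw := k.I.nonneg _ k.w_P
  have hb := k.I.nonneg _ k.b_P
  rcases (k.P'_iff z).1 hz with rfl | rfl | h
  · have := k.new_l
    omega
  · have := k.new_o
    omega
  · have h1 := k.I.nonneg z h
    have h2 := k.old z h
    omega

theorem Dt.f_ends : k.y₁ (Sum.inl k.s) = k.N + k.lb k.l + 1 ∧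
    ∀ A w t, k.A ++ (k.o, k.l) :: (k.w, k.b') :: k.C = A ++ [(w, t)] →
      k.y₂ (Sum.inl t) = k.N + k.lb k.l + 1 := by
  constructor
  · have hs : (Sum.inl k.s : B ⊕ W) ∈ con k.s k.A := mem_con_head _ _
    have hsK : (Sum.inl k.s : B ⊕ W) ∈ k.K := (k.mem_K _).2 (Or.inl hs)
    have h1 := k.left_le _ hs
    have h2 : k.pos (Sum.inl k.s) ≤ k.pos (Sum.inl k.b) := by
      rcases h1 with h | h
      · rw [h]
      · exact h.le
    have h3 := k.old_left _ (k.I.con_pl _ hsK) h2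
    have h4 := k.I.ends.1
    omega
  · intro A₁ w₁ t h
    have h0 : ∃ C' , (k.w, k.b') :: k.C = C' ++ [(w₁, t)] := by
      rcases List.eq_nil_or_concat ((k.w, k.b') :: k.C) with h' | ⟨C', e, h'⟩
      · simp at h'
      · rw [List.concat_eq_append] at h'
        rw [h', ← List.cons_append, ← List.append_assoc] at h
        have := (List.append_inj' h rfl).2
        simp only [List.cons.injEq, and_true] at this
        exact ⟨C', by rw [h', this]⟩
    obtain ⟨C', hC⟩ := h0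
    have h1 := k.I.ends.2 (k.A ++ C') w₁ t (by rw [hC, List.append_assoc])
    have h2 : (Sum.inl t : B ⊕ W) ∈ con k.b' k.C := by
      have : (w₁, t) ∈ (k.w, k.b') :: k.C := by rw [hC]; simp
      rw [List.mem_cons] at this
      rcases this with h | h
      · simp only [Prod.mk.injEq] at h
        rw [h.2]; exact mem_con_head _ _
      · exact mem_con_snd _ _ _ _ h
    have h3 := k.srt.2.2.2 _ h2
    have h4 := k.old_right (Sum.inl t) (k.I.con_pl _ ((k.mem_K _).2 (Or.inr (Or.inr h2)))) h3.le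
    omega

theorem Dt.f_exit : ∀ u, Pl (insert k.l k.PB) (insert k.o k.PW) u →
    ∃ z ∈ k.K', k.q z = k.q u ∧
      (u = z ∨ (k.y₁ z < k.y₁ u ∧ k.y₂ z < k.y₂ u ∧ k.y₃ u < k.y₃ z)) := by
  intro u hu
  rcases (k.P'_iff u).1 hu with h | h | h
  · exact ⟨u, (k.mem_K' u).2 (Or.inl h), rfl, Or.inl rfl⟩
  · exact ⟨u, (k.mem_K' u).2 (Or.inr (Or.inl h)), rfl, Or.inl rfl⟩
  · obtain ⟨z, hz, hzu, h1⟩ := k.I.exit u h
    have hzP := k.I.con_pl z hz
    refine ⟨z, (k.mem_K' z).2 (Or.inr (Or.inr hz)), ?_, ?_⟩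
    · rw [k.q_old _ hzP, k.q_old _ h, hzu]
    · rcases h1 with h1 | h1
      · exact Or.inl h1
      · right
        rcases k.sides u h with hs | hs
        · have a := k.old_left u h hs
          have b := k.old_left z hzP (by rw [hzu]; exact hs)
          omega
        · have a := k.old_right u h hs
          have b := k.old_right z hzP (by rw [hzu]; exact hs)
          omega

/-- The position of an old vertex is not strictly between `b` and `w`. -/
theorem Dt.f_black : ∀ x, Sum.inl x ∈ k.K' → ∀ u, Pl (insert k.l k.PB) (insert k.o k.PW) u →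
    k.q u = k.q (Sum.inl x) → u = Sum.inl x := by
  intro x hx u hu hq
  obtain ⟨q1, q2, q3⟩ := k.new_q
  rcases (k.mem_K' _).1 hx with h | h | h
  · simp only [Sum.inl.injEq] at h
    subst h
    rcases (k.P'_iff u).1 hu with h | h | h
    · exact h
    · subst h; exact absurd hq (ne_of_lt q2)
    · rw [k.q_old u h] at hq
      rcases k.sides u h with hs | hs
      · exfalso; linarith
      · exfalso; linarith
  · simp at h
  · have hxP := k.I.con_pl _ h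
    rw [k.q_old _ hxP] at hq
    rcases (k.P'_iff u).1 hu with h' | h' | h'
    · subst h'
      rcases k.sides _ hxP with hs | hs
      · exfalso; linarith
      · exfalso; linarith
    · subst h'
      rcases k.sides _ hxP with hs | hs
      · exfalso; linarith
      · exfalso; linarith
    · rw [k.q_old u h'] at hq
      exact k.I.black x h u h' hq

/-- facts on contour elements and old vertices -/
theorem Dt.cmpw (u : B ⊕ W) (h : k.P u) (hp : k.pos u ≤ k.pos (Sum.inl k.b)) :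
    k.x₁ (Sum.inr k.w) ≤ k.x₁ u :=
  k.I.cmp₁ u h _ k.w_mem (lt_of_le_of_lt hp k.lt_bw)

theorem Dt.cmpb (u : B ⊕ W) (h : k.P u) (hp : k.pos (Sum.inr k.w) ≤ k.pos u) :
    k.x₂ (Sum.inl k.b) ≤ k.x₂ u :=
  k.I.cmp₂ u h _ k.b_mem (lt_of_lt_of_le k.lt_bw hp)

theorem Dt.cleft (z : B ⊕ W) (h : z ∈ k.K) (hp : k.pos z ≤ k.pos (Sum.inl k.b)) :
    k.x₂ z ≤ k.x₂ (Sum.inl k.b) := by
  have h0 := k.lt_bw
  rcases k.cont z h with h' | h' | h' | h'
  · rw [h']
  · exact k.I.cmp₂ _ k.b_P z h h'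
  · rw [h'] at hp; exfalso; linarith
  · exfalso; linarith

theorem Dt.cright (z : B ⊕ W) (h : z ∈ k.K) (hp : k.pos (Sum.inr k.w) ≤ k.pos z) :
    k.x₁ z ≤ k.x₁ (Sum.inr k.w) := by
  have h0 := k.lt_bw
  rcases k.cont z h with h' | h' | h' | h'
  · rw [h'] at hp; exfalso; linarith
  · exfalso; linarith
  · rw [h']
  · exact k.I.cmp₁ _ k.w_P z h h'

theorem Dt.f_cmp₁ : ∀ u, Pl (insert k.l k.PB) (insert k.o k.PW) u → ∀ z ∈ k.K',
    k.q u < k.q z → k.y₁ z ≤ k.y₁ u := by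
  intro u hu z hz hq
  obtain ⟨q1, q2, q3⟩ := k.new_q
  have hl := k.new_l
  have ho := k.new_o
  have hf := k.facts
  have h0 := k.lt_bw
  rcases (k.P'_iff u).1 hu with h | h | h <;> rcases (k.mem_K' z).1 hz with h' | h' | h'
  · subst h h'; omega
  · subst h h'; omega
  · subst h
    have hzP := k.I.con_pl z h'
    rcases k.old z hzP with ⟨a, a1, a2, a3, a4⟩ | ⟨a, a1, a2, a3, a4⟩
    · exfalso; linarith
    · have := k.cright z h' a
      omega
  · subst h h'; omega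
  · subst h h'; omega
  · subst h
    have hzP := k.I.con_pl z h'
    rcases k.old z hzP with ⟨a, a1, a2, a3, a4⟩ | ⟨a, a1, a2, a3, a4⟩
    · exfalso; linarith
    · have := k.cright z h' a
      omega
  · subst h'
    rcases k.old u h with ⟨a, a1, a2, a3, a4⟩ | ⟨a, a1, a2, a3, a4⟩
    · have := k.cmpw u h a
      omega
    · exfalso; linarith
  · subst h'
    rcases k.old u h with ⟨a, a1, a2, a3, a4⟩ | ⟨a, a1, a2, a3, a4⟩
    · have := k.cmpw u h a
      omega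
    · exfalso; linarith
  · have hzP := k.I.con_pl z h'
    have hq' : k.pos u < k.pos z := by rw [← k.q_old u h, ← k.q_old z hzP]; exact hq
    have h1 := k.I.cmp₁ u h z h' hq'
    rcases k.old u h with ⟨a, a1, a2, a3, a4⟩ | ⟨a, a1, a2, a3, a4⟩ <;>
      rcases k.old z hzP with ⟨c, c1, c2, c3, c4⟩ | ⟨c, c1, c2, c3, c4⟩
    · omega
    · omega
    · exfalso; linarith
    · omega

theorem Dt.f_cmp₂ : ∀ u, Pl (insert k.l k.PB) (insert k.o k.PW) u → ∀ z ∈ k.K',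
    k.q z < k.q u → k.y₂ z ≤ k.y₂ u := by
  intro u hu z hz hq
  obtain ⟨q1, q2, q3⟩ := k.new_q
  have hl := k.new_l
  have ho := k.new_o
  have hf := k.facts
  have h0 := k.lt_bw
  rcases (k.P'_iff u).1 hu with h | h | h <;> rcases (k.mem_K' z).1 hz with h' | h' | h'
  · subst h h'; omega
  · subst h h'; omega
  · subst h
    have hzP := k.I.con_pl z h'
    rcases k.old z hzP with ⟨a, a1, a2, a3, a4⟩ | ⟨a, a1, a2, a3, a4⟩
    · have := k.cleft z h' a
      omega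
    · exfalso; linarith
  · subst h h'; exfalso; linarith
  · subst h h'; omega
  · subst h
    have hzP := k.I.con_pl z h'
    rcases k.old z hzP with ⟨a, a1, a2, a3, a4⟩ | ⟨a, a1, a2, a3, a4⟩
    · have := k.cleft z h' a
      omega
    · exfalso; linarith
  · subst h'
    rcases k.old u h with ⟨a, a1, a2, a3, a4⟩ | ⟨a, a1, a2, a3, a4⟩
    · exfalso; linarith
    · have := k.cmpb u h a
      omega
  · subst h'
    rcases k.old u h with ⟨a, a1, a2, a3, a4⟩ | ⟨a, a1, a2, a3, a4⟩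
    · exfalso; linarith
    · have := k.cmpb u h a
      omega
  · have hzP := k.I.con_pl z h'
    have hq' : k.pos z < k.pos u := by rw [← k.q_old u h, ← k.q_old z hzP]; exact hq
    have h1 := k.I.cmp₂ u h z h' hq'
    rcases k.old u h with ⟨a, a1, a2, a3, a4⟩ | ⟨a, a1, a2, a3, a4⟩ <;>
      rcases k.old z hzP with ⟨c, c1, c2, c3, c4⟩ | ⟨c, c1, c2, c3, c4⟩
    · omega
    · exfalso; linarith
    · omega
    · omega

theorem split {α : Type} (A C : List α) (p q : α) (A₁ C₁ : List α) (r : α)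
    (h : A ++ p :: q :: C = A₁ ++ r :: C₁) :
    (∃ A₂, A = A₁ ++ r :: A₂) ∨ (A₁ = A ∧ r = p) ∨ (A₁ = A ++ [p] ∧ r = q) ∨
      ∃ C₂, A₁ = A ++ p :: q :: C₂ ∧ C = C₂ ++ r :: C₁ := by
  rcases List.append_eq_append_iff.1 h with ⟨a, h1, h2⟩ | ⟨a, h1, h2⟩
  · rcases a with _ | ⟨x, a⟩
    · simp only [List.nil_append, List.cons.injEq] at h2
      right; left
      exact ⟨by simpa using h1, h2.1.symm⟩
    · simp only [List.cons_append, List.cons.injEq] at h2
      obtain ⟨hx, h2⟩ := h2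
      subst hx
      rcases a with _ | ⟨y, a⟩
      · simp only [List.nil_append, List.cons.injEq] at h2
        right; right; left
        exact ⟨h1, h2.1.symm⟩
      · simp only [List.cons_append, List.cons.injEq] at h2
        obtain ⟨hy, h2⟩ := h2
        subst hy
        right; right; right
        exact ⟨a, h1, h2⟩
  · rcases a with _ | ⟨x, a⟩
    · simp only [List.nil_append, List.cons.injEq] at h2
      right; left
      exact ⟨by simpa using h1.symm, h2.1⟩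
    · simp only [List.cons_append, List.cons.injEq] at h2
      obtain ⟨hx, h2⟩ := h2
      subst hx
      left
      exact ⟨a, h1⟩

/-- the elements of the contour on the left -/
theorem Dt.lel (z : B ⊕ W) (h : z ∈ con k.s k.A) : k.P z ∧ k.pos z ≤ k.pos (Sum.inl k.b) := by
  refine ⟨k.I.con_pl z ((k.mem_K z).2 (Or.inl h)), ?_⟩
  rcases k.left_le z h with h' | h'
  · rw [h']
  · exact h'.le

theorem Dt.ler (z : B ⊕ W) (h : z ∈ con k.b' k.C) : k.P z ∧ k.pos (Sum.inr k.w) < k.pos z :=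
  ⟨k.I.con_pl z ((k.mem_K z).2 (Or.inr (Or.inr h))), k.srt.2.2.2 z h⟩

theorem Dt.f_left : ∀ A₁ w₁ b₁ C₁, k.A ++ (k.o, k.l) :: (k.w, k.b') :: k.C =
    A₁ ++ (w₁, b₁) :: C₁ → k.y₂ (Sum.inr w₁) = k.y₂ (Sum.inl (lastB k.s A₁)) +
      cw (insert (k.l, k.w) k.OB) w₁ := by
  intro A₁ w₁ b₁ C₁ h
  have hf := k.facts
  have hl := k.new_l
  have ho := k.new_o
  have h0 := k.lt_bw
  rcases split _ _ _ _ _ _ _ h with ⟨A₂, hA⟩ | ⟨hA, hr⟩ | ⟨hA, hr⟩ | ⟨C₂, hA, hC⟩
  · have h1 := k.I.left A₁ w₁ b₁ (A₂ ++ (k.w, k.b') :: k.C) (by rw [hA]; simp)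
    have m1 : (Sum.inr w₁ : B ⊕ W) ∈ con k.s k.A :=
      mem_con_fst _ _ _ b₁ (by rw [hA]; simp)
    have m2 : (Sum.inl (lastB k.s A₁) : B ⊕ W) ∈ con k.s k.A := by
      rw [hA, con_app, List.mem_append]
      exact Or.inl (mem_lastB _ _)
    have e1 := k.lel _ m1
    have e2 := k.lel _ m2
    have g1 := k.old_left _ e1.1 e1.2
    have g2 := k.old_left _ e2.1 e2.2
    have hne : w₁ ≠ k.w := by
      rintro rfl
      have := e1.2
      linarith
    rw [k.cw_new, if_neg hne]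
    omega
  · simp only [Prod.mk.injEq] at hr
    subst hA
    rw [hr.1, k.cw_o]
    have hb : lastB k.s k.A = k.b := rfl
    have e2 := k.lel _ (mem_lastB k.s k.A)
    have g2 := k.old_left _ e2.1 e2.2
    rw [hb] at g2 ⊢
    omega
  · simp only [Prod.mk.injEq] at hr
    have hb : lastB k.s A₁ = k.l := by
      rw [hA, lastB_app]; rfl
    have g1 := k.old_right _ k.w_P le_rfl
    rw [hr.1, hb, k.cw_new, if_pos rfl]
    omega
  · have hb : lastB k.s A₁ = lastB k.b' C₂ := by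
      rw [hA, lastB_app]
      have := lastB_app (W := W) k.l [] C₂ k.w k.b'
      simpa using this
    have hb' : lastB k.s (k.A ++ (k.w, k.b') :: C₂) = lastB k.b' C₂ := lastB_app _ _ _ _ _
    have h1 := k.I.left (k.A ++ (k.w, k.b') :: C₂) w₁ b₁ C₁ (by rw [hC]; simp)
    have m1 : (Sum.inr w₁ : B ⊕ W) ∈ con k.b' k.C :=
      mem_con_fst _ _ _ b₁ (by rw [hC]; simp)
    have m2 : (Sum.inl (lastB k.b' C₂) : B ⊕ W) ∈ con k.b' k.C := by
      rw [hC, con_app, List.mem_append]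
      exact Or.inl (mem_lastB _ _)
    have e1 := k.ler _ m1
    have e2 := k.ler _ m2
    have g1 := k.old_right _ e1.1 e1.2.le
    have g2 := k.old_right _ e2.1 e2.2.le
    have hne : w₁ ≠ k.w := by
      rintro rfl
      have := e1.2
      linarith
    rw [k.cw_new, if_neg hne, hb]
    rw [hb'] at h1
    omega

theorem Dt.f_right : ∀ A₁ w₁ b₁ C₁, k.A ++ (k.o, k.l) :: (k.w, k.b') :: k.C =
    A₁ ++ (w₁, b₁) :: C₁ → k.y₁ (Sum.inr w₁) = k.y₁ (Sum.inl b₁) ∧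
      k.lb b₁ ≤ k.y₃ (Sum.inr w₁) - k.y₃ (Sum.inl b₁) := by
  intro A₁ w₁ b₁ C₁ h
  have hf := k.facts
  have hl := k.new_l
  have ho := k.new_o
  have h0 := k.lt_bw
  rcases split _ _ _ _ _ _ _ h with ⟨A₂, hA⟩ | ⟨hA, hr⟩ | ⟨hA, hr⟩ | ⟨C₂, hA, hC⟩
  · have h1 := k.I.right A₁ w₁ b₁ (A₂ ++ (k.w, k.b') :: k.C) (by rw [hA]; simp)
    have m1 : (Sum.inr w₁ : B ⊕ W) ∈ con k.s k.A :=
      mem_con_fst _ _ _ b₁ (by rw [hA]; simp)
    have m2 : (Sum.inl b₁ : B ⊕ W) ∈ con k.s k.A :=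
      mem_con_snd _ _ w₁ _ (by rw [hA]; simp)
    have e1 := k.lel _ m1
    have e2 := k.lel _ m2
    have g1 := k.old_left _ e1.1 e1.2
    have g2 := k.old_left _ e2.1 e2.2
    omega
  · simp only [Prod.mk.injEq] at hr
    rw [hr.1, hr.2]
    omega
  · simp only [Prod.mk.injEq] at hr
    have h1 := k.I.right k.A k.w k.b' k.C rfl
    have m2 : (Sum.inl k.b' : B ⊕ W) ∈ con k.b' k.C := mem_con_head _ _
    have e2 := k.ler _ m2
    have g1 := k.old_right _ k.w_P le_rfl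
    have g2 := k.old_right _ e2.1 e2.2.le
    rw [hr.1, hr.2]
    omega
  · have h1 := k.I.right (k.A ++ (k.w, k.b') :: C₂) w₁ b₁ C₁ (by rw [hC]; simp)
    have m1 : (Sum.inr w₁ : B ⊕ W) ∈ con k.b' k.C :=
      mem_con_fst _ _ _ b₁ (by rw [hC]; simp)
    have m2 : (Sum.inl b₁ : B ⊕ W) ∈ con k.b' k.C :=
      mem_con_snd _ _ w₁ _ (by rw [hC]; simp)
    have e1 := k.ler _ m1
    have e2 := k.ler _ m2
    have g1 := k.old_right _ e1.1 e1.2.le
    have g2 := k.old_right _ e2.1 e2.2.le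
    omega

/-! ## Domination -/

theorem D1_lt {x : B ⊕ W → ℤ} {p : B ⊕ W → ℚ} {z u : B ⊕ W} (h : x u ≤ x z) (h' : p z < p u) :
    D1 x p z u := Or.inr ⟨h, h'⟩

theorem D1_le {x : B ⊕ W → ℤ} {p : B ⊕ W → ℚ} {z u : B ⊕ W} (h : x u < x z) (h' : p z ≤ p u) :
    D1 x p z u := Or.inl ⟨h, h'⟩

theorem D2_lt {x : B ⊕ W → ℤ} {p : B ⊕ W → ℚ} {z u : B ⊕ W} (h : x u ≤ x z) (h' : p u < p z) :
    D2 x p z u := Or.inr ⟨h, h'⟩

theorem D2_le {x : B ⊕ W → ℤ} {p : B ⊕ W → ℚ} {z u : B ⊕ W} (h : x u < x z) (h' : p u ≤ p z) :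
    D2 x p z u := Or.inl ⟨h, h'⟩

theorem D1_imp {x : B ⊕ W → ℤ} {p : B ⊕ W → ℚ} {z u : B ⊕ W} (h : D1 x p z u) :
    x u ≤ x z ∧ p z ≤ p u := by
  rcases h with h | h
  · exact ⟨h.1.le, h.2⟩
  · exact ⟨h.1, h.2.le⟩

theorem D2_imp {x : B ⊕ W → ℤ} {p : B ⊕ W → ℚ} {z u : B ⊕ W} (h : D2 x p z u) :
    x u ≤ x z ∧ p u ≤ p z := by
  rcases h with h | h
  · exact ⟨h.1.le, h.2⟩
  · exact ⟨h.1, h.2.le⟩

theorem Dt.D1_old (z u : B ⊕ W) (hz : k.P z) (hu : k.P u) (h : D1 k.x₁ k.pos z u) :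
    D1 k.y₁ k.q z u := by
  have h0 := k.lt_bw
  have hf := k.facts
  rcases k.old u hu with ⟨a, a1, a2, a3, a4⟩ | ⟨a, a1, a2, a3, a4⟩ <;>
    rcases k.old z hz with ⟨c, c1, c2, c3, c4⟩ | ⟨c, c1, c2, c3, c4⟩ <;>
    rcases h with ⟨h, h'⟩ | ⟨h, h'⟩
  · exact D1_le (by omega) (by rw [a4, c4]; exact h')
  · exact D1_lt (by omega) (by rw [a4, c4]; exact h')
  · exfalso; linarith
  · exfalso; linarith
  · exact D1_le (by omega) (by rw [a4, c4]; exact h')
  · exact D1_lt (by omega) (by rw [a4, c4]; exact h')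
  · exact D1_le (by omega) (by rw [a4, c4]; exact h')
  · exact D1_lt (by omega) (by rw [a4, c4]; exact h')

theorem Dt.D2_old (z u : B ⊕ W) (hz : k.P z) (hu : k.P u) (h : D2 k.x₂ k.pos z u) :
    D2 k.y₂ k.q z u := by
  have h0 := k.lt_bw
  have hf := k.facts
  rcases k.old u hu with ⟨a, a1, a2, a3, a4⟩ | ⟨a, a1, a2, a3, a4⟩ <;>
    rcases k.old z hz with ⟨c, c1, c2, c3, c4⟩ | ⟨c, c1, c2, c3, c4⟩ <;>
    rcases h with ⟨h, h'⟩ | ⟨h, h'⟩
  · exact D2_le (by omega) (by rw [a4, c4]; exact h')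
  · exact D2_lt (by omega) (by rw [a4, c4]; exact h')
  · exact D2_le (by omega) (by rw [a4, c4]; exact h')
  · exact D2_lt (by omega) (by rw [a4, c4]; exact h')
  · exfalso; linarith
  · exfalso; linarith
  · exact D2_le (by omega) (by rw [a4, c4]; exact h')
  · exact D2_lt (by omega) (by rw [a4, c4]; exact h')

/-- facts on the two new vertices -/
theorem Dt.new (z : B ⊕ W) (hz : z = Sum.inl k.l ∨ z = Sum.inr k.o) :
    k.pos (Sum.inl k.b) < k.q z ∧ k.q z < k.pos (Sum.inr k.w) ∧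
    k.y₁ z = k.x₁ (Sum.inr k.w) ∧ k.x₂ (Sum.inl k.b) ≤ k.y₂ z ∧
    k.y₂ z ≤ k.x₂ (Sum.inl k.b) + k.lb k.l ∧
    k.x₃ (Sum.inr k.w) + cw k.OB k.w + 1 ≤ k.y₃ z ∧ k.x₃ (Sum.inl k.b) < k.y₃ z := by
  have hf := k.facts
  have hl := k.new_l
  have ho := k.new_o
  obtain ⟨q1, q2, q3⟩ := k.new_q
  rcases hz with rfl | rfl
  · refine ⟨by linarith, q3, hl.1, ?_, ?_, ?_, ?_⟩ <;> omega
  · refine ⟨q1, by linarith, ho.1, ?_, ?_, ?_, ?_⟩ <;> omega

theorem Dt.exit_w (u : B ⊕ W) (hu : k.P u) (hp : k.pos u = k.pos (Sum.inr k.w)) :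
    u = Sum.inr k.w ∨ (k.x₁ (Sum.inr k.w) < k.x₁ u ∧ k.x₂ (Sum.inr k.w) < k.x₂ u ∧
      k.x₃ u < k.x₃ (Sum.inr k.w)) := by
  have h0 := k.lt_bw
  obtain ⟨z, hz, hzu, h1⟩ := k.I.exit u hu
  have hzw : z = Sum.inr k.w := by
    rcases k.cont z hz with h | h | h | h
    · rw [h] at hzu; exfalso; linarith
    · exfalso; linarith
    · exact h
    · exfalso; linarith
  rw [hzw] at h1
  exact h1

theorem Dt.bary_new (x : B) (y : W) (h : (x, y) ∈ k.Q) (z : B ⊕ W)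
    (hz : z = Sum.inl k.l ∨ z = Sum.inr k.o) :
    (D1 k.y₁ k.q z (Sum.inl x) ∧ D1 k.y₁ k.q z (Sum.inr y)) ∨
    (D2 k.y₂ k.q z (Sum.inl x) ∧ D2 k.y₂ k.q z (Sum.inr y)) ∨
    (k.y₃ (Sum.inl x) < k.y₃ z ∧ k.y₃ (Sum.inr y) < k.y₃ z) := by
  have hf := k.facts
  have h0 := k.lt_bw
  obtain ⟨n1, n2, n3, n4, n5, n6, n7⟩ := k.new z hz
  have hx : k.P (Sum.inl x) := (k.I.Q_pl _ _ h).1
  have hy : k.P (Sum.inr y) := (k.I.Q_pl _ _ h).2
  have ex := k.y₃_old _ hx
  have ey := k.y₃_old _ hy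
  -- a vertex dominated by `w` in the first coordinate
  have g1 : ∀ u, k.P u → D1 k.x₁ k.pos (Sum.inr k.w) u → D1 k.y₁ k.q z u := by
    intro u hu hd
    obtain ⟨d1, d2⟩ := D1_imp hd
    obtain ⟨a1, a2, a3, a4⟩ := k.old_right u hu d2
    exact D1_lt (by omega) (by rw [a4]; linarith)
  have g2 : ∀ u, k.P u → D2 k.x₂ k.pos (Sum.inl k.b) u → D2 k.y₂ k.q z u := by
    intro u hu hd
    obtain ⟨d1, d2⟩ := D2_imp hd
    obtain ⟨a1, a2, a3, a4⟩ := k.old_left u hu d2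
    exact D2_lt (by omega) (by rw [a4]; linarith)
  by_cases hyw : y = k.w
  · subst hyw
    have h1 := k.I.low₃ _ _ h k.w_mem
    right; right
    constructor <;> omega
  · have hbw := k.I.bary x y h (Sum.inr k.w) k.w_P (by simp)
      (by simpa using fun h => hyw h.symm)
    by_cases hxb : x = k.b
    · subst hxb
      rcases hbw with ⟨d, -⟩ | ⟨-, d⟩ | ⟨d1, d2⟩
      · have := (D1_imp d).2
        exfalso; linarith
      · obtain ⟨d1, d2⟩ := D2_imp d
        rcases k.sides _ hy with hs | hs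
        · rcases eq_or_lt_of_le hs with he | hlt
          · have := k.I.black _ k.b_mem _ hy he
            simp at this
          · have h3 := k.I.lft _ _ h k.b_mem hlt
            obtain ⟨a1, a2, a3, a4⟩ := k.old_left _ hy hs
            obtain ⟨c1, c2, c3, c4⟩ := k.old_left _ k.b_P le_rfl
            right; left
            exact ⟨D2_lt (by omega) (by rw [c4]; exact n1),
              D2_lt (by omega) (by rw [a4]; linarith)⟩
        · have he : k.pos (Sum.inr y) = k.pos (Sum.inr k.w) := le_antisymm d2 hs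
          right; right
          rcases k.exit_w _ hy he with e | e
          · simp only [Sum.inr.injEq] at e
            exact absurd e hyw
          · constructor <;> omega
      · right; right
        constructor <;> omega
    · have hbb := k.I.bary x y h (Sum.inl k.b) k.b_P
        (by simpa using fun h => hxb h.symm) (by simp)
      rcases hbw with ⟨d, d'⟩ | ⟨d, d'⟩ | ⟨d1, d2⟩
      · exact Or.inl ⟨g1 _ hx d, g1 _ hy d'⟩
      · rcases hbb with ⟨e, e'⟩ | ⟨e, e'⟩ | ⟨e1, e2⟩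
        · have p1 := (D2_imp d).2
          have p2 := (D2_imp d').2
          have p3 := (D1_imp e).2
          have p4 := (D1_imp e').2
          have r1 : k.x₃ (Sum.inl x) ≤ k.x₃ (Sum.inr k.w) := by
            rcases k.sides _ hx with hs | hs
            · have := k.I.black _ k.b_mem _ hx (le_antisymm hs p3)
              simp only [Sum.inl.injEq] at this
              exact absurd this hxb
            · rcases k.exit_w _ hx (le_antisymm p1 hs) with e | e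
              · simp at e
              · exact e.2.2.le
          have r2 : k.x₃ (Sum.inr y) ≤ k.x₃ (Sum.inr k.w) := by
            rcases k.sides _ hy with hs | hs
            · have := k.I.black _ k.b_mem _ hy (le_antisymm hs p4)
              simp at this
            · rcases k.exit_w _ hy (le_antisymm p2 hs) with e | e
              · rw [e]
              · exact e.2.2.le
          right; right
          constructor <;> omega
        · exact Or.inr (Or.inl ⟨g2 _ hx e, g2 _ hy e'⟩)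
        · right; right
          constructor <;> omega
      · right; right
        constructor <;> omega

theorem Dt.bary_bo (z : B ⊕ W) (hz : z = Sum.inl k.l ∨ k.P z) (hzb : z ≠ Sum.inl k.b) :
    (D1 k.y₁ k.q z (Sum.inl k.b) ∧ D1 k.y₁ k.q z (Sum.inr k.o)) ∨
    (D2 k.y₂ k.q z (Sum.inl k.b) ∧ D2 k.y₂ k.q z (Sum.inr k.o)) ∨
    (k.y₃ (Sum.inl k.b) < k.y₃ z ∧ k.y₃ (Sum.inr k.o) < k.y₃ z) := by
  have hf := k.facts
  have h0 := k.lt_bw
  have hl := k.new_l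
  have ho := k.new_o
  obtain ⟨q1, q2, q3⟩ := k.new_q
  obtain ⟨c1, c2, c3, c4⟩ := k.old_left _ k.b_P le_rfl
  rcases hz with rfl | hz
  · right; left
    exact ⟨D2_lt (by omega) (by rw [c4]; linarith), D2_lt (by omega) q2⟩
  · rcases k.old z hz with ⟨a, a1, a2, a3, a4⟩ | ⟨a, a1, a2, a3, a4⟩
    · left
      have hlt : k.pos z < k.pos (Sum.inl k.b) := by
        rcases eq_or_lt_of_le a with he | hlt
        · exact absurd (k.I.black _ k.b_mem _ hz he) hzb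
        · exact hlt
      have h1 := k.I.cmp₁ z hz _ k.b_mem hlt
      have h2 := k.cmpw z hz a
      exact ⟨D1_lt (by omega) (by rw [c4, a4]; exact hlt),
        D1_lt (by omega) (by rw [a4]; linarith)⟩
    · right; left
      have h1 := k.cmpb z hz a
      exact ⟨D2_lt (by omega) (by rw [c4, a4]; linarith),
        D2_lt (by omega) (by rw [a4]; linarith)⟩

theorem Dt.bary_lo (z : B ⊕ W) (hz : k.P z) :
    (D1 k.y₁ k.q z (Sum.inl k.l) ∧ D1 k.y₁ k.q z (Sum.inr k.o)) ∨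
    (D2 k.y₂ k.q z (Sum.inl k.l) ∧ D2 k.y₂ k.q z (Sum.inr k.o)) ∨
    (k.y₃ (Sum.inl k.l) < k.y₃ z ∧ k.y₃ (Sum.inr k.o) < k.y₃ z) := by
  have hf := k.facts
  have h0 := k.lt_bw
  have hl := k.new_l
  have ho := k.new_o
  obtain ⟨q1, q2, q3⟩ := k.new_q
  rcases k.old z hz with ⟨a, a1, a2, a3, a4⟩ | ⟨a, a1, a2, a3, a4⟩
  · left
    have h2 := k.cmpw z hz a
    exact ⟨D1_lt (by omega) (by rw [a4]; linarith), D1_lt (by omega) (by rw [a4]; linarith)⟩
  · right; left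
    have h1 := k.cmpb z hz a
    exact ⟨D2_lt (by omega) (by rw [a4]; linarith), D2_lt (by omega) (by rw [a4]; linarith)⟩

theorem Dt.bary_lw (z : B ⊕ W) (hz : z = Sum.inr k.o ∨ k.P z) (hzw : z ≠ Sum.inr k.w) :
    (D1 k.y₁ k.q z (Sum.inl k.l) ∧ D1 k.y₁ k.q z (Sum.inr k.w)) ∨
    (D2 k.y₂ k.q z (Sum.inl k.l) ∧ D2 k.y₂ k.q z (Sum.inr k.w)) ∨
    (k.y₃ (Sum.inl k.l) < k.y₃ z ∧ k.y₃ (Sum.inr k.w) < k.y₃ z) := by
  have hf := k.facts
  have h0 := k.lt_bw
  have hl := k.new_l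
  have ho := k.new_o
  obtain ⟨q1, q2, q3⟩ := k.new_q
  obtain ⟨c1, c2, c3, c4⟩ := k.old_right _ k.w_P le_rfl
  rcases hz with rfl | hz
  · right; right
    constructor <;> omega
  · rcases k.old z hz with ⟨a, a1, a2, a3, a4⟩ | ⟨a, a1, a2, a3, a4⟩
    · left
      have h2 := k.cmpw z hz a
      exact ⟨D1_lt (by omega) (by rw [a4]; linarith),
        D1_lt (by omega) (by rw [a4, c4]; linarith)⟩
    · right; left
      have h1 := k.cmpb z hz a
      rcases eq_or_lt_of_le a with he | hlt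
      · rcases k.exit_w z hz he.symm with e | e
        · exact absurd e hzw
        · exact ⟨D2_lt (by omega) (by rw [a4]; linarith),
            D2_le (by omega) (by rw [a4, c4]; exact a)⟩
      · have h3 := k.I.cmp₂ z hz _ k.w_mem hlt
        exact ⟨D2_lt (by omega) (by rw [a4]; linarith),
          D2_lt (by omega) (by rw [a4, c4]; exact hlt)⟩

theorem Dt.f_bary : ∀ x y, (x, y) ∈ insert (k.b, k.o) (insert (k.l, k.o)
    (insert (k.l, k.w) k.Q)) → ∀ z, Pl (insert k.l k.PB) (insert k.o k.PW) z →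
    z ≠ Sum.inl x → z ≠ Sum.inr y →
    (D1 k.y₁ k.q z (Sum.inl x) ∧ D1 k.y₁ k.q z (Sum.inr y)) ∨
    (D2 k.y₂ k.q z (Sum.inl x) ∧ D2 k.y₂ k.q z (Sum.inr y)) ∨
    (k.y₃ (Sum.inl x) < k.y₃ z ∧ k.y₃ (Sum.inr y) < k.y₃ z) := by
  intro x y h z hz hzx hzy
  rw [k.P'_iff] at hz
  rcases k.Q_new x y h with ⟨h1, h2⟩ | ⟨h1, h2⟩ | ⟨h1, h2⟩ | ⟨h0, h1, h2⟩
  · subst h1 h2
    exact k.bary_bo z (by tauto) hzx
  · subst h1 h2
    exact k.bary_lo z (by tauto)
  · subst h1 h2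
    exact k.bary_lw z (by tauto) hzy
  · by_cases hn : z = Sum.inl k.l ∨ z = Sum.inr k.o
    · exact k.bary_new x y h0 z hn
    · have hP : k.P z := by tauto
      rcases k.I.bary x y h0 z hP hzx hzy with ⟨d, d'⟩ | ⟨d, d'⟩ | ⟨d, d'⟩
      · exact Or.inl ⟨k.D1_old _ _ hP h1 d, k.D1_old _ _ hP h2 d'⟩
      · exact Or.inr (Or.inl ⟨k.D2_old _ _ hP h1 d, k.D2_old _ _ hP h2 d'⟩)
      · right; right
        rw [k.y₃_old _ hP, k.y₃_old _ h1, k.y₃_old _ h2]
        exact ⟨d, d'⟩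

theorem Dt.K'_old (z : B ⊕ W) (hz : k.P z) (h : z ∈ k.K') : z ∈ k.K := by
  have := k.P_ne z hz
  have := (k.mem_K' z).1 h
  tauto

theorem Dt.f_low₃ : ∀ x y, (x, y) ∈ insert (k.b, k.o) (insert (k.l, k.o)
    (insert (k.l, k.w) k.Q)) → Sum.inr y ∈ k.K' →
    k.y₃ (Sum.inl x) ≤ k.y₃ (Sum.inr y) + cw (insert (k.l, k.w) k.OB) y := by
  intro x y h hy
  have hf := k.facts
  have hl := k.new_l
  have ho := k.new_o
  have hb := k.y₃_old _ k.b_P
  have hw := k.y₃_old _ k.w_P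
  rcases k.Q_new x y h with ⟨h1, h2⟩ | ⟨h1, h2⟩ | ⟨h1, h2⟩ | ⟨h0, h1, h2⟩
  · subst h1 h2
    rw [k.cw_o]; omega
  · subst h1 h2
    rw [k.cw_o]; omega
  · subst h1 h2
    rw [k.cw_new, if_pos rfl]; omega
  · have h3 := k.I.low₃ x y h0 (k.K'_old _ h2 hy)
    rw [k.y₃_old _ h1, k.y₃_old _ h2, k.cw_new]
    split_ifs <;> omega

theorem Dt.f_lft : ∀ x y, (x, y) ∈ insert (k.b, k.o) (insert (k.l, k.o)
    (insert (k.l, k.w) k.Q)) → Sum.inl x ∈ k.K' → k.q (Sum.inr y) < k.q (Sum.inl x) →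
    k.y₂ (Sum.inr y) < k.y₂ (Sum.inl x) := by
  intro x y h hx hq
  have hf := k.facts
  have hl := k.new_l
  have ho := k.new_o
  have h00 := k.lt_bw
  obtain ⟨q1, q2, q3⟩ := k.new_q
  have hb := k.q_old _ k.b_P
  have hw := k.q_old _ k.w_P
  rcases k.Q_new x y h with ⟨h1, h2⟩ | ⟨h1, h2⟩ | ⟨h1, h2⟩ | ⟨h0, h1, h2⟩
  · subst h1 h2
    exfalso; linarith
  · subst h1 h2
    omega
  · subst h1 h2
    exfalso; linarith
  · rw [k.q_old _ h1, k.q_old _ h2] at hq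
    have h3 := k.I.lft x y h0 (k.K'_old _ h1 hx) hq
    rcases k.old _ h1 with ⟨a, a1, a2, a3, a4⟩ | ⟨a, a1, a2, a3, a4⟩ <;>
      rcases k.old _ h2 with ⟨c, c1, c2, c3, c4⟩ | ⟨c, c1, c2, c3, c4⟩
    · omega
    · exfalso; linarith
    · omega
    · omega

theorem Dt.f_rgt : ∀ x y, (x, y) ∈ insert (k.b, k.o) (insert (k.l, k.o)
    (insert (k.l, k.w) k.Q)) → Sum.inl x ∈ k.K' → k.q (Sum.inl x) < k.q (Sum.inr y) →
    k.y₁ (Sum.inr y) ≤ k.y₁ (Sum.inl x) ∨ k.y₃ (Sum.inr y) ≤ k.y₃ (Sum.inl x) := by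
  intro x y h hx hq
  have hf := k.facts
  have hl := k.new_l
  have ho := k.new_o
  have h00 := k.lt_bw
  obtain ⟨q1, q2, q3⟩ := k.new_q
  have hb := k.old_left _ k.b_P le_rfl
  have hw := k.old_right _ k.w_P le_rfl
  rcases k.Q_new x y h with ⟨h1, h2⟩ | ⟨h1, h2⟩ | ⟨h1, h2⟩ | ⟨h0, h1, h2⟩
  · subst h1 h2
    left; omega
  · subst h1 h2
    exfalso; linarith
  · subst h1 h2
    right; omega
  · rw [k.q_old _ h1, k.q_old _ h2] at hq
    have h3 := k.I.rgt x y h0 (k.K'_old _ h1 hx) hq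
    rcases k.old _ h1 with ⟨a, a1, a2, a3, a4⟩ | ⟨a, a1, a2, a3, a4⟩ <;>
      rcases k.old _ h2 with ⟨c, c1, c2, c3, c4⟩ | ⟨c, c1, c2, c3, c4⟩
    · omega
    · omega
    · exfalso; linarith
    · omega

/-- the edges of colour one or three, old edges -/
theorem Dt.up13 (x : B) (y : W) (h1 : k.P (Sum.inl x)) (h2 : k.P (Sum.inr y))
    (h : k.x₃ (Sum.inl x) < k.x₃ (Sum.inr y) ∧ k.x₁ (Sum.inr y) ≤ k.x₁ (Sum.inl x) ∧
      k.pos (Sum.inl x) ≤ k.pos (Sum.inr y)) :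
    k.y₃ (Sum.inl x) < k.y₃ (Sum.inr y) ∧ k.y₁ (Sum.inr y) ≤ k.y₁ (Sum.inl x) ∧
      k.q (Sum.inl x) ≤ k.q (Sum.inr y) := by
  obtain ⟨e1, e2, e3⟩ := h
  have h00 := k.lt_bw
  have hf := k.facts
  rcases k.old _ h1 with ⟨a, a1, a2, a3, a4⟩ | ⟨a, a1, a2, a3, a4⟩ <;>
    rcases k.old _ h2 with ⟨c, c1, c2, c3, c4⟩ | ⟨c, c1, c2, c3, c4⟩
  · exact ⟨by omega, by omega, by rw [a4, c4]; exact e3⟩
  · exact ⟨by omega, by omega, by rw [a4, c4]; exact e3⟩
  · exfalso; linarith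
  · exact ⟨by omega, by omega, by rw [a4, c4]; exact e3⟩

theorem Dt.mono₁ (u v : B ⊕ W) (hu : k.P u) (hv : k.P v) (h : k.pos u ≤ k.pos v) :
    k.y₁ v - k.y₁ u ≤ k.x₁ v - k.x₁ u := by
  have h00 := k.lt_bw
  have hf := k.facts
  rcases k.old _ hu with ⟨a, a1, a2, a3, a4⟩ | ⟨a, a1, a2, a3, a4⟩ <;>
    rcases k.old _ hv with ⟨c, c1, c2, c3, c4⟩ | ⟨c, c1, c2, c3, c4⟩
  · omega
  · omega
  · exfalso; linarith
  · omega

theorem Dt.f_upw : ∀ x y, (x, y) ∈ insert (k.b, k.o) (insert (k.l, k.o)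
    (insert (k.l, k.w) k.Q)) →
    (k.y₃ (Sum.inl x) < k.y₃ (Sum.inr y) ∧ k.y₁ (Sum.inr y) ≤ k.y₁ (Sum.inl x) ∧
      k.q (Sum.inl x) ≤ k.q (Sum.inr y)) ∨
    ((x, y) ∈ insert (k.l, k.w) k.OB ∧
      (Sum.inr y ∈ k.K' → k.q (Sum.inl x) < k.q (Sum.inr y) ∧
        (k.y₃ (Sum.inl x) - k.y₃ (Sum.inr y)) - (k.y₁ (Sum.inl x) - k.y₁ (Sum.inr y)) ≤
          cw (insert (k.l, k.w) k.OB) y) ∧
      (Sum.inr y ∉ k.K' → k.q (Sum.inl x) ≤ k.q (Sum.inr y) ∧
        (cw (insert (k.l, k.w) k.OB) y + 1 ≤ k.lw y →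
        k.y₃ (Sum.inl x) - k.y₁ (Sum.inl x) < k.y₃ (Sum.inr y) - k.y₁ (Sum.inr y)))) ∨
    ((y, x) ∈ insert (k.o, k.l) k.OW ∧
      (Sum.inl x ∈ k.K' → k.q (Sum.inr y) < k.q (Sum.inl x) ∧
        (∀ z ∈ k.K', k.q z < k.q (Sum.inl x) → k.q z ≤ k.q (Sum.inr y)) ∧
        k.lb x ≤ k.y₃ (Sum.inr y) - k.y₃ (Sum.inl x) ∧
        k.y₁ (Sum.inr y) - k.y₁ (Sum.inl x) ≤ cb (insert (k.o, k.l) k.OW) x - 1) ∧
      (Sum.inl x ∉ k.K' → k.q (Sum.inr y) = k.q (Sum.inl x) ∧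
        (cb (insert (k.o, k.l) k.OW) x + 1 ≤ k.lb x →
        k.y₃ (Sum.inl x) - k.y₁ (Sum.inl x) < k.y₃ (Sum.inr y) - k.y₁ (Sum.inr y)))) := by
  intro x y h
  have hf := k.facts
  have hl := k.new_l
  have ho := k.new_o
  have h00 := k.lt_bw
  obtain ⟨q1, q2, q3⟩ := k.new_q
  have hb := k.old_left _ k.b_P le_rfl
  have hw := k.old_right _ k.w_P le_rfl
  rcases k.Q_new x y h with ⟨h1, h2⟩ | ⟨h1, h2⟩ | ⟨h1, h2⟩ | ⟨h0, h1, h2⟩
  · subst h1 h2
    left
    exact ⟨by omega, by omega, by rw [hb.2.2.2]; exact q1.le⟩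
  · subst h1 h2
    right; right
    refine ⟨by simp, ?_, ?_⟩
    · intro _
      refine ⟨q2, ?_, by omega, by rw [k.cb_l]; omega⟩
      intro z hz hq
      rcases (k.mem_K' z).1 hz with rfl | rfl | h
      · exact absurd hq (lt_irrefl _)
      · exact le_rfl
      · have hP := k.I.con_pl z h
        rw [k.q_old _ hP] at hq ⊢
        rcases k.sides z hP with hs | hs
        · linarith
        · exfalso; linarith
    · intro hn
      exact absurd ((k.mem_K' _).2 (Or.inl rfl)) hn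
  · subst h1 h2
    right; left
    refine ⟨by simp, ?_, ?_⟩
    · intro _
      refine ⟨by rw [hw.2.2.2]; exact q3, ?_⟩
      rw [k.cw_new, if_pos rfl]; omega
    · intro hn
      exact absurd ((k.mem_K' _).2 (Or.inr (Or.inr k.w_mem))) hn
  · rcases k.I.upw x y h0 with h3 | ⟨h3, h4, h5⟩ | ⟨h3, h4, h5⟩
    · exact Or.inl (k.up13 x y h1 h2 h3)
    · right; left
      refine ⟨Finset.mem_insert_of_mem h3, ?_, ?_⟩
      · intro hy
        obtain ⟨e1, e2⟩ := h4 (k.K'_old _ h2 hy)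
        refine ⟨by rw [k.q_old _ h1, k.q_old _ h2]; exact e1, ?_⟩
        have m := k.mono₁ _ _ h1 h2 e1.le
        rw [k.cw_new, k.y₃_old _ h1, k.y₃_old _ h2]
        split_ifs <;> omega
      · intro hy
        have hy' : Sum.inr y ∉ k.K := fun h => hy ((k.mem_K' _).2 (Or.inr (Or.inr h)))
        obtain ⟨e1, e2⟩ := h5 hy'
        refine ⟨by rw [k.q_old _ h1, k.q_old _ h2]; exact e1, ?_⟩
        intro hc
        have hne : y ≠ k.w := by rintro rfl; exact hy' k.w_mem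
        rw [k.cw_new, if_neg hne, add_zero] at hc
        have e3 := e2 hc
        have m := k.mono₁ _ _ h1 h2 e1
        rw [k.y₃_old _ h1, k.y₃_old _ h2]
        omega
    · right; right
      have hxl : x ≠ k.l := by rintro rfl; exact k.hl h1
      refine ⟨Finset.mem_insert_of_mem h3, ?_, ?_⟩
      · intro hx
        have hxK := k.K'_old _ h1 hx
        obtain ⟨e1, e2, e3, e4⟩ := h4 hxK
        have hxw : k.pos (Sum.inr k.w) ≤ k.pos (Sum.inl x) →
            k.pos (Sum.inr k.w) ≤ k.pos (Sum.inr y) := by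
          intro hs
          rcases eq_or_lt_of_le hs with he | hlt
          · have := k.I.black _ hxK _ k.w_P he
            simp at this
          · exact e2 _ k.w_mem hlt
        rw [k.q_old _ h1, k.q_old _ h2, k.cb_new x hxl, k.y₃_old _ h1, k.y₃_old _ h2]
        refine ⟨e1, ?_, e3, ?_⟩
        · intro z hz hq
          rcases (k.mem_K' z).1 hz with rfl | rfl | h
          · rcases k.sides _ h1 with hs | hs
            · exfalso; linarith
            · have := hxw hs; linarith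
          · rcases k.sides _ h1 with hs | hs
            · exfalso; linarith
            · have := hxw hs; linarith
          · rw [k.q_old _ (k.I.con_pl z h)] at hq ⊢
            exact e2 z h hq
        · rcases k.old _ h1 with ⟨a, a1, a2, a3, a4⟩ | ⟨a, a1, a2, a3, a4⟩ <;>
            rcases k.old _ h2 with ⟨c, c1, c2, c3, c4⟩ | ⟨c, c1, c2, c3, c4⟩
          · omega
          · exfalso; linarith
          · have := hxw a
            exfalso; linarith
          · omega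
      · intro hx
        have hx' : Sum.inl x ∉ k.K := fun h => hx ((k.mem_K' _).2 (Or.inr (Or.inr h)))
        obtain ⟨e1, e2⟩ := h5 hx'
        rw [k.q_old _ h1, k.q_old _ h2, k.cb_new x hxl, k.y₃_old _ h1, k.y₃_old _ h2]
        refine ⟨e1, ?_⟩
        intro hc
        have e3 := e2 hc
        rcases k.old _ h1 with ⟨a, a1, a2, a3, a4⟩ | ⟨a, a1, a2, a3, a4⟩ <;>
          rcases k.old _ h2 with ⟨c, c1, c2, c3, c4⟩ | ⟨c, c1, c2, c3, c4⟩
        · omega
        · exfalso; linarith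
        · exfalso; linarith
        · omega

theorem Dt.f_bound : k.N + k.lb k.l + 1 ≤ ∑ x ∈ insert k.l k.PB, (k.lb x + 1) +
    ∑ y ∈ (insert k.o k.PW).filter
      (fun y => y ∉ (k.A ++ (k.o, k.l) :: (k.w, k.b') :: k.C).map Prod.fst), (k.lw y + 1) := by
  have h1 := k.I.bound
  rw [Finset.sum_insert k.hl]
  have h2 : (insert k.o k.PW).filter
      (fun y => y ∉ (k.A ++ (k.o, k.l) :: (k.w, k.b') :: k.C).map Prod.fst) =
      k.PW.filter (fun y => y ∉ (k.A ++ (k.w, k.b') :: k.C).map Prod.fst) := by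
    ext y
    simp only [Finset.mem_filter, Finset.mem_insert, List.map_append, List.map_cons,
      List.mem_append, List.mem_cons, not_or]
    constructor
    · rintro ⟨h3 | h3, h4, h5, h6⟩
      · exact absurd h3 h5
      · exact ⟨h3, h4, h6⟩
    · rintro ⟨h3, h4, h6⟩
      refine ⟨Or.inr h3, h4, ?_, h6⟩
      rintro rfl
      exact k.ho h3
  rw [h2]
  linarith

end ModI1

theorem i1 : StmtI1 := by
  intro B W _ _ s lb lw hlb hlw A C w b' l o PB PW Q OB OW hI hl ho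
  obtain ⟨x₁, x₂, x₃, pos, N, I⟩ := hI
  let k : ModI1.Dt B W := ⟨s, lb, lw, hlb, A, C, w, b', l, o, PB, PW, Q, OB, OW, hl, ho,
    x₁, x₂, x₃, pos, N, I⟩
  exact ⟨k.y₁, k.y₂, k.y₃, k.q, k.N + k.lb k.l + 1,
    ⟨k.f_con_pl, k.f_sorted, k.f_Q_pl, k.f_OB_Q, k.f_OW_Q, k.f_deg, k.f_sum, k.f_nonneg,
      k.f_ends, k.f_exit, k.f_black, k.f_cmp₁, k.f_cmp₂, k.f_left, k.f_right, k.f_bary,
      k.f_low₃, k.f_lft, k.f_rgt, k.f_upw, k.f_bound⟩⟩

end Pool.Agent.T6.H90.SL
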