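import Pool.Agent.T6.H90.SL.I2a

set_option autoImplicit false

/-!
# Module I3: final coordinates
-/

namespace Pool.Agent.T6.H90.SL.ModI3

open Sum ModI2

variable {B W : Type} [DecidableEq B] [DecidableEq W]

theorem ee_card {s : B} {L : List (W × B)} {PB : Finset B} {PW : Finset W}
    {Q OB : Finset (B × W)} {OW : Finset (W × B)} (h : EE s L PB PW Q OB OW) :
    OB.card ≤ PB.card ∧ OW.card ≤ PW.card ∧ L ≠ [] := by
  induction h with
  | start w t hst => simp
  | ins A C w b' l o PB PW Q OB OW hE hl ho ih =>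
    refine ⟨?_, ?_, by simp⟩
    · rw [Finset.card_insert_of_notMem hl]
      exact (Finset.card_insert_le _ _).trans (by omega)
    · rw [Finset.card_insert_of_notMem ho]
      exact (Finset.card_insert_le _ _).trans (by omega)
  | cov A M C w₁ b₁ w PB PW Q OB OW hE hw ih =>
    refine ⟨ih.1, ?_, by simp⟩
    rw [Finset.card_insert_of_notMem hw]
    exact (Finset.card_insert_le _ _).trans (by omega)

/-- The coordinates of the closed structure. -/
def ext (f : B ⊕ W → ℤ) (c : ℤ) : B ⊕ Option W → ℤ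
  | inl x => f (inl x)
  | inr (some y) => f (inr y)
  | inr none => c

omit [DecidableEq B] [DecidableEq W] in
theorem nodup_fst {s : B} {pos : B ⊕ W → ℚ} {K : List (W × B)} (h : Srt pos (con s K)) :
    (K.map Prod.fst).Nodup := by
  induction K generalizing s with
  | nil => simp
  | cons q K ih =>
    obtain ⟨y, b⟩ := q
    rw [con_cons, Srt, List.pairwise_cons, List.pairwise_cons] at h
    rw [List.map_cons, List.nodup_cons]
    refine ⟨fun h' => ?_, ih h.2.2⟩
    obtain ⟨r, hr, hr'⟩ := List.mem_map.1 h'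
    have := h.2.1 _ (mem_white hr)
    rw [hr'] at this
    exact lt_irrefl _ this

omit [DecidableEq B] in
theorem TT_eq (lw : W → ℤ) (K : List (W × B)) (h : (K.map Prod.fst).Nodup) :
    TT lw K = ∑ y ∈ (K.map Prod.fst).toFinset, (lw y + 1) := by
  rw [List.sum_toFinset _ h, List.map_map]
  rfl

end Pool.Agent.T6.H90.SL.ModI3

namespace Pool.Agent.T6.H90.SL

open ModI2 Sum

theorem i3 : StmtI3 := by
  intro B W _ _ s L PB PW Q OB OW hE hinv
  obtain ⟨hc1, hc2, hne⟩ := ModI3.ee_card hE
  have hlb : ∀ x, 1 ≤ cb OW x + 1 := fun x => by unfold cb; omega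
  have hlw : ∀ y, 1 ≤ cw OB y + 1 := fun y => by unfold cw; omega
  obtain ⟨x₁, x₂, x₃, pos, N, I⟩ := hinv (fun x => cb OW x + 1) (fun y => cw OB y + 1) hlb hlw
  obtain ⟨M, q, hML⟩ : ∃ M q, L = M ++ [q] := by
    rcases List.eq_nil_or_concat L with h | ⟨M, q, h⟩
    · exact absurd h hne
    · exact ⟨M, q, by simpa using h⟩
  obtain ⟨w₁, t⟩ := q
  have hseg : Seg (fun z => z ∈ con s L) pos (fun y => cw OB y + 1) s t w₁
      (d1 (fun y => cw OB y + 1) pos L) (TT (fun y => cw OB y + 1) L) := by
    have := seg hlw s [] M [] w₁ t (pos := pos) (by rw [List.nil_append, ← hML]; exact I.sorted)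
    rw [List.nil_append, ← hML] at this
    exact this
  have hlast : lastB s L = t := by rw [hML, lastB_append]; rfl
  have hcr : ∀ z ∈ con s L, pos (inl s) ≤ pos z ∧ pos z ≤ pos (inl t) := by
    intro z hz
    constructor
    · rcases head_le I.sorted hz with h | h
      · rw [h]
      · exact h.le
    · rcases last_ge I.sorted hz with h | h
      · rw [h, hlast]
      · rw [hlast] at h
        exact h.le
  have hpr : ∀ u, Pl PB PW u → pos (inl s) ≤ pos u ∧ pos u ≤ pos (inl t) := by
    intro u hu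
    obtain ⟨z, hz, hzu, _⟩ := I.exit u hu
    rw [← hzu]
    exact hcr z hz
  generalize hd : d1 (fun y => cw OB y + 1) pos L = d at hseg
  generalize hT : TT (fun y => cw OB y + 1) L = T at hseg
  have hstr : ∀ u v, Pl PB PW u → Pl PB PW v → pos u < pos v → d (pos v) < d (pos u) := by
    intro u v hu hv huv
    obtain ⟨z, hz, hz', _⟩ := I.exit u hu
    obtain ⟨z2, hz2, hz2', _⟩ := I.exit v hv
    rw [← hz', ← hz2'] at huv ⊢
    exact hseg.strict z z2 hz hz2 (hcr z hz).1 huv (hcr z2 hz2).2
  have hd0 : ∀ u, Pl PB PW u → 0 ≤ d (pos u) ∧ d (pos u) ≤ T := by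
    intro u hu
    obtain ⟨h1, h2⟩ := hpr u hu
    have e1 := hseg.anti _ _ h1
    have e2 := hseg.anti _ _ h2
    rw [hseg.left _ le_rfl] at e1
    rw [hseg.right _ le_rfl] at e2
    exact ⟨e2, e1⟩
  have hD1 : ∀ z u, Pl PB PW z → Pl PB PW u → D1 x₁ pos z u →
      x₁ u + d (pos u) < x₁ z + d (pos z) := by
    intro z u hz hu h
    rcases h with ⟨h1, h2⟩ | ⟨h1, h2⟩
    · have := hseg.anti _ _ h2
      omega
    · have := hstr z u hz hu h2
      omega
  have hD2 : ∀ z u, Pl PB PW z → Pl PB PW u → D2 x₂ pos z u →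
      x₂ u + (T - d (pos u)) < x₂ z + (T - d (pos z)) := by
    intro z u hz hu h
    rcases h with ⟨h1, h2⟩ | ⟨h1, h2⟩
    · have := hseg.anti _ _ h2
      omega
    · have := hstr u z hu hz h2
      omega
  have hTp := hseg.T_pos
  -- upward
  have hup : ∀ x y, (x, y) ∈ Q → x₃ (inl x) - (x₁ (inl x) + d (pos (inl x))) <
      x₃ (inr y) - (x₁ (inr y) + d (pos (inr y))) := by
    intro x y hxy
    obtain ⟨hx, hy⟩ := I.Q_pl x y hxy
    have hxp : Pl PB PW (inl x) := hx
    have hyp : Pl PB PW (inr y) := hy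
    rcases I.upw x y hxy with ⟨h1, h2, h3⟩ | ⟨h1, h2, h3⟩ | ⟨h1, h2, h3⟩
    · have := hseg.anti _ _ h3
      omega
    · by_cases hc : inr y ∈ con s L
      · obtain ⟨h4, h5⟩ := h2 hc
        have h6 : pos (inl s) < pos (inr y) := lt_of_le_of_lt (hpr _ hxp).1 h4
        have h7 : pos (inr y) < pos (inl t) := by
          rcases (hcr _ hc).2.lt_or_eq with h7 | h7
          · exact h7
          · have := I.black t hseg.bj_mem _ hyp h7
            cases this
        have h8 := hseg.white y _ hc h6 h7 h4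
        have h9 : d (pos (inr y)) + (cw OB y + 1) ≤ d (pos (inl x)) := h8
        omega
      · obtain ⟨h4, h5⟩ := h3 hc
        have := hseg.anti _ _ h4
        have := h5 le_rfl
        omega
    · by_cases hc : inl x ∈ con s L
      · obtain ⟨h4, h5, h6, h7⟩ := h2 hc
        have h8 : pos (inl s) < pos (inl x) := lt_of_le_of_lt (hpr _ hyp).1 h4
        obtain ⟨y', hy1, hy2, hy3, hy4, hy5⟩ := hseg.black x hc h8 (hcr _ hc).2
        have h9 : pos (inr y) = pos (inr y') := by
          obtain ⟨z, hz, hz', _⟩ := I.exit _ hyp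
          refine le_antisymm ?_ (h5 _ hy1 hy3)
          rw [← hz'] at h4 ⊢
          exact hy4 z hz h4
        rw [h9, hy5]
        have h6' : cb OW x + 1 ≤ x₃ (inr y) - x₃ (inl x) := h6
        omega
      · obtain ⟨h4, h5⟩ := h3 hc
        have := h5 le_rfl
        rw [h4]
        omega
  have hcon : ∀ x, (x = s ∨ x ∈ L.map Prod.snd) → inl x ∈ con s L := by
    rintro x (rfl | h)
    · exact head_mem _ _
    · obtain ⟨q, hq, rfl⟩ := List.mem_map.1 h
      exact mem_black hq
  have hadj : ∀ x, inl x ∈ con s L → ∀ z, Pl PB PW z → z ≠ inl x →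
      (x₁ (inl x) + d (pos (inl x)) < x₁ z + d (pos z) ∧ 0 < x₁ z + d (pos z)) ∨
      (x₂ (inl x) + (T - d (pos (inl x))) < x₂ z + (T - d (pos z)) ∧
        0 < x₂ z + (T - d (pos z))) := by
    intro x hx z hz hzx
    have hxp := I.con_pl _ hx
    have e1 := I.nonneg _ hxp
    have e2 := hd0 _ hxp
    rcases lt_trichotomy (pos z) (pos (inl x)) with h | h | h
    · left
      have := hD1 z (inl x) hz hxp (Or.inr ⟨I.cmp₁ z hz _ hx h, h⟩)
      exact ⟨this, by omega⟩
    · exact absurd (I.black x hx z hz h) hzx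
    · right
      have := hD2 z (inl x) hz hxp (Or.inr ⟨I.cmp₂ z hz _ hx h, h⟩)
      exact ⟨this, by omega⟩
  have hx3 : ∀ u, Pl PB PW u → x₃ u < N + T := by
    intro u hu
    have e1 := I.nonneg u hu
    have e2 := I.sum u hu
    omega
  have hbd : N + T ≤ 3 * (PB.card + PW.card : ℤ) := by
    have h1 := I.bound
    have hnd : (L.map Prod.fst).Nodup := ModI3.nodup_fst I.sorted
    have hTe := ModI3.TT_eq (fun y => cw OB y + 1) L hnd
    rw [hT] at hTe
    have hsub : (PW.filter fun y => y ∉ L.map Prod.fst) ∪ (L.map Prod.fst).toFinset ⊆ PW := by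
      intro y hy
      rcases Finset.mem_union.1 hy with h | h
      · exact (Finset.mem_filter.1 h).1
      · rw [List.mem_toFinset] at h
        obtain ⟨q, hq, rfl⟩ := List.mem_map.1 h
        exact I.con_pl (inr q.1) (mem_white hq)
    have hdisj : Disjoint (PW.filter fun y => y ∉ L.map Prod.fst) (L.map Prod.fst).toFinset := by
      rw [Finset.disjoint_left]
      intro y h1 h2
      rw [Finset.mem_filter] at h1
      rw [List.mem_toFinset] at h2
      exact h1.2 h2
    have h2 := Finset.sum_le_sum_of_subset_of_nonneg (f := fun y => cw OB y + 1 + 1) hsub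
      (fun y _ _ => by have := hlw y; omega)
    rw [Finset.sum_union hdisj, ← hTe] at h2
    have h3 : ∑ x ∈ PB, cb OW x = (OW.card : ℤ) := by
      rw [Finset.card_eq_sum_card_fiberwise (f := Prod.snd) (t := PB) (s := OW) ?_]
      · push_cast
        rfl
      · intro p hp
        exact (I.Q_pl _ _ (I.OW_Q p.2 p.1 hp)).1
    have h4 : ∑ y ∈ PW, cw OB y = (OB.card : ℤ) := by
      rw [Finset.card_eq_sum_card_fiberwise (f := Prod.snd) (t := PW) (s := OB) ?_]
      · push_cast
        rfl
      · intro p hp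
        exact (I.Q_pl _ _ (I.OB_Q p.1 p.2 hp)).2
    have h5 : ∑ x ∈ PB, (cb OW x + 1 + 1) = (OW.card : ℤ) + 2 * PB.card := by
      rw [← h3]
      simp only [Finset.sum_add_distrib, Finset.sum_const, nsmul_eq_mul]
      ring
    have h6 : ∑ y ∈ PW, (cw OB y + 1 + 1) = (OB.card : ℤ) + 2 * PW.card := by
      rw [← h4]
      simp only [Finset.sum_add_distrib, Finset.sum_const, nsmul_eq_mul]
      ring
    rw [h6] at h2
    rw [h5] at h1
    omega
  refine ⟨ModI3.ext (fun u => x₁ u + d (pos u)) 0, ModI3.ext (fun u => x₂ u + (T - d (pos u))) 0,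
    ModI3.ext x₃ (N + T), N + T, by omega, ?_, ?_, ?_, ?_⟩
  · have hz1 : ∀ u, Pl PB PW u → (x₁ u + d (pos u)) + (x₂ u + (T - d (pos u))) + x₃ u = N + T ∧
        0 ≤ x₁ u + d (pos u) ∧ 0 ≤ x₂ u + (T - d (pos u)) ∧ 0 ≤ x₃ u := by
      intro u hu
      have e1 := I.nonneg u hu
      have e2 := I.sum u hu
      have e3 := hd0 u hu
      refine ⟨?_, ?_, ?_, e1.2.2⟩ <;> omega
    rintro (x | (_ | y)) hz
    · exact hz1 (inl x) hz
    · refine ⟨?_, le_rfl, le_rfl, ?_⟩
      · show 0 + 0 + (N + T) = N + T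
        ring
      · show 0 ≤ N + T
        have hs := I.con_pl _ (head_mem s L)
        have e1 := I.nonneg _ hs
        have := hx3 _ hs
        omega
    · exact hz1 (inr y) hz
  · rintro (x | x) (y | (_ | y)) h
    · exact h.elim
    · have hx := hcon x h
      have hxp := I.con_pl _ hx
      refine ⟨hxp, trivial, ?_⟩
      show x₃ (inl x) - (x₁ (inl x) + d (pos (inl x))) < N + T - 0
      have e1 := I.nonneg _ hxp
      have e3 := hd0 _ hxp
      have := hx3 _ hxp
      omega
    · exact ⟨(I.Q_pl x y h).1, (I.Q_pl x y h).2, hup x y h⟩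
    · exact h.elim
    · exact h.elim
    · exact h.elim
  · rintro (x | x) (y | (_ | y)) h z hz hzu hzv
    · exact h.elim
    · have hx := hcon x h
      rcases z with (z | (_ | z))
      · rcases hadj x hx (inl z) hz (fun h => hzu (by rw [Sum.inl_injective h])) with h' | h'
        · exact Or.inl h'
        · exact Or.inr (Or.inl h')
      · exact absurd rfl hzv
      · rcases hadj x hx (inr z) hz (fun h => by cases h) with h' | h'
        · exact Or.inl h'
        · exact Or.inr (Or.inl h')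
    · have key : ∀ z, Pl PB PW z → z ≠ inl x → z ≠ inr y →
          (x₁ (inl x) + d (pos (inl x)) < x₁ z + d (pos z) ∧
            x₁ (inr y) + d (pos (inr y)) < x₁ z + d (pos z)) ∨
          (x₂ (inl x) + (T - d (pos (inl x))) < x₂ z + (T - d (pos z)) ∧
            x₂ (inr y) + (T - d (pos (inr y))) < x₂ z + (T - d (pos z))) ∨
          (x₃ (inl x) < x₃ z ∧ x₃ (inr y) < x₃ z) := by
        intro z hz h1 h2
        have hxp : Pl PB PW (inl x) := (I.Q_pl x y h).1
        have hyp : Pl PB PW (inr y) := (I.Q_pl x y h).2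
        rcases I.bary x y h z hz h1 h2 with h' | h' | h'
        · exact Or.inl ⟨hD1 _ _ hz hxp h'.1, hD1 _ _ hz hyp h'.2⟩
        · exact Or.inr (Or.inl ⟨hD2 _ _ hz hxp h'.1, hD2 _ _ hz hyp h'.2⟩)
        · exact Or.inr (Or.inr h')
      rcases z with (z | (_ | z))
      · exact key (inl z) hz (fun h => hzu (by rw [Sum.inl_injective h])) (fun h => by cases h)
      · right; right
        have hxp : Pl PB PW (inl x) := (I.Q_pl x y h).1
        have hyp : Pl PB PW (inr y) := (I.Q_pl x y h).2
        exact ⟨hx3 _ hxp, hx3 _ hyp⟩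
      · exact key (inr z) hz (fun h => by cases h) (fun h => hzv (by rw [Sum.inr_injective h]))
    · exact h.elim
    · exact h.elim
    · exact h.elim
  · rintro (x | (_ | y)) hz
    · obtain ⟨p, hp, hp' | hp'⟩ := I.deg (inl x) hz
      · refine ⟨inl p.1, inr (some p.2), hp, Or.inl ?_⟩
        rw [Sum.inl_injective hp']
      · cases hp'
    · exact ⟨inl s, inr none, Or.inl rfl, Or.inr rfl⟩
    · obtain ⟨p, hp, hp' | hp'⟩ := I.deg (inr y) hz
      · cases hp'
      · refine ⟨inl p.1, inr (some p.2), hp, Or.inr ?_⟩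
        rw [Sum.inr_injective hp']

end Pool.Agent.T6.H90.SL
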