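import Pool.Agent.T6.H90.SL.Defs

set_option autoImplicit false

/-!
# Module J: barycentric representations are planar
-/

namespace Pool.Agent.T6.H90.SL

open Pool.Agent.T6.H90.Upward

namespace ModJ

/-- The three affine coordinates of the plane. -/
noncomputable def ell (N : ℤ) (k : Fin 3) (q : ℝ × ℝ) : ℝ :=
  if k = 0 then ((N : ℝ) - q.1 - q.2) / 2 else if k = 1 then q.1 else ((N : ℝ) - q.1 + q.2) / 2

/-- The three integer coordinates. -/
def co {α : Type} (x₁ x₂ x₃ : α → ℤ) (k : Fin 3) (z : α) : ℤ :=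
  if k = 0 then x₁ z else if k = 1 then x₂ z else x₃ z

theorem ell_pt {α : Type} (x₁ x₂ x₃ : α → ℤ) (N : ℤ) (z : α) (hz : x₁ z + x₂ z + x₃ z = N)
    (k : Fin 3) : ell N k (toPlane (x₂ z, x₃ z - x₁ z)) = co x₁ x₂ x₃ k z := by
  have hz' : (x₁ z : ℝ) + x₂ z + x₃ z = N := by exact_mod_cast hz
  unfold ell co toPlane
  split_ifs with h0 h1
  · push_cast
    linarith
  · rfl
  · push_cast
    linarith

theorem ell_inj (N : ℤ) (q q' : ℝ × ℝ) (h : ∀ k, ell N k q = ell N k q') : q = q' := by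
  have h1 := h 1
  have h0 := h 0
  unfold ell at h0 h1
  simp only [one_ne_zero, if_true, if_false] at h0 h1
  ext
  · exact h1
  · linarith

theorem seg {α : Type} (x₁ x₂ x₃ : α → ℤ) (N : ℤ) (u v : α) (hu : x₁ u + x₂ u + x₃ u = N)
    (hv : x₁ v + x₂ v + x₃ v = N) (q : ℝ × ℝ)
    (hq : q ∈ segment ℝ (toPlane (x₂ u, x₃ u - x₁ u)) (toPlane (x₂ v, x₃ v - x₁ v))) :
    ∃ r : ℝ, 0 ≤ r ∧ r ≤ 1 ∧ ∀ k, ell N k q =
      (1 - r) * co x₁ x₂ x₃ k u + r * co x₁ x₂ x₃ k v := by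
  rw [segment_eq_image] at hq
  obtain ⟨r, ⟨hr0, hr1⟩, rfl⟩ := hq
  refine ⟨r, hr0, hr1, fun k => ?_⟩
  rw [← ell_pt x₁ x₂ x₃ N u hu k, ← ell_pt x₁ x₂ x₃ N v hv k]
  unfold ell
  simp only [Prod.fst_add, Prod.smul_fst, Prod.snd_add, Prod.smul_snd, smul_eq_mul]
  split_ifs with h0 h1
  · ring
  · ring
  · ring

section

variable {α : Type} {P : α → Prop} {R : α → α → Prop} {x₁ x₂ x₃ : α → ℤ} {N : ℤ}

/-- Edges without direction. -/
structure Ed (P : α → Prop) (x₁ x₂ x₃ : α → ℤ) (N : ℤ) (u v : α) : Prop where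
  pu : P u
  pv : P v
  su : x₁ u + x₂ u + x₃ u = N
  sv : x₁ v + x₂ v + x₃ v = N
  ne : u ≠ v
  bar : ∀ z, P z → z ≠ u → z ≠ v →
    ∃ k, co x₁ x₂ x₃ k u < co x₁ x₂ x₃ k z ∧ co x₁ x₂ x₃ k v < co x₁ x₂ x₃ k z

theorem Ed.symm {u v : α} (h : Ed P x₁ x₂ x₃ N u v) : Ed P x₁ x₂ x₃ N v u :=
  ⟨h.pv, h.pu, h.sv, h.su, h.ne.symm, fun z hz h1 h2 => by
    obtain ⟨k, h3, h4⟩ := h.bar z hz h2 h1
    exact ⟨k, h4, h3⟩⟩

theorem common {a b c : α} (h : Ed P x₁ x₂ x₃ N a b) (h' : Ed P x₁ x₂ x₃ N a c) (hbc : b ≠ c)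
    (q : ℝ × ℝ)
    (hq : q ∈ segment ℝ (toPlane (x₂ a, x₃ a - x₁ a)) (toPlane (x₂ b, x₃ b - x₁ b)))
    (hq' : q ∈ segment ℝ (toPlane (x₂ a, x₃ a - x₁ a)) (toPlane (x₂ c, x₃ c - x₁ c))) :
    q = toPlane (x₂ a, x₃ a - x₁ a) := by
  obtain ⟨r, hr0, hr1, hr⟩ := seg x₁ x₂ x₃ N a b h.su h.sv q hq
  obtain ⟨r', hr0', hr1', hr'⟩ := seg x₁ x₂ x₃ N a c h'.su h'.sv q hq'
  by_cases h0 : r = 0
  · apply ell_inj N
    intro k
    rw [ell_pt x₁ x₂ x₃ N a h.su k, hr k, h0]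
    ring
  by_cases h0' : r' = 0
  · apply ell_inj N
    intro k
    rw [ell_pt x₁ x₂ x₃ N a h.su k, hr' k, h0']
    ring
  exfalso
  have hrp : 0 < r := lt_of_le_of_ne hr0 (Ne.symm h0)
  have hrp' : 0 < r' := lt_of_le_of_ne hr0' (Ne.symm h0')
  obtain ⟨k, hk1, hk2⟩ := h.bar c h'.pv h'.ne.symm hbc.symm
  obtain ⟨m, hm1, hm2⟩ := h'.bar b h.pv h.ne.symm hbc
  have hk1' : (co x₁ x₂ x₃ k a : ℝ) < co x₁ x₂ x₃ k c := by exact_mod_cast hk1
  have hk2' : (co x₁ x₂ x₃ k b : ℝ) < co x₁ x₂ x₃ k c := by exact_mod_cast hk2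
  have hm1' : (co x₁ x₂ x₃ m a : ℝ) < co x₁ x₂ x₃ m b := by exact_mod_cast hm1
  have hm2' : (co x₁ x₂ x₃ m c : ℝ) < co x₁ x₂ x₃ m b := by exact_mod_cast hm2
  have key : ∀ (A B C r r' : ℝ), 0 < r → 0 < r' → A < C → B < C →
      (1 - r) * A + r * B = (1 - r') * A + r' * C → r' < r := by
    intro A B C r r' hr hr' hAC hBC he
    by_contra hcon
    push Not at hcon
    have h1 : r * (B - A) = r' * (C - A) := by linarith
    have h2 : 0 < r' * (C - A) := mul_pos hr' (by linarith)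
    have h3 : 0 < B - A := by
      by_contra h4
      push Not at h4
      have h7 : 0 ≤ r * (A - B) := mul_nonneg hr.le (by linarith)
      linarith
    have h5 : r * (B - A) ≤ r' * (B - A) := mul_le_mul_of_nonneg_right hcon h3.le
    have h6 : r' * (B - A) < r' * (C - A) := mul_lt_mul_of_pos_left (by linarith) hr'
    linarith
  have e1 := key _ _ _ r r' hrp hrp' hk1' hk2' ((hr k).symm.trans (hr' k))
  have e2 := key _ _ _ r' r hrp' hrp hm1' hm2' ((hr' m).symm.trans (hr m))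
  linarith

theorem apart {u v x y : α} (h : Ed P x₁ x₂ x₃ N u v) (h' : Ed P x₁ x₂ x₃ N x y) (k : Fin 3)
    (h1 : co x₁ x₂ x₃ k u < co x₁ x₂ x₃ k x) (h2 : co x₁ x₂ x₃ k v < co x₁ x₂ x₃ k x)
    (h3 : co x₁ x₂ x₃ k u < co x₁ x₂ x₃ k y) (h4 : co x₁ x₂ x₃ k v < co x₁ x₂ x₃ k y)
    (q : ℝ × ℝ)
    (hq : q ∈ segment ℝ (toPlane (x₂ u, x₃ u - x₁ u)) (toPlane (x₂ v, x₃ v - x₁ v)))
    (hq' : q ∈ segment ℝ (toPlane (x₂ x, x₃ x - x₁ x)) (toPlane (x₂ y, x₃ y - x₁ y))) : False := by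
  obtain ⟨r, hr0, hr1, hr⟩ := seg x₁ x₂ x₃ N u v h.su h.sv q hq
  obtain ⟨r', hr0', hr1', hr'⟩ := seg x₁ x₂ x₃ N x y h'.su h'.sv q hq'
  have h1' : (co x₁ x₂ x₃ k u : ℝ) + 1 ≤ co x₁ x₂ x₃ k x := by exact_mod_cast h1
  have h2' : (co x₁ x₂ x₃ k v : ℝ) + 1 ≤ co x₁ x₂ x₃ k x := by exact_mod_cast h2
  have h3' : (co x₁ x₂ x₃ k u : ℝ) + 1 ≤ co x₁ x₂ x₃ k y := by exact_mod_cast h3
  have h4' : (co x₁ x₂ x₃ k v : ℝ) + 1 ≤ co x₁ x₂ x₃ k y := by exact_mod_cast h4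
  have he := (hr k).symm.trans (hr' k)
  have key : ∀ (a b c d r r' : ℝ), 0 ≤ r → r ≤ 1 → 0 ≤ r' → r' ≤ 1 → a + 1 ≤ c → b + 1 ≤ c →
      a + 1 ≤ d → b + 1 ≤ d → (1 - r) * a + r * b = (1 - r') * c + r' * d → False := by
    intro a b c d r r' hr0 hr1 hr0' hr1' hac hbc had hbd he
    have hM : (1 - r) * a + r * b ≤ max a b := by
      have e1 : (1 - r) * a ≤ (1 - r) * max a b := mul_le_mul_of_nonneg_left (le_max_left _ _) (by linarith)
      have e2 : r * b ≤ r * max a b := mul_le_mul_of_nonneg_left (le_max_right _ _) hr0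
      linarith
    have hm : min c d ≤ (1 - r') * c + r' * d := by
      have e1 : (1 - r') * min c d ≤ (1 - r') * c := mul_le_mul_of_nonneg_left (min_le_left _ _) (by linarith)
      have e2 : r' * min c d ≤ r' * d := mul_le_mul_of_nonneg_left (min_le_right _ _) hr0'
      linarith
    have hlt : max a b < min c d := by
      rw [max_lt_iff, lt_min_iff, lt_min_iff]
      exact ⟨⟨by linarith, by linarith⟩, by linarith, by linarith⟩
    linarith
  exact key _ _ _ _ r r' hr0 hr1 hr0' hr1' h1' h2' h3' h4' he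

theorem pigeon : ∀ k1 k2 k3 k4 : Fin 3, k1 ≠ k3 → k1 ≠ k4 → k2 ≠ k3 → k2 ≠ k4 →
    k1 = k2 ∨ k3 = k4 := by
  decide

theorem disjoint {u v x y : α} (h : Ed P x₁ x₂ x₃ N u v) (h' : Ed P x₁ x₂ x₃ N x y)
    (hux : u ≠ x) (huy : u ≠ y) (hvx : v ≠ x) (hvy : v ≠ y) (q : ℝ × ℝ)
    (hq : q ∈ segment ℝ (toPlane (x₂ u, x₃ u - x₁ u)) (toPlane (x₂ v, x₃ v - x₁ v)))
    (hq' : q ∈ segment ℝ (toPlane (x₂ x, x₃ x - x₁ x)) (toPlane (x₂ y, x₃ y - x₁ y))) : False := by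
  obtain ⟨k1, a1, b1⟩ := h.bar x h'.pu hux.symm hvx.symm
  obtain ⟨k2, a2, b2⟩ := h.bar y h'.pv huy.symm hvy.symm
  obtain ⟨k3, a3, b3⟩ := h'.bar u h.pu hux huy
  obtain ⟨k4, a4, b4⟩ := h'.bar v h.pv hvx hvy
  rcases pigeon k1 k2 k3 k4 (by rintro rfl; omega) (by rintro rfl; omega) (by rintro rfl; omega)
    (by rintro rfl; omega) with rfl | rfl
  · exact apart h h' k1 a1 b1 a2 b2 q hq hq'
  · exact apart h' h k3 a3 b3 a4 b4 q hq' hq

end

end ModJ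

open ModJ in
theorem j : StmtJ := by
  intro α P R x₁ x₂ x₃ N hN hR hbar hcov p
  have hne : ∀ u v, R u v → u ≠ v := by
    rintro u v h rfl
    exact lt_irrefl _ (hR u u h).2.2
  have hnn : ∀ u v, R u v → ¬ R v u := by
    intro u v h h'
    have h1 := (hR u v h).2.2
    have h2 := (hR v u h').2.2
    omega
  have hEd : ∀ u v, R u v → Ed P x₁ x₂ x₃ N u v := by
    intro u v h
    refine ⟨(hR u v h).1, (hR u v h).2.1, hN u (hR u v h).1, hN v (hR u v h).2.1, hne u v h, ?_⟩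
    intro z hz hzu hzv
    rcases hbar u v h z hz hzu hzv with hk | hk | hk
    · exact ⟨0, hk⟩
    · exact ⟨1, hk⟩
    · exact ⟨2, hk⟩
  refine ⟨?_, ?_, ?_⟩
  · intro u v hu hv huv
    have h1 : x₂ u = x₂ v := congrArg Prod.fst huv
    have h2 : x₃ u - x₁ u = x₃ v - x₁ v := congrArg Prod.snd huv
    have h3 := hN u hu
    have h4 := hN v hv
    have hco : ∀ k, co x₁ x₂ x₃ k u = co x₁ x₂ x₃ k v := by
      intro k
      unfold co
      split_ifs
      · omega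
      · exact h1
      · omega
    by_contra hne'
    obtain ⟨a, b, hab, hu'⟩ := hcov u hu
    by_cases hva : v = a
    · rcases hu' with rfl | rfl
      · exact hne' hva.symm
      · have := (hR a u hab).2.2
        rw [hva] at h2
        omega
    by_cases hvb : v = b
    · rcases hu' with rfl | rfl
      · have := (hR u b hab).2.2
        rw [hvb] at h2
        omega
      · exact hne' hvb.symm
    obtain ⟨k, hk1, hk2⟩ := (hEd a b hab).bar v hv hva hvb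
    have := hco k
    rcases hu' with rfl | rfl
    · omega
    · omega
  · intro u v z huv hz hq
    by_contra hcon
    push Not at hcon
    obtain ⟨k, hk1, hk2⟩ := (hEd u v huv).bar z hz hcon.1 hcon.2
    obtain ⟨r, hr0, hr1, hr⟩ := seg x₁ x₂ x₃ N u v (hN u (hR u v huv).1) (hN v (hR u v huv).2.1) _ hq
    have hk1' : (co x₁ x₂ x₃ k u : ℝ) + 1 ≤ co x₁ x₂ x₃ k z := by exact_mod_cast hk1
    have hk2' : (co x₁ x₂ x₃ k v : ℝ) + 1 ≤ co x₁ x₂ x₃ k z := by exact_mod_cast hk2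
    have he := hr k
    rw [ell_pt x₁ x₂ x₃ N z (hN z hz) k] at he
    have e1 : (1 - r) * (co x₁ x₂ x₃ k u : ℝ) ≤ (1 - r) * (co x₁ x₂ x₃ k z - 1) :=
      mul_le_mul_of_nonneg_left (by linarith) (by linarith)
    have e2 : r * (co x₁ x₂ x₃ k v : ℝ) ≤ r * (co x₁ x₂ x₃ k z - 1) :=
      mul_le_mul_of_nonneg_left (by linarith) hr0
    linarith
  · intro u v x y huv hxy hnp q hq hq'
    have E1 := hEd u v huv
    have E2 := hEd x y hxy
    by_cases hux : u = x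
    · subst hux
      have hvy : v ≠ y := fun h => hnp (by rw [h])
      exact ⟨u, Or.inl rfl, Or.inl rfl, common E1 E2 hvy q hq hq'⟩
    by_cases hvy : v = y
    · subst hvy
      rw [segment_symm] at hq hq'
      exact ⟨v, Or.inr rfl, Or.inr rfl, common E1.symm E2.symm hux q hq hq'⟩
    by_cases huy : u = y
    · subst huy
      have hvx : v ≠ x := by
        rintro rfl
        exact hnn u v huv hxy
      rw [segment_symm ℝ (toPlane (p x))] at hq'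
      exact ⟨u, Or.inl rfl, Or.inr rfl, common E1 E2.symm hvx q hq hq'⟩
    by_cases hvx : v = x
    · subst hvx
      have huy' : u ≠ y := huy
      rw [segment_symm ℝ (toPlane (p u))] at hq
      exact ⟨v, Or.inr rfl, Or.inl rfl, common E1.symm E2 huy' q hq hq'⟩
    exact (disjoint E1 E2 hux huy hvx hvy q hq hq').elim

end Pool.Agent.T6.H90.SL
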