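import Pool.Agent.T6.H90.SL.I0

set_option autoImplicit false

/-!
# Final assembly: straight-line upward drawings of bipartite DAGs in quadratic area
-/

namespace Pool.Agent.T6.H90.SL

open Pool.Agent.T6.H90.Upward

section

variable {B W F D : Type} [Fintype B] [Fintype W] [Fintype F] [Fintype D]

/-- the graph on `B ⊕ F` -/
def bf (H : PH B W F D) : SimpleGraph (B ⊕ F) where
  Adj x y := ∃ d, (x = Sum.inl (H.b d) ∧ y = Sum.inr (H.f d)) ∨
    (x = Sum.inr (H.f d) ∧ y = Sum.inl (H.b d))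
  symm := ⟨by
    rintro x y ⟨d, h | h⟩
    · exact ⟨d, Or.inr ⟨h.2, h.1⟩⟩
    · exact ⟨d, Or.inl ⟨h.2, h.1⟩⟩⟩
  loopless := ⟨by
    rintro x ⟨d, ⟨h1, h2⟩ | ⟨h1, h2⟩⟩
    · rw [h1] at h2; cases h2
    · rw [h1] at h2; cases h2⟩

theorem exists_stn (hd : StmtD) (he : StmtE) (H : PH B W F D) (hs : Star H) (d0 : D) :
    ∃ h : B ⊕ F → ℕ, STN H h d0 := by
  classical
  obtain ⟨h, h1, h2, h3, h4⟩ := he (B ⊕ F) (bf H) (Sum.inl (H.b d0)) (Sum.inr (H.f d0))
    ⟨d0, Or.inl ⟨rfl, rfl⟩⟩ (by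
      intro u P hP x y hx hy
      exact hd B W F D H hs u P (fun d hb hf => hP _ _ ⟨d, Or.inl ⟨rfl, rfl⟩⟩ hb hf) x y hx hy)
  refine ⟨h, h1, h2, h3, ?_, ?_⟩
  · intro x hx
    obtain ⟨⟨y, ⟨d, hd⟩, hy⟩, z, ⟨e, he⟩, hz⟩ := h4 (Sum.inl x)
      (fun hh => hx (Sum.inl_injective hh)) (by simp)
    refine ⟨⟨d, ?_, ?_⟩, e, ?_, ?_⟩
    · rcases hd with hd | hd
      · exact (Sum.inl_injective hd.1).symm
      · cases hd.1
    · rcases hd with hd | hd
      · rw [← hd.2]; exact hy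
      · cases hd.1
    · rcases he with he | he
      · exact (Sum.inl_injective he.1).symm
      · cases he.1
    · rcases he with he | he
      · rw [← he.2]; exact hz
      · cases he.1
  · intro x hx
    obtain ⟨⟨y, ⟨d, hd⟩, hy⟩, z, ⟨e, he⟩, hz⟩ := h4 (Sum.inr x) (by simp)
      (fun hh => hx (Sum.inr_injective hh))
    refine ⟨⟨d, ?_, ?_⟩, e, ?_, ?_⟩
    · rcases hd with hd | hd
      · cases hd.1
      · exact (Sum.inr_injective hd.1).symm
    · rcases hd with hd | hd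
      · cases hd.1
      · rw [← hd.2]; exact hy
    · rcases he with he | he
      · cases he.1
      · exact (Sum.inr_injective he.1).symm
    · rcases he with he | he
      · cases he.1
      · rw [← he.2]; exact hz

end

/-- barycentric coordinates on a supergraph -/
theorem exists_coords (hb : StmtB) (hc : StmtC) (hd : StmtD) (he : StmtE) (hg : StmtG)
    (hh : StmtH) (i1 : StmtI1) (i2 : StmtI2) (i3 : StmtI3) (V : Type) [Fintype V] [Nonempty V]
    (E : V → V → Prop) (vs : List V) (h1 : vs.Nodup) (h2 : ∀ v, v ∈ vs) (h3 : Sweep E vs []) :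
    ∃ (α : Type) (P : α → Prop) (R : α → α → Prop) (x₁ x₂ x₃ : α → ℤ) (N : ℤ) (φ : V → α),
      Function.Injective φ ∧ (∀ v, P (φ v)) ∧ (∀ u v, E u v → R (φ u) (φ v)) ∧
      N ≤ 246 * Fintype.card V ∧
      (∀ z, P z → x₁ z + x₂ z + x₃ z = N ∧ 0 ≤ x₁ z ∧ 0 ≤ x₂ z ∧ 0 ≤ x₃ z) ∧
      (∀ u v, R u v → P u ∧ P v ∧ x₃ u - x₁ u < x₃ v - x₁ v) ∧
      (∀ u v, R u v → ∀ z, P z → z ≠ u → z ≠ v →
        (x₁ u < x₁ z ∧ x₁ v < x₁ z) ∨ (x₂ u < x₂ z ∧ x₂ v < x₂ z) ∨
          (x₃ u < x₃ z ∧ x₃ v < x₃ z)) ∧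
      ∀ z, P z → ∃ u v, R u v ∧ (z = u ∨ z = v) := by
  classical
  obtain ⟨B₀, W₀, F₀, D₀, i_1, i_2, i_3, i_4, H₀, g, g_inj, gE, hD, hcard⟩ := hb V E vs h1 h2 h3
  obtain ⟨B, W, F, D, i_5, i_6, i_7, i_8, H, jb, jw, jb_inj, jw_inj, jE, star, hcard'⟩ :=
    hc B₀ W₀ F₀ D₀ H₀ hD
  have hne : Nonempty D₀ := Fintype.card_pos_iff.1 (by omega)
  obtain ⟨d0, -⟩ := jE (Classical.choice hne)
  obtain ⟨h, hstn⟩ := exists_stn hd he H star d0
  obtain ⟨M, hM⟩ := hg B W F D H h d0 hstn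
  obtain ⟨L, PB, PW, Q, OB, OW, hEE, hPB, hQ, hft⟩ := hh (B ⊕ F) W D M
  obtain ⟨x₁, x₂, x₃, N, hN, hx, hR, hbary, hdeg⟩ :=
    i3 (B ⊕ F) (W ⊕ Option (B ⊕ F)) (M.src M.e0) L PB PW Q OB OW hEE
      (fun lb lw hlb hlw => hasInv i1 i2 _ _ _ L PB PW Q OB OW hEE lb lw hlb hlw)
  set R := clQ (M.src M.e0) L Q with hRdef
  let ψ : W → (B ⊕ F) ⊕ Option (W ⊕ Option (B ⊕ F)) := fun y =>
    Sum.inr (if y = M.ft then none else some (Sum.inl y))
  have hψ : Function.Injective ψ := by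
    intro y y' hy
    have hy' := Sum.inr_injective hy
    by_cases e1 : y = M.ft <;> by_cases e2 : y' = M.ft <;> simp [e1, e2] at hy' ⊢
    exact hy'
  have hdart : ∀ d : D, R (Sum.inl (Sum.inl (H.b d))) (ψ (H.w d)) := by
    intro d
    by_cases e : H.w d = M.ft
    · have h5 := hft _ (e ▸ hM d)
      simp only [ψ, e, if_true]
      exact h5
    · have h5 := hQ _ e _ (hM d)
      simp only [ψ, if_neg e]
      exact h5
  let φ : V → (B ⊕ F) ⊕ Option (W ⊕ Option (B ⊕ F)) := fun v =>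
    match g v with
    | Sum.inl x => Sum.inl (Sum.inl (jb x))
    | Sum.inr y => ψ (jw y)
  have hφ : Function.Injective φ := by
    intro u v huv
    apply g_inj
    simp only [φ] at huv
    rcases hu : g u with x | x <;> rcases hv : g v with y | y <;> rw [hu, hv] at huv
    · simp only [Sum.inl.injEq] at huv
      rw [jb_inj huv]
    · simp [ψ] at huv
    · simp [ψ] at huv
    · rw [jw_inj (hψ huv)]
  have hφE : ∀ u v, E u v → R (φ u) (φ v) := by
    intro u v huv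
    obtain ⟨d, hu, hv⟩ := gE u v huv
    obtain ⟨d', hb', hw'⟩ := jE d
    simp only [φ, hu, hv]
    rw [← hb', ← hw']
    exact hdart d'
  refine ⟨_, clP PB PW, R, x₁, x₂, x₃, N, φ, hφ, ?_, hφE, ?_, hx, hR, hbary, hdeg⟩
  · intro v
    simp only [φ]
    rcases hv : g v with x | x
    · exact hPB _
    · obtain ⟨d, hd'⟩ := H.w_surj (jw x)
      change clP PB PW (ψ (jw x))
      rw [← hd']
      exact (hR _ _ (hdart d)).2.1
  · have c1 : PB.card ≤ Fintype.card B + Fintype.card F := by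
      calc PB.card ≤ Fintype.card (B ⊕ F) := Finset.card_le_univ _
        _ = _ := Fintype.card_sum
    have c2 : PW.card ≤ Fintype.card W + (Fintype.card B + Fintype.card F + 1) := by
      calc PW.card ≤ Fintype.card (W ⊕ Option (B ⊕ F)) := Finset.card_le_univ _
        _ = _ := by rw [Fintype.card_sum, Fintype.card_option, Fintype.card_sum]
    have c3 : 0 < Fintype.card V := Fintype.card_pos
    have c4 : (PB.card : ℤ) + PW.card + 1 ≤ 82 * Fintype.card V := by
      have : PB.card + PW.card + 1 ≤ 82 * Fintype.card V := by omega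
      exact_mod_cast this
    linarith

lemma curve_nil (p q : ℤ × ℤ) : curve p q [] = segment ℝ (toPlane p) (toPlane q) := by
  rw [curve, List.nil_append, chain, chain]
  apply Set.union_eq_self_of_subset_right
  rw [Set.singleton_subset_iff]
  exact right_mem_segment _ _ _

/-- Every upward planar bipartite DAG with `n` vertices has an upward planar straight-line grid
drawing of width at most `246 n` and height at most `492 n`. -/
theorem exists_drawing (a2 : StmtA2) (hb : StmtB) (hc : StmtC) (hd : StmtD)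
    (he : StmtE) (hg : StmtG) (hh : StmtH) (i1 : StmtI1) (i2 : StmtI2) (i3 : StmtI3) (j : StmtJ)
    (V : Type) [Fintype V] [Nonempty V] (E : V → V → Prop) (hE : IsBipartiteDAG E)
    (hD : Nonempty (Mono E)) :
    ∃ D : Drawing E, D.Straight ∧
      D.FitsIn (246 * Fintype.card V : ℕ) (492 * Fintype.card V : ℕ) := by
  obtain ⟨vs, h1, h2, h3⟩ := a2 V E hE hD
  obtain ⟨α, P, R, x₁, x₂, x₃, N, φ, hφ, hP, hφE, hN, hx, hR, hbary, hdeg⟩ :=
    exists_coords hb hc hd he hg hh i1 i2 i3 V E vs h1 h2 h3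
  obtain ⟨j1, j2, j3⟩ := j α P R x₁ x₂ x₃ N (fun z hz => (hx z hz).1) hR hbary hdeg
  have hbox : ∀ v : V, (toPlane (x₂ (φ v), x₃ (φ v) - x₁ (φ v))) ∈
      Set.Icc (0 : ℝ) (0 + (246 * Fintype.card V : ℕ)) ×ˢ
        Set.Icc (-(N : ℝ)) (-(N : ℝ) + (492 * Fintype.card V : ℕ)) := by
    intro v
    obtain ⟨e1, e2, e3, e4⟩ := hx _ (hP v)
    have k1 : x₂ (φ v) ≤ 246 * Fintype.card V := by linarith
    have k2 : -N ≤ x₃ (φ v) - x₁ (φ v) := by linarith
    have k3 : x₃ (φ v) - x₁ (φ v) ≤ -N + 492 * Fintype.card V := by linarith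
    have k1' : (x₂ (φ v) : ℝ) ≤ 246 * Fintype.card V := by exact_mod_cast k1
    have k2' : -(N : ℝ) ≤ ((x₃ (φ v) - x₁ (φ v) : ℤ) : ℝ) := by exact_mod_cast k2
    have k3' : ((x₃ (φ v) - x₁ (φ v) : ℤ) : ℝ) ≤ -(N : ℝ) + 492 * Fintype.card V := by
      exact_mod_cast k3
    have e3' : (0 : ℝ) ≤ x₂ (φ v) := by exact_mod_cast e3
    refine ⟨⟨e3', ?_⟩, k2', ?_⟩
    · simp only [toPlane]
      push_cast
      linarith
    · simp only [toPlane]
      push_cast at k3' ⊢
      linarith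
  refine ⟨{ pos := fun v => (x₂ (φ v), x₃ (φ v) - x₁ (φ v))
            bends := fun _ _ => []
            pos_injective := ?_
            upward := ?_
            vertex_not_on_edge := ?_
            planar := ?_ }, ?_, ?_⟩
  · intro u v huv
    exact hφ (j1 _ _ (hP u) (hP v) huv)
  · intro u v huv
    simp only [List.nil_append, List.isChain_cons_cons, List.isChain_singleton, and_true]
    exact (hR _ _ (hφE u v huv)).2.2
  · intro u v w huv hw
    rw [curve_nil] at hw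
    rcases j2 _ _ (φ w) (hφE u v huv) (hP w) hw with h | h
    · exact Or.inl (hφ h)
    · exact Or.inr (hφ h)
  · intro u v x y huv hxy hne z hz hz'
    rw [curve_nil] at hz hz'
    obtain ⟨w, hw1, hw2, hw3⟩ := j3 _ _ _ _ (hφE u v huv) (hφE x y hxy) (by
      intro h
      apply hne
      rw [Prod.mk.injEq] at h
      rw [hφ h.1, hφ h.2]) z hz hz'
    rcases hw1 with h | h
    · subst h
      refine ⟨u, Or.inl rfl, ?_, hw3⟩
      rcases hw2 with h | h
      · exact Or.inl (hφ h)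
      · exact Or.inr (hφ h)
    · subst h
      refine ⟨v, Or.inr rfl, ?_, hw3⟩
      rcases hw2 with h | h
      · exact Or.inl (hφ h)
      · exact Or.inr (hφ h)
  · intro u v _
    rfl
  · refine ⟨0, -(N : ℝ), ?_, ?_⟩
    · intro v
      exact ⟨(hbox v).1, (hbox v).2⟩
    · intro u v _ z hz
      rw [curve_nil] at hz
      have hconv : Convex ℝ (Set.Icc (0 : ℝ) (0 + (246 * Fintype.card V : ℕ)) ×ˢ
          Set.Icc (-(N : ℝ)) (-(N : ℝ) + (492 * Fintype.card V : ℕ))) :=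
        (convex_Icc _ _).prod (convex_Icc _ _)
      have := hconv.segment_subset (hbox u) (hbox v) hz
      exact ⟨this.1, this.2⟩

end Pool.Agent.T6.H90.SL
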