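import Pool.Agent.T6.H90.SL.Defs

/-!
# Cycles of permutations: common lemmas of the modules B1, B2, B3, B4
-/

set_option autoImplicit false

namespace Pool.Agent.T6.H90.SL

namespace ModBC

theorem lift_same {A A' : Type} [Finite A] (σ : Equiv.Perm A) (τ : Equiv.Perm A') (ρ : A → A')
    (h : ∀ z, τ.SameCycle (ρ z) (ρ (σ z))) {x y : A} (hxy : σ.SameCycle x y) :
    τ.SameCycle (ρ x) (ρ y) := by
  obtain ⟨n, hn⟩ := hxy.exists_nat_pow_eq
  have h1 : ∀ n : ℕ, τ.SameCycle (ρ x) (ρ ((σ ^ n) x)) := by
    intro n
    induction n with
    | zero => exact Equiv.Perm.SameCycle.refl _ _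
    | succ n ih =>
      rw [pow_succ', Equiv.Perm.mul_apply]
      exact ih.trans (h _)
  rw [← hn]
  exact h1 n

theorem same_step {A : Type} (σ : Equiv.Perm A) (x : A) : σ.SameCycle x (σ x) := ⟨1, by simp⟩

theorem closed_of_same {A : Type} [Finite A] (σ : Equiv.Perm A) (P : A → Prop)
    (h : ∀ d, P d → P (σ d)) {x y : A} (hxy : σ.SameCycle x y) (hx : P x) : P y := by
  obtain ⟨n, hn⟩ := hxy.exists_nat_pow_eq
  have h1 : ∀ n : ℕ, P ((σ ^ n) x) := by
    intro n
    induction n with
    | zero => exact hx
    | succ n ih =>
      rw [pow_succ', Equiv.Perm.mul_apply]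
      exact h _ ih
  rw [← hn]
  exact h1 n

section

variable {A : Type} [DecidableEq A]

/-- insertion of `none` into a cycle after `e` -/
def ins (σ : Equiv.Perm A) (e : A) : Equiv.Perm (Option A) :=
  Equiv.optionCongr σ * Equiv.swap none (some e)

theorem ins_self (σ : Equiv.Perm A) (e : A) : ins σ e (some e) = none := by
  simp [ins]

theorem ins_none (σ : Equiv.Perm A) (e : A) : ins σ e none = some (σ e) := by
  simp [ins]

theorem ins_ne (σ : Equiv.Perm A) (e : A) {d : A} (h : d ≠ e) : ins σ e (some d) = some (σ d) := by
  have : Equiv.swap none (some e) (some d) = some d :=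
    Equiv.swap_apply_of_ne_of_ne (by simp) (by simpa using h)
  simp [ins, this]

/-- the projection of an insertion -/
def rho (e : A) (z : Option A) : A := z.getD e

theorem ins_same [Finite A] (σ : Equiv.Perm A) (e : A) (z z' : Option A) :
    (ins σ e).SameCycle z z' ↔ σ.SameCycle (rho e z) (rho e z') := by
  constructor
  · intro h
    refine lift_same (ins σ e) σ (rho e) ?_ h
    rintro (_ | d)
    · rw [ins_none]
      exact same_step σ e
    · by_cases hd : d = e
      · subst hd
        rw [ins_self]
        exact Equiv.Perm.SameCycle.refl _ _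
      · rw [ins_ne σ e hd]
        exact same_step σ d
  · intro h
    have h1 : ∀ z : Option A, (ins σ e).SameCycle z (some (rho e z)) := by
      rintro (_ | d)
      · refine Equiv.Perm.SameCycle.symm ?_
        have := same_step (ins σ e) (some e)
        rwa [ins_self] at this
      · exact Equiv.Perm.SameCycle.refl _ _
    refine (h1 z).trans (Equiv.Perm.SameCycle.trans ?_ (h1 z').symm)
    refine lift_same σ (ins σ e) some ?_ h
    intro d
    by_cases hd : d = e
    · subst hd
      have h2 := same_step (ins σ d) (some d)
      have h3 := same_step (ins σ d) none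
      rw [ins_self] at h2
      rw [ins_none] at h3
      exact h2.trans h3
    · have h2 := same_step (ins σ e) (some d)
      rwa [ins_ne σ e hd] at h2

/-- the permutation of `Option A` with the fixed point `none` -/
def oc (σ : Equiv.Perm A) : Equiv.Perm (Option A) := Equiv.optionCongr σ

omit [DecidableEq A] in
theorem oc_n (σ : Equiv.Perm A) : oc σ none = none := rfl

omit [DecidableEq A] in
theorem oc_s (σ : Equiv.Perm A) (d : A) : oc σ (some d) = some (σ d) := rfl

omit [DecidableEq A] in
theorem oc_same [Finite A] (σ : Equiv.Perm A) (x y : A) :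
    (oc σ).SameCycle (some x) (some y) ↔ σ.SameCycle x y := by
  constructor
  · intro h
    refine lift_same (oc σ) σ (rho x) ?_ h
    rintro (_ | d)
    · exact Equiv.Perm.SameCycle.refl _ _
    · exact same_step σ d
  · intro h
    refine lift_same σ (oc σ) some ?_ h
    intro d
    exact same_step (oc σ) (some d)

omit [DecidableEq A] in
theorem oc_none (σ : Equiv.Perm A) {z : Option A}
    (h : (oc σ).SameCycle none z) : z = none :=
  (h.eq_of_left (oc_n σ)).symm

omit [DecidableEq A] in
theorem oc_iff [Finite A] {B : Type} (σ : Equiv.Perm A) (w : A → B)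
    (h : ∀ d e, w d = w e ↔ σ.SameCycle d e) (z z' : Option A) :
    z.map w = z'.map w ↔ (oc σ).SameCycle z z' := by
  rcases z with _ | x <;> rcases z' with _ | y
  · exact iff_of_true rfl (Equiv.Perm.SameCycle.refl _ _)
  · constructor
    · intro h; simp at h
    · intro h; exact absurd (oc_none σ h) (by simp)
  · constructor
    · intro h; simp at h
    · intro h; exact absurd (oc_none σ h.symm) (by simp)
  · rw [oc_same, ← h]
    simp

end

/-- a cycle of a function as a list -/
def Cy {A : Type} (φ : A → A) (O : List A) : Prop :=
  O.Nodup ∧ ∀ c, O.head? = some c → (O ++ [c]).IsChain (fun a b => φ a = b)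

theorem cyc_iff {B W F D : Type} [Fintype B] [Fintype W] [Fintype F] [Fintype D]
    (H : PH B W F D) (O : List D) : Cyc H O ↔ Cy (fun d => H.ω (H.β d)) O := by
  unfold Cyc Cy
  refine and_congr Iff.rfl ?_
  rcases O with _ | ⟨c, O⟩
  · simp
  · have hch : (∀ (O₀ : List D) (a c' : D) (O₁ : List D), c :: O = O₀ ++ a :: c' :: O₁ →
        H.ω (H.β a) = c') ↔ (c :: O).IsChain (fun a b => H.ω (H.β a) = b) := by
      rw [List.isChain_iff_forall_rel_of_append_cons_cons]
      exact ⟨fun h a b l1 l2 e => h l1 a b l2 e, fun h l1 a b l2 e => h e⟩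
    rw [hch]
    constructor
    · rintro ⟨h1, h2⟩ c' hc'
      have e : c' = c := by simpa using hc'.symm
      subst e
      rw [List.isChain_append]
      refine ⟨h1, by simp, ?_⟩
      intro x hx y hy
      have : y = c' := by simpa using hy.symm
      rw [this]
      exact h2 x c' (by simp) hx
    · intro h
      have h1 := h c (by simp)
      rw [List.isChain_append] at h1
      refine ⟨h1.1, ?_⟩
      intro a c' hc' ha
      have e : c' = c := by simpa using hc'.symm
      subst e
      exact h1.2.2 a ha c' (by simp)

section

variable {A : Type} {φ : A → A}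

theorem Cy.rot {X Y : List A} (h : Cy φ (X ++ Y)) : Cy φ (Y ++ X) := by
  obtain ⟨h1, h2⟩ := h
  refine ⟨List.nodup_append_comm.1 h1, ?_⟩
  rcases X with _ | ⟨x, X⟩
  · simpa using h2
  · rcases Y with _ | ⟨y, Y⟩
    · simpa using h2
    · intro c hc
      have e : c = y := by simpa using hc.symm
      subst e
      have h3 := h2 x (by simp)
      rw [List.append_assoc, List.cons_append, List.cons_append, ← List.cons_append,
        List.isChain_split] at h3
      rw [List.append_assoc, List.cons_append, List.cons_append, ← List.cons_append,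
        List.isChain_split]
      exact ⟨by simpa using h3.2, by simpa using h3.1⟩

theorem chain_lift {A' : Type} (φ' : A' → A') (g : A → A') (l : List A) (x : A)
    (h : ∀ a ∈ l, φ' (g a) = g (φ a)) (hc : (l ++ [x]).IsChain (fun a c => φ a = c)) :
    ((l ++ [x]).map g).IsChain (fun a c => φ' a = c) := by
  induction l with
  | nil => simp
  | cons a l ih =>
    have h1 := ih (fun b hb => h b (List.mem_cons_of_mem _ hb))
    rcases l with _ | ⟨b, l⟩
    · simp only [List.cons_append, List.nil_append, List.isChain_cons_cons] at hc
      simp only [List.cons_append, List.nil_append, List.map_cons, List.map_nil,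
        List.isChain_cons_cons]
      refine ⟨?_, by simp⟩
      rw [h a (by simp), hc.1]
    · simp only [List.cons_append, List.isChain_cons_cons] at hc
      simp only [List.cons_append, List.map_cons, List.isChain_cons_cons]
      refine ⟨?_, h1 hc.2⟩
      rw [h a (by simp), hc.1]

theorem Cy.closed {O : List A} (h : Cy φ O) {x : A} (hx : x ∈ O) : φ x ∈ O := by
  obtain ⟨P, Q, rfl⟩ := List.append_of_mem hx
  have h1 := h.rot
  rcases Q with _ | ⟨y, Q⟩
  · rcases P with _ | ⟨y, P⟩
    · have := h1.2 x (by simp)
      simp only [List.append_nil, List.cons_append, List.nil_append,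
        List.isChain_cons_cons] at this
      rw [this.1]
      simp
    · have := h1.2 x (by simp)
      simp only [List.cons_append, List.nil_append, List.isChain_cons_cons] at this
      rw [this.1]
      simp
  · have := h1.2 x (by simp)
    simp only [List.cons_append, List.isChain_cons_cons] at this
    rw [this.1]
    simp

theorem Cy.same (σ : Equiv.Perm A) {O : List A} (h : Cy σ O) {x y : A} (hx : x ∈ O)
    (hy : y ∈ O) : σ.SameCycle x y := by
  have key : ∀ (l : List A) (a : A), (a :: l).IsChain (fun a c => σ a = c) →
      ∀ y ∈ a :: l, σ.SameCycle a y := by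
    intro l
    induction l with
    | nil =>
      intro a _ y hy
      have : y = a := by simpa using hy
      rw [this]
    | cons b l ih =>
      intro a hc y hy
      rw [List.isChain_cons_cons] at hc
      rcases List.mem_cons.1 hy with rfl | hy
      · exact Equiv.Perm.SameCycle.refl _ _
      · have := ih b hc.2 y hy
        rw [← hc.1] at this
        exact (same_step σ a).trans this
  rcases O with _ | ⟨c, O⟩
  · simp at hx
  · have h1 := h.2 c (by simp)
    have h2 := (List.isChain_append.1 h1).1
    exact (key O c h2 x hx).symm.trans (key O c h2 y hy)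

end

/-- insertion into the list of a cycle -/
theorem ins_cy {A : Type} [DecidableEq A] (σ : Equiv.Perm A) (l : List A) (e : A)
    (h : Cy σ (l ++ [e])) : Cy (ins σ e) (l.map some ++ [some e, none]) := by
  obtain ⟨h1, h2⟩ := h
  have hel : ∀ a ∈ l, a ≠ e := by
    rintro a ha rfl
    rw [List.nodup_append] at h1
    exact h1.2.2 a ha a (by simp) rfl
  refine ⟨?_, ?_⟩
  · have e1 : l.map some ++ [some e, none] = (l ++ [e]).map some ++ [none] := by simp
    rw [e1, List.nodup_append]
    refine ⟨(List.nodup_map_iff (Option.some_injective A)).2 h1, by simp, ?_⟩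
    intro a ha b hb
    rw [List.mem_map] at ha
    obtain ⟨a', -, rfl⟩ := ha
    have : b = none := by simpa using hb
    rw [this]
    simp
  · intro c hc
    have hne : l ++ [e] ≠ [] := by simp
    obtain ⟨c', hc'⟩ : ∃ c', (l ++ [e]).head? = some c' := by
      rcases l with _ | ⟨b, l⟩
      · exact ⟨e, rfl⟩
      · exact ⟨b, rfl⟩
    have hcc : c = some c' := by
      have e1 : l.map some ++ [some e, none] = (l ++ [e]).map some ++ [none] := by simp
      have e2 : (l.map some ++ [some e, none]).head? = some (some c') := by
        rw [e1, List.head?_append, List.head?_map, hc']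
        rfl
      rw [hc] at e2
      exact Option.some.inj e2
    have h3 := h2 c' hc'
    rw [List.append_assoc] at h3
    have h4 : (l ++ e :: [c']).IsChain (fun a b => σ a = b) := h3
    rw [List.isChain_split] at h4
    obtain ⟨h5, h6⟩ := h4
    have h7 : σ e = c' := by
      simpa using h6
    have h8 := chain_lift (φ := σ) (ins σ e) some l e (fun a ha => ins_ne σ e (hel a ha)) h5
    have e3 : l.map some ++ [some e, none] ++ [c] = l.map some ++ some e :: [none, c] := by
      simp
    rw [e3, List.isChain_split]
    refine ⟨by simpa using h8, ?_⟩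
    simp only [List.isChain_cons_cons, List.isChain_singleton, and_true]
    rw [ins_self, ins_none, hcc, h7]
    exact ⟨rfl, rfl⟩

end ModBC

end Pool.Agent.T6.H90.SL
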