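import Mathlib
import Pool.Agent.T6.H90.Upward.Defs

set_option autoImplicit false

/-!
# Straight-line upward drawings of bipartite DAGs in quadratic area: definitions and modules

The project proves that every upward planar bipartite DAG with `n` vertices has a straight-line
upward planar grid drawing of area `O(n²)`.
-/

namespace Pool.Agent.T6.H90.SL

open Pool.Agent.T6.H90.Upward

/-! ## Part A: drawings and sweeps -/

/-- An upward drawing by `y`-monotone curves: the edge `(u, v)` is the graph `x = X u v t` of a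
continuous function of the height `t ∈ [py u, py v]`. -/
structure Mono {V : Type} (E : V → V → Prop) where
  px : V → ℝ
  py : V → ℝ
  X : V → V → ℝ → ℝ
  inj : ∀ u v, px u = px v → py u = py v → u = v
  up : ∀ u v, E u v → py u < py v
  cont : ∀ u v, E u v → ContinuousOn (X u v) (Set.Icc (py u) (py v))
  X_src : ∀ u v, E u v → X u v (py u) = px u
  X_tgt : ∀ u v, E u v → X u v (py v) = px v
  vert : ∀ u v w, E u v → py w ∈ Set.Icc (py u) (py v) → X u v (py w) = px w → w = u ∨ w = v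
  cross : ∀ u v x y t, E u v → E x y → (u, v) ≠ (x, y) → t ∈ Set.Icc (py u) (py v) →
    t ∈ Set.Icc (py x) (py y) → X u v t = X x y t →
    ∃ w, (w = u ∨ w = v) ∧ (w = x ∨ w = y) ∧ t = py w

/-- Module A1: a poly-line drawing is a drawing by monotone curves. -/
def StmtA1 : Prop := ∀ (V : Type) (E : V → V → Prop), Nonempty (Drawing E) → Nonempty (Mono E)

/-- The sweep from bottom to top. `Sweep E vs act`: the vertices of the list `vs` have been processed
(last processed vertex first) and `act` is the list, from left to right, of the edges that start in a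
processed vertex and end in a vertex that has not been processed. -/
inductive Sweep {V : Type} (E : V → V → Prop) : List V → List (V × V) → Prop
  | nil : Sweep E [] []
  | src (v : V) (vs : List V) (A B new : List (V × V)) : Sweep E vs (A ++ B) → v ∉ vs →
      new.Nodup → (∀ e, e ∈ new ↔ e.1 = v ∧ E e.1 e.2) → (∀ u, ¬ E u v) →
      Sweep E (v :: vs) (A ++ new ++ B)
  | snk (v : V) (vs : List V) (A B blk : List (V × V)) : Sweep E vs (A ++ blk ++ B) → v ∉ vs →
      blk.Nodup → blk ≠ [] → (∀ e, e ∈ blk ↔ e.2 = v ∧ E e.1 e.2) → (∀ u, ¬ E v u) →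
      Sweep E (v :: vs) (A ++ B)

/-- Module A2: a drawing by monotone curves gives a sweep. -/
def StmtA2 : Prop := ∀ (V : Type) [Fintype V] (E : V → V → Prop), IsBipartiteDAG E →
  Nonempty (Mono E) → ∃ vs : List V, vs.Nodup ∧ (∀ v, v ∈ vs) ∧ Sweep E vs []

/-! ## Part B: plane hypermaps -/

/-- A connected plane bipartite map, as a hypermap: `D` is the set of edges (darts), `β` and `ω` are
the clockwise rotations at the black and at the white vertices, `b d` and `w d` are the black and the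
white end of `d`, and `f d` is the face at the corner between `d` and `β d` of the black vertex
`b d`. -/
structure PH (B W F D : Type) [Fintype B] [Fintype W] [Fintype F] [Fintype D] where
  β : Equiv.Perm D
  ω : Equiv.Perm D
  b : D → B
  w : D → W
  f : D → F
  b_surj : Function.Surjective b
  w_surj : Function.Surjective w
  f_surj : Function.Surjective f
  b_iff : ∀ d e, b d = b e ↔ β.SameCycle d e
  w_iff : ∀ d e, w d = w e ↔ ω.SameCycle d e
  f_iff : ∀ d e, f d = f e ↔ (ω * β).SameCycle d e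
  conn : ∀ P : D → Prop, (∀ d, P d → P (β d)) → (∀ d, P d → P (ω d)) → ∀ d e, P d → P e
  euler : Fintype.card B + Fintype.card W + Fintype.card F = Fintype.card D + 2
  simple : ∀ d e, b d = b e → w d = w e → d = e

section

variable {B W F D : Type} [Fintype B] [Fintype W] [Fintype F] [Fintype D]

/-- The list `O` is a cycle of the face permutation `ω * β`, in cyclic order. -/
def Cyc (H : PH B W F D) (O : List D) : Prop :=
  O.Nodup ∧ (∀ O₀ a c O₁, O = O₀ ++ a :: c :: O₁ → H.ω (H.β a) = c) ∧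
  ∀ a c, O.head? = some c → O.getLast? = some a → H.ω (H.β a) = c

end

/-- Module B1 (grow): a new edge at the black vertex of `e`, with a new white end of degree one. -/
def StmtB1 : Prop := ∀ (B W F D : Type) [Fintype B] [Fintype W] [Fintype F] [Fintype D]
  (H : PH B W F D) (O₀ O₁ : List D) (e : D), Cyc H (O₀ ++ e :: O₁) →
  ∃ H' : PH B (Option W) F (Option D),
    (∀ d, H'.b (some d) = H.b d) ∧ (∀ d, H'.w (some d) = some (H.w d)) ∧ H'.b none = H.b e ∧
    H'.w none = none ∧ H'.ω none = none ∧ (∀ d, H.ω d = d → H'.ω (some d) = some d) ∧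
    Cyc H' (O₀.map some ++ some e :: none :: O₁.map some)

/-- Module B2 (sprout): a new edge at the white vertex of degree one of `c`, with a new black end. -/
def StmtB2 : Prop := ∀ (B W F D : Type) [Fintype B] [Fintype W] [Fintype F] [Fintype D]
  (H : PH B W F D) (O₀ O₁ : List D) (c : D), H.ω c = c → Cyc H (O₀ ++ c :: O₁) →
  ∃ H' : PH (Option B) W F (Option D),
    (∀ d, H'.b (some d) = some (H.b d)) ∧ (∀ d, H'.w (some d) = H.w d) ∧ H'.b none = none ∧
    H'.w none = H.w c ∧ (∀ d, d ≠ c → H.ω d = d → H'.ω (some d) = some d) ∧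
    Cyc H' (O₀.map some ++ none :: some c :: O₁.map some)

/-- Module B3 (merge): the white vertex of degree one of `c` is merged into the white vertex of `a`
across the face with boundary `O₀ ++ a :: (A₁ ++ c :: A₂)`. -/
def StmtB3 : Prop := ∀ (B W F D : Type) [Fintype B] [Fintype W] [Fintype F] [Fintype D]
  (H : PH B W F D) (O₀ A₁ A₂ : List D) (a c r : D), O₀ ≠ [] → H.ω r = a → H.ω c = c →
  (∀ d, H.w d = H.w a → H.b d ≠ H.b c) → Cyc H (O₀ ++ a :: (A₁ ++ c :: A₂)) →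
  ∃ (W' : Type) (_ : Fintype W') (k : W' → W) (H' : PH B W' (Option F) D), Function.Injective k ∧
    (∀ d, H'.b d = H.b d) ∧ (∀ d, d ≠ c → k (H'.w d) = H.w d) ∧ k (H'.w c) = H.w a ∧
    H'.ω r = c ∧ H'.ω c = a ∧ (∀ d, d ≠ c → d ≠ r → H'.ω d = H.ω d) ∧
    Cyc H' (O₀ ++ c :: A₂)

/-- Module B: a sweep gives a plane hypermap that contains the graph. -/
def StmtB : Prop := ∀ (V : Type) [Fintype V] [Nonempty V] (E : V → V → Prop) (vs : List V),
  vs.Nodup → (∀ v, v ∈ vs) → Sweep E vs [] →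
  ∃ (B W F D : Type) (_ : Fintype B) (_ : Fintype W) (_ : Fintype F) (_ : Fintype D)
    (H : PH B W F D) (g : V → B ⊕ W), Function.Injective g ∧
    (∀ u v, E u v → ∃ d, g u = Sum.inl (H.b d) ∧ g v = Sum.inr (H.w d)) ∧
    2 ≤ Fintype.card D ∧ Fintype.card B + Fintype.card W ≤ 2 * Fintype.card V + 2

section PH

variable {B W F D : Type} [Fintype B] [Fintype W] [Fintype F] [Fintype D]

/-- No face occurs twice around a white vertex. -/
def Star (H : PH B W F D) : Prop :=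
  ∀ d e, H.w d = H.w e → H.f (H.β⁻¹ d) = H.f (H.β⁻¹ e) → d = e

/-- `h` is an `st`-numbering of the bipartite graph with the vertices `B ⊕ F` and the edges `b d – f d`
(`d ∈ D`), with `s = b d0` and `t = f d0`. -/
structure STN (H : PH B W F D) (h : B ⊕ F → ℕ) (d0 : D) : Prop where
  inj : Function.Injective h
  hs : ∀ v, v ≠ Sum.inl (H.b d0) → h (Sum.inl (H.b d0)) < h v
  ht : ∀ v, v ≠ Sum.inr (H.f d0) → h v < h (Sum.inr (H.f d0))
  hb : ∀ x : B, x ≠ H.b d0 → (∃ d, H.b d = x ∧ h (Sum.inr (H.f d)) < h (Sum.inl x)) ∧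
    ∃ d, H.b d = x ∧ h (Sum.inl x) < h (Sum.inr (H.f d))
  hf : ∀ y : F, y ≠ H.f d0 → (∃ d, H.f d = y ∧ h (Sum.inl (H.b d)) < h (Sum.inr y)) ∧
    ∃ d, H.f d = y ∧ h (Sum.inr y) < h (Sum.inl (H.b d))

/-- The edge `b d – f d` is directed from `b d` to `f d`. -/
def sg (H : PH B W F D) (h : B ⊕ F → ℕ) (d : D) : Prop :=
  h (Sum.inl (H.b d)) < h (Sum.inr (H.f d))

end PH

/-- Module C: augmentation. -/
def StmtC : Prop := ∀ (B W F D : Type) [Fintype B] [Fintype W] [Fintype F] [Fintype D]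
  (H : PH B W F D), 2 ≤ Fintype.card D →
  ∃ (B' W' F' D' : Type) (_ : Fintype B') (_ : Fintype W') (_ : Fintype F') (_ : Fintype D')
    (H' : PH B' W' F' D') (jb : B → B') (jw : W → W'), Function.Injective jb ∧
    Function.Injective jw ∧ (∀ d, ∃ d', H'.b d' = jb (H.b d) ∧ H'.w d' = jw (H.w d)) ∧ Star H' ∧
    Fintype.card B' + Fintype.card W' + Fintype.card F' ≤
      10 * (Fintype.card B + Fintype.card W)

/-- Module D: the graph on `B ⊕ F` with the edges `b d – f d` is 2-connected. -/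
def StmtD : Prop := ∀ (B W F D : Type) [Fintype B] [Fintype W] [Fintype F] [Fintype D]
  (H : PH B W F D), Star H → ∀ (u : B ⊕ F) (P : B ⊕ F → Prop),
  (∀ d, Sum.inl (H.b d) ≠ u → Sum.inr (H.f d) ≠ u →
    (P (Sum.inl (H.b d)) ↔ P (Sum.inr (H.f d)))) →
  ∀ x y, x ≠ u → y ≠ u → (P x ↔ P y)

/-- Module E: `st`-numberings of 2-connected graphs. -/
def StmtE : Prop := ∀ (V : Type) [Fintype V] (G : SimpleGraph V) (s t : V), G.Adj s t →
  (∀ (u : V) (P : V → Prop), (∀ x y, G.Adj x y → x ≠ u → y ≠ u → (P x ↔ P y)) →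
    ∀ x y, x ≠ u → y ≠ u → (P x ↔ P y)) →
  ∃ h : V → ℕ, Function.Injective h ∧ (∀ v, v ≠ s → h s < h v) ∧ (∀ v, v ≠ t → h v < h t) ∧
    ∀ v, v ≠ s → v ≠ t → (∃ x, G.Adj v x ∧ h x < h v) ∧ ∃ x, G.Adj v x ∧ h v < h x

/-- Module F: in a plane map an `st`-numbering gives a bipolar orientation. -/
def StmtF : Prop := ∀ (B W F D : Type) [Fintype B] [Fintype W] [Fintype F] [Fintype D]
  (H : PH B W F D) (h : B ⊕ F → ℕ) (d0 : D), STN H h d0 →
  (∀ x, x ≠ H.b d0 → Nat.card {d // H.b d = x ∧ ¬ (sg H h (H.β⁻¹ d) ↔ sg H h d)} = 2) ∧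
  (∀ y, y ≠ H.f d0 → Nat.card {d // H.f d = y ∧ ¬ (sg H h ((H.ω * H.β)⁻¹ d) ↔ sg H h d)} = 2) ∧
  ∀ z, Nat.card {d // H.w d = z ∧ (sg H h (H.β⁻¹ d) ↔ sg H h d)} +
    Nat.card {d // H.w d = z ∧ (sg H h (H.β⁻¹ d) ↔ sg H h (H.ω d))} = 2

/-! ## Part G: bipolar plane maps -/

/-- A bipolar plane map: vertices `V`, faces `F`, arcs `A`. Every face `x` is bounded by a lower path
`low x` and an upper path `up x` with the same first and the same last vertex; the face `ft` has the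
upper path `[e0]`, where `e0` is an arc from the source to the sink. -/
structure BM (V F A : Type) where
  src : A → V
  tgt : A → V
  low : F → List A
  up : F → List A
  h : V → ℕ
  h_lt : ∀ a, h (src a) < h (tgt a)
  low_ne : ∀ x, low x ≠ []
  up_ne : ∀ x, up x ≠ []
  low_chain : ∀ x, (low x).IsChain (fun a a' => tgt a = src a')
  up_chain : ∀ x, (up x).IsChain (fun a a' => tgt a = src a')
  first : ∀ x a a', (low x).head? = some a → (up x).head? = some a' → src a = src a'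
  last : ∀ x a a', (low x).getLast? = some a → (up x).getLast? = some a' → tgt a = tgt a'
  low_cov : ∀ a, ∃ x, a ∈ low x
  low_uniq : ∀ a x y, a ∈ low x → a ∈ low y → x = y
  up_cov : ∀ a, ∃ x, a ∈ up x
  up_uniq : ∀ a x y, a ∈ up x → a ∈ up y → x = y
  low_turn : ∀ x y L L' M M' a a' c c', low x = L ++ a :: a' :: L' → low y = M ++ c :: c' :: M' →
    tgt a = tgt c → a = c
  up_turn : ∀ x y L L' M M' a a' c c', up x = L ++ a :: a' :: L' → up y = M ++ c :: c' :: M' →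
    tgt a = tgt c → a = c
  e0 : A
  ft : F
  up_ft : up ft = [e0]
  no_in : ∀ a, tgt a ≠ src e0
  no_out : ∀ a, src a ≠ tgt e0
  conn : ∀ P : F → Prop, (∀ a x y, a ∈ low x → a ∈ up y → (P x ↔ P y)) → ∀ x y, P x → P y
  cover : ∀ v, ∃ a, src a = v ∨ tgt a = v

/-- The vertex `v` lies on the boundary of the face `x`. -/
def BM.Inc {V F A : Type} (M : BM V F A) (v : V) (x : F) : Prop :=
  ∃ a, (a ∈ M.low x ∨ a ∈ M.up x) ∧ (M.src a = v ∨ M.tgt a = v)

/-- Module G1: a cycle of a permutation with exactly two changes of a predicate. -/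
def StmtG1 : Prop := ∀ (S : Type) [Fintype S] (τ : Equiv.Perm S) (dir : S → Prop) (x : S),
  Nat.card {y // τ.SameCycle x y ∧ ¬ (dir y ↔ dir (τ y))} = 2 →
  ∃ L U : List S, L ≠ [] ∧ U ≠ [] ∧ (L ++ U).Nodup ∧ (∀ y, y ∈ L ++ U ↔ τ.SameCycle x y) ∧
    (L ++ U).IsChain (fun a c => τ a = c) ∧
    (∀ a c, U.getLast? = some a → L.head? = some c → τ a = c) ∧
    (∀ y ∈ L, dir y) ∧ ∀ y ∈ U, ¬ dir y

/-- Module G: a plane hypermap with an `st`-numbering is a bipolar plane map. -/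
def StmtG : Prop := ∀ (B W F D : Type) [Fintype B] [Fintype W] [Fintype F] [Fintype D]
  (H : PH B W F D) (h : B ⊕ F → ℕ) (d0 : D), STN H h d0 →
  ∃ M : BM (B ⊕ F) W D, ∀ d, M.Inc (Sum.inl (H.b d)) (H.w d)

/-! ## Part H: contour sequences -/

/-- The black vertex of the contour `s, L` before the part after `A`. -/
def lastB {B W : Type} (s : B) (A : List (W × B)) : B := (A.getLast?.map Prod.snd).getD s

/-- The plane quadrangulations built on a contour. The contour is `s, w₁, b₁, w₂, b₂, …` for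
`L = [(w₁, b₁), (w₂, b₂), …]`; `PB` and `PW` are the black and the white vertices, `Q` is the set of
edges, `OB` and `OW` record the edges of colour two, directed from black to white and from white to
black. -/
inductive EE {B W : Type} [DecidableEq B] [DecidableEq W] (s : B) :
    List (W × B) → Finset B → Finset W → Finset (B × W) → Finset (B × W) → Finset (W × B) → Prop
  | start (w : W) (t : B) : s ≠ t → EE s [(w, t)] {s, t} {w} {(s, w), (t, w)} ∅ {(w, t)}
  | ins (A C : List (W × B)) (w : W) (b' : B) (l : B) (o : W) (PB : Finset B) (PW : Finset W)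
      (Q OB : Finset (B × W)) (OW : Finset (W × B)) :
      EE s (A ++ (w, b') :: C) PB PW Q OB OW → l ∉ PB → o ∉ PW →
      EE s (A ++ (o, l) :: (w, b') :: C) (insert l PB) (insert o PW)
        (insert (lastB s A, o) (insert (l, o) (insert (l, w) Q))) (insert (l, w) OB)
        (insert (o, l) OW)
  | cov (A M C : List (W × B)) (w₁ : W) (b₁ : B) (w : W) (PB : Finset B) (PW : Finset W)
      (Q OB : Finset (B × W)) (OW : Finset (W × B)) :
      EE s (A ++ M ++ (w₁, b₁) :: C) PB PW Q OB OW → w ∉ PW →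
      EE s (A ++ (w, b₁) :: C) PB (insert w PW)
        (Q ∪ ((lastB s A :: (M ++ [(w₁, b₁)]).map Prod.snd).toFinset.image fun x => (x, w))) OB
        (insert (w, b₁) OW)

/-- Module H1: every directed path from the source to the sink contains the whole lower path of some
face. -/
def StmtH1 : Prop := ∀ (V F A : Type) (M : BM V F A) (p : List A), p ≠ [] →
  p.IsChain (fun a a' => M.tgt a = M.src a') →
  (∀ a, p.head? = some a → M.src a = M.src M.e0) →
  (∀ a, p.getLast? = some a → M.tgt a = M.tgt M.e0) →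
  ∃ x P₁ P₂, p = P₁ ++ M.low x ++ P₂

/-- Module H: a bipolar plane map gives a contour sequence. -/
def StmtH : Prop := ∀ (V F A : Type) [Fintype V] [Fintype F] [DecidableEq V] [DecidableEq F]
  (M : BM V F A), ∃ (L : List ((F ⊕ Option V) × V)) (PB : Finset V) (PW : Finset (F ⊕ Option V))
    (Q OB : Finset (V × (F ⊕ Option V))) (OW : Finset ((F ⊕ Option V) × V)),
    EE (M.src M.e0) L PB PW Q OB OW ∧ (∀ v, v ∈ PB) ∧
    (∀ x, x ≠ M.ft → ∀ v, M.Inc v x → (v, Sum.inl x) ∈ Q) ∧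
    ∀ v, M.Inc v M.ft → v = M.src M.e0 ∨ v ∈ L.map Prod.snd

/-! ## Part I: coordinates -/

/-- The elements of the contour. -/
def con {B W : Type} (s : B) (L : List (W × B)) : List (B ⊕ W) :=
  Sum.inl s :: L.flatMap fun p => [Sum.inr p.1, Sum.inl p.2]

/-- The vertices built so far. -/
def Pl {B W : Type} (PB : Finset B) (PW : Finset W) : B ⊕ W → Prop
  | Sum.inl x => x ∈ PB
  | Sum.inr x => x ∈ PW

/-- Domination in the first coordinate. -/
def D1 {α : Type} (x : α → ℤ) (pos : α → ℚ) (z u : α) : Prop :=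
  (x u < x z ∧ pos z ≤ pos u) ∨ (x u ≤ x z ∧ pos z < pos u)

/-- Domination in the second coordinate. -/
def D2 {α : Type} (x : α → ℤ) (pos : α → ℚ) (z u : α) : Prop :=
  (x u < x z ∧ pos u ≤ pos z) ∨ (x u ≤ x z ∧ pos u < pos z)

/-- The number of black vertices inserted at the white vertex `w`. -/
def cw {B W : Type} [DecidableEq W] (OB : Finset (B × W)) (w : W) : ℤ :=
  ((OB.filter fun p => p.2 = w).card : ℤ)

/-- The number of white vertices with right end `b`. -/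
def cb {B W : Type} [DecidableEq B] (OW : Finset (W × B)) (b : B) : ℤ :=
  ((OW.filter fun p => p.2 = b).card : ℤ)

/-- The invariants of the coordinates. -/
structure Inv {B W : Type} [DecidableEq B] [DecidableEq W] (s : B) (lb : B → ℤ) (lw : W → ℤ)
    (L : List (W × B)) (PB : Finset B) (PW : Finset W) (Q OB : Finset (B × W))
    (OW : Finset (W × B)) (x₁ x₂ x₃ : B ⊕ W → ℤ) (pos : B ⊕ W → ℚ) (N : ℤ) : Prop where
  con_pl : ∀ z ∈ con s L, Pl PB PW z
  sorted : (con s L).Pairwise (fun z z' => pos z < pos z')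
  Q_pl : ∀ x y, (x, y) ∈ Q → x ∈ PB ∧ y ∈ PW
  OB_Q : ∀ x y, (x, y) ∈ OB → (x, y) ∈ Q
  OW_Q : ∀ x y, (y, x) ∈ OW → (x, y) ∈ Q
  deg : ∀ z, Pl PB PW z → ∃ p ∈ Q, z = Sum.inl p.1 ∨ z = Sum.inr p.2
  sum : ∀ z, Pl PB PW z → x₁ z + x₂ z + x₃ z = N
  nonneg : ∀ z, Pl PB PW z → 0 ≤ x₁ z ∧ 0 ≤ x₂ z ∧ 0 ≤ x₃ z
  ends : x₁ (Sum.inl s) = N ∧ ∀ A w t, L = A ++ [(w, t)] → x₂ (Sum.inl t) = N
  exit : ∀ u, Pl PB PW u → ∃ z ∈ con s L, pos z = pos u ∧
    (u = z ∨ (x₁ z < x₁ u ∧ x₂ z < x₂ u ∧ x₃ u < x₃ z))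
  black : ∀ x, Sum.inl x ∈ con s L → ∀ u, Pl PB PW u → pos u = pos (Sum.inl x) → u = Sum.inl x
  cmp₁ : ∀ u, Pl PB PW u → ∀ z ∈ con s L, pos u < pos z → x₁ z ≤ x₁ u
  cmp₂ : ∀ u, Pl PB PW u → ∀ z ∈ con s L, pos z < pos u → x₂ z ≤ x₂ u
  left : ∀ A w b' C, L = A ++ (w, b') :: C →
    x₂ (Sum.inr w) = x₂ (Sum.inl (lastB s A)) + cw OB w
  right : ∀ A w b' C, L = A ++ (w, b') :: C → x₁ (Sum.inr w) = x₁ (Sum.inl b') ∧
    lb b' ≤ x₃ (Sum.inr w) - x₃ (Sum.inl b')
  bary : ∀ x y, (x, y) ∈ Q → ∀ z, Pl PB PW z → z ≠ Sum.inl x → z ≠ Sum.inr y →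
    (D1 x₁ pos z (Sum.inl x) ∧ D1 x₁ pos z (Sum.inr y)) ∨
    (D2 x₂ pos z (Sum.inl x) ∧ D2 x₂ pos z (Sum.inr y)) ∨
    (x₃ (Sum.inl x) < x₃ z ∧ x₃ (Sum.inr y) < x₃ z)
  low₃ : ∀ x y, (x, y) ∈ Q → Sum.inr y ∈ con s L → x₃ (Sum.inl x) ≤ x₃ (Sum.inr y) + cw OB y
  lft : ∀ x y, (x, y) ∈ Q → Sum.inl x ∈ con s L → pos (Sum.inr y) < pos (Sum.inl x) →
    x₂ (Sum.inr y) < x₂ (Sum.inl x)
  rgt : ∀ x y, (x, y) ∈ Q → Sum.inl x ∈ con s L → pos (Sum.inl x) < pos (Sum.inr y) →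
    x₁ (Sum.inr y) ≤ x₁ (Sum.inl x) ∨ x₃ (Sum.inr y) ≤ x₃ (Sum.inl x)
  upw : ∀ x y, (x, y) ∈ Q →
    -- an edge of colour one or three
    (x₃ (Sum.inl x) < x₃ (Sum.inr y) ∧ x₁ (Sum.inr y) ≤ x₁ (Sum.inl x) ∧
      pos (Sum.inl x) ≤ pos (Sum.inr y)) ∨
    -- an edge of colour two from black to white
    ((x, y) ∈ OB ∧
      (Sum.inr y ∈ con s L → pos (Sum.inl x) < pos (Sum.inr y) ∧
        (x₃ (Sum.inl x) - x₃ (Sum.inr y)) - (x₁ (Sum.inl x) - x₁ (Sum.inr y)) ≤ cw OB y) ∧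
      (Sum.inr y ∉ con s L → pos (Sum.inl x) ≤ pos (Sum.inr y) ∧ (cw OB y + 1 ≤ lw y →
        x₃ (Sum.inl x) - x₁ (Sum.inl x) < x₃ (Sum.inr y) - x₁ (Sum.inr y)))) ∨
    -- an edge of colour two from white to black
    ((y, x) ∈ OW ∧
      (Sum.inl x ∈ con s L → pos (Sum.inr y) < pos (Sum.inl x) ∧
        (∀ z ∈ con s L, pos z < pos (Sum.inl x) → pos z ≤ pos (Sum.inr y)) ∧
        lb x ≤ x₃ (Sum.inr y) - x₃ (Sum.inl x) ∧
        x₁ (Sum.inr y) - x₁ (Sum.inl x) ≤ cb OW x - 1) ∧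
      (Sum.inl x ∉ con s L → pos (Sum.inr y) = pos (Sum.inl x) ∧ (cb OW x + 1 ≤ lb x →
        x₃ (Sum.inl x) - x₁ (Sum.inl x) < x₃ (Sum.inr y) - x₁ (Sum.inr y))))
  bound : N ≤ ∑ x ∈ PB, (lb x + 1) + ∑ y ∈ PW.filter (fun y => y ∉ L.map Prod.fst), (lw y + 1)

section

variable {B W : Type} [DecidableEq B] [DecidableEq W] (s : B) (lb : B → ℤ) (lw : W → ℤ)

/-- There are coordinates with the invariants. -/
def HasInv (L : List (W × B)) (PB : Finset B) (PW : Finset W) (Q OB : Finset (B × W))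
    (OW : Finset (W × B)) : Prop :=
  ∃ (x₁ x₂ x₃ : B ⊕ W → ℤ) (pos : B ⊕ W → ℚ) (N : ℤ), Inv s lb lw L PB PW Q OB OW x₁ x₂ x₃ pos N

end

/-- Module I1: an insertion preserves the invariants. -/
def StmtI1 : Prop := ∀ (B W : Type) [DecidableEq B] [DecidableEq W] (s : B) (lb : B → ℤ)
  (lw : W → ℤ), (∀ x, 1 ≤ lb x) → (∀ y, 1 ≤ lw y) →
  ∀ (A C : List (W × B)) (w : W) (b' : B) (l : B) (o : W) (PB : Finset B) (PW : Finset W)
    (Q OB : Finset (B × W)) (OW : Finset (W × B)),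
  HasInv s lb lw (A ++ (w, b') :: C) PB PW Q OB OW → l ∉ PB → o ∉ PW →
  HasInv s lb lw (A ++ (o, l) :: (w, b') :: C) (insert l PB) (insert o PW)
    (insert (lastB s A, o) (insert (l, o) (insert (l, w) Q))) (insert (l, w) OB)
    (insert (o, l) OW)

/-- Module I2: a covering preserves the invariants. -/
def StmtI2 : Prop := ∀ (B W : Type) [DecidableEq B] [DecidableEq W] (s : B) (lb : B → ℤ)
  (lw : W → ℤ), (∀ x, 1 ≤ lb x) → (∀ y, 1 ≤ lw y) →
  ∀ (A M C : List (W × B)) (w₁ : W) (b₁ : B) (w : W) (PB : Finset B) (PW : Finset W)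
    (Q OB : Finset (B × W)) (OW : Finset (W × B)),
  HasInv s lb lw (A ++ M ++ (w₁, b₁) :: C) PB PW Q OB OW → w ∉ PW →
  HasInv s lb lw (A ++ (w, b₁) :: C) PB (insert w PW)
    (Q ∪ ((lastB s A :: (M ++ [(w₁, b₁)]).map Prod.snd).toFinset.image fun x => (x, w))) OB
    (insert (w, b₁) OW)

/-- The edges of the closed structure: a last white vertex `none` is joined to all black vertices of
the contour. -/
def clQ {B W : Type} (s : B) (L : List (W × B)) (Q : Finset (B × W)) :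
    B ⊕ Option W → B ⊕ Option W → Prop
  | Sum.inl x, Sum.inr (some y) => (x, y) ∈ Q
  | Sum.inl x, Sum.inr none => x = s ∨ x ∈ L.map Prod.snd
  | _, _ => False

/-- The vertices of the closed structure. -/
def clP {B W : Type} (PB : Finset B) (PW : Finset W) : B ⊕ Option W → Prop
  | Sum.inl x => x ∈ PB
  | Sum.inr (some y) => y ∈ PW
  | Sum.inr none => True

/-- Module I3: final coordinates. -/
def StmtI3 : Prop := ∀ (B W : Type) [DecidableEq B] [DecidableEq W] (s : B) (L : List (W × B))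
  (PB : Finset B) (PW : Finset W) (Q OB : Finset (B × W)) (OW : Finset (W × B)),
  EE s L PB PW Q OB OW →
  (∀ (lb : B → ℤ) (lw : W → ℤ), (∀ x, 1 ≤ lb x) → (∀ y, 1 ≤ lw y) →
    HasInv s lb lw L PB PW Q OB OW) →
  ∃ (x₁ x₂ x₃ : B ⊕ Option W → ℤ) (N : ℤ), N ≤ 3 * (PB.card + PW.card : ℤ) + 3 ∧
    (∀ z, clP PB PW z → x₁ z + x₂ z + x₃ z = N ∧ 0 ≤ x₁ z ∧ 0 ≤ x₂ z ∧ 0 ≤ x₃ z) ∧
    (∀ u v, clQ s L Q u v → clP PB PW u ∧ clP PB PW v ∧ x₃ u - x₁ u < x₃ v - x₁ v) ∧
    (∀ u v, clQ s L Q u v → ∀ z, clP PB PW z → z ≠ u → z ≠ v →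
      (x₁ u < x₁ z ∧ x₁ v < x₁ z) ∨ (x₂ u < x₂ z ∧ x₂ v < x₂ z) ∨ (x₃ u < x₃ z ∧ x₃ v < x₃ z)) ∧
    ∀ z, clP PB PW z → ∃ u v, clQ s L Q u v ∧ (z = u ∨ z = v)

/-! ## Part J: barycentric representations are planar -/

/-- Module J: the straight-line drawing of a barycentric representation is planar. -/
def StmtJ : Prop := ∀ (α : Type) (P : α → Prop) (R : α → α → Prop) (x₁ x₂ x₃ : α → ℤ) (N : ℤ),
  (∀ z, P z → x₁ z + x₂ z + x₃ z = N) →
  (∀ u v, R u v → P u ∧ P v ∧ x₃ u - x₁ u < x₃ v - x₁ v) →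
  (∀ u v, R u v → ∀ z, P z → z ≠ u → z ≠ v →
    (x₁ u < x₁ z ∧ x₁ v < x₁ z) ∨ (x₂ u < x₂ z ∧ x₂ v < x₂ z) ∨ (x₃ u < x₃ z ∧ x₃ v < x₃ z)) →
  (∀ z, P z → ∃ u v, R u v ∧ (z = u ∨ z = v)) →
  let p : α → ℤ × ℤ := fun z => (x₂ z, x₃ z - x₁ z)
  (∀ u v, P u → P v → p u = p v → u = v) ∧
  (∀ u v z, R u v → P z → toPlane (p z) ∈ segment ℝ (toPlane (p u)) (toPlane (p v)) →
    z = u ∨ z = v) ∧
  ∀ u v x y, R u v → R x y → (u, v) ≠ (x, y) →
    ∀ q ∈ segment ℝ (toPlane (p u)) (toPlane (p v)),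
      q ∈ segment ℝ (toPlane (p x)) (toPlane (p y)) →
      ∃ z, (z = u ∨ z = v) ∧ (z = x ∨ z = y) ∧ q = toPlane (p z)

end Pool.Agent.T6.H90.SL
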