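import Pool.Agent.T6.H90.SL.Defs

/-!
# A cycle of a permutation with exactly two changes of a predicate (module G1)
-/

set_option autoImplicit false

namespace Pool.Agent.T6.H90.SL

namespace ModG1

/-- no three distinct elements in a type with two elements -/
theorem three {S : Type} {Q : S → Prop} (h : Nat.card {y // Q y} = 2) {a b c : S} (ha : Q a)
    (hb : Q b) (hc : Q c) : a = b ∨ a = c ∨ b = c := by
  obtain ⟨x, y, hxy, hu⟩ := Nat.card_eq_two_iff.1 h
  have h1 : ∀ z : {y // Q y}, z = x ∨ z = y := by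
    intro z
    have : z ∈ ({x, y} : Set {y // Q y}) := by rw [hu]; trivial
    simpa using this
  have k1 := h1 ⟨a, ha⟩
  have k2 := h1 ⟨b, hb⟩
  have k3 := h1 ⟨c, hc⟩
  rcases k1 with k1 | k1 <;> rcases k2 with k2 | k2 <;> rcases k3 with k3 | k3
  · exact Or.inl (by have := k1.trans k2.symm; exact congrArg Subtype.val this)
  · exact Or.inl (by have := k1.trans k2.symm; exact congrArg Subtype.val this)
  · exact Or.inr (Or.inl (by have := k1.trans k3.symm; exact congrArg Subtype.val this))
  · exact Or.inr (Or.inr (by have := k2.trans k3.symm; exact congrArg Subtype.val this))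
  · exact Or.inr (Or.inr (by have := k2.trans k3.symm; exact congrArg Subtype.val this))
  · exact Or.inr (Or.inl (by have := k1.trans k3.symm; exact congrArg Subtype.val this))
  · exact Or.inl (by have := k1.trans k2.symm; exact congrArg Subtype.val this)
  · exact Or.inl (by have := k1.trans k2.symm; exact congrArg Subtype.val this)

theorem exists_of_two {S : Type} {Q : S → Prop} (h : Nat.card {y // Q y} = 2) : ∃ y, Q y := by
  obtain ⟨x, y, hxy, hu⟩ := Nat.card_eq_two_iff.1 h
  exact ⟨x.1, x.2⟩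

/-- walking along a cycle -/
theorem walk {S : Type} [Finite S] (τ : Equiv.Perm S) (P : S → Prop) {a b : S}
    (hab : τ.SameCycle a b) (ha : P a) (hb : ¬ P b) : ∃ c, τ.SameCycle a c ∧ P c ∧ ¬ P (τ c) := by
  by_contra hcon
  push Not at hcon
  obtain ⟨n, hn⟩ := hab.exists_nat_pow_eq
  have h1 : ∀ n : ℕ, P ((τ ^ n) a) := by
    intro n
    induction n with
    | zero => simpa using ha
    | succ n ih =>
      rw [pow_succ', Equiv.Perm.mul_apply]
      exact hcon _ ⟨n, by simp⟩ ih
  exact hb (hn ▸ h1 n)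

/-- the two changes are of different kinds -/
theorem kinds {S : Type} [Finite S] (τ : Equiv.Perm S) (dir : S → Prop) (x : S)
    (h : Nat.card {y // τ.SameCycle x y ∧ ¬ (dir y ↔ dir (τ y))} = 2) :
    (∃ a, τ.SameCycle x a ∧ dir a ∧ ¬ dir (τ a)) ∧ ∃ a, τ.SameCycle x a ∧ ¬ dir a ∧ dir (τ a) := by
  obtain ⟨y, hy, hyy⟩ := exists_of_two h
  have hyt : τ.SameCycle y (τ y) := ⟨1, by simp⟩
  have hty : τ.SameCycle (τ y) y := hyt.symm
  by_cases hd : dir y
  · have hd2 : ¬ dir (τ y) := fun h2 => hyy ⟨fun _ => h2, fun _ => hd⟩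
    refine ⟨⟨y, hy, hd, hd2⟩, ?_⟩
    obtain ⟨c, hc1, hc2, hc3⟩ := walk τ (fun z => ¬ dir z) hty hd2 (not_not_intro hd)
    exact ⟨c, (hy.trans hyt).trans hc1, hc2, not_not.1 hc3⟩
  · have hd2 : dir (τ y) := by
      by_contra h2
      exact hyy ⟨fun h3 => absurd h3 hd, fun h3 => absurd h3 h2⟩
    refine ⟨?_, ⟨y, hy, hd, hd2⟩⟩
    obtain ⟨c, hc1, hc2, hc3⟩ := walk τ dir hty hd2 hd
    exact ⟨c, (hy.trans hyt).trans hc1, hc2, hc3⟩

/-- only one change from `true` to `false` -/
theorem uniq_down {S : Type} [Finite S] (τ : Equiv.Perm S) (dir : S → Prop) (x : S)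
    (h : Nat.card {y // τ.SameCycle x y ∧ ¬ (dir y ↔ dir (τ y))} = 2) {a c : S}
    (ha : τ.SameCycle x a) (ha1 : dir a) (ha2 : ¬ dir (τ a))
    (hc : τ.SameCycle x c) (hc1 : dir c) (hc2 : ¬ dir (τ c)) : a = c := by
  obtain ⟨-, e, he, he1, he2⟩ := kinds τ dir x h
  rcases three h (a := a) (b := c) (c := e) ⟨ha, fun h => ha2 (h.1 ha1)⟩
    ⟨hc, fun h => hc2 (h.1 hc1)⟩ ⟨he, fun h => he1 (h.2 he2)⟩ with k | k | k
  · exact k
  · subst k
    exact absurd ha1 he1
  · subst k
    exact absurd hc1 he1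

/-- only one change from `false` to `true` -/
theorem uniq_up {S : Type} [Finite S] (τ : Equiv.Perm S) (dir : S → Prop) (x : S)
    (h : Nat.card {y // τ.SameCycle x y ∧ ¬ (dir y ↔ dir (τ y))} = 2) {a c : S}
    (ha : τ.SameCycle x a) (ha1 : ¬ dir a) (ha2 : dir (τ a))
    (hc : τ.SameCycle x c) (hc1 : ¬ dir c) (hc2 : dir (τ c)) : a = c := by
  obtain ⟨⟨e, he, he1, he2⟩, -⟩ := kinds τ dir x h
  rcases three h (a := a) (b := c) (c := e) ⟨ha, fun h => ha1 (h.2 ha2)⟩
    ⟨hc, fun h => hc1 (h.2 hc2)⟩ ⟨he, fun h => he2 (h.1 he1)⟩ with k | k | k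
  · exact k
  · subst k
    exact absurd he1 ha1
  · subst k
    exact absurd he1 hc1

end ModG1

open ModG1 Function in
theorem g1 : StmtG1 := by
  intro S _ τ dir x h
  obtain ⟨-, a0, hxa, ha1, ha2⟩ := kinds τ dir x h
  have huniq : ∀ c, τ.SameCycle x c → ¬ dir c → dir (τ c) → c = a0 :=
    fun c hc hc1 hc2 => uniq_up τ dir x h hc hc1 hc2 hxa ha1 ha2
  obtain ⟨p, hp⟩ : ∃ p, p = τ a0 := ⟨_, rfl⟩
  obtain ⟨f, hf⟩ : ∃ f : ℕ → S, f = fun i => (τ : S → S)^[i] p := ⟨_, rfl⟩
  have f0 : f 0 = p := by rw [hf]; rfl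
  have fs : ∀ i, τ (f i) = f (i + 1) := by
    intro i
    rw [hf]
    simp only [iterate_succ_apply']
  have hxp : τ.SameCycle x p := by
    rw [hp]
    exact hxa.trans ⟨1, by simp⟩
  have hpf : ∀ i, τ.SameCycle p (f i) := by
    intro i
    induction i with
    | zero => rw [f0]
    | succ i ih =>
      rw [← fs]
      exact ih.trans ⟨1, by simp⟩
  have hper : p ∈ periodicPts (τ : S → S) := by
    rw [mem_periodicPts]
    refine ⟨orderOf τ, orderOf_pos τ, ?_⟩
    have h1 := pow_orderOf_eq_one τ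
    have h2 := congrArg (fun g : Equiv.Perm S => g p) h1
    simp only [Equiv.Perm.coe_one, id] at h2
    rw [IsPeriodicPt, IsFixedPt, ← Equiv.Perm.coe_pow]
    exact h2
  obtain ⟨n, hn⟩ : ∃ n, n = minimalPeriod (τ : S → S) p := ⟨_, rfl⟩
  have hn0 : 0 < n := by
    rw [hn]
    exact minimalPeriod_pos_of_mem_periodicPts hper
  have finj : ∀ i j, i < n → j < n → f i = f j → i = j := by
    intro i j hi hj hij
    rw [hf] at hij
    rw [hn] at hi hj
    exact iterate_injOn_Iio_minimalPeriod (f := (τ : S → S)) (x := p) hi hj hij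
  have fn : f n = p := by
    rw [hf, hn]
    exact iterate_minimalPeriod
  have flast : f (n - 1) = a0 := by
    apply τ.injective
    rw [fs, Nat.sub_add_cancel hn0, fn, hp]
  have fsur : ∀ y, τ.SameCycle p y → ∃ i < n, f i = y := by
    intro y hy
    obtain ⟨m, hm⟩ := hy.exists_nat_pow_eq
    refine ⟨m % n, Nat.mod_lt _ hn0, ?_⟩
    rw [hf, hn]
    simp only [iterate_mod_minimalPeriod_eq]
    rw [← Equiv.Perm.coe_pow]
    exact hm
  have hex : ∃ i, ¬ dir (f i) := ⟨n - 1, by rw [flast]; exact ha1⟩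
  classical
  obtain ⟨m, hm⟩ : ∃ m, m = Nat.find hex := ⟨_, rfl⟩
  have hm1 : ¬ dir (f m) := by rw [hm]; exact Nat.find_spec hex
  have hm2 : ∀ i, i < m → dir (f i) := by
    intro i hi
    rw [hm] at hi
    exact not_not.1 (Nat.find_min hex hi)
  have hm3 : m ≤ n - 1 := by
    rw [hm]
    exact Nat.find_min' hex (by rw [flast]; exact ha1)
  have hm4 : m ≠ 0 := by
    rintro rfl
    rw [f0, hp] at hm1
    exact hm1 ha2
  have hm5 : ∀ i, m ≤ i → i < n → ¬ dir (f i) := by
    intro i hi
    induction i, hi using Nat.le_induction with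
    | base => intro _; exact hm1
    | succ i hi ih =>
      intro hin hd
      have h1 := huniq (f i) (hxp.trans (hpf i)) (ih (by omega)) (by rw [fs]; exact hd)
      rw [← flast] at h1
      have h2 := finj i (n - 1) (by omega) (by omega) h1
      omega
  have hLU : (List.range m).map f ++ (List.range (n - m)).map (fun i => f (m + i)) =
      (List.range n).map f := by
    have e : n = m + (n - m) := by omega
    conv_rhs => rw [e, List.range_add, List.map_append, List.map_map]
    rfl
  refine ⟨(List.range m).map f, (List.range (n - m)).map (fun i => f (m + i)), ?_, ?_, ?_, ?_, ?_,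
    ?_, ?_, ?_⟩
  · simpa using hm4
  · simp
    omega
  · rw [hLU]
    refine List.Nodup.map_on ?_ List.nodup_range
    intro i hi j hj hij
    exact finj i j (List.mem_range.1 hi) (List.mem_range.1 hj) hij
  · intro y
    rw [hLU, List.mem_map]
    constructor
    · rintro ⟨i, -, rfl⟩
      exact hxp.trans (hpf i)
    · intro hy
      obtain ⟨i, hi, hiy⟩ := fsur y (hxp.symm.trans hy)
      exact ⟨i, List.mem_range.2 hi, hiy⟩
  · rw [hLU, List.isChain_map]
    rw [List.isChain_range]
    intro i hi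
    exact fs i
  · intro a c ha hc
    have e1 : c = p := by
      have : (List.map f (List.range m)).head? = some p := by
        obtain ⟨m', rfl⟩ := Nat.exists_eq_succ_of_ne_zero hm4
        rw [List.range_succ_eq_map]
        simp [f0]
      rw [this] at hc
      exact (Option.some.inj hc).symm
    have e2 : a = a0 := by
      have : (List.map (fun i => f (m + i)) (List.range (n - m))).getLast? = some a0 := by
        obtain ⟨k, hk⟩ : ∃ k, n - m = k + 1 := ⟨n - m - 1, by omega⟩
        rw [hk, List.range_succ, List.map_append, List.map_singleton, List.getLast?_concat]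
        rw [← flast]
        congr 2
        omega
      rw [this] at ha
      exact (Option.some.inj ha).symm
    rw [e1, e2, hp]
  · intro y hy
    rw [List.mem_map] at hy
    obtain ⟨i, hi, rfl⟩ := hy
    exact hm2 i (List.mem_range.1 hi)
  · intro y hy
    rw [List.mem_map] at hy
    obtain ⟨i, hi, rfl⟩ := hy
    have := List.mem_range.1 hi
    exact hm5 (m + i) (by omega) (by omega)

end Pool.Agent.T6.H90.SL
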