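import Pool.Agent.T6.H90.SL.Defs

set_option autoImplicit false

/-!
# The start of the coordinates, and the induction
-/

namespace Pool.Agent.T6.H90.SL

theorem i0 (B W : Type) [DecidableEq B] [DecidableEq W] (s : B) (lb : B → ℤ) (lw : W → ℤ)
    (hlb : ∀ x, 1 ≤ lb x) (w : W) (t : B) (hst : s ≠ t) :
    HasInv s lb lw [(w, t)] {s, t} {w} {(s, w), (t, w)} ∅ {(w, t)} := by
  classical
  have hts : t ≠ s := fun h => hst h.symm
  refine ⟨fun z => if z = Sum.inl s then lb t else 0, fun z => if z = Sum.inl t then lb t else 0,
    fun z => if z = Sum.inr w then lb t else 0,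
    fun z => if z = Sum.inl s then 0 else if z = Sum.inr w then 1 else 2, lb t, ?_⟩
  have hN : 1 ≤ lb t := hlb t
  have hcon : con s [(w, t)] = [Sum.inl s, Sum.inr w, Sum.inl t] := rfl
  have hpl : ∀ z : B ⊕ W, Pl ({s, t} : Finset B) ({w} : Finset W) z →
      z = Sum.inl s ∨ z = Sum.inl t ∨ z = Sum.inr w := by
    rintro (z | z) hz
    · have hz' : z ∈ ({s, t} : Finset B) := hz
      simp only [Finset.mem_insert, Finset.mem_singleton] at hz'
      rcases hz' with h | h <;> simp [h]
    · have hz' : z ∈ ({w} : Finset W) := hz
      simp only [Finset.mem_singleton] at hz'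
      simp [hz']
  have hQ : ∀ x y, (x, y) ∈ ({(s, w), (t, w)} : Finset (B × W)) → (x = s ∨ x = t) ∧ y = w := by
    intro x y h
    simp only [Finset.mem_insert, Finset.mem_singleton, Prod.mk.injEq] at h
    tauto
  constructor
  case con_pl =>
    intro z hz
    rw [hcon] at hz
    simp only [List.mem_cons, List.not_mem_nil, or_false] at hz
    rcases hz with h | h | h <;> subst h <;> simp [Pl]
  case sorted =>
    rw [hcon]
    simp [hts]
  case Q_pl =>
    intro x y h
    obtain ⟨hx, hy⟩ := hQ x y h
    rcases hx with h | h <;> simp [h, hy]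
  case OB_Q => intro x y h; simp at h
  case OW_Q =>
    intro x y h
    simp only [Finset.mem_singleton, Prod.mk.injEq] at h
    simp [h.1, h.2]
  case deg =>
    intro z hz
    rcases hpl z hz with h | h | h
    · exact ⟨(s, w), by simp, Or.inl h⟩
    · exact ⟨(t, w), by simp, Or.inl h⟩
    · exact ⟨(t, w), by simp, Or.inr h⟩
  case sum =>
    intro z hz
    rcases hpl z hz with h | h | h <;> subst h <;> simp [hst, hts]
  case nonneg =>
    intro z hz
    rcases hpl z hz with h | h | h <;> subst h <;> simp [hst, hts] <;> omega
  case ends =>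
    refine ⟨by simp, ?_⟩
    intro A w' t' hA
    cases A with
    | nil =>
      simp only [List.nil_append, List.cons.injEq, Prod.mk.injEq, and_true] at hA
      simp [hA.2]
    | cons a A =>
      simp only [List.cons_append, List.cons.injEq] at hA
      have := hA.2
      simp at this
  case exit =>
    intro u hu
    refine ⟨u, ?_, rfl, Or.inl rfl⟩
    rw [hcon]
    rcases hpl u hu with h | h | h <;> subst h <;> simp
  case black =>
    intro x hx u hu hpos
    rw [hcon] at hx
    simp only [List.mem_cons, List.not_mem_nil, or_false, Sum.inl.injEq, reduceCtorEq,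
      false_or] at hx
    rcases hx with h | h <;> subst h <;> rcases hpl u hu with h | h | h <;> subst h <;>
      simp_all
  case cmp₁ =>
    intro u hu z hz hpos
    rw [hcon] at hz
    simp only [List.mem_cons, List.not_mem_nil, or_false] at hz
    rcases hz with h | h | h <;> subst h <;> rcases hpl u hu with h | h | h <;> subst h <;>
      simp_all <;> (try (have hN' := hlb t; linarith))
  case cmp₂ =>
    intro u hu z hz hpos
    rw [hcon] at hz
    simp only [List.mem_cons, List.not_mem_nil, or_false] at hz
    rcases hz with h | h | h <;> subst h <;> rcases hpl u hu with h | h | h <;> subst h <;>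
      simp_all <;> (try (have hN' := hlb t; linarith))
  case left =>
    intro A w' b' C hA
    cases A with
    | nil =>
      simp only [List.nil_append, List.cons.injEq, Prod.mk.injEq] at hA
      simp [lastB, cw, ← hA.1.1, hst]
    | cons a A =>
      simp only [List.cons_append, List.cons.injEq] at hA
      have := hA.2
      simp at this
  case right =>
    intro A w' b' C hA
    cases A with
    | nil =>
      simp only [List.nil_append, List.cons.injEq, Prod.mk.injEq] at hA
      obtain ⟨⟨h1, h2⟩, -⟩ := hA
      subst h1 h2
      simp [hts]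
    | cons a A =>
      simp only [List.cons_append, List.cons.injEq] at hA
      have := hA.2
      simp at this
  case bary =>
    intro x y h z hz h1 h2
    obtain ⟨hx, hy⟩ := hQ x y h
    subst hy
    rcases hx with hx | hx <;> subst hx <;> rcases hpl z hz with h | h | h <;> subst h <;>
      simp_all [D1, D2] <;> grind
  case low₃ =>
    intro x y h _
    obtain ⟨hx, hy⟩ := hQ x y h
    subst hy
    simp [cw]
    omega
  case lft =>
    intro x y h _ hpos
    obtain ⟨hx, hy⟩ := hQ x y h
    subst hy
    rcases hx with hx | hx <;> subst hx <;> simp_all <;> grind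
  case rgt =>
    intro x y h _ hpos
    obtain ⟨hx, hy⟩ := hQ x y h
    subst hy
    rcases hx with hx | hx <;> subst hx <;> simp_all <;> grind
  case upw =>
    intro x y h
    obtain ⟨hx, hy⟩ := hQ x y h
    subst hy
    rcases hx with hx | hx <;> subst hx
    · left
      simp
      omega
    · right; right
      refine ⟨by simp, ?_, ?_⟩
      · intro _
        refine ⟨by simp [hts], ?_, by simp, by simp [cb, hts, Finset.filter_singleton]⟩
        intro z hz hpos
        rw [hcon] at hz
        simp only [List.mem_cons, List.not_mem_nil, or_false] at hz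
        rcases hz with h | h | h <;> subst h <;> simp_all
      · intro hx
        exact absurd (by rw [hcon]; simp) hx
  case bound =>
    have h1 : ∑ x ∈ ({s, t} : Finset B), (lb x + 1) = (lb s + 1) + (lb t + 1) :=
      Finset.sum_pair hst
    have h2 : (0 : ℤ) ≤ ∑ y ∈ ({w} : Finset W).filter (fun y => y ∉ [(w, t)].map Prod.fst),
        (lw y + 1) := by
      rw [show ({w} : Finset W).filter (fun y => y ∉ [(w, t)].map Prod.fst) = ∅ by
        ext y; simp]
      simp
    have h3 := hlb s
    linarith

theorem hasInv (i1 : StmtI1) (i2 : StmtI2) (B W : Type) [DecidableEq B] [DecidableEq W] (s : B)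
    (L : List (W × B)) (PB : Finset B) (PW : Finset W) (Q OB : Finset (B × W))
    (OW : Finset (W × B)) (h : EE s L PB PW Q OB OW) (lb : B → ℤ) (lw : W → ℤ)
    (hlb : ∀ x, 1 ≤ lb x) (hlw : ∀ y, 1 ≤ lw y) : HasInv s lb lw L PB PW Q OB OW := by
  induction h with
  | start w t hst => exact i0 B W s lb lw hlb w t hst
  | ins A C w b' l o PB PW Q OB OW _ hl ho ih =>
    exact i1 B W s lb lw hlb hlw A C w b' l o PB PW Q OB OW ih hl ho
  | cov A M C w₁ b₁ w PB PW Q OB OW _ hw ih =>
    exact i2 B W s lb lw hlb hlw A M C w₁ b₁ w PB PW Q OB OW ih hw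

end Pool.Agent.T6.H90.SL
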