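import Pool.Agent.T6.H90.SL.I2a

set_option autoImplicit false

/-!
# Module I2: a covering preserves the invariants
-/

namespace Pool.Agent.T6.H90.SL.ModI2

open Sum

variable {B W : Type} [DecidableEq B] [DecidableEq W]

/-- The data of a covering step. -/
structure Step (s : B) (lb : B → ℤ) (lw : W → ℤ) (L L' : List (W × B)) (PB : Finset B)
    (PW : Finset W) (Q OB : Finset (B × W)) (OW : Finset (W × B)) (x₁ x₂ x₃ : B ⊕ W → ℤ)
    (pos : B ⊕ W → ℚ) (N : ℤ) (w : W) (bi bj : B) (w₁ : W) (d : ℚ → ℤ) (T : ℤ)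
    (X₁ X₂ X₃ : B ⊕ W → ℤ) (Pos : B ⊕ W → ℚ) : Prop where
  inv : Inv s lb lw L PB PW Q OB OW x₁ x₂ x₃ pos N
  hlb : ∀ x, 1 ≤ lb x
  hlw : ∀ y, 1 ≤ lw y
  hw : w ∉ PW
  seg : Seg (fun z => z ∈ con s L) pos lw bi bj w₁ d T
  hcon : ∀ z, z ∈ con s L' ↔ z = inr w ∨
    (z ∈ con s L ∧ (pos z ≤ pos (inl bi) ∨ pos (inl bj) ≤ pos z))
  w₁_right : x₁ (inr w₁) = x₁ (inl bj) ∧ lb bj ≤ x₃ (inr w₁) - x₃ (inl bj)
  X₁w : X₁ (inr w) = x₁ (inl bj)
  X₂w : X₂ (inr w) = x₂ (inl bi)
  X₃w : X₃ (inr w) = N + T - x₁ (inl bj) - x₂ (inl bi)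
  Posw : Pos (inr w) = pos (inr w₁)
  X₁o : ∀ u, u ≠ inr w → X₁ u = x₁ u + d (pos u)
  X₂o : ∀ u, u ≠ inr w → X₂ u = x₂ u + (T - d (pos u))
  X₃o : ∀ u, u ≠ inr w → X₃ u = x₃ u
  Poso : ∀ u, u ≠ inr w → Pos u =
    if pos (inl bi) < pos u ∧ pos u < pos (inl bj) then pos (inr w₁) else pos u

section

variable {s : B} {lb : B → ℤ} {lw : W → ℤ} {L L' : List (W × B)} {PB : Finset B}
    {PW : Finset W} {Q OB : Finset (B × W)} {OW : Finset (W × B)} {x₁ x₂ x₃ : B ⊕ W → ℤ}
    {pos : B ⊕ W → ℚ} {N : ℤ} {w : W} {bi bj : B} {w₁ : W} {d : ℚ → ℤ} {T : ℤ}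
    {X₁ X₂ X₃ : B ⊕ W → ℤ} {Pos : B ⊕ W → ℚ}
    (S : Step s lb lw L L' PB PW Q OB OW x₁ x₂ x₃ pos N w bi bj w₁ d T X₁ X₂ X₃ Pos)

include S

theorem ne_w {u : B ⊕ W} (hu : Pl PB PW u) : u ≠ inr w := by
  rintro rfl
  exact S.hw hu

theorem con_ne {z : B ⊕ W} (hz : z ∈ con s L) : z ≠ inr w := ne_w S (S.inv.con_pl z hz)

theorem bi_pl : Pl PB PW (inl bi) := S.inv.con_pl _ S.seg.bi_mem

theorem bj_pl : Pl PB PW (inl bj) := S.inv.con_pl _ S.seg.bj_mem

theorem w1_pl : Pl PB PW (inr w₁) := S.inv.con_pl _ S.seg.w_mem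

theorem h02 : pos (inl bi) < pos (inl bj) := S.seg.h01.trans S.seg.h12

theorem bi_ne_bj : bi ≠ bj := by
  intro h
  have := h02 S
  rw [h] at this
  exact lt_irrefl _ this

theorem gap' {u : B ⊕ W} (hu : Pl PB PW u) (h : pos (inr w₁) < pos u) : pos (inl bj) ≤ pos u := by
  obtain ⟨z, hz, hz', _⟩ := S.inv.exit u hu
  rw [← hz'] at h ⊢
  exact S.seg.gap z hz h

theorem strict' {u v : B ⊕ W} (hu : Pl PB PW u) (hv : Pl PB PW v) (h1 : pos (inl bi) ≤ pos u)
    (h2 : pos u < pos v) (h3 : pos v ≤ pos (inl bj)) : d (pos v) < d (pos u) := by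
  obtain ⟨z, hz, hz', _⟩ := S.inv.exit u hu
  obtain ⟨t, ht, ht', _⟩ := S.inv.exit v hv
  rw [← hz'] at h1 h2 ⊢
  rw [← ht'] at h2 h3 ⊢
  exact S.seg.strict z t hz ht h1 h2 h3

theorem leB1 {u : B ⊕ W} (hu : Pl PB PW u) (h : pos u ≤ pos (inl bj)) :
    x₁ (inl bj) ≤ x₁ u := by
  rcases h.lt_or_eq with h | h
  · exact S.inv.cmp₁ u hu _ S.seg.bj_mem h
  · rw [S.inv.black bj S.seg.bj_mem u hu h]

theorem leB2 {u : B ⊕ W} (hu : Pl PB PW u) (h : pos (inl bi) ≤ pos u) :
    x₂ (inl bi) ≤ x₂ u := by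
  rcases h.lt_or_eq with h | h
  · exact S.inv.cmp₂ u hu _ S.seg.bi_mem h
  · rw [S.inv.black bi S.seg.bi_mem u hu h.symm]

theorem F1 {u : B ⊕ W} (hu : Pl PB PW u) (h1 : pos (inl bi) ≤ pos u)
    (h2 : pos u ≤ pos (inl bj)) : x₃ u < X₃ (inr w) := by
  obtain ⟨z, hz, hz', h⟩ := S.inv.exit u hu
  have hzp := S.inv.con_pl z hz
  rw [← hz'] at h1 h2
  have e1 := leB1 S hzp h2
  have e2 := leB2 S hzp h1
  have e3 := S.inv.sum z hzp
  have e4 := S.seg.T_pos
  have key : x₃ z < X₃ (inr w) := by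
    rw [S.X₃w]
    omega
  rcases h with h | h
  · rw [h]; exact key
  · exact h.2.2.trans key

theorem F2a {u : B ⊕ W} (hu : Pl PB PW u) (h : pos u < pos (inl bj)) :
    x₁ (inl bj) < X₁ u := by
  rw [S.X₁o u (ne_w S hu)]
  have e1 := leB1 S hu h.le
  have e2 : 0 < d (pos u) := by
    rcases le_or_gt (pos (inl bi)) (pos u) with h' | h'
    · have := strict' S hu (bj_pl S) h' h le_rfl
      rw [S.seg.right _ le_rfl] at this
      exact this
    · rw [S.seg.left _ h'.le]
      exact S.seg.T_pos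
  omega

theorem F2b {u : B ⊕ W} (hu : Pl PB PW u) (h : pos (inl bi) < pos u) :
    x₂ (inl bi) < X₂ u := by
  rw [S.X₂o u (ne_w S hu)]
  have e1 := leB2 S hu h.le
  have e2 : d (pos u) < T := by
    rcases le_or_gt (pos u) (pos (inl bj)) with h' | h'
    · have := strict' S (bi_pl S) hu le_rfl h h'
      rw [S.seg.left _ le_rfl] at this
      exact this
    · rw [S.seg.right _ h'.le]
      exact S.seg.T_pos
  omega

theorem Pos_lo {u : B ⊕ W} (hu : u ≠ inr w) (h : pos u ≤ pos (inl bi)) : Pos u = pos u := by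
  rw [S.Poso u hu, if_neg (fun h' => absurd h'.1 (not_lt.2 h))]

theorem Pos_hi {u : B ⊕ W} (hu : u ≠ inr w) (h : pos (inl bj) ≤ pos u) : Pos u = pos u := by
  rw [S.Poso u hu, if_neg (fun h' => absurd h'.2 (not_lt.2 h))]

theorem Pos_mid {u : B ⊕ W} (hu : u ≠ inr w) (h : pos (inl bi) < pos u)
    (h' : pos u < pos (inl bj)) : Pos u = pos (inr w₁) := by
  rw [S.Poso u hu, if_pos ⟨h, h'⟩]

theorem Pos_out {u : B ⊕ W} (hu : u ≠ inr w)
    (h : pos u ≤ pos (inl bi) ∨ pos (inl bj) ≤ pos u) : Pos u = pos u := by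
  rcases h with h | h
  · exact Pos_lo S hu h
  · exact Pos_hi S hu h

theorem Pos_le {u : B ⊕ W} (hu : u ≠ inr w) (h : pos u < pos (inl bj)) :
    Pos u ≤ pos (inr w₁) := by
  rcases le_or_gt (pos u) (pos (inl bi)) with h' | h'
  · rw [Pos_lo S hu h']
    exact h'.trans S.seg.h01.le
  · rw [Pos_mid S hu h' h]

theorem le_Pos {u : B ⊕ W} (hu : u ≠ inr w) (h : pos (inl bi) < pos u) :
    pos (inr w₁) ≤ Pos u := by
  rcases lt_or_ge (pos u) (pos (inl bj)) with h' | h'
  · rw [Pos_mid S hu h h']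
  · rw [Pos_hi S hu h']
    exact S.seg.h12.le.trans h'

theorem Pos_mono {u v : B ⊕ W} (hu : u ≠ inr w) (hv : v ≠ inr w) (h : pos u ≤ pos v) :
    Pos u ≤ Pos v := by
  have a1 := S.seg.h01
  have a2 := S.seg.h12
  rw [S.Poso u hu, S.Poso v hv]
  split_ifs with h1 h2 h2
  · exact le_rfl
  · push Not at h2
    have := h2 (lt_of_lt_of_le h1.1 h)
    exact a2.le.trans this
  · push Not at h1
    rcases le_or_gt (pos u) (pos (inl bi)) with h' | h'
    · exact h'.trans a1.le
    · exact absurd (h1 h') (not_le.2 (lt_of_le_of_lt h h2.2))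
  · exact h

theorem Pos_refl {u v : B ⊕ W} (hu : u ≠ inr w) (hv : v ≠ inr w) (h : Pos u < Pos v) :
    pos u < pos v := by
  by_contra h'
  exact absurd (Pos_mono S hv hu (not_lt.1 h')) (not_le.2 h)

theorem Pos_strict {u v : B ⊕ W} (hu : u ≠ inr w) (hv : v ≠ inr w) (h : pos u < pos v) :
    Pos u < Pos v ∨ (pos (inl bi) < pos u ∧ pos v < pos (inl bj)) := by
  have a1 := S.seg.h01
  have a2 := S.seg.h12
  rcases le_or_gt (pos u) (pos (inl bi)) with h1 | h1
  · left
    rw [Pos_lo S hu h1]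
    rcases le_or_gt (pos v) (pos (inl bi)) with h2 | h2
    · rw [Pos_lo S hv h2]; exact h
    · exact lt_of_lt_of_le (lt_of_le_of_lt h1 a1) (le_Pos S hv h2)
  · rcases lt_or_ge (pos v) (pos (inl bj)) with h2 | h2
    · exact Or.inr ⟨h1, h2⟩
    · left
      rw [Pos_hi S hv h2]
      rcases lt_or_ge (pos u) (pos (inl bj)) with h3 | h3
      · exact lt_of_le_of_lt (Pos_le S hu h3) (lt_of_lt_of_le a2 h2)
      · rw [Pos_hi S hu h3]; exact h

theorem D1' {z u : B ⊕ W} (hz : Pl PB PW z) (hu : Pl PB PW u) (h : D1 x₁ pos z u) :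
    D1 X₁ Pos z u := by
  unfold D1 at h ⊢
  rw [S.X₁o z (ne_w S hz), S.X₁o u (ne_w S hu)]
  rcases h with ⟨h1, h2⟩ | ⟨h1, h2⟩
  · left
    have := S.seg.anti _ _ h2
    exact ⟨by omega, Pos_mono S (ne_w S hz) (ne_w S hu) h2⟩
  · have := S.seg.anti _ _ h2.le
    rcases Pos_strict S (ne_w S hz) (ne_w S hu) h2 with h3 | h3
    · right
      exact ⟨by omega, h3⟩
    · left
      have := strict' S hz hu h3.1.le h2 h3.2.le
      exact ⟨by omega, Pos_mono S (ne_w S hz) (ne_w S hu) h2.le⟩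

theorem D2' {z u : B ⊕ W} (hz : Pl PB PW z) (hu : Pl PB PW u) (h : D2 x₂ pos z u) :
    D2 X₂ Pos z u := by
  unfold D2 at h ⊢
  rw [S.X₂o z (ne_w S hz), S.X₂o u (ne_w S hu)]
  rcases h with ⟨h1, h2⟩ | ⟨h1, h2⟩
  · left
    have := S.seg.anti _ _ h2
    exact ⟨by omega, Pos_mono S (ne_w S hu) (ne_w S hz) h2⟩
  · have := S.seg.anti _ _ h2.le
    rcases Pos_strict S (ne_w S hu) (ne_w S hz) h2 with h3 | h3
    · right
      exact ⟨by omega, h3⟩
    · left
      have := strict' S hu hz h3.1.le h2 h3.2.le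
      exact ⟨by omega, Pos_mono S (ne_w S hu) (ne_w S hz) h2.le⟩

theorem D2w {u : B ⊕ W} (hu : Pl PB PW u) (h : pos u ≤ pos (inl bi))
    (h' : x₂ u ≤ x₂ (inl bi)) : D2 X₂ Pos (inr w) u := by
  unfold D2
  right
  rw [S.X₂w, S.X₂o u (ne_w S hu), S.Posw, Pos_lo S (ne_w S hu) h, S.seg.left _ h]
  exact ⟨by omega, lt_of_le_of_lt h S.seg.h01⟩

theorem D1w {u : B ⊕ W} (hu : Pl PB PW u) (h : pos (inl bj) ≤ pos u)
    (h' : x₁ u ≤ x₁ (inl bj)) : D1 X₁ Pos (inr w) u := by
  unfold D1
  right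
  rw [S.X₁w, S.X₁o u (ne_w S hu), S.Posw, Pos_hi S (ne_w S hu) h, S.seg.right _ h]
  exact ⟨by omega, lt_of_lt_of_le S.seg.h12 h⟩

/-- The barycentric property for old edges. -/
theorem bary_old {x : B} {y : W} (hxy : (x, y) ∈ Q) {z : B ⊕ W} (hz : Pl PB PW z ∨ z = inr w)
    (hzx : z ≠ inl x) (hzy : z ≠ inr y) :
    (D1 X₁ Pos z (inl x) ∧ D1 X₁ Pos z (inr y)) ∨
    (D2 X₂ Pos z (inl x) ∧ D2 X₂ Pos z (inr y)) ∨
    (X₃ (inl x) < X₃ z ∧ X₃ (inr y) < X₃ z) := by
  obtain ⟨hx, hy⟩ := S.inv.Q_pl x y hxy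
  have hxp : Pl PB PW (inl x) := hx
  have hyp : Pl PB PW (inr y) := hy
  rcases hz with hz | rfl
  · rcases S.inv.bary x y hxy z hz hzx hzy with h | h | h
    · exact Or.inl ⟨D1' S hz hxp h.1, D1' S hz hyp h.2⟩
    · exact Or.inr (Or.inl ⟨D2' S hz hxp h.1, D2' S hz hyp h.2⟩)
    · right; right
      rw [S.X₃o z (ne_w S hz), S.X₃o _ (ne_w S hxp), S.X₃o _ (ne_w S hyp)]
      exact h
  · have third : x₃ (inl x) < X₃ (inr w) → x₃ (inr y) < X₃ (inr w) →
        (D1 X₁ Pos (inr w) (inl x) ∧ D1 X₁ Pos (inr w) (inr y)) ∨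
        (D2 X₂ Pos (inr w) (inl x) ∧ D2 X₂ Pos (inr w) (inr y)) ∨
        (X₃ (inl x) < X₃ (inr w) ∧ X₃ (inr y) < X₃ (inr w)) := by
      intro h1 h2
      right; right
      rw [S.X₃o _ (ne_w S hxp), S.X₃o _ (ne_w S hyp)]
      exact ⟨h1, h2⟩
    have h02 := h02 S
    have fbi : x₃ (inl bi) < X₃ (inr w) := F1 S (bi_pl S) le_rfl h02.le
    have fbj : x₃ (inl bj) < X₃ (inr w) := F1 S (bj_pl S) h02.le le_rfl
    by_cases hxi : x = bi
    · subst hxi
      rcases lt_or_ge (pos (inr y)) (pos (inl x)) with h1 | h1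
      · have := S.inv.lft x y hxy S.seg.bi_mem h1
        exact Or.inr (Or.inl ⟨D2w S hxp le_rfl le_rfl, D2w S hyp h1.le this.le⟩)
      · rcases le_or_gt (pos (inr y)) (pos (inl bj)) with h2 | h2
        · exact third fbi (F1 S hyp h1 h2)
        · rcases S.inv.bary x y hxy (inl bj) (bj_pl S)
            (fun h => bi_ne_bj S (Sum.inl_injective h).symm) (fun h => by cases h) with h | h | h
          · exfalso
            rcases h.1 with h' | h'
            · exact absurd h'.2 (not_le.2 h02)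
            · exact absurd h'.2 (not_lt.2 h02.le)
          · exfalso
            rcases h.2 with h' | h'
            · exact absurd h'.2 (not_le.2 h2)
            · exact absurd h'.2 (not_lt.2 h2.le)
          · exact third fbi (h.2.trans fbj)
    · by_cases hxj : x = bj
      · subst hxj
        rcases lt_or_ge (pos (inl x)) (pos (inr y)) with h1 | h1
        · rcases S.inv.rgt x y hxy S.seg.bj_mem h1 with h | h
          · exact Or.inl ⟨D1w S hxp le_rfl le_rfl, D1w S hyp h1.le h⟩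
          · exact third fbj (lt_of_le_of_lt h fbj)
        · rcases le_or_gt (pos (inl bi)) (pos (inr y)) with h2 | h2
          · exact third fbj (F1 S hyp h2 h1)
          · rcases S.inv.bary x y hxy (inl bi) (bi_pl S)
              (fun h => bi_ne_bj S (Sum.inl_injective h)) (fun h => by cases h) with h | h | h
            · exfalso
              rcases h.2 with h' | h'
              · exact absurd h'.2 (not_le.2 h2)
              · exact absurd h'.2 (not_lt.2 h2.le)
            · exfalso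
              rcases h.1 with h' | h'
              · exact absurd h'.2 (not_le.2 h02)
              · exact absurd h'.2 (not_lt.2 h02.le)
            · exact third fbj (h.2.trans fbi)
      · rcases S.inv.bary x y hxy (inl bi) (bi_pl S)
          (fun h => hxi (Sum.inl_injective h).symm) (fun h => by cases h) with h | h | h
        · rcases S.inv.bary x y hxy (inl bj) (bj_pl S)
            (fun h => hxj (Sum.inl_injective h).symm) (fun h => by cases h) with h' | h' | h'
          · left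
            obtain ⟨h1, h2⟩ := h'
            refine ⟨D1w S hxp ?_ ?_, D1w S hyp ?_ ?_⟩
            · rcases h1 with h1 | h1
              exacts [h1.2, h1.2.le]
            · rcases h1 with h1 | h1
              exacts [h1.1.le, h1.1]
            · rcases h2 with h2 | h2
              exacts [h2.2, h2.2.le]
            · rcases h2 with h2 | h2
              exacts [h2.1.le, h2.1]
          · obtain ⟨h1, h2⟩ := h
            obtain ⟨h3, h4⟩ := h'
            refine third (F1 S hxp ?_ ?_) (F1 S hyp ?_ ?_)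
            · rcases h1 with h1 | h1
              exacts [h1.2, h1.2.le]
            · rcases h3 with h1 | h1
              exacts [h1.2, h1.2.le]
            · rcases h2 with h1 | h1
              exacts [h1.2, h1.2.le]
            · rcases h4 with h1 | h1
              exacts [h1.2, h1.2.le]
          · exact third (h'.1.trans fbj) (h'.2.trans fbj)
        · obtain ⟨h1, h2⟩ := h
          right; left
          refine ⟨D2w S hxp ?_ ?_, D2w S hyp ?_ ?_⟩
          · rcases h1 with h1 | h1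
            exacts [h1.2, h1.2.le]
          · rcases h1 with h1 | h1
            exacts [h1.1.le, h1.1]
          · rcases h2 with h2 | h2
            exacts [h2.2, h2.2.le]
          · rcases h2 with h2 | h2
            exacts [h2.1.le, h2.1]
        · exact third (h.1.trans fbi) (h.2.trans fbi)

/-- The barycentric property for new edges. -/
theorem bary_new {b : B} (hb : inl b ∈ con s L) (hb1 : pos (inl bi) ≤ pos (inl b))
    (hb2 : pos (inl b) ≤ pos (inl bj)) {z : B ⊕ W} (hz : Pl PB PW z) (hzb : z ≠ inl b) :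
    (D1 X₁ Pos z (inl b) ∧ D1 X₁ Pos z (inr w)) ∨
    (D2 X₂ Pos z (inl b) ∧ D2 X₂ Pos z (inr w)) ∨
    (X₃ (inl b) < X₃ z ∧ X₃ (inr w) < X₃ z) := by
  have hbp : Pl PB PW (inl b) := S.inv.con_pl _ hb
  rcases lt_trichotomy (pos z) (pos (inl b)) with h | h | h
  · left
    refine ⟨D1' S hz hbp (Or.inr ⟨S.inv.cmp₁ z hz _ hb h, h⟩), Or.inl ⟨?_, ?_⟩⟩
    · rw [S.X₁w]
      exact F2a S hz (lt_of_lt_of_le h hb2)
    · rw [S.Posw]
      exact Pos_le S (ne_w S hz) (lt_of_lt_of_le h hb2)
  · exact absurd (S.inv.black b hb z hz h) hzb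
  · right; left
    refine ⟨D2' S hz hbp (Or.inr ⟨S.inv.cmp₂ z hz _ hb h, h⟩), Or.inl ⟨?_, ?_⟩⟩
    · rw [S.X₂w]
      exact F2b S hz (lt_of_le_of_lt hb1 h)
    · rw [S.Posw]
      exact le_Pos S (ne_w S hz) (lt_of_le_of_lt hb1 h)

/-! ### The other invariants -/

theorem con_old {z : B ⊕ W} (hz : z ∈ con s L') (h : z ≠ inr w) :
    z ∈ con s L ∧ (pos z ≤ pos (inl bi) ∨ pos (inl bj) ≤ pos z) :=
  ((S.hcon z).1 hz).resolve_left h

theorem exit_new {u : B ⊕ W} (hu : Pl PB PW u ∨ u = inr w) : ∃ z ∈ con s L', Pos z = Pos u ∧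
    (u = z ∨ (X₁ z < X₁ u ∧ X₂ z < X₂ u ∧ X₃ u < X₃ z)) := by
  rcases hu with hu | rfl
  · by_cases hc : pos (inl bi) < pos u ∧ pos u < pos (inl bj)
    · refine ⟨inr w, (S.hcon _).2 (Or.inl rfl), ?_, Or.inr ⟨?_, ?_, ?_⟩⟩
      · rw [S.Posw, Pos_mid S (ne_w S hu) hc.1 hc.2]
      · rw [S.X₁w]; exact F2a S hu hc.2
      · rw [S.X₂w]; exact F2b S hu hc.1
      · rw [S.X₃o u (ne_w S hu)]; exact F1 S hu hc.1.le hc.2.le
    · have hout : pos u ≤ pos (inl bi) ∨ pos (inl bj) ≤ pos u := by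
        by_contra h
        push Not at h
        exact hc h
      obtain ⟨z, hz, hzu, h⟩ := S.inv.exit u hu
      have hzw := con_ne S hz
      have hout' : pos z ≤ pos (inl bi) ∨ pos (inl bj) ≤ pos z := by rw [hzu]; exact hout
      refine ⟨z, (S.hcon _).2 (Or.inr ⟨hz, hout'⟩), ?_, ?_⟩
      · rw [Pos_out S hzw hout', Pos_out S (ne_w S hu) hout, hzu]
      · rcases h with h | h
        · exact Or.inl h
        · right
          rw [S.X₁o z hzw, S.X₂o z hzw, S.X₃o z hzw, S.X₁o u (ne_w S hu), S.X₂o u (ne_w S hu),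
            S.X₃o u (ne_w S hu), hzu]
          exact ⟨by omega, by omega, h.2.2⟩
  · exact ⟨inr w, (S.hcon _).2 (Or.inl rfl), rfl, Or.inl rfl⟩

theorem black_new {x : B} (hx : inl x ∈ con s L') {u : B ⊕ W} (hu : Pl PB PW u ∨ u = inr w)
    (h : Pos u = Pos (inl x)) : u = inl x := by
  obtain ⟨hx1, hx2⟩ := con_old S hx (fun h => by cases h)
  rw [Pos_out S (fun h => by cases h) hx2] at h
  have a1 := S.seg.h01
  have a2 := S.seg.h12
  have hno : pos (inr w₁) ≠ pos (inl x) := by
    intro h'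
    rcases hx2 with h2 | h2 <;> rw [← h'] at h2 <;> linarith
  rcases hu with hu | rfl
  · by_cases hc : pos (inl bi) < pos u ∧ pos u < pos (inl bj)
    · rw [Pos_mid S (ne_w S hu) hc.1 hc.2] at h
      exact absurd h hno
    · have hout : pos u ≤ pos (inl bi) ∨ pos (inl bj) ≤ pos u := by
        by_contra h
        push Not at h
        exact hc h
      rw [Pos_out S (ne_w S hu) hout] at h
      exact S.inv.black x hx1 u hu h
  · rw [S.Posw] at h
    exact absurd h hno

theorem cmp1_new {u : B ⊕ W} (hu : Pl PB PW u ∨ u = inr w) {z : B ⊕ W} (hz : z ∈ con s L')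
    (h : Pos u < Pos z) : X₁ z ≤ X₁ u := by
  have a1 := S.seg.h01
  have a2 := S.seg.h12
  by_cases hzw : z = inr w
  · subst hzw
    rcases hu with hu | rfl
    · rw [S.X₁w]
      refine (F2a S hu ?_).le
      by_contra h'
      rw [not_lt] at h'
      rw [Pos_hi S (ne_w S hu) h', S.Posw] at h
      linarith
    · exact absurd h (lt_irrefl _)
  · obtain ⟨hz1, hz2⟩ := con_old S hz hzw
    rcases hu with hu | rfl
    · have h1 := Pos_refl S (ne_w S hu) hzw h
      have h2 := S.inv.cmp₁ u hu z hz1 h1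
      have h3 := S.seg.anti _ _ h1.le
      rw [S.X₁o z hzw, S.X₁o u (ne_w S hu)]
      omega
    · rw [S.Posw, Pos_out S hzw hz2] at h
      have h3 : pos (inl bj) ≤ pos z := S.seg.gap z hz1 h
      rw [S.X₁w, S.X₁o z hzw, S.seg.right _ h3]
      rcases h3.lt_or_eq with h4 | h4
      · have := S.inv.cmp₁ _ (bj_pl S) z hz1 h4
        omega
      · rw [S.inv.black bj S.seg.bj_mem z (S.inv.con_pl z hz1) h4.symm]
        omega

theorem cmp2_new {u : B ⊕ W} (hu : Pl PB PW u ∨ u = inr w) {z : B ⊕ W} (hz : z ∈ con s L')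
    (h : Pos z < Pos u) : X₂ z ≤ X₂ u := by
  have a1 := S.seg.h01
  have a2 := S.seg.h12
  by_cases hzw : z = inr w
  · subst hzw
    rcases hu with hu | rfl
    · rw [S.X₂w]
      refine (F2b S hu ?_).le
      by_contra h'
      rw [not_lt] at h'
      rw [Pos_lo S (ne_w S hu) h', S.Posw] at h
      linarith
    · exact absurd h (lt_irrefl _)
  · obtain ⟨hz1, hz2⟩ := con_old S hz hzw
    rcases hu with hu | rfl
    · have h1 := Pos_refl S hzw (ne_w S hu) h
      have h2 := S.inv.cmp₂ u hu z hz1 h1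
      have h3 := S.seg.anti _ _ h1.le
      rw [S.X₂o z hzw, S.X₂o u (ne_w S hu)]
      omega
    · rw [S.Posw, Pos_out S hzw hz2] at h
      have h3 : pos z ≤ pos (inl bi) := by
        rcases hz2 with h3 | h3
        · exact h3
        · linarith
      rw [S.X₂w, S.X₂o z hzw, S.seg.left _ h3]
      rcases h3.lt_or_eq with h4 | h4
      · have := S.inv.cmp₂ _ (bi_pl S) z hz1 h4
        omega
      · rw [S.inv.black bi S.seg.bi_mem z (S.inv.con_pl z hz1) h4]
        omega

theorem inr_ne {x : B} {y : W} (hxy : (x, y) ∈ Q) : (inr y : B ⊕ W) ≠ inr w := by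
  have : Pl PB PW (inr y) := (S.inv.Q_pl x y hxy).2
  exact ne_w S this

theorem lft_new {x : B} {y : W} (hxy : (x, y) ∈ Q ∨ y = w) (hx : inl x ∈ con s L')
    (h : Pos (inr y) < Pos (inl x)) : X₂ (inr y) < X₂ (inl x) := by
  obtain ⟨hx1, hx2⟩ := con_old S hx (fun h => by cases h)
  have hxw : (inl x : B ⊕ W) ≠ inr w := fun h => by cases h
  rcases hxy with hxy | rfl
  · have hyw := inr_ne S hxy
    have h1 := Pos_refl S hyw hxw h
    have h2 := S.inv.lft x y hxy hx1 h1
    have h3 := S.seg.anti _ _ h1.le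
    rw [S.X₂o _ hyw, S.X₂o _ hxw]
    omega
  · rw [S.X₂w]
    refine F2b S (S.inv.con_pl _ hx1) ?_
    by_contra h'
    rw [not_lt] at h'
    have a1 := S.seg.h01
    rw [S.Posw, Pos_lo S hxw h'] at h
    linarith

theorem rgt_new {x : B} {y : W} (hxy : (x, y) ∈ Q ∨ y = w) (hx : inl x ∈ con s L')
    (h : Pos (inl x) < Pos (inr y)) :
    X₁ (inr y) ≤ X₁ (inl x) ∨ X₃ (inr y) ≤ X₃ (inl x) := by
  obtain ⟨hx1, hx2⟩ := con_old S hx (fun h => by cases h)
  have hxw : (inl x : B ⊕ W) ≠ inr w := fun h => by cases h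
  rcases hxy with hxy | rfl
  · have hyw := inr_ne S hxy
    have h1 := Pos_refl S hxw hyw h
    have h3 := S.seg.anti _ _ h1.le
    rw [S.X₁o _ hyw, S.X₁o _ hxw, S.X₃o _ hyw, S.X₃o _ hxw]
    rcases S.inv.rgt x y hxy hx1 h1 with h2 | h2
    · left; omega
    · right; exact h2
  · left
    rw [S.X₁w]
    refine (F2a S (S.inv.con_pl _ hx1) ?_).le
    by_contra h'
    rw [not_lt] at h'
    have a1 := S.seg.h12
    rw [S.Posw, Pos_hi S hxw h'] at h
    linarith

omit S in
theorem cb_self (h : (w, bj) ∉ OW) : cb (insert (w, bj) OW) bj = cb OW bj + 1 := by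
  unfold cb
  rw [Finset.filter_insert, if_pos rfl, Finset.card_insert_of_notMem (fun h' => h
    (Finset.mem_filter.1 h').1)]
  push_cast
  rfl

omit S in
theorem cb_ne {x : B} (h : x ≠ bj) : cb (insert (w, bj) OW) x = cb OW x := by
  unfold cb
  rw [Finset.filter_insert, if_neg (fun h' => h h'.symm)]

theorem upw_old {x : B} {y : W} (hxy : (x, y) ∈ Q) :
    (X₃ (inl x) < X₃ (inr y) ∧ X₁ (inr y) ≤ X₁ (inl x) ∧ Pos (inl x) ≤ Pos (inr y)) ∨
    ((x, y) ∈ OB ∧
      (inr y ∈ con s L' → Pos (inl x) < Pos (inr y) ∧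
        (X₃ (inl x) - X₃ (inr y)) - (X₁ (inl x) - X₁ (inr y)) ≤ cw OB y) ∧
      (inr y ∉ con s L' → Pos (inl x) ≤ Pos (inr y) ∧ (cw OB y + 1 ≤ lw y →
        X₃ (inl x) - X₁ (inl x) < X₃ (inr y) - X₁ (inr y)))) ∨
    ((y, x) ∈ insert (w, bj) OW ∧
      (inl x ∈ con s L' → Pos (inr y) < Pos (inl x) ∧
        (∀ z ∈ con s L', Pos z < Pos (inl x) → Pos z ≤ Pos (inr y)) ∧
        lb x ≤ X₃ (inr y) - X₃ (inl x) ∧
        X₁ (inr y) - X₁ (inl x) ≤ cb (insert (w, bj) OW) x - 1) ∧
      (inl x ∉ con s L' → Pos (inr y) = Pos (inl x) ∧ (cb (insert (w, bj) OW) x + 1 ≤ lb x →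
        X₃ (inl x) - X₁ (inl x) < X₃ (inr y) - X₁ (inr y)))) := by
  obtain ⟨hx, hy⟩ := S.inv.Q_pl x y hxy
  have hxp : Pl PB PW (inl x) := hx
  have hyp : Pl PB PW (inr y) := hy
  have hxw := ne_w S hxp
  have hyw := ne_w S hyp
  have a1 := S.seg.h01
  have a2 := S.seg.h12
  have hOW : (w, bj) ∉ OW := fun h => S.hw (S.inv.Q_pl _ _ (S.inv.OW_Q _ _ h)).2
  rw [S.X₁o _ hyw, S.X₁o _ hxw, S.X₃o _ hyw, S.X₃o _ hxw]
  rcases S.inv.upw x y hxy with ⟨h1, h2, h3⟩ | ⟨h1, h2, h3⟩ | ⟨h1, h2, h3⟩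
  · left
    have := S.seg.anti _ _ h3
    exact ⟨h1, by omega, Pos_mono S hxw hyw h3⟩
  · right; left
    refine ⟨h1, ?_, ?_⟩
    · intro hy'
      obtain ⟨hy1, hy2⟩ := con_old S hy' hyw
      obtain ⟨h4, h5⟩ := h2 hy1
      have := S.seg.anti _ _ h4.le
      refine ⟨?_, by omega⟩
      rcases Pos_strict S hxw hyw h4 with h6 | h6
      · exact h6
      · exfalso
        rcases hy2 with h7 | h7
        · linarith
        · linarith
    · intro hy'
      by_cases hy1 : inr y ∈ con s L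
      · have hy2 : pos (inl bi) < pos (inr y) ∧ pos (inr y) < pos (inl bj) := by
          by_contra h'
          refine hy' ((S.hcon _).2 (Or.inr ⟨hy1, ?_⟩))
          by_contra h''
          push Not at h''
          exact h' h''
        obtain ⟨h4, h5⟩ := h2 hy1
        have h6 := S.seg.white y _ hy1 hy2.1 hy2.2 h4
        exact ⟨Pos_mono S hxw hyw h4.le, fun h7 => by omega⟩
      · obtain ⟨h4, h5⟩ := h3 hy1
        have := S.seg.anti _ _ h4
        exact ⟨Pos_mono S hxw hyw h4, fun h7 => by have := h5 h7; omega⟩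
  · right; right
    refine ⟨Finset.mem_insert_of_mem h1, ?_, ?_⟩
    · intro hx'
      obtain ⟨hx1, hx2⟩ := con_old S hx' hxw
      obtain ⟨h4, h5, h6, h7⟩ := h2 hx1
      have h8 : pos (inl bj) ≤ pos (inl x) → pos (inr w₁) ≤ pos (inr y) := fun h8 =>
        h5 _ S.seg.w_mem (lt_of_lt_of_le a2 h8)
      refine ⟨?_, ?_, h6, ?_⟩
      · rcases Pos_strict S hyw hxw h4 with h9 | h9
        · exact h9
        · exfalso
          rcases hx2 with h10 | h10 <;> linarith
      · intro z hz hzx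
        by_cases hzw : z = inr w
        · subst hzw
          rw [S.Posw] at hzx ⊢
          rw [Pos_out S hxw hx2] at hzx
          have h9 : pos (inl bj) ≤ pos (inl x) := by
            rcases hx2 with h10 | h10
            · linarith
            · exact h10
          exact le_Pos S hyw (lt_of_lt_of_le a1 (h8 h9))
        · exact Pos_mono S hzw hyw (h5 z (con_old S hz hzw).1 (Pos_refl S hzw hxw hzx))
      · by_cases hxj : x = bj
        · subst hxj
          rw [cb_self hOW]
          have h9 := h8 le_rfl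
          have h10 : pos (inr y) = pos (inr w₁) := by
            refine le_antisymm ?_ h9
            by_contra h'
            rw [not_le] at h'
            exact absurd (gap' S hyp h') (not_le.2 h4)
          obtain ⟨y', hy1, hy2, hy3, hy4, hy5⟩ := S.seg.black x hx1 (a1.trans a2) le_rfl
          have h11 : pos (inr w₁) = pos (inr y') :=
            le_antisymm (hy4 _ S.seg.w_mem a2) (not_lt.1 fun h' =>
              absurd (S.seg.gap _ hy1 h') (not_le.2 hy3))
          rw [h10, h11]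
          omega
        · rw [cb_ne hxj]
          rcases hx2 with h10 | h10
          · rw [S.seg.left _ h10, S.seg.left _ (h4.le.trans h10)]
            omega
          · have h11 : pos (inl bj) < pos (inl x) := by
              rcases h10.lt_or_eq with h12 | h12
              · exact h12
              · exact absurd (Sum.inl_injective (S.inv.black bj S.seg.bj_mem _ hxp h12.symm)) hxj
            rw [S.seg.right _ h10, S.seg.right _ (h5 _ S.seg.bj_mem h11)]
            omega
    · intro hx'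
      by_cases hx1 : inl x ∈ con s L
      · have hx2 : pos (inl bi) < pos (inl x) ∧ pos (inl x) < pos (inl bj) := by
          by_contra h'
          refine hx' ((S.hcon _).2 (Or.inr ⟨hx1, ?_⟩))
          by_contra h''
          push Not at h''
          exact h' h''
        obtain ⟨h4, h5, h6, h7⟩ := h2 hx1
        have hxj : x ≠ bj := by
          rintro rfl
          exact lt_irrefl _ hx2.2
        rw [cb_ne hxj]
        obtain ⟨y', hy1, hy2, hy3, hy4, hy5⟩ := S.seg.black x hx1 hx2.1 hx2.2.le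
        have h8 : pos (inr y) = pos (inr y') := by
          obtain ⟨z, hz, hz', _⟩ := S.inv.exit _ hyp
          refine le_antisymm ?_ (h5 _ hy1 hy3)
          rw [← hz'] at h4 ⊢
          exact hy4 z hz h4
        have h9 : pos (inl bi) < pos (inr y) := by rw [h8]; exact hy2
        refine ⟨?_, fun h10 => ?_⟩
        · rw [Pos_mid S hyw h9 (h4.trans hx2.2), Pos_mid S hxw hx2.1 hx2.2]
        · rw [h8]
          omega
      · obtain ⟨h4, h5⟩ := h3 hx1
        have hxj : x ≠ bj := by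
          rintro rfl
          exact hx1 S.seg.bj_mem
        rw [cb_ne hxj]
        refine ⟨le_antisymm (Pos_mono S hyw hxw h4.le) (Pos_mono S hxw hyw h4.ge), fun h10 => ?_⟩
        have := h5 h10
        rw [h4]
        omega

theorem upw_new {b : B} (hb : inl b ∈ con s L) (hb1 : pos (inl bi) ≤ pos (inl b))
    (hb2 : pos (inl b) ≤ pos (inl bj)) :
    (X₃ (inl b) < X₃ (inr w) ∧ X₁ (inr w) ≤ X₁ (inl b) ∧ Pos (inl b) ≤ Pos (inr w)) ∨
    ((b, w) ∈ OB ∧
      (inr w ∈ con s L' → Pos (inl b) < Pos (inr w) ∧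
        (X₃ (inl b) - X₃ (inr w)) - (X₁ (inl b) - X₁ (inr w)) ≤ cw OB w) ∧
      (inr w ∉ con s L' → Pos (inl b) ≤ Pos (inr w) ∧ (cw OB w + 1 ≤ lw w →
        X₃ (inl b) - X₁ (inl b) < X₃ (inr w) - X₁ (inr w)))) ∨
    ((w, b) ∈ insert (w, bj) OW ∧
      (inl b ∈ con s L' → Pos (inr w) < Pos (inl b) ∧
        (∀ z ∈ con s L', Pos z < Pos (inl b) → Pos z ≤ Pos (inr w)) ∧
        lb b ≤ X₃ (inr w) - X₃ (inl b) ∧
        X₁ (inr w) - X₁ (inl b) ≤ cb (insert (w, bj) OW) b - 1) ∧
      (inl b ∉ con s L' → Pos (inr w) = Pos (inl b) ∧ (cb (insert (w, bj) OW) b + 1 ≤ lb b →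
        X₃ (inl b) - X₁ (inl b) < X₃ (inr w) - X₁ (inr w)))) := by
  have hbp : Pl PB PW (inl b) := S.inv.con_pl _ hb
  have hbw := ne_w S hbp
  have a1 := S.seg.h01
  have a2 := S.seg.h12
  by_cases hbj : b = bj
  · subst hbj
    right; right
    have hOW : (w, b) ∉ OW := fun h => S.hw (S.inv.Q_pl _ _ (S.inv.OW_Q _ _ h)).2
    refine ⟨Finset.mem_insert_self _ _, fun _ => ⟨?_, ?_, ?_, ?_⟩, fun h => ?_⟩
    · rw [S.Posw, Pos_hi S hbw le_rfl]
      exact a2
    · intro z hz hzb
      rw [S.Posw]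
      by_cases hzw : z = inr w
      · rw [hzw, S.Posw]
      · obtain ⟨hz1, hz2⟩ := con_old S hz hzw
        rw [Pos_out S hzw hz2] at hzb ⊢
        rw [Pos_hi S hbw le_rfl] at hzb
        rcases hz2 with h | h <;> linarith
    · rw [S.X₃w, S.X₃o _ hbw]
      have e1 := S.w₁_right
      have e2 := S.inv.sum _ hbp
      have e3 := S.inv.sum _ (w1_pl S)
      have e4 := leB2 S (w1_pl S) a1.le
      have e5 := S.seg.T_pos
      omega
    · rw [S.X₁w, S.X₁o _ hbw, cb_self hOW, S.seg.right _ le_rfl]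
      have : 0 ≤ cb OW b := by unfold cb; omega
      omega
    · exact absurd ((S.hcon _).2 (Or.inr ⟨hb, Or.inr le_rfl⟩)) h
  · left
    have h3 : pos (inl b) < pos (inl bj) := by
      rcases hb2.lt_or_eq with h | h
      · exact h
      · exact absurd (Sum.inl_injective (S.inv.black bj S.seg.bj_mem _ hbp h)) hbj
    refine ⟨?_, ?_, ?_⟩
    · rw [S.X₃o _ hbw]
      exact F1 S hbp hb1 hb2
    · rw [S.X₁w]
      exact (F2a S hbp h3).le
    · rw [S.Posw]
      exact Pos_le S hbw h3

theorem right_w : X₁ (inr w) = X₁ (inl bj) ∧ lb bj ≤ X₃ (inr w) - X₃ (inl bj) := by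
  have a1 := S.seg.h01
  have a2 := S.seg.h12
  have hbw := ne_w S (bj_pl S)
  rw [S.X₁w, S.X₁o _ hbw, S.X₃w, S.X₃o _ hbw, S.seg.right _ le_rfl]
  have e1 := S.w₁_right
  have e2 := S.inv.sum _ (bj_pl S)
  have e3 := S.inv.sum _ (w1_pl S)
  have e4 := leB2 S (w1_pl S) a1.le
  have e5 := S.seg.T_pos
  constructor <;> omega

end

omit [DecidableEq B] [DecidableEq W] in
theorem srt_congr {pos Pos : B ⊕ W → ℚ} {l : List (B ⊕ W)} (h : Srt pos l)
    (h' : ∀ z ∈ l, Pos z = pos z) : Srt Pos l := by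
  refine List.Pairwise.imp_of_mem ?_ h
  intro a b ha hb hab
  rw [h' a ha, h' b hb]
  exact hab

omit [DecidableEq B] [DecidableEq W] in
theorem split3 {A C A' C' : List (W × B)} {w w' : W} {b b' : B}
    (h : A ++ (w, b) :: C = A' ++ (w', b') :: C') :
    (A' = A ∧ w' = w ∧ b' = b) ∨ (∃ c, A = A' ++ (w', b') :: c) ∨
      ∃ a, A' = A ++ (w, b) :: a ∧ C = a ++ (w', b') :: C' := by
  rcases List.append_eq_append_iff.1 h with ⟨a, h1, h2⟩ | ⟨c, h1, h2⟩
  · cases a with
    | nil =>
      left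
      rw [List.nil_append, List.cons.injEq, Prod.mk.injEq] at h2
      exact ⟨by rw [h1, List.append_nil], h2.1.1.symm, h2.1.2.symm⟩
    | cons q a =>
      right; right
      rw [List.cons_append, List.cons.injEq] at h2
      exact ⟨a, by rw [h1, h2.1], h2.2⟩
  · cases c with
    | nil =>
      left
      rw [List.nil_append, List.cons.injEq, Prod.mk.injEq] at h2
      exact ⟨by rw [h1, List.append_nil], h2.1.1, h2.1.2⟩
    | cons q c =>
      right; left
      rw [List.cons_append, List.cons.injEq] at h2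
      exact ⟨c, by rw [h1, h2.1]⟩

omit [DecidableEq B] [DecidableEq W] in
theorem nodup_fst {s : B} {pos : B ⊕ W → ℚ} {K : List (W × B)} (h : Srt pos (con s K)) :
    (K.map Prod.fst).Nodup := by
  induction K generalizing s with
  | nil => simp
  | cons q K ih =>
    obtain ⟨y, b⟩ := q
    rw [con_cons, Srt, List.pairwise_cons, List.pairwise_cons] at h
    rw [List.map_cons, List.nodup_cons]
    refine ⟨fun h' => ?_, ih h.2.2⟩
    obtain ⟨r, hr, hr'⟩ := List.mem_map.1 h'
    have := h.2.1 _ (mem_white hr)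
    rw [hr'] at this
    exact lt_irrefl _ this

omit [DecidableEq B] in
theorem TT_eq (lw : W → ℤ) (K : List (W × B)) (h : (K.map Prod.fst).Nodup) :
    TT lw K = ∑ y ∈ (K.map Prod.fst).toFinset, (lw y + 1) := by
  rw [List.sum_toFinset _ h, List.map_map]
  rfl

end Pool.Agent.T6.H90.SL.ModI2

namespace Pool.Agent.T6.H90.SL

open ModI2 Sum

theorem i2 : StmtI2 := by
  intro B W _ _ s lb lw hlb hlw A M C w₁ b₁ w PB PW Q OB OW ⟨x₁, x₂, x₃, pos, N, I⟩ hw
  have hL : A ++ M ++ (w₁, b₁) :: C = A ++ ((M ++ [(w₁, b₁)]) ++ C) := by simp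
  have hlast : lastB (lastB s A) (M ++ [(w₁, b₁)]) = b₁ := by
    rw [lastB_append]; rfl
  have hmem : ∀ z, z ∈ con s (A ++ M ++ (w₁, b₁) :: C) ↔
      z ∈ con s A ∨ z ∈ con (lastB s A) (M ++ [(w₁, b₁)]) ∨ z ∈ con b₁ C := by
    intro z
    rw [hL, mem_con_append, mem_con_append, hlast]
  have hmem' : ∀ z, z ∈ con s (A ++ (w, b₁) :: C) ↔
      z ∈ con s A ∨ z = inr w ∨ z ∈ con b₁ C := by
    intro z
    rw [mem_con_append, con_cons, List.mem_cons, List.mem_cons]
    constructor
    · rintro (h | h | h | h)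
      · exact Or.inl h
      · left
        rw [h]
        exact lastB_mem _ _
      · exact Or.inr (Or.inl h)
      · exact Or.inr (Or.inr h)
    · rintro (h | h | h)
      · exact Or.inl h
      · exact Or.inr (Or.inr (Or.inl h))
      · exact Or.inr (Or.inr (Or.inr h))
  have hsrt : Srt pos (con s (A ++ ((M ++ [(w₁, b₁)]) ++ C))) := by
    rw [← hL]
    exact I.sorted
  have hs1 := (srt_append.1 hsrt).1
  have hs2 := (srt_append.1 (srt_append.1 hsrt).2).1
  have hs3 := (srt_append.1 (srt_append.1 hsrt).2).2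
  rw [hlast] at hs3
  have hseg := seg hlw s A M C w₁ b₁ I.sorted
  have hA : ∀ z ∈ con s A, pos z ≤ pos (inl (lastB s A)) := by
    intro z hz
    rcases last_ge hs1 hz with h | h
    · rw [← h]
    · exact h.le
  have hC : ∀ z ∈ con b₁ C, pos (inl b₁) ≤ pos z := by
    intro z hz
    rcases head_le hs3 hz with h | h
    · rw [h]
    · exact h.le
  have h02 := hseg.h01.trans hseg.h12
  let X₁ : B ⊕ W → ℤ := fun u => if u = inr w then x₁ (inl b₁)
    else x₁ u + d1 lw pos (M ++ [(w₁, b₁)]) (pos u)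
  let X₂ : B ⊕ W → ℤ := fun u => if u = inr w then x₂ (inl (lastB s A))
    else x₂ u + (TT lw (M ++ [(w₁, b₁)]) - d1 lw pos (M ++ [(w₁, b₁)]) (pos u))
  let X₃ : B ⊕ W → ℤ := fun u => if u = inr w then
    N + TT lw (M ++ [(w₁, b₁)]) - x₁ (inl b₁) - x₂ (inl (lastB s A)) else x₃ u
  let Pos : B ⊕ W → ℚ := fun u => if u = inr w then pos (inr w₁) else
    if pos (inl (lastB s A)) < pos u ∧ pos u < pos (inl b₁) then pos (inr w₁) else pos u
  have S : Step s lb lw (A ++ M ++ (w₁, b₁) :: C) (A ++ (w, b₁) :: C) PB PW Q OB OW x₁ x₂ x₃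
      pos N w (lastB s A) b₁ w₁ (d1 lw pos (M ++ [(w₁, b₁)])) (TT lw (M ++ [(w₁, b₁)]))
      X₁ X₂ X₃ Pos := by
    refine ⟨I, hlb, hlw, hw, hseg, ?_, I.right (A ++ M) w₁ b₁ C rfl, if_pos rfl, if_pos rfl,
      if_pos rfl, if_pos rfl, fun u hu => if_neg hu, fun u hu => if_neg hu,
      fun u hu => if_neg hu, fun u hu => if_neg hu⟩
    intro z
    rw [hmem', hmem]
    constructor
    · rintro (h | h | h)
      · exact Or.inr ⟨Or.inl h, Or.inl (hA z h)⟩
      · exact Or.inl h
      · exact Or.inr ⟨Or.inr (Or.inr h), Or.inr (hC z h)⟩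
    · rintro (h | ⟨h | h | h, h'⟩)
      · exact Or.inr (Or.inl h)
      · exact Or.inl h
      · rcases h' with h' | h'
        · rcases head_le hs2 h with h3 | h3
          · left
            rw [h3]
            exact lastB_mem _ _
          · exact absurd h' (not_le.2 h3)
        · rcases last_ge hs2 h with h3 | h3
          · right; right
            rw [h3, hlast]
            exact head_mem _ _
          · rw [hlast] at h3
            exact absurd h' (not_le.2 h3)
      · exact Or.inr (Or.inr h)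
  have hP : ∀ u, Pl PB (insert w PW) u → Pl PB PW u ∨ u = inr w := by
    intro u hu
    cases u with
    | inl x => exact Or.inl hu
    | inr y =>
      have hu' : y ∈ insert w PW := hu
      rcases Finset.mem_insert.1 hu' with h | h
      · exact Or.inr (by rw [h])
      · exact Or.inl h
  have hPw : Pl PB (insert w PW) (inr w) := Finset.mem_insert_self w PW
  have hPo : ∀ u, Pl PB PW u → Pl PB (insert w PW) u := by
    intro u hu
    cases u with
    | inl x => exact hu
    | inr y =>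
      have hu' : y ∈ PW := hu
      exact Finset.mem_insert_of_mem hu'
  have hQ : ∀ x y, (x, y) ∈ (Q ∪ ((lastB s A :: (M ++ [(w₁, b₁)]).map Prod.snd).toFinset.image
      fun x => (x, w))) → (x, y) ∈ Q ∨ (y = w ∧ inl x ∈ con s (A ++ M ++ (w₁, b₁) :: C) ∧
        pos (inl (lastB s A)) ≤ pos (inl x) ∧ pos (inl x) ≤ pos (inl b₁)) := by
    intro x y h
    rcases Finset.mem_union.1 h with h | h
    · exact Or.inl h
    · right
      obtain ⟨x', hx', hxy⟩ := Finset.mem_image.1 h
      rw [Prod.mk.injEq] at hxy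
      obtain ⟨rfl, rfl⟩ := hxy
      have hx2 : inl x' ∈ con (lastB s A) (M ++ [(w₁, b₁)]) := by
        rw [List.mem_toFinset, List.mem_cons] at hx'
        rcases hx' with h | h
        · rw [h]
          exact head_mem _ _
        · obtain ⟨q, hq, hq'⟩ := List.mem_map.1 h
          rw [← hq']
          exact mem_black hq
      refine ⟨rfl, (hmem _).2 (Or.inr (Or.inl hx2)), ?_, ?_⟩
      · rcases head_le hs2 hx2 with h3 | h3
        · rw [h3]
        · exact h3.le
      · rcases last_ge hs2 hx2 with h3 | h3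
        · rw [h3, hlast]
        · rw [hlast] at h3
          exact h3.le
  have hQo : ∀ p, p ∈ Q → p ∈ (Q ∪ ((lastB s A :: (M ++ [(w₁, b₁)]).map Prod.snd).toFinset.image
      fun x => (x, w))) := fun p hp => Finset.mem_union_left _ hp
  have hQw : (b₁, w) ∈ (Q ∪ ((lastB s A :: (M ++ [(w₁, b₁)]).map Prod.snd).toFinset.image
      fun x => (x, w))) := by
    refine Finset.mem_union_right _ (Finset.mem_image.2 ⟨b₁, ?_, rfl⟩)
    rw [List.mem_toFinset]
    simp
  have hcw : cw OB w = 0 := by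
    unfold cw
    rw [Finset.filter_false_of_mem, Finset.card_empty]
    · rfl
    · intro p hp hpw
      refine hw ?_
      rw [← hpw]
      exact (I.Q_pl p.1 p.2 (I.OB_Q _ _ hp)).2
  refine ⟨X₁, X₂, X₃, Pos, N + TT lw (M ++ [(w₁, b₁)]), ?_⟩
  constructor
  case con_pl =>
    intro z hz
    by_cases h : z = inr w
    · rw [h]; exact hPw
    · exact hPo z (I.con_pl z (con_old S hz h).1)
  case sorted =>
    refine srt_append.2 ⟨srt_congr hs1 fun z hz => ?_, ?_⟩
    · exact Pos_lo S (con_ne S ((hmem z).2 (Or.inl hz))) (hA z hz)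
    · rw [con_cons, Srt, List.pairwise_cons, List.pairwise_cons]
      have e1 : Pos (inl (lastB s A)) = pos (inl (lastB s A)) := Pos_lo S (by simp) le_rfl
      have e2 : Pos (inr w) = pos (inr w₁) := S.Posw
      have e3 : ∀ z ∈ con b₁ C, Pos z = pos z := fun z hz =>
        Pos_hi S (con_ne S ((hmem z).2 (Or.inr (Or.inr hz)))) (hC z hz)
      refine ⟨fun z hz => ?_, fun z hz => ?_, srt_congr hs3 e3⟩
      · rw [e1]
        rcases List.mem_cons.1 hz with h | h
        · rw [h, e2]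
          exact hseg.h01
        · rw [e3 z h]
          exact lt_of_lt_of_le h02 (hC z h)
      · rw [e2, e3 z hz]
        exact lt_of_lt_of_le hseg.h12 (hC z hz)
  case Q_pl =>
    intro x y h
    rcases hQ x y h with h | ⟨rfl, h, _⟩
    · exact ⟨(I.Q_pl x y h).1, Finset.mem_insert_of_mem (I.Q_pl x y h).2⟩
    · exact ⟨I.con_pl _ h, Finset.mem_insert_self _ _⟩
  case OB_Q =>
    intro x y h
    exact hQo _ (I.OB_Q x y h)
  case OW_Q =>
    intro x y h
    rcases Finset.mem_insert.1 h with h | h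
    · rw [Prod.mk.injEq] at h
      rw [h.1, h.2]
      exact hQw
    · exact hQo _ (I.OW_Q x y h)
  case deg =>
    intro z hz
    rcases hP z hz with h | rfl
    · obtain ⟨p, hp, hp'⟩ := I.deg z h
      exact ⟨p, hQo p hp, hp'⟩
    · exact ⟨_, hQw, Or.inr rfl⟩
  case sum =>
    intro z hz
    rcases hP z hz with h | rfl
    · rw [S.X₁o z (ne_w S h), S.X₂o z (ne_w S h), S.X₃o z (ne_w S h)]
      have := I.sum z h
      omega
    · rw [S.X₁w, S.X₂w, S.X₃w]
      ring
  case nonneg =>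
    intro z hz
    rcases hP z hz with h | rfl
    · rw [S.X₁o z (ne_w S h), S.X₂o z (ne_w S h), S.X₃o z (ne_w S h)]
      obtain ⟨h1, h2, h3⟩ := I.nonneg z h
      have e1 : 0 ≤ d1 lw pos (M ++ [(w₁, b₁)]) (pos z) := by
        rcases le_or_gt (pos z) (pos (inl b₁)) with h' | h'
        · have := hseg.anti _ _ h'
          rw [hseg.right _ le_rfl] at this
          exact this
        · rw [hseg.right _ h'.le]
      have e2 : d1 lw pos (M ++ [(w₁, b₁)]) (pos z) ≤ TT lw (M ++ [(w₁, b₁)]) := by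
        rcases le_or_gt (pos (inl (lastB s A))) (pos z) with h' | h'
        · have := hseg.anti _ _ h'
          rw [hseg.left _ le_rfl] at this
          exact this
        · rw [hseg.left _ h'.le]
      exact ⟨by omega, by omega, h3⟩
    · rw [S.X₁w, S.X₂w]
      have := F1 S (bi_pl S) le_rfl h02.le
      exact ⟨(I.nonneg _ (bj_pl S)).1, (I.nonneg _ (bi_pl S)).2.1,
        (lt_of_le_of_lt (I.nonneg _ (bi_pl S)).2.2 this).le⟩
  case ends =>
    constructor
    · rw [S.X₁o _ (by simp), hseg.left _ (hA _ (head_mem _ _)), I.ends.1]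
    · intro A' w' t h
      rcases List.eq_nil_or_concat C with rfl | ⟨C', q, rfl⟩
      · have h' := List.append_inj' h (by simp)
        have ht : b₁ = t := (Prod.mk.inj (List.cons.inj h'.2).1).2
        subst ht
        rw [S.X₂o _ (by simp), hseg.right _ le_rfl, I.ends.2 (A ++ M) w₁ b₁ rfl]
        ring
      · have h2 : (A ++ (w, b₁) :: C') ++ [q] = A' ++ [(w', t)] := by
          rw [← h]; simp
        have h' := List.append_inj' h2 (by simp)
        have hq : q = (w', t) := by simpa using h'.2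
        subst hq
        have h3 : pos (inl b₁) ≤ pos (inl t) := hC _ (mem_black (q := (w', t)) (by simp))
        rw [S.X₂o _ (by simp), hseg.right _ h3,
          I.ends.2 (A ++ M ++ (w₁, b₁) :: C') w' t (by simp)]
        ring
  case exit =>
    intro u hu
    exact exit_new S (hP u hu)
  case black =>
    intro x hx u hu h
    exact black_new S hx (hP u hu) h
  case cmp₁ =>
    intro u hu z hz h
    exact cmp1_new S (hP u hu) hz h
  case cmp₂ =>
    intro u hu z hz h
    exact cmp2_new S (hP u hu) hz h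
  case left =>
    intro A' w' b' C' h
    rcases split3 h with ⟨rfl, rfl, rfl⟩ | ⟨c, rfl⟩ | ⟨a, rfl, rfl⟩
    · rw [S.X₂w, S.X₂o _ (by simp), hseg.left _ le_rfl, hcw]
      ring
    · have e := I.left A' w' b' (c ++ M ++ (w₁, b₁) :: C) (by simp)
      have m1 : inr w' ∈ con s (A' ++ (w', b') :: c) := mem_white (q := (w', b')) (by simp)
      have m2 : inl (lastB s A') ∈ con s (A' ++ (w', b') :: c) :=
        (mem_con_append _ _ _ _).2 (Or.inl (lastB_mem _ _))
      rw [S.X₂o _ (con_ne S ((hmem _).2 (Or.inl m1))), S.X₂o _ (by simp),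
        hseg.left _ (hA _ m1), hseg.left _ (hA _ m2), e]
      ring
    · have e := I.left (A ++ M ++ (w₁, b₁) :: a) w' b' C' (by simp)
      have e1 : lastB s (A ++ M ++ (w₁, b₁) :: a) = lastB b₁ a := by
        rw [lastB_append, lastB_cons]
      have e2 : lastB s (A ++ (w, b₁) :: a) = lastB b₁ a := by
        rw [lastB_append, lastB_cons]
      have m1 : inr w' ∈ con b₁ (a ++ (w', b') :: C') := mem_white (q := (w', b')) (by simp)
      have m2 : inl (lastB b₁ a) ∈ con b₁ (a ++ (w', b') :: C') :=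
        (mem_con_append _ _ _ _).2 (Or.inl (lastB_mem _ _))
      rw [e1] at e
      rw [e2, S.X₂o _ (con_ne S ((hmem _).2 (Or.inr (Or.inr m1)))), S.X₂o _ (by simp),
        hseg.right _ (hC _ m1), hseg.right _ (hC _ m2), e]
      ring
  case right =>
    intro A' w' b' C' h
    rcases split3 h with ⟨rfl, rfl, rfl⟩ | ⟨c, rfl⟩ | ⟨a, rfl, rfl⟩
    · exact right_w S
    · have e := I.right A' w' b' (c ++ M ++ (w₁, b₁) :: C) (by simp)
      have m1 : inr w' ∈ con s (A' ++ (w', b') :: c) := mem_white (q := (w', b')) (by simp)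
      have m2 : inl b' ∈ con s (A' ++ (w', b') :: c) := mem_black (q := (w', b')) (by simp)
      have n1 := con_ne S ((hmem _).2 (Or.inl m1))
      have n2 := con_ne S ((hmem _).2 (Or.inl m2))
      rw [S.X₁o _ n1, S.X₁o _ n2, S.X₃o _ n1, S.X₃o _ n2,
        hseg.left _ (hA _ m1), hseg.left _ (hA _ m2), e.1]
      exact ⟨rfl, e.2⟩
    · have e := I.right (A ++ M ++ (w₁, b₁) :: a) w' b' C' (by simp)
      have m1 : inr w' ∈ con b₁ (a ++ (w', b') :: C') := mem_white (q := (w', b')) (by simp)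
      have m2 : inl b' ∈ con b₁ (a ++ (w', b') :: C') := mem_black (q := (w', b')) (by simp)
      have n1 := con_ne S ((hmem _).2 (Or.inr (Or.inr m1)))
      have n2 := con_ne S ((hmem _).2 (Or.inr (Or.inr m2)))
      rw [S.X₁o _ n1, S.X₁o _ n2, S.X₃o _ n1, S.X₃o _ n2,
        hseg.right _ (hC _ m1), hseg.right _ (hC _ m2), e.1]
      exact ⟨rfl, e.2⟩
  case bary =>
    intro x y h z hz hzx hzy
    rcases hQ x y h with h | ⟨rfl, h1, h2, h3⟩
    · exact bary_old S h (hP z hz) hzx hzy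
    · rcases hP z hz with h | h
      · exact bary_new S h1 h2 h3 h hzx
      · exact absurd h hzy
  case low₃ =>
    intro x y h hy
    rcases hQ x y h with h | ⟨rfl, h1, h2, h3⟩
    · have hyw := inr_ne S h
      rw [S.X₃o _ hyw, S.X₃o _ (by simp)]
      exact I.low₃ x y h (con_old S hy hyw).1
    · have := F1 S (I.con_pl _ h1) h2 h3
      rw [S.X₃o _ (by simp), hcw]
      omega
  case lft =>
    intro x y h hx hlt
    refine lft_new S ?_ hx hlt
    rcases hQ x y h with h | ⟨rfl, _⟩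
    exacts [Or.inl h, Or.inr rfl]
  case rgt =>
    intro x y h hx hlt
    refine rgt_new S ?_ hx hlt
    rcases hQ x y h with h | ⟨rfl, _⟩
    exacts [Or.inl h, Or.inr rfl]
  case upw =>
    intro x y h
    rcases hQ x y h with h | ⟨rfl, h1, h2, h3⟩
    · exact upw_old S h
    · exact upw_new S h1 h2 h3
  case bound =>
    have hnd : ((A ++ ((M ++ [(w₁, b₁)]) ++ C)).map Prod.fst).Nodup := nodup_fst hsrt
    rw [List.map_append, List.map_append] at hnd
    have hd1 := (List.nodup_append.1 hnd)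
    have hd2 := List.nodup_append.1 hd1.2.1
    have hsub : (PW.filter fun y => y ∉ (A ++ M ++ (w₁, b₁) :: C).map Prod.fst) ∪
        ((M ++ [(w₁, b₁)]).map Prod.fst).toFinset ⊆
        (insert w PW).filter fun y => y ∉ (A ++ (w, b₁) :: C).map Prod.fst := by
      intro y hy
      rw [Finset.mem_filter]
      rcases Finset.mem_union.1 hy with h | h
      · rw [Finset.mem_filter] at h
        refine ⟨Finset.mem_insert_of_mem h.1, fun h' => h.2 ?_⟩
        rw [List.map_append, List.mem_append, List.map_cons, List.mem_cons] at h'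
        rw [List.map_append, List.map_append, List.mem_append, List.mem_append, List.map_cons,
          List.mem_cons]
        rcases h' with h' | h' | h'
        · exact Or.inl (Or.inl h')
        · exact absurd h.1 (h' ▸ hw)
        · exact Or.inr (Or.inr h')
      · rw [List.mem_toFinset] at h
        have hyP : y ∈ PW := by
          obtain ⟨q, hq, rfl⟩ := List.mem_map.1 h
          exact I.con_pl (inr q.1) ((hmem _).2 (Or.inr (Or.inl (mem_white hq))))
        refine ⟨Finset.mem_insert_of_mem hyP, fun h' => ?_⟩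
        rw [List.map_append, List.mem_append, List.map_cons, List.mem_cons] at h'
        rcases h' with h' | h' | h'
        · exact hd1.2.2 y h' y (List.mem_append_left _ h) rfl
        · have h'' : y = w := h'
          rw [h''] at hyP
          exact hw hyP
        · exact hd2.2.2 y h y h' rfl
    have hdisj : Disjoint (PW.filter fun y => y ∉ (A ++ M ++ (w₁, b₁) :: C).map Prod.fst)
        ((M ++ [(w₁, b₁)]).map Prod.fst).toFinset := by
      rw [Finset.disjoint_left]
      intro y h1 h2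
      rw [Finset.mem_filter] at h1
      rw [List.mem_toFinset] at h2
      apply h1.2
      rw [hL, List.map_append, List.mem_append, List.map_append, List.mem_append]
      exact Or.inr (Or.inl h2)
    have h1 := I.bound
    have h2 := Finset.sum_le_sum_of_subset_of_nonneg (f := fun y => lw y + 1) hsub
      (fun y _ _ => by have := hlw y; omega)
    rw [Finset.sum_union hdisj, ← TT_eq lw _ hd2.1] at h2
    omega

end Pool.Agent.T6.H90.SL
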