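import Pool.Agent.T6.H90.SL.Defs

set_option autoImplicit false

/-!
# Increments along a segment of the contour

Auxiliary file for the modules I2 and I3.
-/

namespace Pool.Agent.T6.H90.SL.ModI2

open Sum

variable {B W : Type}

/-! ### The contour -/

theorem con_nil (s : B) : con (W := W) s [] = [inl s] := rfl

theorem con_cons (s : B) (w : W) (b : B) (L : List (W × B)) :
    con s ((w, b) :: L) = inl s :: inr w :: con b L := rfl

theorem lastB_nil (s : B) : lastB (W := W) s [] = s := rfl

theorem lastB_cons (s : B) (w : W) (b : B) (L : List (W × B)) :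
    lastB s ((w, b) :: L) = lastB b L := by
  unfold lastB
  cases L with
  | nil => simp
  | cons q L => simp [List.getLast?_cons]

theorem lastB_append (s : B) (A L : List (W × B)) : lastB s (A ++ L) = lastB (lastB s A) L := by
  induction A generalizing s with
  | nil => rfl
  | cons q A ih =>
    obtain ⟨w, b⟩ := q
    rw [List.cons_append, lastB_cons, lastB_cons, ih]

theorem head_mem (s : B) (L : List (W × B)) : inl s ∈ con s L := by
  simp [con]

theorem lastB_mem (s : B) (A : List (W × B)) : inl (lastB s A) ∈ con s A := by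
  induction A generalizing s with
  | nil => simp [con_nil, lastB_nil]
  | cons q A ih =>
    obtain ⟨w, b⟩ := q
    rw [con_cons, lastB_cons]
    simp [ih]

theorem mem_con_append (s : B) (A L : List (W × B)) (z : B ⊕ W) :
    z ∈ con s (A ++ L) ↔ z ∈ con s A ∨ z ∈ con (lastB s A) L := by
  induction A generalizing s with
  | nil =>
    rw [List.nil_append, con_nil, lastB_nil]
    constructor
    · exact Or.inr
    · rintro (h | h)
      · simp only [List.mem_singleton] at h
        rw [h]
        exact head_mem s L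
      · exact h
  | cons q A ih =>
    obtain ⟨w, b⟩ := q
    rw [List.cons_append, con_cons, con_cons, lastB_cons, List.mem_cons, List.mem_cons,
      List.mem_cons, List.mem_cons, ih]
    tauto

/-- The contour is sorted. -/
def Srt (pos : B ⊕ W → ℚ) (l : List (B ⊕ W)) : Prop := l.Pairwise (fun z z' => pos z < pos z')

variable {pos : B ⊕ W → ℚ}

theorem head_le {s : B} {L : List (W × B)} (h : Srt pos (con s L)) {z : B ⊕ W}
    (hz : z ∈ con s L) : z = inl s ∨ pos (inl s) < pos z := by
  unfold con at h hz
  rw [Srt, List.pairwise_cons] at h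
  rcases List.mem_cons.1 hz with h' | h'
  · exact Or.inl h'
  · exact Or.inr (h.1 z h')

theorem last_ge {s : B} {A : List (W × B)} (h : Srt pos (con s A)) {z : B ⊕ W}
    (hz : z ∈ con s A) : z = inl (lastB s A) ∨ pos z < pos (inl (lastB s A)) := by
  induction A generalizing s with
  | nil =>
    rw [con_nil, List.mem_singleton] at hz
    exact Or.inl hz
  | cons q A ih =>
    obtain ⟨w, b⟩ := q
    rw [con_cons] at h hz
    rw [lastB_cons]
    rw [Srt, List.pairwise_cons, List.pairwise_cons] at h
    have hm : inl (lastB b A) ∈ con b A := lastB_mem b A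
    rcases List.mem_cons.1 hz with h' | h'
    · right
      rw [h']
      exact h.1 _ (List.mem_cons_of_mem _ hm)
    · rcases List.mem_cons.1 h' with h'' | h''
      · right
        rw [h'']
        exact h.2.1 _ hm
      · exact ih h.2.2 h''

theorem srt_append {s : B} {A L : List (W × B)} :
    Srt pos (con s (A ++ L)) ↔ Srt pos (con s A) ∧ Srt pos (con (lastB s A) L) := by
  induction A generalizing s with
  | nil =>
    rw [List.nil_append, con_nil, lastB_nil]
    simp [Srt]
  | cons q A ih =>
    obtain ⟨w, b⟩ := q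
    rw [List.cons_append, con_cons, con_cons, lastB_cons]
    unfold Srt at ih ⊢
    rw [List.pairwise_cons, List.pairwise_cons, List.pairwise_cons, List.pairwise_cons, ih]
    constructor
    · rintro ⟨h1, h2, h3, h4⟩
      refine ⟨⟨fun z hz => h1 z ?_, fun z hz => h2 z ?_, h3⟩, h4⟩
      · rcases List.mem_cons.1 hz with h | h
        · exact h ▸ List.mem_cons_self
        · exact List.mem_cons_of_mem _ ((mem_con_append _ _ _ _).2 (Or.inl h))
      · exact (mem_con_append _ _ _ _).2 (Or.inl hz)
    · rintro ⟨⟨h1, h2, h3⟩, h4⟩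
      have key : ∀ z ∈ con (lastB b A) L, pos (inl (lastB b A)) ≤ pos z := by
        intro z hz
        rcases head_le h4 hz with h | h
        · rw [h]
        · exact h.le
      have hm : inl (lastB b A) ∈ con b A := lastB_mem b A
      refine ⟨fun z hz => ?_, fun z hz => ?_, h3, h4⟩
      · rcases List.mem_cons.1 hz with h | h
        · exact h1 z (h ▸ List.mem_cons_self)
        · rcases (mem_con_append _ _ _ _).1 h with h | h
          · exact h1 z (List.mem_cons_of_mem _ h)
          · exact lt_of_lt_of_le (h1 _ (List.mem_cons_of_mem _ hm)) (key z h)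
      · rcases (mem_con_append _ _ _ _).1 hz with h | h
        · exact h2 z h
        · exact lt_of_lt_of_le (h2 _ hm) (key z h)

/-- Between two elements of the contour there is a white one. -/
theorem alt {s : B} {K : List (W × B)} (h : Srt pos (con s K)) {z z' : B ⊕ W}
    (hz : z ∈ con s K) (hz' : z' ∈ con s K) (hlt : pos z < pos z') :
    ∃ q ∈ K, pos z ≤ pos (inr q.1) ∧ pos (inr q.1) ≤ pos z' := by
  induction K generalizing s with
  | nil =>
    rw [con_nil, List.mem_singleton] at hz hz'
    rw [hz, hz'] at hlt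
    exact absurd hlt (lt_irrefl _)
  | cons q K ih =>
    obtain ⟨w, b⟩ := q
    rw [con_cons] at h hz hz'
    rw [Srt, List.pairwise_cons, List.pairwise_cons] at h
    obtain ⟨h1, h2, h3⟩ := h
    have hz'1 : z' ≠ inl s := by
      rintro rfl
      rcases List.mem_cons.1 hz with h | h
      · rw [h] at hlt
        exact lt_irrefl _ hlt
      · exact lt_asymm hlt (h1 z h)
    have hz'2 : z' ∈ inr w :: con b K := (List.mem_cons.1 hz').resolve_left hz'1
    have hw' : pos (inr w) ≤ pos z' := by
      rcases List.mem_cons.1 hz'2 with h | h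
      · rw [h]
      · exact (h2 z' h).le
    rcases List.mem_cons.1 hz with h | h
    · exact ⟨(w, b), List.mem_cons_self, by rw [h]; exact (h1 _ List.mem_cons_self).le, hw'⟩
    · rcases List.mem_cons.1 h with h | h
      · exact ⟨(w, b), List.mem_cons_self, by rw [h], hw'⟩
      · have hz'3 : z' ∈ con b K := by
          rcases List.mem_cons.1 hz'2 with h' | h'
          · exfalso
            rw [h'] at hlt
            exact lt_asymm hlt (h2 z h)
          · exact h'
        obtain ⟨q, hq, hq'⟩ := ih h3 h hz'3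
        exact ⟨q, List.mem_cons_of_mem _ hq, hq'⟩

theorem white_mem {s : B} {K : List (W × B)} {y : W} (h : inr y ∈ con s K) :
    ∃ b, (y, b) ∈ K := by
  induction K generalizing s with
  | nil =>
    rw [con_nil, List.mem_singleton] at h
    cases h
  | cons q K ih =>
    obtain ⟨w, b⟩ := q
    rw [con_cons] at h
    rcases List.mem_cons.1 h with h | h
    · cases h
    · rcases List.mem_cons.1 h with h | h
      · cases h
        exact ⟨b, List.mem_cons_self⟩
      · obtain ⟨b', hb'⟩ := ih h
        exact ⟨b', List.mem_cons_of_mem _ hb'⟩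

theorem mem_white {s : B} {K : List (W × B)} {q : W × B} (h : q ∈ K) :
    inr q.1 ∈ con s K := by
  unfold con
  refine List.mem_cons_of_mem _ (List.mem_flatMap.2 ⟨q, h, ?_⟩)
  simp

theorem mem_black {s : B} {K : List (W × B)} {q : W × B} (h : q ∈ K) :
    inl q.2 ∈ con s K := by
  unfold con
  refine List.mem_cons_of_mem _ (List.mem_flatMap.2 ⟨q, h, ?_⟩)
  simp

theorem black_split {s : B} {K : List (W × B)} {x : B} (h : inl x ∈ con s K) :
    x = s ∨ ∃ K₁ y K₂, K = K₁ ++ (y, x) :: K₂ := by
  unfold con at h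
  rcases List.mem_cons.1 h with h | h
  · exact Or.inl (Sum.inl_injective h)
  · right
    obtain ⟨q, hq, hx⟩ := List.mem_flatMap.1 h
    obtain ⟨y, b⟩ := q
    have hb : x = b := by simpa using hx
    subst hb
    obtain ⟨K₁, K₂, hK⟩ := List.append_of_mem hq
    exact ⟨K₁, y, K₂, hK⟩

/-! ### The increments -/

/-- The increment of the first coordinate at the position `p`. -/
def d1 (lw : W → ℤ) (pos : B ⊕ W → ℚ) (K : List (W × B)) (p : ℚ) : ℤ :=
  (K.map fun q => if pos (inr q.1) < p then 0 else if pos (inr q.1) = p then 1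
    else lw q.1 + 1).sum

/-- The increment of the sum of the coordinates. -/
def TT (lw : W → ℤ) (K : List (W × B)) : ℤ := (K.map fun q => lw q.1 + 1).sum

variable {lw : W → ℤ}

theorem d1_anti (hlw : ∀ y, 1 ≤ lw y) (K : List (W × B)) {p p' : ℚ} (h : p ≤ p') :
    d1 lw pos K p' ≤ d1 lw pos K p := by
  refine List.sum_le_sum fun q _ => ?_
  have := hlw q.1
  split_ifs <;> first | omega | (exfalso; linarith) | skip
  all_goals
    exfalso
    first
    | linarith
    | (rename_i h1 h2 h3 h4
       rcases lt_trichotomy (pos (inr q.1)) p with h5 | h5 | h5 <;>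
       rcases lt_trichotomy (pos (inr q.1)) p' with h6 | h6 | h6 <;> first | linarith | tauto)

theorem d1_strict (hlw : ∀ y, 1 ≤ lw y) {K : List (W × B)} {p p' : ℚ} (h : p < p')
    {q : W × B} (hq : q ∈ K) (h1 : p ≤ pos (inr q.1)) (h2 : pos (inr q.1) ≤ p') :
    d1 lw pos K p' < d1 lw pos K p := by
  induction K with
  | nil => cases hq
  | cons r K ih =>
    have hrest : d1 lw pos K p' ≤ d1 lw pos K p := d1_anti hlw K h.le
    have hone : d1 lw pos [r] p' ≤ d1 lw pos [r] p := d1_anti hlw [r] h.le
    have e : ∀ t, d1 lw pos (r :: K) t = d1 lw pos [r] t + d1 lw pos K t := by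
      intro t
      simp [d1]
    rw [e, e]
    rcases List.mem_cons.1 hq with h' | h'
    · have : d1 lw pos [r] p' < d1 lw pos [r] p := by
        rw [← h']
        have := hlw q.1
        simp only [d1, List.map_cons, List.map_nil, List.sum_cons, List.sum_nil, add_zero]
        rw [if_neg (not_lt.2 h1)]
        rcases h2.lt_or_eq with h3 | h3
        · rw [if_pos h3]
          split_ifs <;> omega
        · rw [if_neg (not_lt.2 h3.ge), if_pos h3, if_neg (by rw [h3]; exact h.ne')]
          omega
      omega
    · have := ih h'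
      omega

theorem d1_white (hlw : ∀ y, 1 ≤ lw y) {K : List (W × B)} {p : ℚ}
    {q : W × B} (hq : q ∈ K) (h1 : p < pos (inr q.1)) :
    d1 lw pos K (pos (inr q.1)) + lw q.1 ≤ d1 lw pos K p := by
  induction K with
  | nil => cases hq
  | cons r K ih =>
    have hrest : d1 lw pos K (pos (inr q.1)) ≤ d1 lw pos K p := d1_anti hlw K h1.le
    have hone : d1 lw pos [r] (pos (inr q.1)) ≤ d1 lw pos [r] p := d1_anti hlw [r] h1.le
    have e : ∀ t, d1 lw pos (r :: K) t = d1 lw pos [r] t + d1 lw pos K t := by
      intro t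
      simp [d1]
    rw [e, e]
    rcases List.mem_cons.1 hq with h' | h'
    · have : d1 lw pos [r] (pos (inr q.1)) + lw q.1 ≤ d1 lw pos [r] p := by
        rw [← h']
        simp only [d1, List.map_cons, List.map_nil, List.sum_cons, List.sum_nil, add_zero]
        rw [if_neg (lt_irrefl _), if_pos trivial, if_neg (not_lt.2 h1.le), if_neg h1.ne']
        omega
      omega
    · have := ih h'
      omega

theorem d1_append (K K' : List (W × B)) (p : ℚ) :
    d1 lw pos (K ++ K') p = d1 lw pos K p + d1 lw pos K' p := by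
  simp [d1]

theorem d1_cons (q : W × B) (K : List (W × B)) (p : ℚ) :
    d1 lw pos (q :: K) p = d1 lw pos [q] p + d1 lw pos K p := by
  simp [d1]

theorem d1_left {K : List (W × B)} {p : ℚ} (h : ∀ q ∈ K, p < pos (inr q.1)) :
    d1 lw pos K p = TT lw K := by
  unfold d1 TT
  congr 1
  refine List.map_congr_left fun q hq => ?_
  have := h q hq
  rw [if_neg (not_lt.2 this.le), if_neg this.ne']

theorem d1_right {K : List (W × B)} {p : ℚ} (h : ∀ q ∈ K, pos (inr q.1) < p) :
    d1 lw pos K p = 0 := by
  unfold d1
  refine List.sum_eq_zero fun x hx => ?_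
  obtain ⟨q, hq, rfl⟩ := List.mem_map.1 hx
  rw [if_pos (h q hq)]

theorem d1_step {K₁ K₂ : List (W × B)} {y : W} {x : B} {p : ℚ}
    (h1 : ∀ q ∈ K₁, pos (inr q.1) < pos (inr y)) (h : pos (inr y) < p)
    (h2 : ∀ q ∈ K₂, p < pos (inr q.1)) :
    d1 lw pos (K₁ ++ (y, x) :: K₂) (pos (inr y)) = d1 lw pos (K₁ ++ (y, x) :: K₂) p + 1 := by
  rw [d1_append, d1_append, d1_cons, d1_cons _ _ p, d1_right h1,
    d1_right (fun q hq => (h1 q hq).trans h), d1_left (fun q hq => h.trans (h2 q hq)), d1_left h2]
  simp only [d1, List.map_cons, List.map_nil, List.sum_cons, List.sum_nil, add_zero]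
  rw [if_neg (lt_irrefl _), if_pos trivial, if_pos h]
  ring

/-- A segment of the contour and the increments. -/
structure Seg (Cn : B ⊕ W → Prop) (pos : B ⊕ W → ℚ) (lw : W → ℤ) (bi bj : B) (w₁ : W)
    (d : ℚ → ℤ) (T : ℤ) : Prop where
  bi_mem : Cn (inl bi)
  bj_mem : Cn (inl bj)
  w_mem : Cn (inr w₁)
  h01 : pos (inl bi) < pos (inr w₁)
  h12 : pos (inr w₁) < pos (inl bj)
  gap : ∀ z, Cn z → pos (inr w₁) < pos z → pos (inl bj) ≤ pos z
  T_pos : 0 < T
  anti : ∀ p q, p ≤ q → d q ≤ d p
  strict : ∀ z z', Cn z → Cn z' → pos (inl bi) ≤ pos z → pos z < pos z' →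
    pos z' ≤ pos (inl bj) → d (pos z') < d (pos z)
  left : ∀ p, p ≤ pos (inl bi) → d p = T
  right : ∀ p, pos (inl bj) ≤ p → d p = 0
  white : ∀ y p, Cn (inr y) → pos (inl bi) < pos (inr y) → pos (inr y) < pos (inl bj) →
    p < pos (inr y) → d (pos (inr y)) + lw y ≤ d p
  black : ∀ x, Cn (inl x) → pos (inl bi) < pos (inl x) → pos (inl x) ≤ pos (inl bj) →
    ∃ y, Cn (inr y) ∧ pos (inl bi) < pos (inr y) ∧ pos (inr y) < pos (inl x) ∧
      (∀ z, Cn z → pos z < pos (inl x) → pos z ≤ pos (inr y)) ∧
      d (pos (inr y)) = d (pos (inl x)) + 1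

theorem seg (hlw : ∀ y, 1 ≤ lw y) (s : B) (A M C : List (W × B)) (w₁ : W) (b₁ : B)
    (h : Srt pos (con s (A ++ M ++ (w₁, b₁) :: C))) :
    Seg (fun z => z ∈ con s (A ++ M ++ (w₁, b₁) :: C)) pos lw (lastB s A) b₁ w₁
      (d1 lw pos (M ++ [(w₁, b₁)])) (TT lw (M ++ [(w₁, b₁)])) := by
  have hL : A ++ M ++ (w₁, b₁) :: C = A ++ ((M ++ [(w₁, b₁)]) ++ C) := by simp
  rw [hL] at h ⊢
  have hlast : lastB (lastB s A) (M ++ [(w₁, b₁)]) = b₁ := by
    rw [lastB_append]; rfl
  have hmem : ∀ z, z ∈ con s (A ++ ((M ++ [(w₁, b₁)]) ++ C)) ↔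
      z ∈ con s A ∨ z ∈ con (lastB s A) (M ++ [(w₁, b₁)]) ∨ z ∈ con b₁ C := by
    intro z
    rw [mem_con_append, mem_con_append, hlast]
  have hs1 := (srt_append.1 h).1
  have hs2 := (srt_append.1 (srt_append.1 h).2).1
  have hs3 := (srt_append.1 (srt_append.1 h).2).2
  rw [hlast] at hs3
  generalize hbi : lastB s A = bi at *
  have hsM := (srt_append.1 hs2).1
  have hsW := (srt_append.1 hs2).2
  rw [con_cons, con_nil, Srt, List.pairwise_cons, List.pairwise_cons] at hsW
  have hmw : pos (inl (lastB bi M)) < pos (inr w₁) := hsW.1 _ (by simp)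
  have hwb : pos (inr w₁) < pos (inl b₁) := hsW.2.1 _ (by simp)
  have hM : ∀ z ∈ con bi M, pos z < pos (inr w₁) := by
    intro z hz
    rcases last_ge hsM hz with h' | h'
    · rw [h']; exact hmw
    · exact h'.trans hmw
  have hK : ∀ z ∈ con bi (M ++ [(w₁, b₁)]), z ∈ con bi M ∨ z = inr w₁ ∨ z = inl b₁ := by
    intro z hz
    rcases (mem_con_append _ _ _ _).1 hz with h' | h'
    · exact Or.inl h'
    · rw [con_cons, con_nil] at h'
      rcases List.mem_cons.1 h' with h' | h'
      · left
        rw [h']
        exact lastB_mem _ _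
      · right
        simpa using h'
  have hA : ∀ z ∈ con s A, z = inl bi ∨ pos z < pos (inl bi) := by
    intro z hz
    rw [← hbi]
    exact last_ge hs1 hz
  have hC : ∀ z ∈ con b₁ C, z = inl b₁ ∨ pos (inl b₁) < pos z := fun z hz => head_le hs3 hz
  have hKw : ∀ q ∈ M ++ [(w₁, b₁)], pos (inl bi) < pos (inr q.1) ∧ pos (inr q.1) < pos (inl b₁) := by
    intro q hq
    have h1 : inr q.1 ∈ con bi (M ++ [(w₁, b₁)]) := mem_white hq
    constructor
    · rcases head_le hs2 h1 with h' | h'
      · cases h'
      · exact h'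
    · rcases hK _ h1 with h' | h' | h'
      · exact (hM _ h').trans hwb
      · rw [h']; exact hwb
      · cases h'
  have hin : ∀ z, (z ∈ con s A ∨ z ∈ con bi (M ++ [(w₁, b₁)]) ∨ z ∈ con b₁ C) →
      pos (inl bi) ≤ pos z → pos z ≤ pos (inl b₁) → z ∈ con bi (M ++ [(w₁, b₁)]) := by
    intro z hz h1 h2
    rcases hz with h' | h' | h'
    · rcases hA z h' with h3 | h3
      · rw [h3]; exact head_mem _ _
      · exact absurd h3 (not_lt.2 h1)
    · exact h'
    · rcases hC z h' with h3 | h3
      · rw [h3]
        exact mem_black (q := (w₁, b₁)) (by simp)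
      · exact absurd h3 (not_lt.2 h2)
  constructor
  · exact (hmem _).2 (Or.inr (Or.inl (head_mem _ _)))
  · exact (hmem _).2 (Or.inr (Or.inl (mem_black (q := (w₁, b₁)) (by simp))))
  · exact (hmem _).2 (Or.inr (Or.inl (mem_white (q := (w₁, b₁)) (by simp))))
  · exact (hKw (w₁, b₁) (by simp)).1
  · exact hwb
  · intro z hz h1
    rcases (hmem z).1 hz with h' | h' | h'
    · exfalso
      have h01 := (hKw (w₁, b₁) (by simp)).1
      rcases hA z h' with h3 | h3
      · rw [h3] at h1
        exact lt_asymm h1 h01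
      · exact lt_asymm (h3.trans h01) h1
    · rcases hK z h' with h3 | h3 | h3
      · exact absurd h1 (not_lt.2 (hM z h3).le)
      · rw [h3] at h1
        exact absurd h1 (lt_irrefl _)
      · rw [h3]
    · rcases hC z h' with h3 | h3
      · rw [h3]
      · exact h3.le
  · unfold TT
    rw [List.map_append, List.sum_append]
    have h1 : 0 ≤ (M.map fun q => lw q.1 + 1).sum := by
      refine List.sum_nonneg fun x hx => ?_
      obtain ⟨q, _, rfl⟩ := List.mem_map.1 hx
      have := hlw q.1
      omega
    have h2 := hlw w₁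
    simp only [List.map_cons, List.map_nil, List.sum_cons, List.sum_nil, add_zero]
    omega
  · intro p q hpq
    exact d1_anti hlw _ hpq
  · intro z z' hz hz' h1 h2 h3
    have hz1 := hin z ((hmem z).1 hz) h1 (h2.le.trans h3)
    have hz2 := hin z' ((hmem z').1 hz') (h1.trans h2.le) h3
    obtain ⟨q, hq, hq1, hq2⟩ := alt hs2 hz1 hz2 h2
    exact d1_strict hlw h2 hq hq1 hq2
  · intro p hp
    exact d1_left fun q hq => lt_of_le_of_lt hp (hKw q hq).1
  · intro p hp
    exact d1_right fun q hq => lt_of_lt_of_le (hKw q hq).2 hp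
  · intro y p hy h1 h2 h3
    have hz1 := hin (inr y) ((hmem _).1 hy) h1.le h2.le
    obtain ⟨b, hb⟩ := white_mem hz1
    exact d1_white (q := (y, b)) hlw hb h3
  · intro x hx h1 h2
    have hz1 := hin (inl x) ((hmem _).1 hx) h1.le h2
    rcases black_split hz1 with h' | ⟨K₁, y, K₂, hK'⟩
    · rw [h'] at h1
      exact absurd h1 (lt_irrefl _)
    · have hyK : (y, x) ∈ M ++ [(w₁, b₁)] := by rw [hK']; simp
      refine ⟨y, (hmem _).2 (Or.inr (Or.inl (mem_white hyK))), (hKw _ hyK).1, ?_⟩
      have hs2' := hs2
      rw [hK', show K₁ ++ (y, x) :: K₂ = K₁ ++ ([(y, x)] ++ K₂) by simp] at hs2'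
      have t1 := (srt_append.1 hs2').1
      have t2 := (srt_append.1 (srt_append.1 hs2').2).1
      have t3 := (srt_append.1 (srt_append.1 hs2').2).2
      have hl : lastB (lastB bi K₁) [(y, x)] = x := rfl
      rw [hl] at t3
      rw [con_cons, con_nil, Srt, List.pairwise_cons, List.pairwise_cons] at t2
      have u1 : pos (inl (lastB bi K₁)) < pos (inr y) := t2.1 _ (by simp)
      have u2 : pos (inr y) < pos (inl x) := t2.2.1 _ (by simp)
      have v1 : ∀ z ∈ con bi K₁, pos z < pos (inr y) := by
        intro z hz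
        rcases last_ge t1 hz with h' | h'
        · rw [h']; exact u1
        · exact h'.trans u1
      have v2 : ∀ z ∈ con x K₂, pos (inl x) ≤ pos z := by
        intro z hz
        rcases head_le t3 hz with h' | h'
        · rw [h']
        · exact h'.le
      refine ⟨u2, ?_, ?_⟩
      · intro z hz hzx
        have hbiy : pos (inl bi) < pos (inr y) := (hKw _ hyK).1
        rcases (hmem z).1 hz with h' | h' | h'
        · rcases hA z h' with h3 | h3
          · rw [h3]; exact hbiy.le
          · exact (h3.trans hbiy).le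
        · rw [hK', show K₁ ++ (y, x) :: K₂ = K₁ ++ ([(y, x)] ++ K₂) by simp] at h'
          rcases (mem_con_append _ _ _ _).1 h' with h'' | h''
          · exact (v1 z h'').le
          · rcases (mem_con_append _ _ _ _).1 h'' with h3 | h3
            · rw [con_cons, con_nil] at h3
              simp only [List.mem_cons, List.not_mem_nil, or_false] at h3
              rcases h3 with h3 | h3 | h3
              · rw [h3]; exact u1.le
              · rw [h3]
              · rw [h3] at hzx
                exact absurd hzx (lt_irrefl _)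
            · rw [hl] at h3
              exact absurd hzx (not_lt.2 (v2 z h3))
        · rcases hC z h' with h3 | h3
          · rw [h3] at hzx
            exact absurd hzx (not_lt.2 h2)
          · exact absurd (h3.trans hzx) (not_lt.2 h2)
      · rw [hK']
        refine d1_step (fun q hq => v1 _ (mem_white hq)) u2 (fun q hq => ?_)
        rcases head_le t3 (mem_white hq) with h' | h'
        · cases h'
        · exact h'

end Pool.Agent.T6.H90.SL.ModI2
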